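import Pool.Agent.H38.RT.Sy

/-!
ROW Sy (project MP_78d38b_T7, about 230 lines): signs of the trace form Tr(c x^2) over an arbitrary
number field (generalisation of `Pool/Agent/H38/RT/Sy.lean`, copy it and change the parts named below).

PROOF. `Sy_basis` of that file (it does not need totally real) gives the orthogonal basis `f`, `n =
finrank`. Let `W` be the real embeddings (`K →+* ℝ`, number `r1`), `C` the complex places
(`{w : InfinitePlace K // w.IsComplex}`, number `r2`), `τ_w = w.embedding : K →+* ℂ`, `n = r1 + 2 r2`.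
(1) Trace: `Tr x = ∑ w : W, w x + 2 ∑ w : C, Re (τ_w x)` (`trace_eq_sum_embeddings` over `ℂ`; an embedding
`K →+* ℂ` is real, i.e. comes from `K →+* ℝ` (`ComplexEmbedding.IsReal.embedding`), or it is the embedding
of a complex place or its conjugate; see `InfinitePlace.mkComplex`, `card_mkComplex..`,
`InfinitePlace.card_complex_embeddings`, `NumberField.mixedEmbedding`).
(2) For real numbers `t_i` put `X_w = ∑ t_i w (f_i)`, `Z_w = ∑ t_i τ_w (f_i)`. By orthogonality
`∑_W (w c) X_w^2 + 2 ∑_C Re (τ_w(c) Z_w^2) = ∑ t_i^2 Tr (c f_i^2)` (as `Sy_form`: expand the squares).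
(3) `Sy_le7`: `#{i : Tr (c f_i^2) > 0} ≤ #{w ∈ W : w c > 0} + r2`. As in `Sy_le`: let `S = {i : Tr(c f_i^2) > 0}`
and choose `s_w : ℂ` with `s_w^2 = τ_w c` (`IsAlgClosed.exists_pow_nat_eq` / `Complex.cpow`). The linear map
`(S → ℝ) → ({w // w c > 0} → ℝ) × (C → ℝ)`, `t ↦ ((X_w)_w, (Re (s_w Z_w))_w)` is injective: if it vanishes
then `s_w Z_w` is purely imaginary, so `τ_w(c) Z_w^2 = (s_w Z_w)^2` is a real number `≤ 0`, and `(w c) X_w^2 ≤ 0`
for all `w ∈ W`; hence `∑ t_i^2 Tr (c f_i^2) ≤ 0` and `t = 0` as all terms are `≥ 0`, positive for `i ∈ S`.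
(4) Apply (3) to `c` and `-c`: `p ≤ p' + r2`, `n - p ≤ (r1 - p') + r2` and `n = r1 + 2 r2`: equality holds in
both. With `Sy_prod` (same file) the two products are `e(1/8)^(p' + r2) e(-1/8)^(r1 - p' + r2)` and
`e(1/8)^p' e(-1/8)^(r1 - p')`; they agree as `e(1/8) e(-1/8) = 1`.
-/

set_option autoImplicit false
open scoped Classical

open NumberField H38RT

namespace H88T7

lemma Sy7_trace (K : Type) [Field K] [NumberField K] (x : K) :
    (((Algebra.trace ℚ K x : ℚ) : ℝ) : ℂ) = ∑ φ : K →+* ℂ, φ x := by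
  have h := trace_eq_sum_embeddings (K := ℚ) (L := K) ℂ (x := x)
  rw [← (RingHom.equivRatAlgHom (R := K) (S := ℂ)).sum_comp] at h
  have h2 : ∀ φ : K →+* ℂ, (RingHom.equivRatAlgHom (R := K) (S := ℂ)) φ x = φ x := fun _ => rfl
  rw [Finset.sum_congr rfl fun φ _ => h2 φ] at h
  rw [← h]
  simp

lemma Sy7_form {K : Type} [Field K] [NumberField K] {c : K} {f : Fin (Module.finrank ℚ K) → K}
    (hf : ∀ i j, i ≠ j → Algebra.trace ℚ K (c * f i * f j) = 0)
    (t : Fin (Module.finrank ℚ K) → ℝ) :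
    ∑ φ : K →+* ℂ, φ c * (∑ i, (t i : ℂ) * φ (f i)) ^ 2 =
      ((∑ i, t i ^ 2 * ((Algebra.trace ℚ K (c * f i ^ 2) : ℚ) : ℝ) : ℝ) : ℂ) := by
  have h1 : ∀ φ : K →+* ℂ, φ c * (∑ i, (t i : ℂ) * φ (f i)) ^ 2 =
      ∑ i, ∑ j, (t i : ℂ) * (t j : ℂ) * φ (c * f i * f j) := by
    intro φ
    rw [sq, Finset.sum_mul_sum, Finset.mul_sum]
    refine Finset.sum_congr rfl fun i _ => ?_
    rw [Finset.mul_sum]
    refine Finset.sum_congr rfl fun j _ => ?_
    rw [map_mul, map_mul]
    ring
  rw [Finset.sum_congr rfl fun φ _ => h1 φ, Finset.sum_comm, Complex.ofReal_sum]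
  refine Finset.sum_congr rfl fun i _ => ?_
  rw [Finset.sum_comm, Finset.sum_eq_single i]
  · rw [Complex.ofReal_mul, Sy7_trace, Finset.mul_sum]
    refine Finset.sum_congr rfl fun φ _ => ?_
    rw [show c * f i * f i = c * f i ^ 2 by ring]
    push_cast
    ring
  · intro j _ hj
    rw [← Finset.mul_sum, ← Sy7_trace, hf i j hj.symm]
    simp
  · intro h
    exact absurd (Finset.mem_univ i) h

/-- the real part of a term is nonpositive -/
lemma Sy7_term {K : Type} [Field K] [NumberField K] {c : K} {f : Fin (Module.finrank ℚ K) → K}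
    (T : Fin (Module.finrank ℚ K) → ℝ) (s : {v : InfinitePlace K // v.IsComplex} → ℂ)
    (hs : ∀ v, s v ^ 2 = v.1.embedding c)
    (h1 : ∀ w : K →+* ℝ, 0 < w c → ∑ i, T i * w (f i) = 0)
    (h2 : ∀ v : {v : InfinitePlace K // v.IsComplex},
      (s v * ∑ i, (T i : ℂ) * v.1.embedding (f i)).re = 0) (φ : K →+* ℂ) :
    (φ c * (∑ i, (T i : ℂ) * φ (f i)) ^ 2).re ≤ 0 := by
  by_cases hφ : ComplexEmbedding.IsReal φ
  · have e : ∀ x, φ x = ((hφ.embedding x : ℝ) : ℂ) := fun x => (hφ.coe_embedding_apply x).symm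
    have e2 : φ c * (∑ i, (T i : ℂ) * φ (f i)) ^ 2 =
        ((hφ.embedding c * (∑ i, T i * hφ.embedding (f i)) ^ 2 : ℝ) : ℂ) := by
      rw [e c]
      push_cast
      rw [Finset.sum_congr rfl fun i _ => by rw [e (f i)]]
    rw [e2, Complex.ofReal_re]
    by_cases hw : 0 < hφ.embedding c
    · rw [h1 _ hw]
      simp
    · exact mul_nonpos_of_nonpos_of_nonneg (not_lt.1 hw) (sq_nonneg _)
  · have hv : (InfinitePlace.mk φ).IsComplex := ⟨φ, hφ, rfl⟩
    set v : {v : InfinitePlace K // v.IsComplex} := ⟨InfinitePlace.mk φ, hv⟩ with hvdef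
    have key : (v.1.embedding c * (∑ i, (T i : ℂ) * v.1.embedding (f i)) ^ 2).re ≤ 0 := by
      rw [← hs v, ← mul_pow, sq, Complex.mul_re, h2 v]
      nlinarith [mul_self_nonneg (s v * ∑ i, (T i : ℂ) * v.1.embedding (f i)).im]
    rcases InfinitePlace.embedding_mk_eq φ with h | h
    · have h' : v.1.embedding = φ := h
      rw [h'] at key
      exact key
    · have h' : v.1.embedding = ComplexEmbedding.conjugate φ := h
      rw [h'] at key
      have e : ComplexEmbedding.conjugate φ c *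
          (∑ i, (T i : ℂ) * ComplexEmbedding.conjugate φ (f i)) ^ 2 =
          (starRingEnd ℂ) (φ c * (∑ i, (T i : ℂ) * φ (f i)) ^ 2) := by
        have e1 : ∑ i, (T i : ℂ) * ComplexEmbedding.conjugate φ (f i) =
            (starRingEnd ℂ) (∑ i, (T i : ℂ) * φ (f i)) := by
          rw [map_sum]
          refine Finset.sum_congr rfl fun i _ => ?_
          rw [map_mul, Complex.conj_ofReal]
          rfl
        rw [e1, ComplexEmbedding.conjugate_coe_eq, ← map_pow, ← map_mul]
      rw [e, Complex.conj_re] at key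
      exact key

lemma Sy7_le {K : Type} [Field K] [NumberField K] {c : K} {f : Fin (Module.finrank ℚ K) → K}
    (hf : ∀ i j, i ≠ j → Algebra.trace ℚ K (c * f i * f j) = 0) :
    Fintype.card {i // 0 < ((Algebra.trace ℚ K (c * f i ^ 2) : ℚ) : ℝ)} ≤
      Fintype.card {w : K →+* ℝ // 0 < w c} + InfinitePlace.nrComplexPlaces K := by
  have hs0 : ∀ v : {v : InfinitePlace K // v.IsComplex}, ∃ s : ℂ, s ^ 2 = v.1.embedding c := fun v =>
    IsAlgClosed.exists_pow_nat_eq _ (by norm_num)
  choose s hs using hs0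
  set S := {i // 0 < ((Algebra.trace ℚ K (c * f i ^ 2) : ℚ) : ℝ)}
  set W := {w : K →+* ℝ // 0 < w c}
  let Φ : (S → ℝ) →ₗ[ℝ] ((W → ℝ) × ({v : InfinitePlace K // v.IsComplex} → ℝ)) :=
    { toFun := fun t => (fun w => ∑ i : S, t i * w.1 (f i.1),
        fun v => (s v * ∑ i : S, (t i : ℂ) * v.1.embedding (f i.1)).re)
      map_add' := by
        intro t t'
        refine Prod.ext ?_ ?_
        · funext w
          simp only [Pi.add_apply, Prod.fst_add, add_mul, Finset.sum_add_distrib]
        · funext v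
          simp only [Pi.add_apply, Prod.snd_add, Complex.ofReal_add, add_mul, Finset.sum_add_distrib,
            mul_add, Complex.add_re]
      map_smul' := by
        intro r t
        refine Prod.ext ?_ ?_
        · funext w
          simp only [Pi.smul_apply, Prod.smul_fst, smul_eq_mul, RingHom.id_apply, Finset.mul_sum, mul_assoc]
        · funext v
          have : s v * ∑ i : S, (((r • t) i : ℝ) : ℂ) * v.1.embedding (f i.1)
              = (r : ℂ) * (s v * ∑ i : S, (t i : ℂ) * v.1.embedding (f i.1)) := by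
            rw [Finset.mul_sum, Finset.mul_sum, Finset.mul_sum]
            refine Finset.sum_congr rfl fun i _ => ?_
            rw [Pi.smul_apply, smul_eq_mul, Complex.ofReal_mul]
            ring
          simp only [Pi.smul_apply, Prod.smul_snd, smul_eq_mul, RingHom.id_apply] at this ⊢
          rw [this, Complex.re_ofReal_mul] }
  have hΦ : Function.Injective Φ := by
    rw [← LinearMap.ker_eq_bot, LinearMap.ker_eq_bot']
    intro t ht
    -- extend by zero
    let T : Fin (Module.finrank ℚ K) → ℝ := fun i =>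
      if h : 0 < ((Algebra.trace ℚ K (c * f i ^ 2) : ℚ) : ℝ) then t ⟨i, h⟩ else 0
    have hTS : ∀ i : S, T i.1 = t i := by
      intro i
      exact dif_pos i.2
    have hTn : ∀ i, ¬ 0 < ((Algebra.trace ℚ K (c * f i ^ 2) : ℚ) : ℝ) → T i = 0 := by
      intro i hi
      exact dif_neg hi
    have hTg : ∀ {M : Type} [AddCommMonoid M] (G : Fin (Module.finrank ℚ K) → ℝ → M), (∀ i, G i 0 = 0) →
        ∑ i, G i (T i) = ∑ i : S, G i.1 (t i) := by
      intro M _ G hG
      have h1 : ∑ i : S, G i.1 (t i) = ∑ i : S, G i.1 (T i.1) := by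
        refine Finset.sum_congr rfl fun i _ => ?_
        rw [hTS]
      have h2 : ∑ i : S, G i.1 (T i.1) = ∑ i ∈ Finset.univ.filter
          (fun i => 0 < ((Algebra.trace ℚ K (c * f i ^ 2) : ℚ) : ℝ)), G i (T i) :=
        (Finset.sum_subtype (Finset.univ.filter
          (fun i => 0 < ((Algebra.trace ℚ K (c * f i ^ 2) : ℚ) : ℝ)))
          (p := fun i => 0 < ((Algebra.trace ℚ K (c * f i ^ 2) : ℚ) : ℝ))
          (fun x => by simp only [Finset.mem_filter, Finset.mem_univ, true_and])
          (fun i => G i (T i))).symm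
      rw [h1, h2, Finset.sum_filter_of_ne]
      intro i _ hi
      by_contra hn
      exact hi (by rw [hTn i hn, hG])
    have hw : ∀ w : K →+* ℝ, 0 < w c → ∑ i, T i * w (f i) = 0 := by
      intro w hwc
      rw [hTg (fun i r => r * w (f i)) (fun i => zero_mul _)]
      exact congrFun (congrArg Prod.fst ht) ⟨w, hwc⟩
    have hv : ∀ v : {v : InfinitePlace K // v.IsComplex}, (s v * ∑ i, (T i : ℂ) * v.1.embedding (f i)).re = 0 := by
      intro v
      rw [hTg (fun i r => ((r : ℝ) : ℂ) * v.1.embedding (f i)) (fun i => by simp)]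
      exact congrFun (congrArg Prod.snd ht) v
    have hle : ∑ i, T i ^ 2 * ((Algebra.trace ℚ K (c * f i ^ 2) : ℚ) : ℝ) ≤ 0 := by
      have h1 := congrArg Complex.re (Sy7_form hf T)
      rw [Complex.ofReal_re, Complex.re_sum] at h1
      rw [← h1]
      exact Finset.sum_nonpos fun φ _ => Sy7_term T s hs hw hv φ
    have hnn : ∀ i ∈ (Finset.univ : Finset (Fin (Module.finrank ℚ K))),
        0 ≤ T i ^ 2 * ((Algebra.trace ℚ K (c * f i ^ 2) : ℚ) : ℝ) := by
      intro i _
      by_cases hi : 0 < ((Algebra.trace ℚ K (c * f i ^ 2) : ℚ) : ℝ)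
      · positivity
      · rw [hTn i hi]
        simp
    have hz := (Finset.sum_eq_zero_iff_of_nonneg hnn).1 (le_antisymm hle (Finset.sum_nonneg hnn))
    funext i
    have hzi := hz i.1 (Finset.mem_univ _)
    have h0 : T i.1 ^ 2 = 0 := by
      rcases mul_eq_zero.1 hzi with h | h
      · exact h
      · exact absurd h i.2.ne'
    have h0' : T i.1 = 0 := pow_eq_zero_iff (two_ne_zero) |>.1 h0
    rw [hTS] at h0'
    exact h0'
  have := LinearMap.finrank_le_finrank_of_injective hΦ
  rw [Module.finrank_prod, Module.finrank_pi, Module.finrank_pi, Module.finrank_pi] at this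
  exact this

/-- Real embeddings and self-conjugate complex embeddings. -/
noncomputable def Sy7_E (K : Type) [Field K] [NumberField K] :
    (K →+* ℝ) ≃ {φ : K →+* ℂ // ComplexEmbedding.IsReal φ} where
  toFun w := ⟨Complex.ofRealHom.comp w, by
    rw [ComplexEmbedding.isReal_iff]
    ext x
    simp⟩
  invFun φ := φ.2.embedding
  left_inv w := by
    ext x
    rfl
  right_inv φ := by
    apply Subtype.ext
    ext x
    exact φ.2.coe_embedding_apply x

/-- The number of the real embeddings. -/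
theorem Sy7_card (K : Type) [Field K] [NumberField K] :
    Fintype.card (K →+* ℝ) = InfinitePlace.nrRealPlaces K := by
  rw [Fintype.card_congr (Sy7_E K)]
  exact InfinitePlace.card_real_embeddings K

theorem syl7 (K : Type) [Field K] [NumberField K] {c : K}
    (hc : c ≠ 0) : ∃ f : Module.Basis (Fin (Module.finrank ℚ K)) ℚ K,
    (∀ i j, i ≠ j → Algebra.trace ℚ K (c * f i * f j) = 0) ∧
    (∀ i, Algebra.trace ℚ K (c * f i ^ 2) ≠ 0) ∧
    ∏ i, (ee ((SignType.sign ((Algebra.trace ℚ K (c * f i ^ 2) : ℚ) : ℝ) : ℝ) / 8) : ℂ) =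
      ∏ w : K →+* ℝ, (ee ((SignType.sign (w c) : ℝ) / 8) : ℂ) := by
  obtain ⟨f, hf, hf0⟩ := Sy_basis (K := K) hc
  refine ⟨f, hf, hf0, ?_⟩
  rw [Sy_prod _ (fun i => Rat.cast_ne_zero.2 (hf0 i)),
    Sy_prod (fun w : K →+* ℝ => w c) (fun w => (map_ne_zero w).2 hc)]
  have h1 := Sy7_le (c := c) (f := f) hf
  have hfneg : ∀ i j, i ≠ j → Algebra.trace ℚ K (-c * f i * f j) = 0 := by
    intro i j hij
    rw [show -c * f i * f j = -(c * f i * f j) by ring, map_neg, hf i j hij, neg_zero]
  have h2 := Sy7_le (c := -c) (f := f) hfneg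
  rw [Fintype.card_subtype, Fintype.card_subtype] at h1 h2
  have h3 : (Finset.univ.filter fun i => 0 < ((Algebra.trace ℚ K (-c * f i ^ 2) : ℚ) : ℝ)) =
      Finset.univ.filter fun i => ¬ 0 < ((Algebra.trace ℚ K (c * f i ^ 2) : ℚ) : ℝ) := by
    refine Finset.filter_congr fun i _ => ?_
    rw [neg_mul, map_neg, Rat.cast_neg, Left.neg_pos_iff, not_lt]
    exact ⟨fun h => h.le, fun h => lt_of_le_of_ne h (Rat.cast_ne_zero.2 (hf0 i))⟩
  have h4 : (Finset.univ.filter fun w : K →+* ℝ => 0 < w (-c)) =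
      Finset.univ.filter fun w : K →+* ℝ => ¬ 0 < w c := by
    refine Finset.filter_congr fun w _ => ?_
    rw [map_neg, Left.neg_pos_iff, not_lt]
    exact ⟨fun h => h.le, fun h => lt_of_le_of_ne h ((map_ne_zero w).2 hc)⟩
  rw [h3, h4] at h2
  have h5 := Finset.card_filter_add_card_filter_not (s := Finset.univ)
    (fun i => 0 < ((Algebra.trace ℚ K (c * f i ^ 2) : ℚ) : ℝ))
  have h6 := Finset.card_filter_add_card_filter_not (s := Finset.univ)
    (fun w : K →+* ℝ => 0 < w c)
  rw [Finset.card_univ, Fintype.card_fin] at h5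
  have hrk := InfinitePlace.card_add_two_mul_card_eq_rank K
  rw [Finset.card_univ, Sy7_card] at h6
  have h7 : (Finset.univ.filter fun i => 0 < ((Algebra.trace ℚ K (c * f i ^ 2) : ℚ) : ℝ)).card =
      (Finset.univ.filter fun w : K →+* ℝ => 0 < w c).card + InfinitePlace.nrComplexPlaces K := by
    omega
  have h8 : (Finset.univ.filter fun i => ¬ 0 < ((Algebra.trace ℚ K (c * f i ^ 2) : ℚ) : ℝ)).card =
      (Finset.univ.filter fun w : K →+* ℝ => ¬ 0 < w c).card + InfinitePlace.nrComplexPlaces K := by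
    omega
  have he : (ee (1 / 8) : ℂ) * (ee (-1 / 8) : ℂ) = 1 := by
    rw [← Circle.coe_mul]
    have : ee (1 / 8) * ee (-1 / 8) = 1 := by
      unfold ee
      rw [← Circle.exp_add]
      have : 2 * Real.pi * (1 / 8) + 2 * Real.pi * (-1 / 8) = 0 := by ring
      rw [this, Circle.exp_zero]
    rw [this, Circle.coe_one]
  rw [h7, h8, pow_add, pow_add]
  calc (ee (1 / 8) : ℂ) ^ (Finset.univ.filter fun w : K →+* ℝ => 0 < w c).card *
        (ee (1 / 8) : ℂ) ^ InfinitePlace.nrComplexPlaces K *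
        ((ee (-1 / 8) : ℂ) ^ (Finset.univ.filter fun w : K →+* ℝ => ¬ 0 < w c).card *
          (ee (-1 / 8) : ℂ) ^ InfinitePlace.nrComplexPlaces K)
      = (ee (1 / 8) : ℂ) ^ (Finset.univ.filter fun w : K →+* ℝ => 0 < w c).card *
        (ee (-1 / 8) : ℂ) ^ (Finset.univ.filter fun w : K →+* ℝ => ¬ 0 < w c).card *
        ((ee (1 / 8) : ℂ) * (ee (-1 / 8) : ℂ)) ^ InfinitePlace.nrComplexPlaces K := by
        rw [mul_pow]
        ring
    _ = _ := by rw [he, one_pow, mul_one]

/-- The number of the real embeddings. -/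
theorem card_real7 (K : Type) [Field K] [NumberField K] :
    Fintype.card (K →+* ℝ) = InfinitePlace.nrRealPlaces K := by
  exact Sy7_card K

end H88T7
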