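import Pool.Agent.H38.RT.Gl
import Pool.Agent.H88.T7.Sy

/-!
Milgram's formula for the lattice OK x OK over an arbitrary number field (copy of
`Pool/Agent/H38/RT/Gl.lean` without the hypothesis totally real).
-/

set_option autoImplicit false

namespace H88T7

open H38RT

open NumberField in
theorem glob7 (K : Type) [Field K] [NumberField K] {u z c₀ : 𝓞 K} (hu : u ≠ 0)
    (hD : z ^ 2 - 4 * c₀ ≠ 0) :
    ∃ r : ℝ, 0 < r ∧ GS (gch K) (u : K) (z : K) (c₀ : K) (OK K) =
      r * ((∏ w : K →+* ℝ, (ee ((SignType.sign (w (u : K)) : ℝ) / 8) : ℂ)) *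
        ∏ w : K →+* ℝ, (ee ((SignType.sign (w (-((u : K) * ((z : K) ^ 2 - 4 * c₀)))) : ℝ) / 8) :
          ℂ)) := by
  have huK : (u : K) ≠ 0 := RingOfIntegers.coe_ne_zero_iff.mpr hu
  have hDK : (z : K) ^ 2 - 4 * (c₀ : K) ≠ 0 := by
    have h1 : ((z ^ 2 - 4 * c₀ : 𝓞 K) : K) ≠ 0 := RingOfIntegers.coe_ne_zero_iff.mpr hD
    have h2 : ((z ^ 2 - 4 * c₀ : 𝓞 K) : K) = (z : K) ^ 2 - 4 * (c₀ : K) := by
      show algebraMap (𝓞 K) K (z ^ 2 - 4 * c₀) =
        (algebraMap (𝓞 K) K z) ^ 2 - 4 * algebraMap (𝓞 K) K c₀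
      rw [map_sub, map_pow, map_mul, map_ofNat]
    rwa [h2] at h1
  obtain ⟨f, f1, f2, f3⟩ := syl7 K huK
  obtain ⟨g, g1, g2, g3⟩ := syl7 K (neg_ne_zero.mpr (mul_ne_zero huK hDK))
  obtain ⟨b', hb'⟩ : ∃ b' : Module.Basis (Fin (Module.finrank ℚ K) ⊕ Fin (Module.finrank ℚ K)) ℚ
    (K × K), b' = (f.prod g).map (Gl_e (z : K)) := ⟨_, rfl⟩
  have bl : ∀ i, b' (Sum.inl i) = (f i, 0) := by
    intro i
    rw [hb', Module.Basis.map_apply, Gl_e_apply, Module.Basis.prod_apply_inl_fst,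
      Module.Basis.prod_apply_inl_snd]
    ext <;> simp
  have br : ∀ i, b' (Sum.inr i) = (-((z : K) * g i), 2 * g i) := by
    intro i
    rw [hb', Module.Basis.map_apply, Gl_e_apply, Module.Basis.prod_apply_inr_fst,
      Module.Basis.prod_apply_inr_snd]
    ext <;> simp
  have tr2 : ∀ x : K, Algebra.trace ℚ K (2 * x) = 2 * Algebra.trace ℚ K x := by
    intro x
    rw [two_mul, map_add, two_mul]
  have ho : ∀ s t, s ≠ t → Gl_b (u : K) z c₀ (b' s) (b' t) = 0 := by
    intro s t hst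
    rw [Gl_b_apply, nb_apply]
    rcases s with i | i <;> rcases t with j | j
    · have hij : i ≠ j := fun h => hst (by rw [h])
      rw [bl, bl]
      have h1 : (u : K) * (2 * f i * f j + (z : K) * (f i * 0 + 0 * f j) +
          2 * (c₀ : K) * 0 * 0) = 2 * ((u : K) * f i * f j) := by ring
      show Algebra.trace ℚ K ((u : K) * (2 * f i * f j + (z : K) * (f i * 0 + 0 * f j) +
          2 * (c₀ : K) * 0 * 0)) = 0
      rw [h1, tr2, f1 i j hij, mul_zero]
    · rw [bl, br]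
      have h1 : (u : K) * (2 * f i * (-((z : K) * g j)) + (z : K) * (f i * (2 * g j) +
          0 * (-((z : K) * g j))) + 2 * (c₀ : K) * 0 * (2 * g j)) = 0 := by ring
      show Algebra.trace ℚ K ((u : K) * (2 * f i * (-((z : K) * g j)) +
        (z : K) * (f i * (2 * g j) + 0 * (-((z : K) * g j))) + 2 * (c₀ : K) * 0 * (2 * g j))) = 0
      rw [h1, map_zero]
    · rw [bl, br]
      have h1 : (u : K) * (2 * (-((z : K) * g i)) * f j + (z : K) * (-((z : K) * g i) * 0 +
          2 * g i * f j) + 2 * (c₀ : K) * (2 * g i) * 0) = 0 := by ring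
      show Algebra.trace ℚ K ((u : K) * (2 * (-((z : K) * g i)) * f j +
        (z : K) * (-((z : K) * g i) * 0 + 2 * g i * f j) + 2 * (c₀ : K) * (2 * g i) * 0)) = 0
      rw [h1, map_zero]
    · have hij : i ≠ j := fun h => hst (by rw [h])
      rw [br, br]
      have h1 : (u : K) * (2 * (-((z : K) * g i)) * (-((z : K) * g j)) +
          (z : K) * (-((z : K) * g i) * (2 * g j) + 2 * g i * (-((z : K) * g j))) +
          2 * (c₀ : K) * (2 * g i) * (2 * g j)) =
          2 * (-((u : K) * ((z : K) ^ 2 - 4 * (c₀ : K))) * g i * g j) := by ring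
      show Algebra.trace ℚ K ((u : K) * (2 * (-((z : K) * g i)) * (-((z : K) * g j)) +
          (z : K) * (-((z : K) * g i) * (2 * g j) + 2 * g i * (-((z : K) * g j))) +
          2 * (c₀ : K) * (2 * g i) * (2 * g j))) = 0
      rw [h1, tr2, g1 i j hij, mul_zero]
  have ql : ∀ i, Algebra.trace ℚ K ((u : K) * nf (z : K) c₀ (b' (Sum.inl i))) =
      Algebra.trace ℚ K ((u : K) * f i ^ 2) := by
    intro i
    rw [bl]
    congr 1
    show (u : K) * (f i ^ 2 + (z : K) * f i * 0 + (c₀ : K) * 0 ^ 2) = _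
    ring
  have qr : ∀ i, Algebra.trace ℚ K ((u : K) * nf (z : K) c₀ (b' (Sum.inr i))) =
      Algebra.trace ℚ K (-((u : K) * ((z : K) ^ 2 - 4 * (c₀ : K))) * g i ^ 2) := by
    intro i
    rw [br]
    congr 1
    show (u : K) * ((-((z : K) * g i)) ^ 2 + (z : K) * (-((z : K) * g i)) * (2 * g i) +
      (c₀ : K) * (2 * g i) ^ 2) = _
    ring
  have h := milgram (V := K × K) (fun x => Algebra.trace ℚ K ((u : K) * nf (z : K) c₀ x))
    (Gl_b (u : K) z c₀) (fun x y => by
      show Algebra.trace ℚ K _ = _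
      rw [nf_add, map_add, map_add, Gl_b_apply]) (fun c x => by
      show Algebra.trace ℚ K ((u : K) * nf (z : K) c₀ (c • x)) =
        c ^ 2 * Algebra.trace ℚ K ((u : K) * nf (z : K) c₀ x)
      have h1 : (u : K) * nf (z : K) c₀ (c • x) = (c ^ 2) • ((u : K) * nf (z : K) c₀ x) := by
        unfold nf
        rw [Prod.smul_fst, Prod.smul_snd, Rat.smul_def, Rat.smul_def, Rat.smul_def, Rat.cast_pow]
        ring
      rw [h1, map_smul, smul_eq_mul]) (b'.reindex finSumFinEquiv) (fun i j hij => by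
      rw [Module.Basis.reindex_apply, Module.Basis.reindex_apply]
      exact ho _ _ (fun h => hij (finSumFinEquiv.symm.injective h))) (fun i => by
      show Algebra.trace ℚ K ((u : K) * nf (z : K) c₀ (b'.reindex finSumFinEquiv i)) ≠ 0
      rw [Module.Basis.reindex_apply]
      rcases finSumFinEquiv.symm i with s | s
      · rw [ql]; exact f2 s
      · rw [qr]; exact g2 s) ((OK K).prod (OK K)) Gl_fg Gl_span (by
      rintro ⟨x, y⟩ hxy
      rw [AddSubgroup.mem_prod] at hxy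
      obtain ⟨⟨a, ha⟩, ⟨b, hb⟩⟩ := hxy
      refine ⟨Algebra.trace ℤ (𝓞 K) (u * (a ^ 2 + z * a * b + c₀ * b ^ 2)), ?_⟩
      rw [Algebra.coe_trace_int]
      show Algebra.trace ℚ K ((u : K) * nf (z : K) c₀ (x, y)) = _
      congr 1
      have ha' : (a : K) = x := ha
      have hb' : (b : K) = y := hb
      show (u : K) * (x ^ 2 + (z : K) * x * y + (c₀ : K) * y ^ 2) = _
      rw [← ha', ← hb']
      simp only [map_mul, map_add, map_pow])
  obtain ⟨r, hr, h⟩ := h
  refine ⟨r, hr, ?_⟩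
  have hGS : GS (gch K) (u : K) (z : K) (c₀ : K) (OK K) =
      qs (perp chQ (Gl_b (u : K) z c₀) ((OK K).prod (OK K))) ((OK K).prod (OK K))
        (fun x => (chQ (Algebra.trace ℚ K ((u : K) * nf (z : K) c₀ x)) : ℂ)) := rfl
  rw [hGS, h, ← f3, ← g3]
  congr 1
  rw [← Equiv.prod_comp finSumFinEquiv, Fintype.prod_sum_type]
  congr 1
  · refine Finset.prod_congr rfl fun i _ => ?_
    rw [Module.Basis.reindex_apply, Equiv.symm_apply_apply, ql]
  · refine Finset.prod_congr rfl fun i _ => ?_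
    rw [Module.Basis.reindex_apply, Equiv.symm_apply_apply, qr]


end H88T7
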