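import Pool.Agent.H38.RT.Re
import Pool.Agent.H88.T7.Gl

/-!
Reciprocity in integral form over an arbitrary number field (copy of `Pool/Agent/H38/RT/Re.lean`).
-/

set_option autoImplicit false
open scoped Classical

open WithZero NumberField IsDedekindDomain H38RT

namespace H88T7

theorem recip_int7 (K : Type) [Field K] [NumberField K] {u z c₀ : 𝓞 K}
    (hu : u ≠ 0) (hD : z ^ 2 - 4 * c₀ ≠ 0)
    (h2 : ∀ v : HeightOneSpectrum (𝓞 K), v.valuation K 2 < 1 → v.valuation K (z : K) = 1)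
    (π : HeightOneSpectrum (𝓞 K) → K)
    (hπ : ∀ v : HeightOneSpectrum (𝓞 K), v.valuation K (π v) = exp (-1))
    (T : Finset (HeightOneSpectrum (𝓞 K))) (hT : ∀ v, v ∉ T → v.valuation K (u : K) = 1 ∧
      v.valuation K ((z : K) ^ 2 - 4 * c₀) = 1 ∧ v.valuation K 2 = 1) :
    ∑ v ∈ T, (if v.valuation K 2 < 1 then
        (ord (v.valuation K) (u : K) : ZMod 2) * kap (v.valuation K) (z : K) c₀
      else tm (v.valuation K) (π v) (u : K) ((z : K) ^ 2 - 4 * c₀)) +
      ∑ w : K →+* ℝ, sw w (u : K) * sw w ((z : K) ^ 2 - 4 * c₀) = 0 := by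
  obtain ⟨ψ, d, hψ⟩ := exists_psi K
  have hD' : (z : K) ^ 2 - 4 * c₀ ≠ 0 := by
    intro h0
    apply hD
    apply FaithfulSMul.algebraMap_injective (𝓞 K) K
    rw [map_sub, map_pow, map_mul, map_ofNat, map_zero]
    exact h0
  have hu' : (u : K) ≠ 0 := by
    intro h0
    apply hu
    apply FaithfulSMul.algebraMap_injective (𝓞 K) K
    simpa using h0
  have hone : (1 : 𝓞 K) ≠ 0 := one_ne_zero
  have hle : ∀ (v : HeightOneSpectrum (𝓞 K)) (x : 𝓞 K), v.valuation K (x : K) ≤ 1 :=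
    fun v x => v.valuation_le_one x
  -- the local factors
  have hloc : ∀ v : HeightOneSpectrum (𝓞 K), ∀ u' : 𝓞 K, u' ≠ 0 →
      (((ball (v.valuation K) 0).prod (ball (v.valuation K) 0)).relIndex
        (perp (ψ v) (nb (u' : K) (z : K) (c₀ : K))
          ((ball (v.valuation K) 0).prod (ball (v.valuation K) 0))) ≠ 0) := by
    intro v u' hu0
    have hl := exists_loc hψ v (hπ v)
    have hu1 : (u' : K) ≠ 0 := by
      intro h0
      apply hu0
      apply FaithfulSMul.algebraMap_injective (𝓞 K) K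
      simpa using h0
    have ht2 : v.valuation K 2 ≤ 1 := by
      have h5 := hle v 2
      have h6 : ((2 : 𝓞 K) : K) = 2 := map_ofNat (algebraMap (𝓞 K) K) 2
      rwa [h6] at h5
    rcases lt_or_eq_of_le ht2 with h | h
    · have hord : 0 ≤ ord (v.valuation K) (u' : K) := by
        have h3 := V_eq (V := v.valuation K) hu1
        have h4 := hle v u'
        rw [h3, ← exp_zero, exp_le_exp] at h4
        linarith
      refine (gs_two hl h hu1 (h2 v h) (hle v c₀) (j := 0) ?_).2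
      have := hψ.nonneg v
      linarith
    · exact (gs_odd hl h (hψ.nonneg v) hu1 (hle v u') (hle v z) (hle v c₀) hD').2
  have hratio : ∀ v : HeightOneSpectrum (𝓞 K),
      GS (ψ v) 1 (z : K) (c₀ : K) (ball (v.valuation K) 0) ≠ 0 ∧ ∃ r : ℝ, 0 < r ∧
        GS (ψ v) (u : K) (z : K) (c₀ : K) (ball (v.valuation K) 0) =
        r * sgn2 (if v.valuation K 2 < 1 then
          (ord (v.valuation K) (u : K) : ZMod 2) * kap (v.valuation K) (z : K) c₀
          else tm (v.valuation K) (π v) (u : K) ((z : K) ^ 2 - 4 * c₀)) *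
        GS (ψ v) 1 (z : K) (c₀ : K) (ball (v.valuation K) 0) := by
    intro v
    have hl := exists_loc hψ v (hπ v)
    have ht2 : v.valuation K 2 ≤ 1 := by
      have h5 := hle v 2
      have h6 : ((2 : 𝓞 K) : K) = 2 := map_ofNat (algebraMap (𝓞 K) K) 2
      rwa [h6] at h5
    rcases lt_or_eq_of_le ht2 with h | h
    · rw [if_pos h]
      exact gs_two_ratio hl h (hψ.nonneg v) hu' (hle v u) (h2 v h) (hle v c₀)
    · rw [if_neg (by rw [h]; exact lt_irrefl 1)]
      exact gs_odd_ratio hl h (hψ.nonneg v) hu' (hle v u) (hle v z) (hle v c₀) hD'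
  -- a larger set of places
  set T' : Finset (HeightOneSpectrum (𝓞 K)) := T ∪ hψ.fin.toFinset with hT'
  have hT1 : ∀ v, v ∉ T' → v.valuation K (u : K) = 1 ∧
      v.valuation K ((z : K) ^ 2 - 4 * c₀) = 1 ∧ d v = 0 := by
    intro v hv
    rw [hT', Finset.mem_union, not_or] at hv
    have h3 := hT v hv.1
    refine ⟨h3.1, h3.2.1, ?_⟩
    by_contra h4
    exact hv.2 (by simpa using h4)
  have hdu := decomp hψ hu hD T' hT1 (fun v _ => hloc v u hu)
  have hd1 := decomp hψ (u := 1) hone hD T' (by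
    intro v hv
    refine ⟨by simp, (hT1 v hv).2⟩) (fun v _ => hloc v 1 hone)
  have hone' : ((1 : 𝓞 K) : K) = 1 := by simp
  rw [hone'] at hd1
  -- product of the ratios
  choose hne r hr hrat using hratio
  have hprod : GS (gch K) (u : K) (z : K) (c₀ : K) (OK K) =
      ((∏ v ∈ T', r v : ℝ) : ℂ) * sgn2 (∑ v ∈ T', (if v.valuation K 2 < 1 then
          (ord (v.valuation K) (u : K) : ZMod 2) * kap (v.valuation K) (z : K) c₀
          else tm (v.valuation K) (π v) (u : K) ((z : K) ^ 2 - 4 * c₀))) *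
        GS (gch K) 1 (z : K) (c₀ : K) (OK K) := by
    rw [hdu, hd1, sgn2_sum, Complex.ofReal_prod, ← Finset.prod_mul_distrib,
      ← Finset.prod_mul_distrib]
    exact Finset.prod_congr rfl fun v _ => hrat v
  have h1ne : GS (gch K) 1 (z : K) (c₀ : K) (OK K) ≠ 0 := by
    rw [hd1]
    exact Finset.prod_ne_zero_iff.mpr fun v _ => hne v
  -- the global sums
  obtain ⟨ρ, hρ, hgu⟩ := glob7 K hu hD
  obtain ⟨ρ', hρ', hg1⟩ := glob7 K hone hD
  rw [hone'] at hg1
  have hinf : ((∏ w : K →+* ℝ, (ee ((SignType.sign (w (u : K)) : ℝ) / 8) : ℂ)) *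
        ∏ w : K →+* ℝ, (ee ((SignType.sign (w (-((u : K) * ((z : K) ^ 2 - 4 * c₀)))) : ℝ) / 8) :
          ℂ)) = sgn2 (∑ w : K →+* ℝ, sw w (u : K) * sw w ((z : K) ^ 2 - 4 * c₀)) *
      ((∏ w : K →+* ℝ, (ee ((SignType.sign (w (1 : K)) : ℝ) / 8) : ℂ)) *
        ∏ w : K →+* ℝ, (ee ((SignType.sign (w (-((1 : K) * ((z : K) ^ 2 - 4 * c₀)))) : ℝ) / 8) :
          ℂ)) := by
    rw [sgn2_sum, ← Finset.prod_mul_distrib, ← Finset.prod_mul_distrib, ← Finset.prod_mul_distrib]
    exact Finset.prod_congr rfl fun w _ => place w hu' hD'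
  set S1 := ∑ v ∈ T', (if v.valuation K 2 < 1 then
          (ord (v.valuation K) (u : K) : ZMod 2) * kap (v.valuation K) (z : K) c₀
          else tm (v.valuation K) (π v) (u : K) ((z : K) ^ 2 - 4 * c₀)) with hS1
  set S2 := ∑ w : K →+* ℝ, sw w (u : K) * sw w ((z : K) ^ 2 - 4 * c₀) with hS2
  set G1 := GS (gch K) 1 (z : K) (c₀ : K) (OK K) with hG1
  set R := (∏ v ∈ T', r v : ℝ) with hR
  have hRpos : 0 < R := Finset.prod_pos fun v _ => hr v
  have key : (R : ℂ) * sgn2 S1 * G1 = (ρ / ρ' : ℝ) * sgn2 S2 * G1 := by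
    rw [← hprod, hgu, hinf, hg1]
    have : (ρ' : ℂ) ≠ 0 := by exact_mod_cast hρ'.ne'
    push_cast
    field_simp
  have key2 : (R : ℂ) * sgn2 S1 = (ρ / ρ' : ℝ) * sgn2 S2 := mul_right_cancel₀ h1ne key
  have hRc : (R : ℂ) ≠ 0 := by exact_mod_cast hRpos.ne'
  have key3 : S1 = S2 := by
    apply sgn2_pos (r := ρ / ρ' / R) (by positivity)
    have : sgn2 S1 = (R : ℂ)⁻¹ * ((R : ℂ) * sgn2 S1) := by field_simp
    rw [this, key2]
    push_cast
    field_simp
  have hsum : ∑ v ∈ T, (if v.valuation K 2 < 1 then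
        (ord (v.valuation K) (u : K) : ZMod 2) * kap (v.valuation K) (z : K) c₀
      else tm (v.valuation K) (π v) (u : K) ((z : K) ^ 2 - 4 * c₀)) = S1 := by
    rw [hS1]
    apply Finset.sum_subset (by rw [hT']; exact Finset.subset_union_left)
    intro v _ hv
    obtain ⟨a1, a2, a3⟩ := hT v hv
    rw [if_neg (by rw [a3]; exact lt_irrefl 1), tm_unit a1]
    have : ord (v.valuation K) ((z : K) ^ 2 - 4 * c₀) = 0 := by
      unfold ord
      rw [a2, log_one, neg_zero]
    rw [this, Int.cast_zero, zero_mul]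
  rw [hsum, key3]
  exact CharTwo.add_self_eq_zero S2


end H88T7
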