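import Pool.Agent.H24.TD.Rc
import Pool.Agent.H24.TD.Yb
import Pool.Agent.H38.T1.Ea
import Pool.Agent.H88.T7.Rk

/-!
Reciprocity for square classes, square classes of S-units and primary classes over an arbitrary
number field (modification of files of `Pool/Agent/H24/TD`).
-/

set_option autoImplicit false
set_option linter.unusedSectionVars false
open scoped Classical

open WithZero NumberField IsDedekindDomain H38RT
open H38T1 (SC sc scu rep rep_ne sc_rep sc_surj sc_mul sc_eq_zero sc_of_ne eo la si Pri ka tp unif unif_spec OddP)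
open H24TD

namespace H88T7

theorem recip_sc7 {K : Type} [Field K] [NumberField K] {c c' : SC K}
    (T : Finset (HeightOneSpectrum (𝓞 K))) (h2 : ∀ v : HeightOneSpectrum (𝓞 K), ¬ OddP v → v ∈ T)
    (hc : ∀ v, v ∉ T → eo v c = 0) (hc' : ∀ v, v ∉ T → eo v c' = 0)
    (hp : ∀ v, ¬ OddP v → Pri v c') :
    ∑ v ∈ T, (if OddP v then tp v c c' else eo v c * ka v c') +
      ∑ w : K →+* ℝ, si w c * si w c' = 0 := by
  have h20 : (2 : K) ≠ 0 := two_ne_zero
  have hodd : ∀ v : HeightOneSpectrum (𝓞 K), v.valuation K 2 < 1 ↔ ¬ OddP v := by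
    intro v
    unfold OddP
    constructor
    · intro h e
      rw [e] at h
      exact lt_irrefl _ h
    · intro h
      exact lt_of_le_of_ne (val_two_le v) h
  -- the local terms
  have hloc : ∀ v : HeightOneSpectrum (𝓞 K), lt unif v (rep c) (rep c') =
      if OddP v then tp v c c' else eo v c * ka v c' := by
    intro v
    unfold lt
    by_cases hv : OddP v
    · rw [if_neg (by rw [hodd]; exact not_not.mpr hv), if_pos hv]
      unfold tp tm
      rw [la_sc hv (neg_ne_zero.2 one_ne_zero)]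
      rfl
    · rw [if_pos ((hodd v).mpr hv), if_neg hv]
      rfl
  set T' : Finset (HeightOneSpectrum (𝓞 K)) :=
    T ∪ ((fin_bad (rep_ne c)).toFinset ∪ ((fin_bad (rep_ne c')).toFinset ∪
      (fin_bad h20).toFinset)) with hT'
  have hmem : ∀ v, v ∉ T' → v.valuation K (rep c) = 1 ∧ v.valuation K (rep c') = 1 ∧
      v.valuation K 2 = 1 := by
    intro v hv
    rw [hT', Finset.mem_union, Finset.mem_union, Finset.mem_union, not_or, not_or, not_or] at hv
    refine ⟨?_, ?_, ?_⟩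
    · by_contra h
      exact hv.2.1 (by simpa using h)
    · by_contra h
      exact hv.2.2.1 (by simpa using h)
    · by_contra h
      exact hv.2.2.2 (by simpa using h)
  have hmain := recip7 K unif unif_spec (rep_ne c) (rep_ne c')
    (fun v hv => hp v ((hodd v).mp hv)) T' hmem
  rw [Finset.sum_congr rfl fun v _ => hloc v] at hmain
  have hsub : ∑ v ∈ T, (if OddP v then tp v c c' else eo v c * ka v c') =
      ∑ v ∈ T', (if OddP v then tp v c c' else eo v c * ka v c') := by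
    apply Finset.sum_subset (by rw [hT']; exact Finset.subset_union_left)
    intro v _ hv
    have hv2 : OddP v := by
      by_contra h
      exact hv (h2 v h)
    rw [if_pos hv2]
    unfold tp
    rw [hc v hv, hc' v hv]
    ring
  rw [hsub]
  exact hmain


theorem card_US7 {K : Type} [Field K] [NumberField K]
    {S : Set (HeightOneSpectrum (𝓞 K))} (hS : S.Finite) :
    Nat.card (US K S) = 2 ^ (S.ncard + (InfinitePlace.nrRealPlaces K + InfinitePlace.nrComplexPlaces K)) := by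
  obtain ⟨h1, h2⟩ := RkU_A (K := K) hS
  rw [RkU_cls, RkU_gen, RkU_tor, h2]
  have h3 : InfinitePlace.nrRealPlaces K + InfinitePlace.nrComplexPlaces K =
      NumberField.Units.rank K + 1 := by
    unfold NumberField.Units.rank
    have h4 : 0 < Fintype.card (InfinitePlace K) := Fintype.card_pos
    rw [InfinitePlace.card_eq_nrRealPlaces_add_nrComplexPlaces] at *
    omega
  rw [h3, ← pow_succ', add_assoc]

theorem card_Y7 {K : Type} [Field K] [NumberField K]
    {So : Set (HeightOneSpectrum (𝓞 K))} (hS : So.Finite) (hodd : ∀ v ∈ So, OddP v)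
    (hfin : {c : SC K | (∀ v, v ∉ So → eo v c = 0) ∧ ∀ v, ¬ OddP v → Pri v c}.Finite) :
    2 ^ So.ncard ≤ 2 ^ InfinitePlace.nrComplexPlaces K *
      {c : SC K | (∀ v, v ∉ So → eo v c = 0) ∧ ∀ v, ¬ OddP v → Pri v c}.ncard := by
  have hn : InfinitePlace.nrRealPlaces K + 2 * InfinitePlace.nrComplexPlaces K =
    Module.finrank ℚ K := InfinitePlace.card_add_two_mul_card_eq_rank K
  rcases lt_or_ge So.ncard (InfinitePlace.nrComplexPlaces K) with hlt | hge
  · have h0 : (0 : SC K) ∈ {c : SC K | (∀ v, v ∉ So → eo v c = 0) ∧ ∀ v, ¬ OddP v → Pri v c} :=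
      ⟨fun v _ => H38T1.eo_zero v, fun _ hv => (Pri_zero hv).1⟩
    have h1 : 0 < {c : SC K | (∀ v, v ∉ So → eo v c = 0) ∧ ∀ v, ¬ OddP v → Pri v c}.ncard :=
      (Set.ncard_pos hfin).2 ⟨0, h0⟩
    calc 2 ^ So.ncard ≤ 2 ^ InfinitePlace.nrComplexPlaces K := Nat.pow_le_pow_right two_pos hlt.le
      _ = 2 ^ InfinitePlace.nrComplexPlaces K * 1 := (mul_one _).symm
      _ ≤ _ := Nat.mul_le_mul_left _ h1
  obtain ⟨m, hm⟩ := Nat.exists_eq_add_of_le hge
  have hgoal : 2 ^ m ≤ {c : SC K | (∀ v, v ∉ So → eo v c = 0) ∧ ∀ v, ¬ OddP v → Pri v c}.ncard → 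
      2 ^ So.ncard ≤ 2 ^ InfinitePlace.nrComplexPlaces K *
      {c : SC K | (∀ v, v ∉ So → eo v c = 0) ∧ ∀ v, ¬ OddP v → Pri v c}.ncard := by
    intro h
    rw [hm, pow_add]
    exact Nat.mul_le_mul_left _ h
  apply hgoal
  set Y := {c : SC K | (∀ v, v ∉ So → eo v c = 0) ∧ ∀ v, ¬ OddP v → Pri v c} with hY
  have hcard := card_US7 (K := K) hS
  haveI hfinUS : Finite (US K So) := Nat.finite_of_card_ne_zero (by rw [hcard]; positivity)
  have hidx := index_sq K
  rw [Subgroup.index_eq_card] at hidx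
  haveI hfinQ : Finite ((𝓞 K ⧸ (Ideal.span {(4 : 𝓞 K)}))ˣ ⧸
      (powMonoidHom 2 : (𝓞 K ⧸ (Ideal.span {(4 : 𝓞 K)}))ˣ →*
        (𝓞 K ⧸ (Ideal.span {(4 : 𝓞 K)}))ˣ).range) :=
    Nat.finite_of_card_ne_zero (by rw [hidx]; positivity)
  have hex : ∀ c : US K So, ∃ (x : K) (b a : 𝓞 K) (α β : (𝓞 K ⧸ (Ideal.span {(4 : 𝓞 K)}))ˣ),
      x ≠ 0 ∧ sc x = (c : SC K) ∧ (∀ v, v ∉ So → v.valuation K x = 1) ∧ (b : K) ≠ 0 ∧
      (b : K) * x = a ∧ (α : 𝓞 K ⧸ (Ideal.span {(4 : 𝓞 K)})) = Ideal.Quotient.mk _ a ∧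
      (β : 𝓞 K ⧸ (Ideal.span {(4 : 𝓞 K)})) = Ideal.Quotient.mk _ b := by
    rintro ⟨c, u, hu, rfl⟩
    have hx0 : ((Additive.toMul u : Kˣ) : K) ≠ 0 := Units.ne_zero _
    obtain ⟨b, a, hb0, hba, hbu, hau⟩ := Yb_frac hx0 (fun v hv => hu v (fun h => hv (hodd v h)))
    refine ⟨((Additive.toMul u : Kˣ) : K), b, a, hau.unit, hbu.unit, hx0, ?_, hu, hb0, hba,
      rfl, rfl⟩
    rw [← cls_ofMul _ hx0]
    have h1 : Units.mk0 ((Additive.toMul u : Kˣ) : K) hx0 = Additive.toMul u := by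
      ext
      rfl
    rw [h1]
    rfl
  choose x b a α β hx0 hsc hval hb0 hba hα hβ using hex
  cases nonempty_fintype (US K So)
  cases nonempty_fintype ((𝓞 K ⧸ (Ideal.span {(4 : 𝓞 K)}))ˣ ⧸
      (powMonoidHom 2 : (𝓞 K ⧸ (Ideal.span {(4 : 𝓞 K)}))ˣ →*
        (𝓞 K ⧸ (Ideal.span {(4 : 𝓞 K)}))ˣ).range)
  rw [Nat.card_eq_fintype_card] at hcard hidx
  obtain ⟨y, hy⟩ := Fintype.exists_le_card_fiber_of_mul_le_card
    (f := fun c : US K So => (QuotientGroup.mk (α c * β c) : (𝓞 K ⧸ (Ideal.span {(4 : 𝓞 K)}))ˣ ⧸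
      (powMonoidHom 2 : (𝓞 K ⧸ (Ideal.span {(4 : 𝓞 K)}))ˣ →*
        (𝓞 K ⧸ (Ideal.span {(4 : 𝓞 K)}))ˣ).range)) (n := 2 ^ m) (by
      rw [hcard, hidx, ← pow_add]
      apply le_of_eq
      congr 1
      omega)
  have hpos : 0 < 2 ^ m := by positivity
  obtain ⟨c₀, hc₀⟩ := Finset.card_pos.1 (lt_of_lt_of_le hpos hy)
  rw [Finset.mem_filter] at hc₀
  rw [Set.ncard_eq_toFinset_card Y hfin]
  refine hy.trans (Finset.card_le_card_of_injOn (fun c => (c : SC K) + (c₀ : SC K)) ?_ ?_)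
  · intro c hc
    rw [Finset.mem_coe, Finset.mem_filter] at hc
    rw [Finset.mem_coe, Set.Finite.mem_toFinset]
    have h1 : (c : SC K) + (c₀ : SC K) = sc (x c * x c₀) := by
      rw [sc_mul (hx0 c) (hx0 c₀), hsc, hsc]
    have hxx : x c * x c₀ ≠ 0 := mul_ne_zero (hx0 c) (hx0 c₀)
    have h2 := hc.2.trans hc₀.2.symm
    rw [QuotientGroup.eq] at h2
    obtain ⟨σ, hσ⟩ := h2
    have h3 : α c₀ * β c₀ = α c * β c * σ ^ 2 := by
      have h4 : σ ^ 2 = (α c * β c)⁻¹ * (α c₀ * β c₀) := hσ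
      rw [h4, mul_inv_cancel_left]
    change (∀ v, v ∉ So → eo v ((c : SC K) + (c₀ : SC K)) = 0) ∧
      ∀ v, ¬ OddP v → Pri v ((c : SC K) + (c₀ : SC K))
    rw [h1]
    constructor
    · intro v hv
      rw [eo_sc v hxx]
      unfold ord
      rw [map_mul, hval c v hv, hval c₀ v hv, one_mul, log_one, neg_zero, Int.cast_zero]
    · intro v hv
      rw [Pri_sc hv hxx]
      exact Yb_prm (hb0 c) (hb0 c₀) (hba c) (hba c₀) (hα c) (hβ c) (hα c₀) (hβ c₀) h3 hv
  · intro c _ c' _ h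
    exact Subtype.ext (Yb_cancel h)


end H88T7
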