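import Pool.Agent.H88.T7.Gj

/-!
ROW Gk (project MP_78d38b_T7, about 170 lines): places and orbits of the Frobenius element.

PROOF. `p = rp w`, `π = actH K L φ`, `H = K →ₐ[ℚ] L`, `N = |H| = finrank ℚ K` (`hL.card`).
sum_inert: `∑ e f = N` over the primes above `p` (`Ideal.sum_ramification_inertia`; `e = 1`), translated to the finite set
`{v | rp v = p}` of `HeightOneSpectrum (𝓞 K)` (`H38T1.mem_iff_eq`, `H38T1.Ed_lies`, `primesOver`; if row Mg (`nice_odd`) is landed its proof
contains this translation).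
geom: for a place `v` above `p` let `F v = {σ | pl σ w = v}` (a `Finset` filter), nonempty (`pl_surj`), stable under `π` (`pl_act`). For `σ ∈ F v`
let `m = Function.minimalPeriod π σ > 0` (`H` is finite: `Function.minimalPeriod_pos`...). The orbit `O σ = {τ | π.SameCycle σ τ}` is contained in
`F v` and has `m` elements (`τ = π^k σ` for exactly one `k < m`). `f v = inertiaDeg ≤ m` (`inert_le`), so `f v ≤ m = |O σ| ≤ |F v|`.
Summing over the places above `p` (each `σ` is in exactly one `F v`, `rp_pl`): `N = ∑ f v ≤ ∑ |F v| = |H| = N`, so `f v = |F v|` for all `v`, hence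
`f v = m = |F v|` and `O σ = F v` for all `σ ∈ F v`. This is (1) and (2).
count_places: the number of places above `p` is the number of the cycles of `π` (fixed points included): the map `σ ↦ pl σ w`
induces a bijection of the quotient by `SameCycle` (`Equiv.Perm.SameCycle.setoid`) with the places.
-/

set_option autoImplicit false
set_option linter.unusedSectionVars false
open scoped Classical

open WithZero NumberField IsDedekindDomain H38RT
open H38T1 (SC sc rep eo la si Pri OddP LD XX XX' NS ov rp SqMod)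

namespace H88T7

variable {K L : Type} [Field K] [NumberField K] [Field L] [NumberField L]

theorem Gk_sum {p : ℕ} (hpp : p.Prime)
    (hun : ∀ v : HeightOneSpectrum (𝓞 K), rp v = p → v.asIdeal.ramificationIdx ℤ = 1) :
    ∃ S : Finset (HeightOneSpectrum (𝓞 K)), (∀ v, v ∈ S ↔ rp v = p) ∧
      ∑ v ∈ S, v.asIdeal.inertiaDeg ℤ = Module.finrank ℚ K := by
  have hq : Prime ((p : ℕ) : ℤ) := Nat.prime_iff_prime_int.1 hpp
  have hpi : (Ideal.span {((p : ℕ) : ℤ)}).IsPrime :=
    (Ideal.span_singleton_prime hq.ne_zero).2 hq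
  have hov : ∀ v : HeightOneSpectrum (𝓞 K), v ∈ ov K {p} ↔ rp v = p := by
    intro v
    constructor
    · rintro ⟨q, hq1, hv⟩
      rw [Set.mem_singleton_iff] at hq1
      subst hq1
      exact (H38T1.mem_iff_eq hpp).1 hv
    · intro h
      exact ⟨p, rfl, (H38T1.mem_iff_eq hpp).2 h⟩
  have himg : HeightOneSpectrum.asIdeal '' (ov K {p}) =
      (Ideal.span {((p : ℕ) : ℤ)}).primesOver (𝓞 K) := by
    ext Q
    constructor
    · rintro ⟨v, hv, rfl⟩
      have h1 := (hov v).1 hv
      have h2 := H38T1.Ed_lies v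
      rw [h1] at h2
      exact ⟨v.isPrime, h2⟩
    · rintro ⟨h1, h2⟩
      have h3 : ((p : ℕ) : 𝓞 K) ∈ Q := by
        have h4 := h2.over
        have h5 : ((p : ℕ) : ℤ) ∈ Ideal.span {((p : ℕ) : ℤ)} := Ideal.mem_span_singleton_self _
        rw [h4, Ideal.under_def, Ideal.mem_comap] at h5
        simpa using h5
      have h4 : Q ≠ ⊥ := by
        intro h0
        rw [h0, Ideal.mem_bot] at h3
        exact hpp.ne_zero (by exact_mod_cast h3)
      exact ⟨⟨Q, h1, h4⟩, ⟨p, rfl, h3⟩, rfl⟩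
  have hfin : (ov K {p}).Finite := H38T1.fin_ov (Set.finite_singleton p) (by
    intro q hq1
    rw [Set.mem_singleton_iff] at hq1
    rw [hq1]
    exact hpp)
  have hfin' : ((Ideal.span {((p : ℕ) : ℤ)}).primesOver (𝓞 K)).Finite := by
    rw [← himg]
    exact hfin.image _
  let := hfin'.fintype
  have hsum := Ideal.sum_ramification_inertia_eq_finrank (Ideal.span {((p : ℕ) : ℤ)}) (𝓞 K)
  rw [RingOfIntegers.rank] at hsum
  refine ⟨hfin.toFinset, fun v => ?_, ?_⟩
  · rw [Set.Finite.mem_toFinset, hov]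
  · rw [← hsum]
    refine Finset.sum_bij (fun v hv => (⟨v.asIdeal, by
        rw [← himg]
        exact ⟨v, (Set.Finite.mem_toFinset hfin).1 hv, rfl⟩⟩ :
        (Ideal.span {((p : ℕ) : ℤ)}).primesOver (𝓞 K))) (fun v hv => Finset.mem_univ _) ?_ ?_ ?_
    · intro v _ v' _ h
      exact HeightOneSpectrum.ext (congrArg Subtype.val h)
    · rintro ⟨Q, hQ⟩ _
      have hQ' := hQ
      rw [← himg] at hQ'
      obtain ⟨v, hv, rfl⟩ := hQ'
      exact ⟨v, (Set.Finite.mem_toFinset hfin).2 hv, rfl⟩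
    · intro v hv
      have h1 := hun v ((hov v).1 ((Set.Finite.mem_toFinset hfin).1 hv))
      dsimp only
      rw [h1, one_mul]

theorem Gk_orb {α : Type} [Fintype α] (π : Equiv.Perm α) (x : α) :
    (Finset.univ.filter (fun y => π.SameCycle x y)).card = Function.minimalPeriod π x := by
  have hpos : 0 < Function.minimalPeriod π x := by
    apply Function.IsPeriodicPt.minimalPeriod_pos (n := orderOf π) (orderOf_pos π)
    change (π)^[orderOf π] x = x
    rw [← Equiv.Perm.coe_pow, pow_orderOf_eq_one]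
    rfl
  have h1 : (Finset.univ.filter (fun y => π.SameCycle x y)) =
      (Finset.range (Function.minimalPeriod π x)).image (fun k => (π)^[k] x) := by
    ext y
    rw [Finset.mem_filter, Finset.mem_image]
    constructor
    · rintro ⟨_, hy⟩
      obtain ⟨i, _, hi⟩ := hy.exists_pow_eq'
      refine ⟨i % Function.minimalPeriod π x, Finset.mem_range.2 (Nat.mod_lt _ hpos), ?_⟩
      rw [Function.iterate_mod_minimalPeriod_eq, ← Equiv.Perm.coe_pow]
      exact hi
    · rintro ⟨k, _, rfl⟩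
      refine ⟨Finset.mem_univ _, (k : ℤ), ?_⟩
      rw [zpow_natCast, Equiv.Perm.coe_pow]
  rw [h1, Finset.card_image_of_injOn, Finset.card_range]
  intro a ha b hb hab
  rw [Finset.coe_range] at ha hb
  exact Function.iterate_injOn_Iio_minimalPeriod ha hb hab

theorem Gk_pow {w : HeightOneSpectrum (𝓞 L)} {φ : L ≃ₐ[ℚ] L} (hφ : IsFb φ w) {σ σ' : K →ₐ[ℚ] L}
    (h : (actH K L φ).SameCycle σ σ') : pl σ w = pl σ' w := by
  obtain ⟨i, _, hi⟩ := h.exists_pow_eq'
  have h1 : ∀ i : ℕ, pl ((actH K L φ ^ i) σ) w = pl σ w := by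
    intro i
    induction i with
    | zero => rfl
    | succ i ih =>
      rw [pow_succ']
      change pl (actH K L φ ((actH K L φ ^ i) σ)) w = _
      rw [pl_act hφ, ih]
  rw [← hi, h1]

theorem geom (hL : BigL K L) {w : HeightOneSpectrum (𝓞 L)} {φ : L ≃ₐ[ℚ] L} (hφ : IsFb φ w)
    (hun : ∀ v : HeightOneSpectrum (𝓞 K), rp v = rp w → v.asIdeal.ramificationIdx ℤ = 1) :
    (∀ σ σ' : K →ₐ[ℚ] L, pl σ w = pl σ' w ↔ (actH K L φ).SameCycle σ σ') ∧
      ∀ σ : K →ₐ[ℚ] L,
        (pl σ w).asIdeal.inertiaDeg ℤ = Function.minimalPeriod (actH K L φ) σ := by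
  have hpp : (rp w).Prime := H38T1.rp_prime w
  obtain ⟨S, hS, hsum⟩ := Gk_sum hpp hun
  have hmin : ∀ σ : K →ₐ[ℚ] L, (pl σ w).asIdeal.inertiaDeg ℤ ≤
      Function.minimalPeriod (actH K L φ) σ := by
    intro σ
    refine inert_le hφ ?_ ?_
    · apply Function.IsPeriodicPt.minimalPeriod_pos (n := orderOf (actH K L φ)) (orderOf_pos _)
      change (actH K L φ)^[orderOf (actH K L φ)] σ = σ
      rw [← Equiv.Perm.coe_pow, pow_orderOf_eq_one]
      rfl
    · rw [Equiv.Perm.coe_pow]
      exact Function.iterate_minimalPeriod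
  have hsub : ∀ σ : K →ₐ[ℚ] L, (Finset.univ.filter fun τ => (actH K L φ).SameCycle σ τ) ⊆
      (Finset.univ.filter fun τ => pl τ w = pl σ w) := by
    intro σ τ hτ
    rw [Finset.mem_filter] at hτ ⊢
    exact ⟨Finset.mem_univ _, (Gk_pow hφ hτ.2).symm⟩
  have hfib : Fintype.card (K →ₐ[ℚ] L) =
      ∑ v ∈ S, (Finset.univ.filter fun τ : K →ₐ[ℚ] L => pl τ w = v).card := by
    rw [← Finset.card_univ]
    exact Finset.card_eq_sum_card_fiberwise fun σ _ => (hS _).2 (rp_pl σ w)
  have hle : ∀ v ∈ S, v.asIdeal.inertiaDeg ℤ ≤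
      (Finset.univ.filter fun τ : K →ₐ[ℚ] L => pl τ w = v).card := by
    intro v hv
    obtain ⟨σ, rfl⟩ := pl_surj hL w ((hS v).1 hv)
    calc _ ≤ _ := hmin σ
      _ = _ := (Gk_orb (actH K L φ) σ).symm
      _ ≤ _ := Finset.card_le_card (hsub σ)
  have heq := (Finset.sum_eq_sum_iff_of_le hle).1 (by rw [hsum, ← hfib, hL.card])
  have key : ∀ σ : K →ₐ[ℚ] L, (Finset.univ.filter fun τ => (actH K L φ).SameCycle σ τ) =
      (Finset.univ.filter fun τ => pl τ w = pl σ w) ∧
      (pl σ w).asIdeal.inertiaDeg ℤ = Function.minimalPeriod (actH K L φ) σ := by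
    intro σ
    have h1 := heq (pl σ w) ((hS _).2 (rp_pl σ w))
    have h2 := Gk_orb (actH K L φ) σ
    have h3 := hmin σ
    have h4 := Finset.card_le_card (hsub σ)
    exact ⟨Finset.eq_of_subset_of_card_le (hsub σ) (by omega), by omega⟩
  refine ⟨fun σ σ' => ⟨fun h => ?_, Gk_pow hφ⟩, fun σ => (key σ).2⟩
  have h1 : σ' ∈ (Finset.univ.filter fun τ => pl τ w = pl σ w) :=
    Finset.mem_filter.2 ⟨Finset.mem_univ _, h.symm⟩
  rw [← (key σ).1, Finset.mem_filter] at h1
  exact h1.2

theorem count_places (hL : BigL K L) {w : HeightOneSpectrum (𝓞 L)} {φ : L ≃ₐ[ℚ] L}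
    (hφ : IsFb φ w)
    (hun : ∀ v : HeightOneSpectrum (𝓞 K), rp v = rp w → v.asIdeal.ramificationIdx ℤ = 1) :
    (ov K {rp w}).ncard =
      Nat.card (Quotient (Equiv.Perm.SameCycle.setoid (actH K L φ))) := by
  have hpp : (rp w).Prime := H38T1.rp_prime w
  obtain ⟨h1, _⟩ := geom hL hφ hun
  rw [← Nat.card_coe_set_eq]
  symm
  refine Nat.card_congr (Equiv.ofBijective (Quotient.lift (fun σ : K →ₐ[ℚ] L =>
    (⟨pl σ w, rp w, rfl, (H38T1.mem_iff_eq hpp).2 (rp_pl σ w)⟩ : ov K {rp w})) ?_) ⟨?_, ?_⟩)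
  · intro σ σ' h
    exact Subtype.ext ((h1 σ σ').2 h)
  · intro a b
    induction a using Quotient.inductionOn with
    | _ σ =>
      induction b using Quotient.inductionOn with
      | _ σ' =>
        intro h
        exact Quotient.sound ((h1 σ σ').1 (congrArg Subtype.val h))
  · rintro ⟨v, q, hq, hv⟩
    rw [Set.mem_singleton_iff] at hq
    subst hq
    obtain ⟨σ, hσ⟩ := pl_surj hL w ((H38T1.mem_iff_eq hpp).1 hv)
    exact ⟨Quotient.mk _ σ, Subtype.ext hσ.symm⟩

end H88T7
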