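import Pool.Agent.H88.T7.Ga

/-!
ROW Gn (project MP_78d38b_T7, about 170 lines): powers of the Frobenius element, signs and cycles.

PROOF. Write `(-1)^e x` for `if e = 0 then x else - x` (`e ∈ ZMod 2`; compare the private `Ck_e` in `H93/T1/Ck.lean`).
pow_sign: `φ₀^k x = (-1)^(k e) x` by induction; for `k = orderOf φ₀`: `(-1)^(orderOf φ₀ * e) = 1` (`x ≠ 0`, characteristic zero). If `e = 0` done.
If `e = 1`: `orderOf φ₀` is even, so `j` is odd (coprime), `(-1)^(j) = -1`. (If the order is `0`... the group is finite.)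
pow_cyc: for a permutation `π = actH φ₀` of a finite set, `orderOf π ∣ orderOf φ₀`, so `j` is prime to `orderOf π`; there is `i` with
`(π^j)^i = π` (`Nat.Coprime`, `exists_pow_eq_self_of_coprime`), so `SameCycle` is the same relation and the same for the period: the minimal
period of `σ` under `π` is the number of elements of its cycle; or: `(π^j)^k σ = σ ↔ π^k σ = σ` for all `k` (raise to the power `i`).
`actH (φ₀^j) = π^j` (`map_pow`).
cyc_sign: `π = actH K L φ`, `n` the length of the cycle `O` of `σ`. For `τ ∈ O`: `(φ (r τ))^2 = φ (τ y) = (π τ) y = (r (π τ))^2`, so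
`φ (r τ) = (-1)^(c τ) r (π τ)`. `φ (∏ O r τ) = (-1)^(∑ c τ) ∏ r (π τ) = (-1)^(∑ c τ) ∏ r τ` (`π` permutes `O`), so `∑ c τ = e` (`r τ ≠ 0` as
`y ≠ 0`). And `φ^k (r σ) = (-1)^(c σ + c (π σ) + .. + c (π^(k-1) σ)) r (π^k σ)`; for `k = n`: `π^n σ = σ` and `σ, π σ, .., π^(n-1) σ` are the elements
of `O`, each once: `φ^n (r σ) = (-1)^e r σ`.
-/

set_option autoImplicit false
set_option linter.unusedSectionVars false
open scoped Classical

open WithZero NumberField IsDedekindDomain H38RT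
open H38T1 (SC sc rep eo la si Pri OddP LD XX XX' NS ov rp SqMod)

namespace H88T7

variable {K L : Type} [Field K] [NumberField K] [Field L] [NumberField L]

private theorem Gn_neg {t : L} (ht : t ≠ 0) : -t ≠ t := by
  intro h
  have h1 : (2 : L) * t = 0 := by linear_combination -h
  rcases mul_eq_zero.1 h1 with h2 | h2
  · exact two_ne_zero h2
  · exact ht h2

private theorem Gn_fix {φ₀ : L ≃ₐ[ℚ] L} {x : L} (h : φ₀ x = x) (k : ℕ) : (φ₀ ^ k) x = x := by
  induction k with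
  | zero => rfl
  | succ k ih =>
    have h1 : (φ₀ ^ (k + 1)) x = (φ₀ ^ k) (φ₀ x) := by
      rw [pow_succ]
      rfl
    rw [h1, h, ih]

private theorem Gn_sgn {φ₀ : L ≃ₐ[ℚ] L} {x : L} (h : φ₀ x = -x) (k : ℕ) :
    (φ₀ ^ k) x = (-1) ^ k * x := by
  induction k with
  | zero =>
    rw [pow_zero, pow_zero, one_mul]
    rfl
  | succ k ih =>
    have h1 : (φ₀ ^ (k + 1)) x = (φ₀ ^ k) (φ₀ x) := by
      rw [pow_succ]
      rfl
    rw [h1, h, map_neg, ih, pow_succ]
    ring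

theorem pow_sign {φ₀ : L ≃ₐ[ℚ] L} {j : ℕ} (hj : j.Coprime (orderOf φ₀)) {x : L} (hx : x ≠ 0)
    {e : ZMod 2} (h : φ₀ x = if e = 0 then x else - x) :
    (φ₀ ^ j) x = if e = 0 then x else - x := by
  by_cases he : e = 0
  · rw [if_pos he] at h ⊢
    exact Gn_fix h j
  · rw [if_neg he] at h ⊢
    have h1 := Gn_sgn h (orderOf φ₀)
    rw [pow_orderOf_eq_one] at h1
    have h2 : Even (orderOf φ₀) := by
      by_contra h3
      rw [Nat.not_even_iff_odd] at h3
      rw [h3.neg_one_pow] at h1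
      have h4 : x = -1 * x := h1
      apply Gn_neg hx
      linear_combination -h4
    have h5 : Odd j := by
      by_contra h3
      rw [Nat.not_odd_iff_even] at h3
      have h6 : 2 ∣ Nat.gcd j (orderOf φ₀) :=
        Nat.dvd_gcd (even_iff_two_dvd.1 h3) (even_iff_two_dvd.1 h2)
      have h7 : Nat.gcd j (orderOf φ₀) = 1 := hj
      rw [h7] at h6
      omega
    rw [Gn_sgn h, h5.neg_one_pow]
    ring

theorem pow_cyc {φ₀ : L ≃ₐ[ℚ] L} {j : ℕ} (hj : j.Coprime (orderOf φ₀)) :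
    (∀ σ τ : K →ₐ[ℚ] L,
      (actH K L (φ₀ ^ j)).SameCycle σ τ ↔ (actH K L φ₀).SameCycle σ τ) ∧
    ∀ σ : K →ₐ[ℚ] L, Function.minimalPeriod (actH K L (φ₀ ^ j)) σ =
      Function.minimalPeriod (actH K L φ₀) σ := by
  obtain ⟨m, hm⟩ := exists_pow_eq_self_of_coprime hj
  have h1 : (actH K L φ₀ ^ j) ^ m = actH K L φ₀ := by
    rw [← map_pow, ← map_pow, hm]
  rw [map_pow]
  obtain ⟨π, hπ⟩ : ∃ π, π = actH K L φ₀ := ⟨_, rfl⟩
  rw [← hπ] at h1 ⊢
  refine ⟨fun σ τ => ⟨Equiv.Perm.SameCycle.of_pow, fun h => ?_⟩, fun σ => ?_⟩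
  · rw [← h1] at h
    exact h.of_pow
  · rw [Function.minimalPeriod_eq_minimalPeriod_iff]
    intro n
    have e1 : Function.IsPeriodicPt (π ^ j) n σ ↔ ((π ^ j) ^ n) σ = σ := Iff.rfl
    have e2 : Function.IsPeriodicPt π n σ ↔ (π ^ n) σ = σ := Iff.rfl
    have key : ∀ (ρ : Equiv.Perm (K →ₐ[ℚ] L)) (i : ℕ), ρ σ = σ → (ρ ^ i) σ = σ := by
      intro ρ i hρ
      induction i with
      | zero => rfl
      | succ i ih =>
        rw [pow_succ, Equiv.Perm.mul_apply, hρ, ih]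
    rw [e1, e2]
    constructor
    · intro h2
      have h3 := key _ m h2
      rw [← pow_mul, mul_comm n m, pow_mul, h1] at h3
      exact h3
    · intro h2
      have h3 := key _ j h2
      rw [← pow_mul, mul_comm n j, pow_mul] at h3
      exact h3

theorem cyc_sign {φ : L ≃ₐ[ℚ] L} {σ : K →ₐ[ℚ] L} {O : Finset (K →ₐ[ℚ] L)}
    (hO : ∀ τ, τ ∈ O ↔ (actH K L φ).SameCycle σ τ) {y : K} (hy : y ≠ 0)
    (r : (K →ₐ[ℚ] L) → L) (hr : ∀ τ ∈ O, r τ ^ 2 = τ y) {e : ZMod 2}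
    (h : φ (∏ τ ∈ O, r τ) = if e = 0 then ∏ τ ∈ O, r τ else - ∏ τ ∈ O, r τ) :
    (φ ^ Function.minimalPeriod (actH K L φ) σ) (r σ) = if e = 0 then r σ else - r σ := by
  obtain ⟨π, hπ⟩ : ∃ π, π = actH K L φ := ⟨_, rfl⟩
  rw [← hπ] at hO ⊢
  have hOπ : ∀ τ, τ ∈ O ↔ π τ ∈ O := by
    intro τ
    rw [hO, hO, Equiv.Perm.sameCycle_apply_right]
  have hrne : ∀ τ ∈ O, r τ ≠ 0 := by
    intro τ hτ h0
    have h1 := hr τ hτ
    rw [h0, zero_pow two_ne_zero] at h1
    exact hy ((map_eq_zero_iff τ τ.toRingHom.injective).1 h1.symm)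
  have hprod : ∏ τ ∈ O, r τ ≠ 0 := Finset.prod_ne_zero_iff.2 hrne
  have hz : ∀ τ, ∃ z : ℤ, τ ∈ O → φ (r τ) = (z : L) * r (π τ) := by
    intro τ
    by_cases hτ : τ ∈ O
    · have h1 : (φ (r τ)) ^ 2 = (r (π τ)) ^ 2 := by
        rw [← map_pow, hr τ hτ, hr (π τ) ((hOπ τ).1 hτ), hπ, actH_apply]
      rcases sq_eq_sq_iff_eq_or_eq_neg.1 h1 with h2 | h2
      · refine ⟨1, fun _ => ?_⟩
        rw [h2, Int.cast_one, one_mul]
      · refine ⟨-1, fun _ => ?_⟩
        rw [h2]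
        push_cast
        ring
    · exact ⟨0, fun h' => absurd h' hτ⟩
  choose z hz using hz
  -- the product over the orbit
  have h1 : φ (∏ τ ∈ O, r τ) = ((∏ τ ∈ O, z τ : ℤ) : L) * ∏ τ ∈ O, r τ := by
    rw [map_prod]
    have h2 : ∏ τ ∈ O, φ (r τ) = ∏ τ ∈ O, ((z τ : L) * r (π τ)) :=
      Finset.prod_congr rfl fun τ hτ => hz τ hτ
    have h3 : ∏ τ ∈ O, r (π τ) = ∏ τ ∈ O, r τ :=
      Finset.prod_equiv π (fun τ => hOπ τ) (fun _ _ => rfl)
    rw [h2, Finset.prod_mul_distrib, h3]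
    push_cast
    rfl
  have hs : ((∏ τ ∈ O, z τ : ℤ) : L) = if e = 0 then 1 else -1 := by
    rw [h1] at h
    apply mul_right_cancel₀ hprod
    rw [h]
    split_ifs
    · rw [one_mul]
    · ring
  -- iteration
  have hσ : σ ∈ O := (hO σ).2 (Equiv.Perm.SameCycle.refl _ _)
  have hit : ∀ k : ℕ, (π ^ k) σ ∈ O := by
    intro k
    rw [hO]
    exact ⟨k, by rw [zpow_natCast]⟩
  have h2 : ∀ k : ℕ, (φ ^ k) (r σ) =
      ((∏ i ∈ Finset.range k, z ((π ^ i) σ) : ℤ) : L) * r ((π ^ k) σ) := by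
    intro k
    induction k with
    | zero =>
      rw [Finset.prod_range_zero, Int.cast_one, one_mul]
      rfl
    | succ k ih =>
      have h3 : (φ ^ (k + 1)) (r σ) = φ ((φ ^ k) (r σ)) := by
        rw [pow_succ']
        rfl
      have h4 : (π ^ (k + 1)) σ = π ((π ^ k) σ) := by
        rw [pow_succ']
        rfl
      rw [h3, ih, map_mul, map_intCast, hz _ (hit k), Finset.prod_range_succ, h4]
      push_cast
      ring
  obtain ⟨n, hn⟩ : ∃ n, n = Function.minimalPeriod π σ := ⟨_, rfl⟩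
  rw [← hn]
  have hn0 : 0 < n := by
    rw [hn]
    refine Function.minimalPeriod_pos_of_mem_periodicPts
      (Function.mk_mem_periodicPts (orderOf_pos π) ?_)
    show (π ^ orderOf π) σ = σ
    rw [pow_orderOf_eq_one]
    rfl
  have hnσ : (π ^ n) σ = σ := by
    rw [hn]
    exact Function.iterate_minimalPeriod
  have h5 : ∏ i ∈ Finset.range n, z ((π ^ i) σ) = ∏ τ ∈ O, z τ := by
    refine Finset.prod_bij (fun i _ => (π ^ i) σ) (fun i _ => hit i) ?_ ?_ (fun _ _ => rfl)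
    · intro i hi j hj hij
      rw [Finset.mem_range] at hi hj
      refine Function.iterate_injOn_Iio_minimalPeriod (f := π) (x := σ) ?_ ?_ hij
      · rw [← hn]
        exact hi
      · rw [← hn]
        exact hj
    · intro τ hτ
      obtain ⟨i, hi⟩ := ((hO τ).1 hτ).exists_nat_pow_eq
      refine ⟨i % n, Finset.mem_range.2 (Nat.mod_lt _ hn0), ?_⟩
      have h6 : π^[i % Function.minimalPeriod π σ] σ = π^[i] σ :=
        Function.iterate_mod_minimalPeriod_eq
      rw [← hn] at h6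
      exact h6.trans hi
  rw [h2 n, h5, hs, hnσ]
  split_ifs
  · rw [one_mul]
  · ring

end H88T7
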