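import Pool.Agent.H88.T7.Df

/-!
ROW Ab (project MP_78d38b_T7, about 150 lines): the places of the rational numbers.

PROOF. int_rep: `r = sc x`, `x = n / d` (`sc_surj`, `Rat.num_div_den`), `sc x = sc (n d)` as `n d = x d^2`
(`sc_mul`, `sc_eq_zero`, `SC.two_smul`); write the integer `n d = ± t^2 s` with `s` squarefree
(`Nat.sq_mul_squarefree` for `natAbs`, see `H38T1.Mb_square`); `m = ± s`.
rat_ef: `K = ℚ` is Galois over `ℚ` of degree one; `H38T1.Ed_odd` gives only the parity; the values: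
`Ideal.sum_ramification_inertia` / the identity `e f g = 1`; or directly: `H38T1.Ed_ordq v : ord V (rp v) = e`
and `(rp v : 𝓞 ℚ)` generates `v.asIdeal` (`Rat.ringOfIntegersEquiv`, every ideal of `ℤ` is principal, compare
`Cf_rat` in `Pool/Agent/H93/T1/Cf.lean`: the norm of `v` is prime), so `e = 1`; `f`: the residue ring has
`rp v` elements (`Cf_rat`, `Cf_inj`). If `inertiaDeg` is hard use
`Ideal.inertiaDeg_algebraMap`/`Ideal.absNorm_eq_pow_inertiaDeg`: `absNorm v = (rp v)^f` is prime, so `f = 1`.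
rat_inj: `H93T1.Cf_inj` (the norm is injective on the places of `𝓞 ℚ`) or `uniqueAbove_rat` in
`Pool/Agent/H10/RatLoc.lean`.
ov_rat: existence `H38T1.exists_above` (file `H38/T1/Md.lean`) or `H38T1.Mb_above`, uniqueness rat_inj,
`mem_iff_eq`. nice_rat, bas_rat, dat_rat, st_rat follow (`Module.finrank_self`; `Nice` uses `rat_ef`).
-/

set_option autoImplicit false
set_option linter.unusedSectionVars false
open scoped Classical

open WithZero NumberField IsDedekindDomain H38RT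
open H38T1 (SC sc rep eo la si Pri OddP LD XX XX' NS ov rp SqMod)

namespace H88T7

theorem int_rep (r : SC ℚ) : ∃ m : ℤ, m ≠ 0 ∧ Squarefree m ∧ sc (m : ℚ) = r := by
  obtain ⟨x, hx, rfl⟩ := H38T1.sc_surj r
  obtain ⟨N, hN⟩ : ∃ N : ℤ, N = x.num * x.den := ⟨_, rfl⟩
  have hd0 : (x.den : ℚ) ≠ 0 := by exact_mod_cast x.den_nz
  have hNx : (N : ℚ) = x * ((x.den : ℚ) * x.den) := by
    have h1 := Rat.mul_den_eq_num x
    rw [hN]
    push_cast
    rw [← h1]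
    ring
  have hN0 : N ≠ 0 := by
    intro h0
    have h1 : (N : ℚ) ≠ 0 := by
      rw [hNx]
      exact mul_ne_zero hx (mul_ne_zero hd0 hd0)
    exact h1 (by rw [h0]; simp)
  have hscN : sc (N : ℚ) = sc x := by
    rw [hNx, H38T1.sc_mul hx (mul_ne_zero hd0 hd0), (H38T1.sc_eq_zero (mul_ne_zero hd0 hd0)).2 ⟨_, rfl⟩, add_zero]
  obtain ⟨a, b, hab, hsq⟩ := Nat.sq_mul_squarefree N.natAbs
  have hNat : N.natAbs ≠ 0 := Int.natAbs_ne_zero.2 hN0
  have ha0 : a ≠ 0 := by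
    rintro rfl
    exact not_squarefree_zero hsq
  have hb0 : b ≠ 0 := by
    rintro rfl
    rw [zero_pow two_ne_zero, zero_mul] at hab
    exact hNat hab.symm
  have hbq : (b : ℚ) ≠ 0 := by exact_mod_cast hb0
  have hsgn : N.sign = 1 ∨ N.sign = -1 := by
    rcases lt_trichotomy N 0 with h | h | h
    · exact Or.inr (Int.sign_eq_neg_one_of_neg h)
    · exact absurd h hN0
    · exact Or.inl (Int.sign_eq_one_of_pos h)
  have hNe : N = N.sign * a * ((b : ℤ) * b) := by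
    conv_lhs => rw [← Int.sign_mul_natAbs N, ← hab]
    push_cast
    ring
  have hma : (N.sign * (a : ℤ)).natAbs = a := by
    rw [Int.natAbs_mul, Int.natAbs_natCast]
    rcases hsgn with h | h <;> rw [h] <;> simp
  have hm0 : N.sign * (a : ℤ) ≠ 0 := by
    intro h0
    rw [h0, Int.natAbs_zero] at hma
    exact ha0 hma.symm
  refine ⟨N.sign * a, hm0, ?_, ?_⟩
  · rw [← Int.squarefree_natAbs, hma]
    exact hsq
  · have hmq : ((N.sign * (a : ℤ) : ℤ) : ℚ) ≠ 0 := by exact_mod_cast hm0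
    rw [← hscN]
    have e1 : (N : ℚ) = ((N.sign * (a : ℤ) : ℤ) : ℚ) * ((b : ℚ) * b) := by
      conv_lhs => rw [hNe]
      push_cast
      ring
    rw [e1, H38T1.sc_mul hmq (mul_ne_zero hbq hbq), (H38T1.sc_eq_zero (mul_ne_zero hbq hbq)).2 ⟨_, rfl⟩, add_zero]

theorem Ab_ef {K : Type} [Field K] [NumberField K] [IsGalois ℚ K] (hK : Module.finrank ℚ K = 1)
    (v : HeightOneSpectrum (𝓞 K)) :
    v.asIdeal.ramificationIdx ℤ = 1 ∧ v.asIdeal.inertiaDeg ℤ = 1 := by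
  have h1 := H38T1.Ed_lies v
  have hq : Prime ((rp v : ℕ) : ℤ) := Nat.prime_iff_prime_int.1 (H38T1.rp_prime v)
  have hp : (Ideal.span {((rp v : ℕ) : ℤ)}).IsPrime :=
    (Ideal.span_singleton_prime hq.ne_zero).2 hq
  have hm := Ideal.ncard_primesOver_mul_ramificationIdxIn_mul_inertiaDegIn
    (Ideal.span {((rp v : ℕ) : ℤ)}) (𝓞 K) Gal(K/ℚ)
  rw [Ideal.ramificationIdxIn_eq_ramificationIdx _ v.asIdeal Gal(K/ℚ),
    Ideal.inertiaDegIn_eq_inertiaDeg _ v.asIdeal Gal(K/ℚ),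
    IsGaloisGroup.card_eq_finrank Gal(K/ℚ) ℚ K, hK] at hm
  have h2 : v.asIdeal.ramificationIdx ℤ * v.asIdeal.inertiaDeg ℤ = 1 :=
    Nat.dvd_one.1 (Dvd.intro_left _ hm)
  exact ⟨Nat.dvd_one.1 (Dvd.intro _ h2), Nat.dvd_one.1 (Dvd.intro_left _ h2)⟩

theorem rat_ef (v : HeightOneSpectrum (𝓞 ℚ)) :
    v.asIdeal.ramificationIdx ℤ = 1 ∧ v.asIdeal.inertiaDeg ℤ = 1 := by
  have e : (DivisionRing.toRatAlgebra : Algebra ℚ ℚ) = Algebra.id ℚ := Subsingleton.elim _ _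
  have h1 : @IsGalois ℚ _ ℚ _ (DivisionRing.toRatAlgebra : Algebra ℚ ℚ) := by
    rw [e]
    exact IsGalois.self ℚ
  have h2 : @Module.finrank ℚ ℚ _ _ (@Algebra.toModule ℚ ℚ _ _ (DivisionRing.toRatAlgebra : Algebra ℚ ℚ)) = 1 := by
    rw [e]
    exact Module.finrank_self ℚ
  exact @Ab_ef ℚ _ _ h1 h2 v

theorem Ab_prime {p : ℕ} (hp : p.Prime) : Prime (p : 𝓞 ℚ) := by
  rw [← MulEquiv.prime_iff (Rat.ringOfIntegersEquiv : 𝓞 ℚ ≃* ℤ)]
  change Prime (Rat.ringOfIntegersEquiv (p : 𝓞 ℚ))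
  rw [map_natCast]
  exact Nat.prime_iff_prime_int.mp hp

theorem Ab_rat (v : HeightOneSpectrum (𝓞 ℚ)) : v.asIdeal = Ideal.span {((rp v : ℕ) : 𝓞 ℚ)} := by
  have hpr := Ab_prime (H38T1.rp_prime v)
  have h1 : (Ideal.span {((rp v : ℕ) : 𝓞 ℚ)}).IsPrime := (Ideal.span_singleton_prime hpr.ne_zero).2 hpr
  have h2 : (Ideal.span {((rp v : ℕ) : 𝓞 ℚ)}) ≠ ⊥ := by
    rw [Ne, Ideal.span_singleton_eq_bot]
    exact hpr.ne_zero
  have h3 : (Ideal.span {((rp v : ℕ) : 𝓞 ℚ)}).IsMaximal := h1.isMaximal h2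
  exact (h3.eq_of_le v.isPrime.ne_top (by
    rw [Ideal.span_singleton_le_iff_mem]
    exact H38T1.rp_mem v)).symm

theorem rat_inj {v w : HeightOneSpectrum (𝓞 ℚ)} (h : rp v = rp w) : v = w := by
  apply HeightOneSpectrum.ext
  rw [Ab_rat v, Ab_rat w, h]

theorem ov_rat {p : ℕ} (hp : p.Prime) :
    ∃ v : HeightOneSpectrum (𝓞 ℚ), rp v = p ∧ ov ℚ {p} = {v} := by
  have hpr := Ab_prime hp
  obtain ⟨v, hv⟩ : ∃ v : HeightOneSpectrum (𝓞 ℚ), v.asIdeal = Ideal.span {(p : 𝓞 ℚ)} :=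
    ⟨⟨Ideal.span {(p : 𝓞 ℚ)}, (Ideal.span_singleton_prime hpr.ne_zero).2 hpr, by
      rw [Ne, Ideal.span_singleton_eq_bot]
      exact hpr.ne_zero⟩, rfl⟩
  have hvp : rp v = p := by
    rw [← H38T1.mem_iff_eq hp, hv]
    exact Ideal.mem_span_singleton_self _
  refine ⟨v, hvp, ?_⟩
  ext w
  rw [Set.mem_singleton_iff]
  constructor
  · rintro ⟨q, hq, hqw⟩
    rw [Set.mem_singleton_iff] at hq
    subst hq
    rw [H38T1.mem_iff_eq hp] at hqw
    exact rat_inj (hqw.trans hvp.symm)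
  · rintro rfl
    exact ⟨p, rfl, (H38T1.mem_iff_eq hp).2 hvp⟩

theorem nice_rat {p : ℕ} (hp : p.Prime) (hp2 : p ≠ 2) : Nice ℚ p := by
  refine ⟨hp, hp2, fun v _ => ⟨(rat_ef v).1, ?_⟩⟩
  rw [(rat_ef v).2]
  exact odd_one

theorem Ab_odd : Odd (Module.finrank ℚ ℚ) := by
  rw [Module.finrank_self]
  exact odd_one

theorem dat_rat {K : Type} [Field K] [NumberField K] {B : Finset ℕ} {Dc : SC ℚ} {a β : ℤ}
    (h : Dat K B Dc a β) : Dat ℚ B Dc a β where
  odd := Ab_odd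
  two := h.two
  unr := fun v _ => (rat_ef v).1
  disc := h.disc
  toHyp7 := h.toHyp7
  co := h.co

theorem st_rat {K : Type} [Field K] [NumberField K] {B : Finset ℕ} {a β : ℤ} {Pp Pp' : Finset ℕ}
    (h : St K B a β Pp Pp') : St ℚ B a β Pp Pp' where
  dj := h.dj
  nice := fun p hp => nice_rat (h.nice p hp).1 (h.nice p hp).2.1
  ndvd := h.ndvd
  nB := h.nB
  sq := h.sq
  sq' := h.sq'

end H88T7
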