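import Pool.Agent.H88.T7.Aa
import Pool.Agent.H88.T7.Ab
import Pool.Agent.H42.PC.BFin

/-!
ROW Fb (project MP_78d38b_T7, about 110 lines): the set `B` of bad primes.
-/

set_option autoImplicit false
set_option linter.unusedSectionVars false
open scoped Classical

open WithZero NumberField IsDedekindDomain H38RT
open H38T1 (SC sc rep eo la si Pri OddP LD XX XX' NS ov rp SqMod)

namespace H88T7

theorem Fb_fin (K : Type) [Field K] [NumberField K] :
    {v : HeightOneSpectrum (𝓞 K) | v.asIdeal ∣ differentIdeal ℤ (𝓞 K)}.Finite := by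
  refine Ideal.finite_factors ?_
  exact differentIdeal_ne_bot

theorem Fb_unr (K : Type) [Field K] [NumberField K] (v : HeightOneSpectrum (𝓞 K))
    (h : ¬ v.asIdeal ∣ differentIdeal ℤ (𝓞 K)) : v.asIdeal.ramificationIdx ℤ = 1 := by
  have h1 : Algebra.IsUnramifiedAt ℤ v.asIdeal := not_dvd_differentIdeal_iff.1 h
  exact Ideal.ramificationIdx_eq_one v.asIdeal ℤ

theorem exists_B (K : Type) [Field K] [NumberField K] (hodd : Odd (Module.finrank ℚ K))
    (F : Finset ℕ) (hF : ∀ q ∈ F, q.Prime) : ∃ B : Finset ℕ,
      Bas K B (sc (NumberField.discr K : ℚ)) ∧ F ⊆ B ∧ (∀ q ∈ B, q.Prime) ∧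
      ∀ q : ℕ, q.Prime → (q : ℤ) ∣ NumberField.discr K → q ∈ B := by
  have hd : NumberField.discr K ≠ 0 := NumberField.discr_ne_zero K
  have hmem : ∀ q : ℕ, q.Prime → (q : ℤ) ∣ NumberField.discr K →
      q ∈ (NumberField.discr K).natAbs.primeFactors := by
    intro q hq hqd
    rw [Nat.mem_primeFactors]
    exact ⟨hq, Int.natCast_dvd.1 hqd, Int.natAbs_ne_zero.2 hd⟩
  refine ⟨((Fb_fin K).toFinset.image rp) ∪ (NumberField.discr K).natAbs.primeFactors ∪ {2} ∪ F,
    ?_, ?_, ?_, ?_⟩
  · refine ⟨hodd, ?_, ?_, ?_⟩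
    · simp
    · intro v hv
      refine Fb_unr K v fun h => hv ?_
      have h1 : rp v ∈ (Fb_fin K).toFinset.image rp :=
        Finset.mem_image_of_mem _ ((Set.Finite.mem_toFinset _).2 h)
      exact Finset.mem_union_left _ (Finset.mem_union_left _ (Finset.mem_union_left _ h1))
    · intro v hv
      refine eo_int0 (K := ℚ) hd ?_
      have h1 : ¬ ((rp v : ℕ) : ℤ) ∣ NumberField.discr K := by
        intro h
        exact hv (Finset.mem_union_left _ (Finset.mem_union_left _ (Finset.mem_union_right _
          (hmem _ (H38T1.rp_prime v) h))))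
      have h2 : padicValInt (rp v) (NumberField.discr K) = 0 := by
        unfold padicValInt
        refine padicValNat.eq_zero_of_not_dvd ?_
        intro h
        exact h1 (Int.natCast_dvd.2 h)
      rw [h2]
      exact Even.zero
  · exact Finset.subset_union_right
  · intro q hq
    rw [Finset.mem_union, Finset.mem_union, Finset.mem_union, Finset.mem_image,
      Finset.mem_singleton] at hq
    rcases hq with ((⟨v, -, rfl⟩ | hq) | rfl) | hq
    · exact H38T1.rp_prime v
    · exact Nat.prime_of_mem_primeFactors hq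
    · exact Nat.prime_two
    · exact hF q hq
  · intro q hq hqd
    exact Finset.mem_union_left _ (Finset.mem_union_left _ (Finset.mem_union_right _
      (hmem q hq hqd)))

end H88T7
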