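import Pool.Agent.H88.T7.Aa
import Pool.Agent.H88.T7.Ab

/-!
ROW Ac (project MP_78d38b_T7, about 150 lines): the restriction `res K : SC ℚ → SC K` and the local
functions.

PROOF. `int_rep r`: `r = sc (m : ℚ)` with `m` a squarefree integer, so `res K r = sc (m : K)` (`res_int`).
For the place `w` of `ℚ`: `rat_ef w`, so `eo w r = (padicValInt (rp w) m : ZMod 2)` (`eo_int7`), and `rp w = rp v`.
eo_res0: `eo w r = 0` means `padicValInt` even; `eo_int0`. eo_res1: `eo_int7` twice.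
la_res: if `eo w r = 0` then `padicValInt` is even and at most one (squarefree), so it is zero and `rp v` does not
divide `m`; `la_int7` for `v` (`hf`) and for `w` (`inertiaDeg = 1`): both classes vanish iff `SqMod (rp v) m`; two
elements of `ZMod 2` with the same zero condition are equal (`H38T1.zmod_two`).
la_res0: the same with `la_int0`.
pri_res: `v`, `w` above two. `Pri w (sc m)` means `Prm (w.valuation ℚ) m` (`H38T1.pri_sc`): `m = t^2 (z^2 - 4 c)` with
`w z = 1`, `w c ≤ 1` in `ℚ`. In `K`: the same identity; `v.valuation K x = 1`, `≤ 1` follow from `w.valuation ℚ x = 1`,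
`≤ 1` (for rational `x`: the valuation of `K` restricted to `ℚ`: write `x = n / d` in lowest terms: `w x ≤ 1` iff `2 ∤ d`,
`v.valuation K` of an integer not divisible by `rp v` is one: `H38T1.Mb_val_one`, `Mb_val_le`). Then `H38T1.pri_sc`
for `v`.
si_res: `si w (res K r) = 0` for all real `w` if `r` is positive: `H38T1.si_sc`, `sw`: sign of `w m = m`;
the real embedding of `ℚ` is unique: `u m = m` (`map_intCast`).
-/

set_option autoImplicit false
set_option linter.unusedSectionVars false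
open scoped Classical

open WithZero NumberField IsDedekindDomain H38RT
open H38T1 (SC sc rep eo la si Pri OddP LD XX XX' NS ov rp SqMod)

namespace H88T7

variable {K : Type} [Field K] [NumberField K] {v : HeightOneSpectrum (𝓞 K)}
  {w : HeightOneSpectrum (𝓞 ℚ)}

private theorem Ac_val_one {v : HeightOneSpectrum (𝓞 K)} {m : ℤ} (h : ¬ (rp v : ℤ) ∣ m) :
    v.valuation K (m : K) = 1 := by
  have h2 : (m : 𝓞 K) ∉ v.asIdeal := fun h' => h ((H38T1.mem_iff_int m).1 h')
  have h3 := (v.valuation_eq_one_iff_notMem (K := K) (r := (m : 𝓞 K))).mpr h2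
  rwa [map_intCast] at h3

private theorem Ac_val_le {v : HeightOneSpectrum (𝓞 K)} (m : ℤ) :
    v.valuation K (m : K) ≤ 1 := by
  have h2 := v.valuation_le_one (K := K) (m : 𝓞 K)
  change v.valuation K (algebraMap (𝓞 K) K (m : 𝓞 K)) ≤ 1 at h2
  rwa [map_intCast] at h2

private theorem Ac_val_lt {v : HeightOneSpectrum (𝓞 K)} {m : ℤ} (h : (rp v : ℤ) ∣ m) :
    v.valuation K (m : K) < 1 := by
  have h2 := (v.valuation_lt_one_iff_mem (K := K) (m : 𝓞 K)).2 ((H38T1.mem_iff_int m).2 h)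
  change v.valuation K (algebraMap (𝓞 K) K (m : 𝓞 K)) < 1 at h2
  rwa [map_intCast] at h2

private theorem Ac_even {n : ℕ} (h : ((n : ℕ) : ZMod 2) = 0) : Even n := by
  rw [ZMod.natCast_eq_zero_iff] at h
  exact even_iff_two_dvd.2 h

private theorem Ac_ndvd {p : ℕ} (hp : p.Prime) {m : ℤ} (hm : m ≠ 0) (hs : Squarefree m)
    (h : Even (padicValInt p m)) : ¬ (p : ℤ) ∣ m := by
  intro hd
  have hF : Fact p.Prime := ⟨hp⟩
  have h1 : 1 ≤ padicValInt p m := by
    have h2 : ((p : ℕ) : ℤ) ^ 1 ∣ m := by rwa [pow_one]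
    rw [padicValInt_dvd_iff] at h2
    rcases h2 with h2 | h2
    · exact absurd h2 hm
    · exact h2
  obtain ⟨k, hk⟩ := h
  have h3 : ((p : ℕ) : ℤ) ^ 2 ∣ m := by
    rw [padicValInt_dvd_iff]
    right
    omega
  have h4 := hs (p : ℤ) (by rwa [← sq])
  rw [Int.isUnit_iff] at h4
  have h5 := hp.two_le
  omega

theorem eo_res0 (hvw : rp v = rp w) {r : SC ℚ} (h : eo w r = 0) : eo v (res K r) = 0 := by
  obtain ⟨m, hm, hs, rfl⟩ := int_rep r
  rw [eo_int7 (rat_ef w).1 hm] at h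
  rw [res_int hm]
  refine eo_int0 hm ?_
  rw [hvw]
  exact Ac_even h

theorem eo_res1 (he : v.asIdeal.ramificationIdx ℤ = 1) (hvw : rp v = rp w) (r : SC ℚ) :
    eo v (res K r) = eo w r := by
  obtain ⟨m, hm, hs, rfl⟩ := int_rep r
  rw [res_int hm, eo_int7 he hm, eo_int7 (rat_ef w).1 hm, hvw]

theorem la_res (hf : Odd (v.asIdeal.inertiaDeg ℤ)) (h2 : rp v ≠ 2) (hvw : rp v = rp w) {r : SC ℚ}
    (h : eo w r = 0) : la v (res K r) = la w r := by
  obtain ⟨m, hm, hs, rfl⟩ := int_rep r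
  rw [eo_int7 (rat_ef w).1 hm] at h
  have hn : ¬ (rp w : ℤ) ∣ m := Ac_ndvd (H38T1.rp_prime w) hm hs (Ac_even h)
  have hn' : ¬ (rp v : ℤ) ∣ m := by
    rw [hvw]
    exact hn
  have h3 : la v (sc (m : K)) = 0 ↔ SqMod (rp v) m := la_int7 hf h2 hn'
  have h4 : la w (sc (m : ℚ)) = 0 ↔ SqMod (rp w) m :=
    la_int7 (by
      rw [(rat_ef w).2]
      exact odd_one) (by
      rw [← hvw]
      exact h2) hn
  rw [← hvw, ← h3] at h4
  rw [res_int hm]
  rcases H38T1.zmod_two (la v (sc (m : K))) with h5 | h5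
  · rw [h5, h4.2 h5]
  · rcases H38T1.zmod_two (la w (sc (m : ℚ))) with h6 | h6
    · rw [h4.1 h6, h6]
    · rw [h5, h6]

theorem la_res0 (h2 : rp v ≠ 2) (hvw : rp v = rp w) {r : SC ℚ} (h : eo w r = 0)
    (h' : la w r = 0) : la v (res K r) = 0 := by
  obtain ⟨m, hm, hs, rfl⟩ := int_rep r
  rw [eo_int7 (rat_ef w).1 hm] at h
  have hn : ¬ (rp w : ℤ) ∣ m := Ac_ndvd (H38T1.rp_prime w) hm hs (Ac_even h)
  have hn' : ¬ (rp v : ℤ) ∣ m := by
    rw [hvw]
    exact hn
  have h4 : la w (sc (m : ℚ)) = 0 ↔ SqMod (rp w) m :=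
    la_int7 (by
      rw [(rat_ef w).2]
      exact odd_one) (by
      rw [← hvw]
      exact h2) hn
  rw [res_int hm]
  refine la_int0 h2 hn' ?_
  rw [hvw]
  exact h4.1 h'

private theorem Ac_le (hvw : rp v = rp w) {x : ℚ} (h : w.valuation ℚ x ≤ 1) :
    v.valuation K (algebraMap ℚ K x) ≤ 1 := by
  have hd0 : ((x.den : ℤ) : ℚ) ≠ 0 := by exact_mod_cast x.den_ne_zero
  have hx : x = (x.num : ℚ) / ((x.den : ℤ) : ℚ) := by
    have := Rat.num_div_den x
    rw [Int.cast_natCast]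
    exact this.symm
  have hnd : ¬ (rp w : ℤ) ∣ (x.den : ℤ) := by
    intro hd
    have hnn : ¬ (rp w : ℤ) ∣ x.num := by
      intro hn
      have h1 : (rp w : ℤ) ∣ (Int.gcd x.num x.den : ℤ) := Int.dvd_coe_gcd hn hd
      have h2 : Int.gcd x.num x.den = 1 := x.reduced
      rw [h2] at h1
      have h3 := Int.natCast_dvd_natCast.1 h1
      exact (H38T1.rp_prime w).one_lt.ne' (Nat.dvd_one.1 h3)
    have h1 : w.valuation ℚ (x.num : ℚ) = 1 := Ac_val_one hnn
    have h2 : w.valuation ℚ ((x.den : ℤ) : ℚ) < 1 := Ac_val_lt hd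
    have h3 : (x.num : ℚ) = x * ((x.den : ℤ) : ℚ) := by
      rw [eq_comm, ← eq_div_iff hd0]
      exact hx
    have h4 : w.valuation ℚ (x.num : ℚ) < 1 := by
      rw [h3, map_mul]
      exact mul_lt_one_of_nonneg_of_lt_one_right h zero_le h2
    rw [h1] at h4
    exact lt_irrefl _ h4
  have hvd : v.valuation K ((x.den : ℤ) : K) = 1 := by
    refine Ac_val_one ?_
    rw [hvw]
    exact hnd
  rw [hx, map_div₀, map_intCast, map_intCast, map_div₀, hvd, div_one]
  exact Ac_val_le _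

private theorem Ac_one (hvw : rp v = rp w) {x : ℚ} (h : w.valuation ℚ x = 1) :
    v.valuation K (algebraMap ℚ K x) = 1 := by
  have h1 : v.valuation K (algebraMap ℚ K x) ≤ 1 := Ac_le hvw h.le
  have h2 : v.valuation K (algebraMap ℚ K x⁻¹) ≤ 1 := Ac_le hvw (by
    rw [map_inv₀, h, inv_one])
  have hx : x ≠ 0 := by
    rintro rfl
    rw [map_zero] at h
    exact zero_ne_one h
  have h3 : v.valuation K (algebraMap ℚ K x) * v.valuation K (algebraMap ℚ K x⁻¹) = 1 := by
    rw [← map_mul, ← map_mul, mul_inv_cancel₀ hx, map_one, map_one]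
  refine le_antisymm h1 ?_
  calc (1 : ℤᵐ⁰) = v.valuation K (algebraMap ℚ K x) * v.valuation K (algebraMap ℚ K x⁻¹) := h3.symm
    _ ≤ v.valuation K (algebraMap ℚ K x) * 1 := mul_le_mul_right h2 _
    _ = v.valuation K (algebraMap ℚ K x) := mul_one _

theorem pri_res (h2 : rp v = 2) (hvw : rp v = rp w) {r : SC ℚ} (h : Pri w r) :
    Pri v (res K r) := by
  obtain ⟨m, hm, hs, rfl⟩ := int_rep r
  have hv : ¬ OddP v := by
    rw [H38T1.oddP_iff, not_not]
    exact h2
  have hw : ¬ OddP w := by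
    rw [H38T1.oddP_iff, not_not, ← hvw]
    exact h2
  have hmQ : (m : ℚ) ≠ 0 := by exact_mod_cast hm
  have hmK : (m : K) ≠ 0 := by exact_mod_cast hm
  rw [H38T1.pri_sc hw hmQ] at h
  rw [res_int hm, H38T1.pri_sc hv hmK]
  obtain ⟨t, z, c, ht, hz, hc, he⟩ := h
  refine ⟨algebraMap ℚ K t, algebraMap ℚ K z, algebraMap ℚ K c, (map_ne_zero _).2 ht,
    Ac_one hvw hz, Ac_le hvw hc, ?_⟩
  have h3 := congrArg (algebraMap ℚ K) he
  rw [map_intCast, map_mul, map_pow, map_sub, map_pow, map_mul, map_ofNat] at h3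
  exact h3

theorem si_res {r : SC ℚ} (h : ∀ u : ℚ →+* ℝ, si u r = 0) (u : K →+* ℝ) : si u (res K r) = 0 := by
  obtain ⟨m, hm, hs, rfl⟩ := int_rep r
  have hmQ : (m : ℚ) ≠ 0 := by exact_mod_cast hm
  have hmK : (m : K) ≠ 0 := by exact_mod_cast hm
  have h1 := h (algebraMap ℚ ℝ)
  rw [H38T1.si_sc _ hmQ] at h1
  rw [res_int hm, H38T1.si_sc _ hmK]
  unfold sw at h1 ⊢
  rw [map_intCast] at h1 ⊢
  exact h1

end H88T7
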