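import Pool.Agent.H88.T7.Ac
import Pool.Agent.H38.T1.Md
import Pool.Agent.H24.TD.Yb
import Pool.Agent.H24.TD.Fi
import Pool.Agent.H38.T1.Mb

/-!
ROW Ah (project MP_78d38b_T7, about 170 lines): the local data are good, the groups are finite
subgroups and contain the classes of `β` and `a^2 - 64 β`.

PROOF. Let `D = a^2 - 64 β < 0`, odd (as `a` is odd), `q` a prime dividing `β D`: `q ≠ 2` (both are odd), `q ∉ B` (`hD.co`);
no prime divides both (`q ∣ β`, `q ∣ D` give `q ∣ a`, against `IsCoprime a β`).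
good7: `H38T1.fin_ov` (the divisors of a nonzero integer are finitely many: `pd`), odd places (`H38T1.oddP_iff`, `mem_ov`),
disjointness from the remark, `hS.dj`, `hS.ndvd`; `Sg = ∅`.
sub7, sub7': `eo_add`, `la_add`, `si_add`, `pri_add`, `.._zero` of `H38/T1/Ea.lean` (compare `H38T1.XX_add` in `Md.lean`; `-c = c`:
`H38T1.Md_neg`).
fin7, fin7': `XX L`, `XX' L` are contained in the set of classes of even order outside the finite set
`P ∪ P' ∪ {v | ¬ OddP v}`, which is finite: `H24TD.UU_fin` / `H24TD.US`, see `Pool/Agent/H24/TD/Gx.lean`, `Yb.lean`, `Us.lean` (`UU_fin`,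
`YY_fin`, `fin_US`).
beta_mem: `eo v (sc β) = 0` if `rp v ∤ β` (`eo_int0`, `padicValInt = 0`), and `v ∉ P'` means `rp v ∤ β`. `v ∈ P`: `rp v ∣ D`:
`β` is a square modulo `rp v` (`64 β ≡ a^2`; `H38T1.Mb_sqb` with `b = 16 β`, then divide by `16 = 4^2`) or `rp v ∈ Pp` (`hS.sq`):
`la_int0`. `0 < β`: `si_sc`. disc_mem: the same: `v ∉ P` means `rp v ∤ D`; `v ∈ P'`: `D ≡ a^2` modulo `β`, or `hS.sq'`.
Primary at two: `D = a^2 - 4 (16 β)`, `Prm` with `t = 1`, `z = a`, `c = 16 β` (`H38T1.pri_sc`, `Mb_val_one`, `Mb_val_le`).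
beta_ne: over `ℚ`: `β` is not a square (squarefree, `β > 0`, `β ≠ 1`); `sc (β : ℚ) ≠ 0` by `H38T1.sq_int` with `K = ℚ`.
disc_ne: `D < 0`. For `K`: `H38T1.sq_int hodd`. beta_ne_disc: the product `β D` is negative, not a square
(`sc_mul`).
-/

set_option autoImplicit false
set_option linter.unusedSectionVars false
open scoped Classical

open WithZero NumberField IsDedekindDomain H38RT
open H38T1 (SC sc rep eo la si Pri OddP LD XX XX' NS ov rp SqMod)

namespace H88T7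

variable {K : Type} [Field K] [NumberField K] {B : Finset ℕ} {Dc : SC ℚ} {a β : ℤ}
  {Pp Pp' : Finset ℕ}

theorem Ah_beta_ne (hD : Dat K B Dc a β) : β ≠ 0 := by
  rintro rfl
  have := hD.bo
  omega

theorem Ah_beta_pos (hD : Dat K B Dc a β) : 0 < β := by
  have h1 := hD.pos
  have h2 := sq_nonneg a
  omega

theorem Ah_disc_neg (hD : Dat K B Dc a β) : a ^ 2 - 64 * β < 0 := by
  have h1 := hD.pos
  omega

theorem Ah_ne_two (hD : Dat K B Dc a β) {q : ℕ} (hq : q.Prime)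
    (h : (q : ℤ) ∣ β * (a ^ 2 - 64 * β)) : q ≠ 2 := by
  rintro rfl
  exact hD.co 2 hq h hD.two

theorem Ah_cop (hD : Dat K B Dc a β) {q : ℕ} (hq : q.Prime) (h1 : (q : ℤ) ∣ β)
    (h2 : (q : ℤ) ∣ a ^ 2 - 64 * β) : False := by
  have hqp := Nat.prime_iff_prime_int.1 hq
  have h3 : (q : ℤ) ∣ a ^ 2 := by
    have h4 := dvd_add h2 (Dvd.dvd.mul_left h1 64)
    have e : a ^ 2 - 64 * β + 64 * β = a ^ 2 := by ring
    rwa [e] at h4
  exact hqp.not_isUnit (hD.cop.isUnit_of_dvd' (hqp.dvd_of_dvd_pow h3) h1)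

theorem Ah_pd_fin {m : ℤ} (hm : m ≠ 0) : (pd m).Finite := by
  refine (Set.finite_Iic m.natAbs).subset ?_
  rintro q ⟨_, hq⟩
  exact Nat.le_of_dvd (Int.natAbs_pos.2 hm) (Int.natCast_dvd.1 hq)

theorem Ah_prime {m : ℤ} (hS : St K B a β Pp Pp') {q : ℕ} (h : q ∈ pd m ∪ (Pp : Set ℕ)) :
    q.Prime := by
  rcases h with h | h
  · exact h.1
  · exact (hS.nice q (Finset.mem_union_left _ (Finset.mem_coe.1 h))).1

theorem Ah_prime' {m : ℤ} (hS : St K B a β Pp Pp') {q : ℕ} (h : q ∈ pd m ∪ (Pp' : Set ℕ)) :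
    q.Prime := by
  rcases h with h | h
  · exact h.1
  · exact (hS.nice q (Finset.mem_union_right _ (Finset.mem_coe.1 h))).1

theorem Ah_P (hD : Dat K B Dc a β) (hS : St K B a β Pp Pp') {v : HeightOneSpectrum (𝓞 K)}
    (hv : v ∈ ov K (pd (a ^ 2 - 64 * β) ∪ (Pp : Set ℕ))) :
    rp v ≠ 2 ∧ ¬ (rp v : ℤ) ∣ β ∧ SqMod (rp v) β := by
  have h := (H38T1.mem_ov (fun q hq => Ah_prime hS hq)).1 hv
  have hq := H38T1.rp_prime v
  rcases h with h | h
  · have h2 := Ah_ne_two hD hq (Dvd.dvd.mul_left h.2 β)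
    refine ⟨h2, fun h3 => Ah_cop hD hq h3 h.2, ?_⟩
    have h4 : (rp v : ℤ) ∣ a ^ 2 - 4 * (16 * β) := by
      have e : a ^ 2 - 4 * (16 * β) = a ^ 2 - 64 * β := by ring
      rw [e]
      exact h.2
    obtain ⟨t, ht⟩ := H38T1.Mb_sqb hq h2 h4
    have h5 : (rp v : ℤ) ∣ t ^ 2 - 4 * (4 * β) := by
      have e : t ^ 2 - 4 * (4 * β) = -(16 * β - t ^ 2) := by ring
      rw [e, dvd_neg]
      exact ht
    obtain ⟨u, hu⟩ := H38T1.Mb_sqb hq h2 h5
    refine H38T1.Mb_sqb hq h2 (a := u) ?_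
    have e : u ^ 2 - 4 * β = -(4 * β - u ^ 2) := by ring
    rw [e, dvd_neg]
    exact hu
  · have hm := Finset.mem_union_left Pp' (Finset.mem_coe.1 h)
    refine ⟨(hS.nice _ hm).2.1, fun h3 => hS.ndvd _ hm ((h3.mul_right _).mul_left _), ?_⟩
    exact (hS.sq _ (Finset.mem_coe.1 h)).1

theorem Ah_P' (hD : Dat K B Dc a β) (hS : St K B a β Pp Pp') {v : HeightOneSpectrum (𝓞 K)}
    (hv : v ∈ ov K (pd β ∪ (Pp' : Set ℕ))) :
    rp v ≠ 2 ∧ ¬ (rp v : ℤ) ∣ a ^ 2 - 64 * β ∧ SqMod (rp v) (a ^ 2 - 64 * β) := by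
  have h := (H38T1.mem_ov (fun q hq => Ah_prime' hS hq)).1 hv
  have hq := H38T1.rp_prime v
  rcases h with h | h
  · have h2 := Ah_ne_two hD hq (Dvd.dvd.mul_right h.2 _)
    refine ⟨h2, fun h3 => Ah_cop hD hq h.2 h3, ⟨a, ?_⟩⟩
    have e : a ^ 2 - 64 * β - a ^ 2 = (-64) * β := by ring
    rw [e]
    exact h.2.mul_left _
  · have hm := Finset.mem_union_right Pp (Finset.mem_coe.1 h)
    refine ⟨(hS.nice _ hm).2.1, fun h3 => hS.ndvd _ hm ((h3.mul_left _).mul_left _), ?_⟩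
    exact (hS.sq' _ (Finset.mem_coe.1 h)).2

theorem Ah_eo {m : ℤ} (hm : m ≠ 0) {Q : Set ℕ} {v : HeightOneSpectrum (𝓞 K)}
    (hQ : ∀ q ∈ pd m ∪ Q, q.Prime) (hv : v ∉ ov K (pd m ∪ Q)) : eo v (sc (m : K)) = 0 := by
  refine eo_int0 hm ?_
  have h : ¬ (rp v : ℤ) ∣ m := fun h =>
    hv ((H38T1.mem_ov hQ).2 (Or.inl ⟨H38T1.rp_prime v, h⟩))
  rw [padicValInt.eq_zero_of_not_dvd h]
  exact Even.zero

theorem Ah_sq (hD : Dat K B Dc a β) : ¬ IsSquare β := by
  rintro ⟨t, ht⟩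
  have h1 : Squarefree β := hD.sqf.squarefree_of_dvd (dvd_mul_right _ _)
  have h2 := h1 t ⟨1, by rw [mul_one]; exact ht⟩
  rcases Int.isUnit_iff.1 h2 with h | h
  · exact hD.ne (by rw [ht, h]; norm_num)
  · exact hD.ne (by rw [ht, h]; norm_num)

theorem Ah_neg {m : ℤ} (hm : m < 0) : ¬ IsSquare m := by
  rintro ⟨t, ht⟩
  have := mul_self_nonneg t
  omega

theorem good7 (hD : Dat K B Dc a β) (hS : St K B a β Pp Pp') : (L7 K a β Pp Pp').Good := by
  have hβ := Ah_beta_ne hD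
  have hd : a ^ 2 - 64 * β ≠ 0 := (Ah_disc_neg hD).ne
  refine ⟨Set.finite_empty, ?_, ?_, ?_, ?_, ?_, ?_, ?_, ?_, ?_⟩
  · exact H38T1.fin_ov ((Ah_pd_fin hd).union (Finset.finite_toSet _)) (fun q hq => Ah_prime hS hq)
  · exact H38T1.fin_ov ((Ah_pd_fin hβ).union (Finset.finite_toSet _)) (fun q hq => Ah_prime' hS hq)
  · intro v hv
    exact absurd hv (Set.notMem_empty v)
  · intro v hv
    exact H38T1.oddP_iff.2 (Ah_P hD hS hv).1
  · intro v hv
    exact H38T1.oddP_iff.2 (Ah_P' hD hS hv).1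
  · exact Set.empty_disjoint _
  · exact Set.empty_disjoint _
  · rw [Set.disjoint_left]
    intro v hv hv'
    have h1 := Ah_P hD hS hv
    have h2 := Ah_P' hD hS hv'
    have h3 := (H38T1.mem_ov (fun q hq => Ah_prime hS hq)).1 hv
    have h4 := (H38T1.mem_ov (fun q hq => Ah_prime' hS hq)).1 hv'
    rcases h3 with h3 | h3
    · exact h2.2.1 h3.2
    · rcases h4 with h4 | h4
      · exact h1.2.1 h4.2
      · exact Finset.disjoint_left.1 hS.dj (Finset.mem_coe.1 h3) (Finset.mem_coe.1 h4)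
  · intro v hv
    exact absurd hv (Set.notMem_empty v)

theorem sub7 (hD : Dat K B Dc a β) (hS : St K B a β Pp Pp') :
    ∃ H : AddSubgroup (SC K), (H : Set (SC K)) = XX (L7 K a β Pp Pp') := by
  exact H38T1.XX_add (good7 hD hS)

theorem sub7' (hD : Dat K B Dc a β) (hS : St K B a β Pp Pp') :
    ∃ H : AddSubgroup (SC K), (H : Set (SC K)) = XX' (L7 K a β Pp Pp') := by
  have hG := good7 hD hS
  refine ⟨{ carrier := XX' (L7 K a β Pp Pp'), add_mem' := ?_, zero_mem' := ?_, neg_mem' := ?_ },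
    rfl⟩
  · rintro c c' ⟨h1, h2, h3, h4, h5⟩ ⟨h1', h2', h3', h4', h5'⟩
    refine ⟨fun v x y => ?_, fun v x => ?_, fun v x => ?_, fun v x => ?_, fun x w => ?_⟩
    · rw [H38T1.eo_add, h1 v x y, h1' v x y, add_zero]
    · exact (H38T1.pri_add x (h2 v x) (h2' v x)).1
    · exact absurd x (Set.notMem_empty v)
    · rw [H38T1.la_add (hG.oddP' v x), h4 v x, h4' v x, add_zero]
    · exact absurd x Bool.false_ne_true
  · refine ⟨fun v x y => H38T1.eo_zero v, fun v x => H38T1.pri_zero x, fun v x => ?_,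
      fun v x => H38T1.la_zero (hG.oddP' v x), fun x w => ?_⟩
    · exact absurd x (Set.notMem_empty v)
    · exact absurd x Bool.false_ne_true
  · intro c hc
    rw [H38T1.Md_neg]
    exact hc

theorem fin7 (hD : Dat K B Dc a β) (hS : St K B a β Pp Pp') : (XX (L7 K a β Pp Pp')).Finite := by
  refine (H24TD.fin_US (good7 hD hS).finP').subset fun c hc v hv => ?_
  exact hc.1 v (Set.notMem_empty v) hv

theorem fin7' (hD : Dat K B Dc a β) (hS : St K B a β Pp Pp') :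
    (XX' (L7 K a β Pp Pp')).Finite := by
  refine (H24TD.fin_US (good7 hD hS).finP).subset fun c hc v hv => ?_
  exact hc.1 v (Set.notMem_empty v) hv

theorem beta_mem (hD : Dat K B Dc a β) (hS : St K B a β Pp Pp') :
    sc (β : K) ∈ XX (L7 K a β Pp Pp') := by
  have hβ := Ah_beta_ne hD
  have hβK : (β : K) ≠ 0 := by exact_mod_cast hβ
  refine ⟨fun v _ hv => ?_, fun v hv => absurd hv (Set.notMem_empty v), fun v hv => ?_,
    fun _ w => ?_⟩
  · exact Ah_eo hβ (fun q hq => Ah_prime' hS hq) hv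
  · obtain ⟨h1, h2, h3⟩ := Ah_P hD hS hv
    exact la_int0 h1 h2 h3
  · rw [H38T1.si_sc w hβK]
    unfold sw
    rw [if_neg]
    rw [map_intCast, not_lt]
    exact_mod_cast (Ah_beta_pos hD).le

theorem disc_mem (hD : Dat K B Dc a β) (hS : St K B a β Pp Pp') :
    sc ((a ^ 2 - 64 * β : ℤ) : K) ∈ XX' (L7 K a β Pp Pp') := by
  have hd : a ^ 2 - 64 * β ≠ 0 := (Ah_disc_neg hD).ne
  have hdK : ((a ^ 2 - 64 * β : ℤ) : K) ≠ 0 := by exact_mod_cast hd
  refine ⟨fun v _ hv => ?_, fun v hv => ?_, fun v hv => absurd hv (Set.notMem_empty v),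
    fun v hv => ?_, fun h => absurd h Bool.false_ne_true⟩
  · exact Ah_eo hd (fun q hq => Ah_prime hS hq) hv
  · rw [H38T1.pri_sc hv hdK]
    have h2 : rp v = 2 := by
      by_contra h
      exact hv (H38T1.oddP_iff.2 h)
    refine ⟨1, (a : K), ((16 * β : ℤ) : K), one_ne_zero, H38T1.Mb_val_one ?_,
      H38T1.Mb_val_le (16 * β), ?_⟩
    · rw [h2, Nat.cast_ofNat]
      have := hD.a4
      omega
    · push_cast
      ring
  · obtain ⟨h1, h2, h3⟩ := Ah_P' hD hS hv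
    exact la_int0 h1 h2 h3

theorem ne7 (hD : Dat K B Dc a β) : sc (β : K) ≠ 0 ∧ sc ((a ^ 2 - 64 * β : ℤ) : K) ≠ 0 ∧
    sc (β : K) ≠ sc ((a ^ 2 - 64 * β : ℤ) : K) := by
  have hβ := Ah_beta_ne hD
  have hdn := Ah_disc_neg hD
  have hd : a ^ 2 - 64 * β ≠ 0 := hdn.ne
  have hβK : (β : K) ≠ 0 := by exact_mod_cast hβ
  have hdK : ((a ^ 2 - 64 * β : ℤ) : K) ≠ 0 := by exact_mod_cast hd
  refine ⟨H38T1.sq_int hD.odd hβ (Ah_sq hD), H38T1.sq_int hD.odd hd (Ah_neg hdn), fun h => ?_⟩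
  refine H38T1.sq_int (K := K) hD.odd (m := β * (a ^ 2 - 64 * β)) (mul_ne_zero hβ hd)
    (Ah_neg (mul_neg_of_pos_of_neg (Ah_beta_pos hD) hdn)) ?_
  rw [Int.cast_mul, H38T1.sc_mul hβK hdK, h]
  exact (two_nsmul _).symm.trans (SC.two_smul _)

end H88T7
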