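import Pool.Agent.H88.T7.Df

/-!
ROW Ad (project MP_78d38b_T7, about 110 lines): simultaneous approximation of a square class.

PROOF. Let `x₀ = rep c`. For `v ∈ T` choose `y v ≠ 0` with `V_v (x₀ y_v^2 - 1) ≤ exp (-k v)`, `k v > 0`. Weak
approximation: there is `y ∈ K` with `V_v (y - y_v) < V_v (y_v) exp (-k v)` for all `v ∈ T`: take `m ∈ 𝓞 K`, `m ≠ 0`, with
`m y_v ∈ 𝓞 K` for all `v ∈ T` (product of denominators, `IsFractionRing.div_surjective`), and with the Chinese remainder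
theorem (`IsDedekindDomain.exists_forall_sub_mem_ideal`, see its use in `Pool/Agent/H38/RT/Pr.lean`) `s ∈ 𝓞 K` with
`s - m y_v ∈ v ^ N_v` for all `v ∈ T`, `N_v` large (`V_v` of an element of `v ^ N` is `≤ exp (-N)`); `y = s / m`.
Then `V_v y = V_v y_v`, `y = y_v (1 + ε)` with `V_v ε < exp (-k v)`, so `x₀ y^2 - 1 = (x₀ y_v^2 - 1)(1 + ε)^2 + (2 ε + ε^2)`
has valuation `≤ exp (-k v)`. `x = x₀ y^2`, `sc x = sc x₀ = c` (`sc_mul`, `sc_rep`, `sc (y * y) = 0` as in `sc_eq_zero`);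
`x ≠ 0`: if `T` is empty take `x = x₀`, otherwise `V_v y = V_v y_v ≠ 0`.
approx_unit: for `v ∈ T` the order of `x₀` is even (`eo v c = (ord V_v x₀ : ZMod 2) = 0`), so there is `y_v = unif v ^ j`
with `V_v (x₀ y_v^2) = 1` (`H38T1.unif_spec`); choose `y` as above with `V_v (y - y_v) < V_v y_v`, so `V_v y = V_v y_v`.
-/

set_option autoImplicit false
set_option linter.unusedSectionVars false
open scoped Classical

open WithZero NumberField IsDedekindDomain H38RT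
open H38T1 (SC sc rep eo la si Pri OddP LD XX XX' NS ov rp SqMod)

namespace H88T7

variable {K : Type} [Field K] [NumberField K]

theorem Ad_wa (S : Finset (HeightOneSpectrum (𝓞 K))) (t : HeightOneSpectrum (𝓞 K) → K)
    (ht : ∀ v ∈ S, t v ≠ 0) (γ : HeightOneSpectrum (𝓞 K) → WithZero (Multiplicative ℤ))
    (hγ : ∀ v ∈ S, γ v ≠ 0) (hγ1 : ∀ v ∈ S, γ v ≤ 1) :
    ∃ y : K, y ≠ 0 ∧ ∀ v ∈ S, v.valuation K (y / t v - 1) < γ v := by
  rcases S.eq_empty_or_nonempty with rfl | ⟨v₀, hv₀⟩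
  · exact ⟨1, one_ne_zero, fun v hv => absurd hv (Finset.notMem_empty v)⟩
  obtain ⟨s, hs0, hs⟩ := Pr_match S (fun v => (t v)⁻¹) (fun v hv => inv_ne_zero (ht v hv))
  have h1 : ∀ v ∈ S, v.valuation K (t v / s) ≤ 1 := by
    intro v hv
    have h2 := hs v hv
    have h3 : t v / s = (s * (t v)⁻¹)⁻¹ := by
      rw [mul_inv, inv_inv, div_eq_mul_inv, mul_comm]
    rw [h3, map_inv₀, h2, inv_one]
  obtain ⟨a, ha⟩ := Pr_app S (fun v => t v / s) h1 γ hγ
  have key : ∀ v ∈ S, v.valuation K ((a : K) * s / t v - 1) < γ v := by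
    intro v hv
    have ht' := ht v hv
    have h3 : (a : K) * s / t v - 1 = (s * (t v)⁻¹) * ((a : K) - t v / s) := by
      field_simp
    rw [h3, map_mul, hs v hv, one_mul]
    exact ha v hv
  refine ⟨(a : K) * s, ?_, key⟩
  intro h0
  have h4 := key v₀ hv₀
  rw [h0, zero_div, zero_sub, Valuation.map_neg, map_one] at h4
  exact absurd (h4.trans_le (hγ1 v₀ hv₀)) (lt_irrefl _)

theorem Ad_sc (c : SC K) {Y : K} (hY : Y ≠ 0) :
    rep c * Y ^ 2 ≠ 0 ∧ sc (rep c * Y ^ 2) = c := by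
  refine ⟨mul_ne_zero (H38T1.rep_ne c) (pow_ne_zero 2 hY), ?_⟩
  rw [H38T1.sc_mul (H38T1.rep_ne c) (pow_ne_zero 2 hY), H38T1.sc_rep,
    (H38T1.sc_eq_zero (pow_ne_zero 2 hY)).2 ⟨Y, sq Y⟩, add_zero]

theorem approx_cls {T : Set (HeightOneSpectrum (𝓞 K))} (hT : T.Finite) (c : SC K)
    (k : HeightOneSpectrum (𝓞 K) → ℤ) (hk : ∀ v ∈ T, 0 < k v)
    (h : ∀ v ∈ T, ∃ y : K, y ≠ 0 ∧ v.valuation K (rep c * y ^ 2 - 1) ≤ exp (-k v)) :
    ∃ x : K, x ≠ 0 ∧ sc x = c ∧ ∀ v ∈ T, v.valuation K (x - 1) ≤ exp (-k v) := by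
  choose! y hy0 hy using h
  have hlt : ∀ v ∈ T, exp (-k v) < (1 : WithZero (Multiplicative ℤ)) := by
    intro v hv
    rw [← exp_zero, exp_lt_exp]
    have := hk v hv
    omega
  obtain ⟨Y, hY0, hY⟩ := Ad_wa hT.toFinset y (fun v hv => hy0 v (hT.mem_toFinset.1 hv))
    (fun v => exp (-k v)) (fun v _ => exp_ne_zero) (fun v hv => (hlt v (hT.mem_toFinset.1 hv)).le)
  refine ⟨rep c * Y ^ 2, (Ad_sc c hY0).1, (Ad_sc c hY0).2, fun v hv => ?_⟩
  obtain ⟨ε, hε⟩ : ∃ ε : K, ε = Y / y v - 1 := ⟨_, rfl⟩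
  have h1 : v.valuation K ε < exp (-k v) := by
    rw [hε]
    exact hY v (hT.mem_toFinset.2 hv)
  have h2 : v.valuation K ε < 1 := h1.trans (hlt v hv)
  have hYe : Y = y v * (1 + ε) := by
    have := hy0 v hv
    rw [hε]
    field_simp
    ring
  have h3 : rep c * Y ^ 2 - 1 = (rep c * y v ^ 2 - 1) * (1 + ε) ^ 2 + ε * (2 + ε) := by
    rw [hYe]
    ring
  have h4 : v.valuation K (1 + ε) = 1 := Valuation.map_one_add_of_lt _ h2
  have h5 : v.valuation K (2 + ε) ≤ 1 := by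
    refine (Valuation.map_add _ _ _).trans (max_le ?_ h2.le)
    have h6 := Pr_nat v 2
    rwa [Nat.cast_ofNat] at h6
  rw [h3]
  refine (Valuation.map_add _ _ _).trans (max_le ?_ ?_)
  · rw [map_mul, map_pow, h4, one_pow, mul_one]
    exact hy v hv
  · rw [map_mul]
    exact (mul_le_of_le_one_right' h5).trans h1.le

/-- The same with units: a class of even order at the places of `T` has a representative which is
a unit there. -/
theorem approx_unit {T : Set (HeightOneSpectrum (𝓞 K))} (hT : T.Finite) (c : SC K)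
    (h : ∀ v ∈ T, eo v c = 0) :
    ∃ x : K, x ≠ 0 ∧ sc x = c ∧ ∀ v ∈ T, v.valuation K x = 1 := by
  have hex : ∀ v ∈ T, ∃ y : K, y ≠ 0 ∧ v.valuation K (rep c * y ^ 2) = 1 := by
    intro v hv
    have h1 : ((ord (v.valuation K) (rep c) : ℤ) : ZMod 2) = 0 := h v hv
    rw [ZMod.intCast_zmod_eq_zero_iff_dvd] at h1
    obtain ⟨j, hj⟩ := h1
    have hu : H38T1.unif v ≠ 0 := by
      intro h0
      have h2 := H38T1.unif_spec v
      rw [h0, map_zero] at h2
      exact exp_ne_zero h2.symm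
    refine ⟨H38T1.unif v ^ (-j), zpow_ne_zero _ hu, ?_⟩
    have h2 : v.valuation K (rep c) ≠ 0 := (Valuation.ne_zero_iff _).2 (H38T1.rep_ne c)
    have h3 : v.valuation K (rep c) = exp (-(2 * j)) := by
      have h4 : log (v.valuation K (rep c)) = -(2 * j) := by
        unfold ord at hj
        push_cast at hj
        omega
      rw [← exp_log h2, h4]
    rw [map_mul, map_pow, map_zpow₀, H38T1.unif_spec, h3, ← exp_zsmul, ← exp_nsmul, ← exp_add,
      ← exp_zero]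
    congr 1
    simp only [smul_eq_mul, nsmul_eq_mul]
    push_cast
    ring
  choose! y hy0 hy using hex
  obtain ⟨Y, hY0, hY⟩ := Ad_wa hT.toFinset y (fun v hv => hy0 v (hT.mem_toFinset.1 hv))
    (fun v => 1) (fun v _ => one_ne_zero) (fun v _ => le_rfl)
  refine ⟨rep c * Y ^ 2, (Ad_sc c hY0).1, (Ad_sc c hY0).2, fun v hv => ?_⟩
  have h1 : v.valuation K (Y / y v - 1) < 1 := hY v (hT.mem_toFinset.2 hv)
  have h2 : v.valuation K (1 + (Y / y v - 1)) = 1 := Valuation.map_one_add_of_lt _ h1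
  have h3 : rep c * Y ^ 2 = (rep c * y v ^ 2) * (1 + (Y / y v - 1)) ^ 2 := by
    have := hy0 v hv
    field_simp
    ring
  rw [h3, map_mul, map_pow, h2, hy v hv, one_pow, mul_one]

end H88T7
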