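import Pool.Agent.H88.T7.Ab

/-!
ROW Ae (project MP_78d38b_T7, about 150 lines): norms of elements close to one, norms of units.

PROOF. Let `l` be a prime.
(1) Denominators: if `V_v y ≤ 1` for all `v` with `rp v = l` then there are `m : ℤ`, `¬ l ∣ m` and `z : 𝓞 K` with
`m y = z`. Let `y = a / b`, `a, b ∈ 𝓞 K`; the ideal `I = {d ∈ 𝓞 K : d a ∈ (b)}` (or: the denominators of `y`) is not
contained in any `v` above `l` (`HeightOneSpectrum.exists_primeCompl_mul_eq_of_integer` gives `d ∉ v`, `d y ∈ 𝓞 K`), so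
`I + (l) = (1)` (a maximal ideal containing `I + (l)` would be a place above `l`; `I ≠ 0`), `1 = d + l t`, `d ∈ I`; so
`d = 1 - l t`. `m = N(d) ∈ ℤ` (`Algebra.norm ℤ`), `d ∣ m` in `𝓞 K` (`Algebra.dvd_norm` / `Ideal.absNorm_mem`), so `m y ∈ 𝓞 K`;
and `N(1 - l t) ≡ 1 mod l` by (2). (Alternative to `N(d)`: `I ∩ ℤ ≠ 0` and `I ∩ ℤ` is not in `(l)`.)
(2) For `m : ℤ`, `t : ℤ`, `z : 𝓞 K`: `Algebra.norm ℤ ((m : 𝓞 K) + t * z) ≡ m ^ n [ZMOD t]`, `n = finrank`: with a basis of `𝓞 K`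
over `ℤ` the norm is `det (m • 1 + t • A)` (`Algebra.norm_eq_matrix_det`, `map_add`, `Algebra.leftMulMatrix`), and modulo `t` it
is `det (m • 1) = m ^ n` (`Matrix.det_one_add_smul`-free: `RingHom.map_det` to `ZMod t.natAbs`, `Matrix.det_smul`,
`Matrix.det_one`); `Algebra.norm ℚ (x : K) = (Algebra.norm ℤ x : ℚ)` for `x : 𝓞 K` (`Algebra.coe_norm_int`).
(3) norm_one: `y = (x - 1) / l^k` satisfies (1). `m x = m + l^k z`, so `m^n N(x) = N(m + l^k z) = m^n + l^k s`, `s ∈ ℤ`; `N(x) - 1 =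
l^k s / m^n`; `w.valuation ℚ (m : ℚ) = 1` as `l ∤ m` (`H38T1.Mb_val_one` for `K = ℚ`), `w.valuation ℚ (s : ℚ) ≤ 1`.
(4) norm_unit: `V_v x = 1` for all `v` above `l`: (1) for `x` and `x⁻¹`: `m x = z`, `m' x⁻¹ = z'`, so `m^n N(x) ∈ ℤ`,
`m'^n N(x)⁻¹ ∈ ℤ` (norms of algebraic integers): `w.valuation ℚ (N x) ≤ 1` and `≥ 1`.
-/

set_option autoImplicit false
set_option linter.unusedSectionVars false
open scoped Classical

open WithZero NumberField IsDedekindDomain H38RT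
open H38T1 (SC sc rep eo la si Pri OddP LD XX XX' NS ov rp SqMod)

namespace H88T7

variable {K : Type} [Field K] [NumberField K]

private theorem Ae_val_one {F : Type} [Field F] [NumberField F] {v : HeightOneSpectrum (𝓞 F)} {m : ℤ}
    (h : ¬ (rp v : ℤ) ∣ m) : v.valuation F (m : F) = 1 := by
  have h2 : (m : 𝓞 F) ∉ v.asIdeal := fun h' => h ((H38T1.mem_iff_int m).1 h')
  have h3 := (v.valuation_eq_one_iff_notMem (K := F) (r := (m : 𝓞 F))).mpr h2
  rwa [map_intCast] at h3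

private theorem Ae_val_le {F : Type} [Field F] [NumberField F] {v : HeightOneSpectrum (𝓞 F)} (m : ℤ) :
    v.valuation F (m : F) ≤ 1 := by
  have h2 := v.valuation_le_one (K := F) (m : 𝓞 F)
  change v.valuation F (algebraMap (𝓞 F) F (m : 𝓞 F)) ≤ 1 at h2
  rwa [map_intCast] at h2

/-- norms modulo an integer -/
private theorem Ae_norm_mod (m t : ℤ) (z : 𝓞 K) :
    ∃ s : ℤ, Algebra.norm ℤ ((m : 𝓞 K) + (t : 𝓞 K) * z) = m ^ Module.finrank ℚ K + t * s := by
  have hr : Module.finrank ℚ K = Fintype.card (Module.Free.ChooseBasisIndex ℤ (𝓞 K)) := by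
    rw [← NumberField.RingOfIntegers.rank, Module.finrank_eq_card_basis (Module.Free.chooseBasis ℤ (𝓞 K))]
  have h1 := Algebra.norm_eq_matrix_det (Module.Free.chooseBasis ℤ (𝓞 K)) ((m : 𝓞 K) + (t : 𝓞 K) * z)
  have h2 : (m : 𝓞 K) + (t : 𝓞 K) * z = algebraMap ℤ (𝓞 K) m + t • z := by
    rw [zsmul_eq_mul, eq_intCast]
  rw [h2, map_add (Algebra.leftMulMatrix (Module.Free.chooseBasis ℤ (𝓞 K))), AlgHom.commutes,
    map_smul (Algebra.leftMulMatrix (Module.Free.chooseBasis ℤ (𝓞 K)))] at h1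
  rw [h2, h1, hr]
  set A := Algebra.leftMulMatrix (Module.Free.chooseBasis ℤ (𝓞 K)) z with hA
  have h3 : (Ideal.Quotient.mk (Ideal.span {t}) : ℤ →+* _)
      (Matrix.det (algebraMap ℤ (Matrix _ _ ℤ) m + t • A)) =
      Ideal.Quotient.mk (Ideal.span {t})
        (m ^ Fintype.card (Module.Free.ChooseBasisIndex ℤ (𝓞 K))) := by
    rw [RingHom.map_det]
    have h4 : (Ideal.Quotient.mk (Ideal.span {t}) : ℤ →+* _).mapMatrix
        (algebraMap ℤ (Matrix _ _ ℤ) m + t • A) =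
        (Ideal.Quotient.mk (Ideal.span {t}) m) • (1 : Matrix _ _ _) := by
      ext i j
      have h5 : (Ideal.Quotient.mk (Ideal.span {t}) : ℤ →+* _) t = 0 := by
        rw [Ideal.Quotient.eq_zero_iff_mem]
        exact Ideal.mem_span_singleton_self t
      rw [RingHom.mapMatrix_apply, Matrix.map_apply, Matrix.add_apply, Matrix.smul_apply,
        Matrix.smul_apply, map_add, smul_eq_mul, map_mul, h5, zero_mul, add_zero,
        Matrix.algebraMap_eq_diagonal, Matrix.diagonal_apply, Matrix.one_apply]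
      split_ifs
      · simp
      · simp
    rw [h4, Matrix.det_smul, Matrix.det_one, mul_one, map_pow]
  rw [Ideal.Quotient.eq, Ideal.mem_span_singleton] at h3
  obtain ⟨s, hs⟩ := h3
  exact ⟨s, by linarith⟩

/-- bounded denominators -/
private theorem Ae_denom (y : K) {l : ℕ} (hl : l.Prime)
    (h : ∀ v : HeightOneSpectrum (𝓞 K), rp v = l → v.valuation K y ≤ 1) :
    ∃ m : ℤ, ¬ (l : ℤ) ∣ m ∧ ∃ z : 𝓞 K,
      (m : K) * y = algebraMap (𝓞 K) K z := by
  obtain ⟨I, hI⟩ : ∃ I : Ideal (𝓞 K), ∀ d : 𝓞 K, d ∈ I ↔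
      ∃ z : 𝓞 K, algebraMap (𝓞 K) K d * y = algebraMap (𝓞 K) K z := by
    let I : Ideal (𝓞 K) :=
      { carrier := {d | ∃ z : 𝓞 K, algebraMap (𝓞 K) K d * y = algebraMap (𝓞 K) K z}
        add_mem' := by
          rintro a b ⟨z, hz⟩ ⟨z', hz'⟩
          refine ⟨z + z', ?_⟩
          rw [map_add, map_add, add_mul, hz, hz']
        zero_mem' := ⟨0, by rw [map_zero, zero_mul]⟩
        smul_mem' := by
          rintro c a ⟨z, hz⟩
          refine ⟨c * z, ?_⟩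
          rw [smul_eq_mul, map_mul, map_mul, mul_assoc, hz] }
    exact ⟨I, fun d => Iff.rfl⟩
  have htop : I ⊔ Ideal.span {(l : 𝓞 K)} = ⊤ := by
    by_contra hne
    obtain ⟨P, hP, hle⟩ := Ideal.exists_le_maximal _ hne
    have hlP : (l : 𝓞 K) ∈ P := hle (Ideal.mem_sup_right (Ideal.mem_span_singleton_self _))
    have hl0 : (l : 𝓞 K) ≠ 0 := by exact_mod_cast hl.ne_zero
    have hP0 : P ≠ ⊥ := by
      rintro rfl
      exact hl0 ((Submodule.mem_bot _).1 hlP)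
    let v : HeightOneSpectrum (𝓞 K) := ⟨P, hP.isPrime, hP0⟩
    have hv : rp v = l := (H38T1.mem_iff_eq hl).1 hlP
    obtain ⟨n, d, hnd⟩ := v.exists_primeCompl_mul_eq_of_integer y (h v hv)
    have hd : (d : 𝓞 K) ∈ I := by
      rw [hI]
      exact ⟨n, by rw [mul_comm]; exact hnd⟩
    exact d.2 (hle (Ideal.mem_sup_left hd))
  have h1 : (1 : 𝓞 K) ∈ I ⊔ Ideal.span {(l : 𝓞 K)} := by rw [htop]; exact Submodule.mem_top
  obtain ⟨d, hd, e, he, hde⟩ := Submodule.mem_sup.1 h1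
  obtain ⟨t, ht⟩ := Ideal.mem_span_singleton'.1 he
  have hdl : d = ((1 : ℤ) : 𝓞 K) + ((l : ℤ) : 𝓞 K) * (-t) := by
    have : d = 1 - e := by rw [← hde]; ring
    rw [this, ← ht]
    push_cast
    ring
  obtain ⟨s, hs⟩ := Ae_norm_mod (K := K) 1 (l : ℤ) (-t)
  rw [← hdl, one_pow] at hs
  have hmem : ((Ideal.absNorm (Ideal.span {d}) : ℕ) : 𝓞 K) ∈ I := by
    have h2 : ((Ideal.absNorm (Ideal.span {d}) : ℕ) : 𝓞 K) ∈ Ideal.span {d} := Ideal.absNorm_mem _
    exact (Ideal.span_singleton_le_iff_mem _).2 hd h2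
  refine ⟨((Ideal.absNorm (Ideal.span {d}) : ℕ) : ℤ), ?_, ?_⟩
  · rw [Ideal.absNorm_span_singleton, Int.dvd_natAbs, hs]
    intro hdv
    have h3 : (l : ℤ) ∣ 1 := by
      have := (Int.dvd_add_left (Dvd.intro s rfl : (l : ℤ) ∣ l * s)).1 hdv
      exact this
    have h4 := Int.natCast_dvd_natCast.1 (by exact_mod_cast h3 : ((l : ℕ) : ℤ) ∣ ((1 : ℕ) : ℤ))
    exact hl.one_lt.ne' (Nat.dvd_one.1 h4)
  · obtain ⟨z, hz⟩ := (hI _).1 hmem
    refine ⟨z, ?_⟩
    rw [← hz]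
    simp

private theorem Ae_norm_int (m : ℤ) : Algebra.norm ℚ (m : K) = (m : ℚ) ^ Module.finrank ℚ K := by
  have : (m : K) = algebraMap ℚ K (m : ℚ) := by simp
  rw [this, Algebra.norm_algebraMap]

private theorem Ae_coe (z : 𝓞 K) :
    (Algebra.norm ℤ z : ℚ) = Algebra.norm ℚ (algebraMap (𝓞 K) K z) := Algebra.coe_norm_int z

theorem norm_one {x : K} (k : ℕ) {w : HeightOneSpectrum (𝓞 ℚ)}
    (h : ∀ v : HeightOneSpectrum (𝓞 K), rp v = rp w →
      v.valuation K (x - 1) ≤ v.valuation K ((rp w : K) ^ k)) :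
    w.valuation ℚ (Algebra.norm ℚ x - 1) ≤ w.valuation ℚ ((rp w : ℚ) ^ k) := by
  have hl := H38T1.rp_prime w
  have hl0 : ((rp w : ℕ) : K) ^ k ≠ 0 := pow_ne_zero _ (by exact_mod_cast hl.ne_zero)
  obtain ⟨m, hm, z, hz⟩ := Ae_denom ((x - 1) / ((rp w : ℕ) : K) ^ k) hl (by
    intro v hv
    rw [map_div₀]
    apply div_le_one_of_le₀ (h v hv) zero_le)
  have h1 : (m : K) * x =
      algebraMap (𝓞 K) K ((m : 𝓞 K) + (((rp w : ℤ) ^ k : ℤ) : 𝓞 K) * z) := by
    rw [map_add, map_mul, map_intCast, map_intCast, ← hz]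
    push_cast
    field_simp
    ring
  obtain ⟨s, hs⟩ := Ae_norm_mod (K := K) m ((rp w : ℤ) ^ k) z
  have h2 := congrArg (Algebra.norm ℚ) h1
  rw [map_mul, Ae_norm_int, ← Ae_coe, hs] at h2
  push_cast at h2
  have hm0 : w.valuation ℚ ((m : ℚ) ^ Module.finrank ℚ K) = 1 := by
    rw [map_pow, Ae_val_one hm, one_pow]
  have h3 : (m : ℚ) ^ Module.finrank ℚ K * (Algebra.norm ℚ x - 1) = (rp w : ℚ) ^ k * (s : ℚ) := by
    linarith
  have h4 := congrArg (w.valuation ℚ) h3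
  rw [map_mul, hm0, one_mul, map_mul] at h4
  rw [h4]
  exact mul_le_of_le_one_right zero_le (Ae_val_le s)

theorem norm_unit {x : K} {w : HeightOneSpectrum (𝓞 ℚ)}
    (h : ∀ v : HeightOneSpectrum (𝓞 K), rp v = rp w → v.valuation K x = 1) :
    w.valuation ℚ (Algebra.norm ℚ x) = 1 := by
  have hl := H38T1.rp_prime w
  have hn : Module.finrank ℚ K ≠ 0 := (Module.finrank_pos (R := ℚ) (M := K)).ne'
  -- the bound for one element
  have key : ∀ y : K, (∀ v : HeightOneSpectrum (𝓞 K), rp v = rp w → v.valuation K y ≤ 1) →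
      w.valuation ℚ (Algebra.norm ℚ y) ≤ 1 := by
    intro y hy
    obtain ⟨m, hm, z, hz⟩ := Ae_denom y hl hy
    have h2 := congrArg (Algebra.norm ℚ) hz
    rw [map_mul, Ae_norm_int, ← Ae_coe] at h2
    have h4 := congrArg (w.valuation ℚ) h2
    rw [map_mul, map_pow, Ae_val_one hm, one_pow, one_mul] at h4
    rw [h4]
    exact Ae_val_le _
  have hx : x ≠ 0 := by
    rintro rfl
    have hno : ∀ v : HeightOneSpectrum (𝓞 K), rp v = rp w →
        v.valuation K ((1 : K) / ((rp w : ℕ) : K)) ≤ 1 := by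
      intro v hv
      have := h v hv
      rw [map_zero] at this
      exact absurd this zero_ne_one
    obtain ⟨m, hm, z, hz⟩ := Ae_denom ((1 : K) / ((rp w : ℕ) : K)) hl hno
    have hl0 : ((rp w : ℕ) : K) ≠ 0 := by exact_mod_cast hl.ne_zero
    have h1 : (m : K) = algebraMap (𝓞 K) K (((0 : ℤ) : 𝓞 K) + ((rp w : ℤ) : 𝓞 K) * z) := by
      rw [map_add, map_mul, map_intCast, map_intCast, ← hz]
      push_cast
      field_simp
      ring
    obtain ⟨s, hs⟩ := Ae_norm_mod (K := K) 0 (rp w : ℤ) z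
    have h2 := congrArg (Algebra.norm ℚ) h1
    rw [Ae_norm_int, ← Ae_coe, hs, zero_pow hn, zero_add] at h2
    have h3 : m ^ Module.finrank ℚ K = (rp w : ℤ) * s := by exact_mod_cast h2
    have h5 : (rp w : ℤ) ∣ m ^ Module.finrank ℚ K := ⟨s, h3⟩
    exact hm ((Nat.prime_iff_prime_int.1 hl).dvd_of_dvd_pow h5)
  apply le_antisymm
  · exact key x (fun v hv => (h v hv).le)
  · have h1 := key x⁻¹ (fun v hv => by rw [map_inv₀, h v hv, inv_one])
    have h2 : w.valuation ℚ (Algebra.norm ℚ x) * w.valuation ℚ (Algebra.norm ℚ x⁻¹) = 1 := by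
      rw [← map_mul, ← map_mul, mul_inv_cancel₀ hx, map_one, map_one]
    calc (1 : ℤᵐ⁰) = w.valuation ℚ (Algebra.norm ℚ x) * w.valuation ℚ (Algebra.norm ℚ x⁻¹) := h2.symm
      _ ≤ w.valuation ℚ (Algebra.norm ℚ x) * 1 := by gcongr
      _ = _ := mul_one _

end H88T7
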