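import Pool.Agent.H88.T7.Ac
import Pool.Agent.H88.T7.Ad
import Pool.Agent.H88.T7.Ae

/-!
ROW Af (project MP_78d38b_T7, about 160 lines): the norm of square classes and the local functions.

PROOF. `w` is a place of `ℚ`, `T = {v | rp v = rp w}` is finite (`H38T1.fin_ov` for `Q = {rp w}`, `H38T1.mem_ov`).
nm_eo: `approx_unit`: `c = sc x`, `V_v x = 1` for `v ∈ T`; `nm K c = sc (N x)` (`nm_sc`), `norm_unit`: `w (N x) = 1`,
`H38T1.eo_sc`: the order is zero.
nm_la: `rp w ≠ 2`, all `v ∈ T` have ramification index one. For `v ∈ T`: `eo v c = 0`, `la v c = 0`, so there is `y ≠ 0` with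
`V_v (rep c y^2 - 1) < 1`: let `x₀ = rep c`, `x₀ (unif v)^(-ord x₀)` is a unit with `Sq` (unfold `la`, `lam`: `la v c = 0` means
`Sq V (x₀ * unif ^ (-ord))`), the order is even, so `V_v (x₀ s^2 - t^2) < 1`, `V_v t = 1`, `y = s / t`. `< 1` means
`≤ exp (-1)` (the values are `exp` of integers: `WithZero` logarithm, `Int.lt_iff_add_one_le`). `approx_cls` with `k = 1`:
`c = sc x`, `V_v (x - 1) ≤ exp (-1) = V_v (rp w)` (`H38T1.Ed_ordq`: the order of `rp v` at `v` is the ramification index one). So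
`norm_one` with `k = 1`: `w (N x - 1) ≤ w (rp w) < 1`; hence `w (N x) = 1`, and `N x` is `1` modulo `w`, so `eo = 0`,
`la w (sc (N x)) = 0` (`H38T1.la_sc`, `lam_unit`, `Sq` with `t = 1`).
nm_pri: `rp w = 2`; for `v ∈ T`: `Pri v c` is `Prm V_v (rep c)`: `rep c = t^2 (z^2 - 4 c')` with `V z = 1`, `V c' ≤ 1`: `y = 1 / (t z)`:
`rep c y^2 - 1 = - 4 c' / z^2`, valuation `≤ V_v 4 = exp (-2 e_v)`. `approx_cls` with `k v = 2 e_v` (`V_v 2 = exp (-e_v)`,
`e_v > 0`), `norm_one` with `k = 2` (`(rp w)^2 = 4`): `w (N x - 1) ≤ w 4`. So `N x = 1 - 4 c''`, `w c'' ≤ 1`: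
`Prm (w.valuation ℚ) (N x)` with `t = z = 1`; `H38T1.pri_sc`.
nm_si: `c = sc x`, `x = rep c`; `si u c = 0` means `0 < u x` for all real embeddings `u` (`H38T1.si_sc`, `sw`). The norm of `x`
is positive: `Algebra.norm_eq_prod_embeddings`, the real embeddings contribute `u x > 0` and the complex ones occur in
conjugate pairs `z * conj z > 0`. (Alternative: `N(x)` is the product over the infinite places of `w x ^ mult`
up to the sign; or: in `Pool/Agent` the sign of the norm at totally positive elements, for example `u x > 0` for all real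
`u` implies that `x` is ... use `InfinitePlace` product: `∏ φ : K →+* ℂ, φ x`, split by `ComplexEmbedding.IsReal`,
pair `φ` with `ComplexEmbedding.conjugate φ` by `Finset.prod_involution`-like argument, or choose
`InfinitePlace.prod_eq_prod_mul_prod` and `NumberField.InfinitePlace.card_filter_mk_eq`.) The embedding `ℚ →+* ℝ` is unique:
`u r = r` (`map_ratCast`).
-/

set_option autoImplicit false
set_option linter.unusedSectionVars false
open scoped Classical

open WithZero NumberField IsDedekindDomain H38RT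
open H38T1 (SC sc rep eo la si Pri OddP LD XX XX' NS ov rp SqMod)

namespace H88T7

variable {K : Type} [Field K] [NumberField K]

private theorem Af_fin {l : ℕ} (hl : l.Prime) : {v : HeightOneSpectrum (𝓞 K) | rp v = l}.Finite := by
  have hq : ∀ q ∈ ({l} : Set ℕ), q.Prime := fun q hq => by
    rw [Set.mem_singleton_iff.1 hq]
    exact hl
  have h1 : {v : HeightOneSpectrum (𝓞 K) | rp v = l} = ov K {l} := by
    ext v
    rw [H38T1.mem_ov hq]
    exact Set.mem_singleton_iff.symm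
  rw [h1]
  exact H38T1.fin_ov (Set.finite_singleton l) hq

private theorem Af_lt {F : Type} [Field F] [NumberField F] (v : HeightOneSpectrum (𝓞 F)) :
    v.valuation F ((rp v : ℕ) : F) < 1 := by
  have h := (v.valuation_lt_one_iff_mem (K := F) ((rp v : ℕ) : 𝓞 F)).2 (H38T1.rp_mem v)
  have h1 : algebraMap (𝓞 F) F ((rp v : ℕ) : 𝓞 F) = ((rp v : ℕ) : F) := map_natCast _ _
  rw [← h1]
  exact h

private theorem Af_le_exp {a : WithZero (Multiplicative ℤ)} (h : a < 1) : a ≤ exp (-1 : ℤ) := by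
  rcases eq_or_ne a 0 with rfl | ha
  · exact zero_le
  · rw [← exp_log ha] at h ⊢
    rw [← exp_zero, exp_lt_exp] at h
    rw [exp_le_exp]
    omega

private theorem Af_val_ord {F : Type} [Field F] (V : Valuation F (WithZero (Multiplicative ℤ)))
    {x : F} (hx : x ≠ 0) : V x = exp (-ord V x) := by
  unfold ord
  rw [neg_neg, exp_log ((Valuation.ne_zero_iff _).2 hx)]

private theorem Af_ord_one {F : Type} [Field F] (V : Valuation F (WithZero (Multiplicative ℤ)))
    {x : F} (hx : V x = 1) : ord V x = 0 := by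
  unfold ord
  rw [hx, log_one, neg_zero]

private theorem Af_prod {x : K} (n : ℕ) : ∀ s : Finset (K →+* ℂ), s.card = n →
    (∀ φ ∈ s, ComplexEmbedding.conjugate φ ∈ s ∧ ComplexEmbedding.conjugate φ ≠ φ) →
    ∃ r : ℝ, 0 ≤ r ∧ ∏ φ ∈ s, φ x = (r : ℂ) := by
  induction n using Nat.strong_induction_on with
  | _ n ih =>
  intro s hs h
  rcases s.eq_empty_or_nonempty with rfl | ⟨φ, hφ⟩
  · exact ⟨1, zero_le_one, by simp⟩
  · obtain ⟨h1, h2⟩ := h φ hφ
    have h3 : ComplexEmbedding.conjugate φ ∈ s.erase φ := Finset.mem_erase.2 ⟨h2, h1⟩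
    obtain ⟨s', hs'⟩ : ∃ s', s' = (s.erase φ).erase (ComplexEmbedding.conjugate φ) := ⟨_, rfl⟩
    have hc : s'.card < n := by
      rw [hs', ← hs]
      exact (Finset.card_erase_le).trans_lt (Finset.card_erase_lt_of_mem hφ)
    obtain ⟨r, hr, he⟩ := ih s'.card hc s' rfl (by
      intro ψ hψ
      rw [hs', Finset.mem_erase, Finset.mem_erase] at hψ
      obtain ⟨a1, a2, a3⟩ := hψ
      obtain ⟨b1, b2⟩ := h ψ a3
      refine ⟨?_, b2⟩
      rw [hs', Finset.mem_erase, Finset.mem_erase]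
      refine ⟨?_, ?_, b1⟩
      · intro hc
        exact a2 (star_injective hc)
      · intro hc
        apply a1
        rw [← hc]
        exact (star_star ψ).symm)
    refine ⟨Complex.normSq (φ x) * r, mul_nonneg (Complex.normSq_nonneg _) hr, ?_⟩
    rw [← Finset.mul_prod_erase s _ hφ, ← Finset.mul_prod_erase (s.erase φ) _ h3, ← mul_assoc,
      ← hs', he, ComplexEmbedding.conjugate_coe_eq, Complex.mul_conj]
    push_cast
    rfl

private theorem Af_norm_nonneg {x : K} (h : ∀ u : K →+* ℝ, 0 ≤ u x) :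
    0 ≤ Algebra.norm ℚ x := by
  have h0 : ∃ r : ℝ, 0 ≤ r ∧ ∏ φ : K →+* ℂ, φ x = (r : ℂ) := by
    obtain ⟨r, hr, he⟩ := Af_prod (x := x) _
      (Finset.univ.filter fun φ : K →+* ℂ => ¬ ComplexEmbedding.conjugate φ = φ) rfl (by
        intro φ hφ
        rw [Finset.mem_filter] at hφ
        refine ⟨?_, hφ.2⟩
        rw [Finset.mem_filter]
        refine ⟨Finset.mem_univ _, fun hc => hφ.2 ?_⟩
        exact star_injective hc)
    have h1 : ∀ s : Finset (K →+* ℂ), (∀ φ ∈ s, ComplexEmbedding.conjugate φ = φ) →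
        ∃ r : ℝ, 0 ≤ r ∧ ∏ φ ∈ s, φ x = (r : ℂ) := by
      intro s
      induction s using Finset.induction_on with
      | empty => exact fun _ => ⟨1, zero_le_one, by simp⟩
      | insert φ s hφ ih =>
        intro hs
        obtain ⟨r1, hr1, he1⟩ := ih fun ψ hψ => hs ψ (Finset.mem_insert_of_mem hψ)
        have hreal : ComplexEmbedding.IsReal φ :=
          ComplexEmbedding.isReal_iff.2 (hs φ (Finset.mem_insert_self _ _))
        refine ⟨hreal.embedding x * r1, mul_nonneg (h _) hr1, ?_⟩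
        rw [Finset.prod_insert hφ, he1, ← hreal.coe_embedding_apply x]
        push_cast
        rfl
    obtain ⟨r2, hr2, he2⟩ := h1 (Finset.univ.filter fun φ : K →+* ℂ =>
      ComplexEmbedding.conjugate φ = φ) (fun φ hφ => (Finset.mem_filter.1 hφ).2)
    refine ⟨r2 * r, mul_nonneg hr2 hr, ?_⟩
    rw [← Finset.prod_filter_mul_prod_filter_not Finset.univ
      (fun φ : K →+* ℂ => ComplexEmbedding.conjugate φ = φ), he, he2]
    push_cast
    rfl
  obtain ⟨r, hr, he⟩ := h0
  have h2 := Algebra.norm_eq_prod_embeddings ℚ ℂ x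
  rw [← Fintype.prod_equiv (RingHom.equivRatAlgHom K ℂ) (fun f => f x)
      (fun φ => φ x) fun _ => by simp [RingHom.equivRatAlgHom_apply], he, eq_ratCast] at h2
  have h3 : ((Algebra.norm ℚ x : ℚ) : ℝ) = r := by
    exact_mod_cast h2
  have h4 : (0 : ℝ) ≤ ((Algebra.norm ℚ x : ℚ) : ℝ) := by rw [h3]; exact hr
  exact_mod_cast h4

theorem nm_eo {c : SC K} {w : HeightOneSpectrum (𝓞 ℚ)}
    (h : ∀ v : HeightOneSpectrum (𝓞 K), rp v = rp w → eo v c = 0) : eo w (nm K c) = 0 := by
  obtain ⟨x, hx, rfl, hxv⟩ := approx_unit (Af_fin (H38T1.rp_prime w)) c h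
  have hN : Algebra.norm ℚ x ≠ 0 := Algebra.norm_ne_zero_iff.2 hx
  rw [nm_sc hx, H38T1.eo_sc hN, Af_ord_one _ (norm_unit hxv), Int.cast_zero]

theorem nm_la {c : SC K} {w : HeightOneSpectrum (𝓞 ℚ)} (h2 : rp w ≠ 2)
    (he : ∀ v : HeightOneSpectrum (𝓞 K), rp v = rp w → v.asIdeal.ramificationIdx ℤ = 1)
    (h : ∀ v : HeightOneSpectrum (𝓞 K), rp v = rp w → eo v c = 0 ∧ la v c = 0) :
    la w (nm K c) = 0 := by
  have happ : ∀ v ∈ {v : HeightOneSpectrum (𝓞 K) | rp v = rp w},
      ∃ y : K, y ≠ 0 ∧ v.valuation K (rep c * y ^ 2 - 1) ≤ exp (-1 : ℤ) := by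
    intro v hv
    obtain ⟨h3, h4⟩ := h v hv
    have hx0 : rep c ≠ 0 := H38T1.rep_ne c
    have hpi : v.valuation K (H38T1.unif v) = exp (-1 : ℤ) := H38T1.unif_spec v
    have hpi0 : H38T1.unif v ≠ 0 := by
      intro h0
      rw [h0, map_zero] at hpi
      exact exp_ne_zero hpi.symm
    unfold H38T1.eo at h3
    rw [ZMod.intCast_zmod_eq_zero_iff_dvd] at h3
    obtain ⟨j, hj⟩ := h3
    have hj2 : ord (v.valuation K) (rep c) = 2 * j := by exact_mod_cast hj
    unfold H38T1.la lam at h4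
    have hsq : Sq (v.valuation K) (rep c * H38T1.unif v ^ (-ord (v.valuation K) (rep c))) := by
      by_contra hcon
      rw [if_neg hcon] at h4
      exact one_ne_zero h4
    obtain ⟨t, ht⟩ := hsq
    rw [hj2] at ht
    obtain ⟨x', hx'⟩ : ∃ x', x' = rep c * H38T1.unif v ^ (-(2 * j)) := ⟨_, rfl⟩
    rw [← hx'] at ht
    have hvx : v.valuation K x' = 1 := by
      rw [hx', map_mul, map_zpow₀, hpi, Af_val_ord (v.valuation K) hx0, hj2, ← exp_zsmul, ← exp_add,
        ← exp_zero]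
      congr 1
      simp
    have hvt2 : v.valuation K (t ^ 2) = 1 := by
      have e1 : t ^ 2 = x' - (x' - t ^ 2) := by ring
      rw [e1, ← hvx]
      refine Valuation.map_sub_eq_of_lt_left _ ?_
      rw [hvx]
      exact ht
    have ht0 : t ≠ 0 := by
      rintro rfl
      rw [zero_pow two_ne_zero, map_zero] at hvt2
      exact zero_ne_one hvt2
    refine ⟨H38T1.unif v ^ (-j) / t, div_ne_zero (zpow_ne_zero _ hpi0) ht0, ?_⟩
    apply Af_le_exp
    have e2 : rep c * (H38T1.unif v ^ (-j) / t) ^ 2 - 1 = (x' - t ^ 2) / t ^ 2 := by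
      have e3 : (H38T1.unif v ^ (-j)) ^ 2 = H38T1.unif v ^ (-(2 * j)) := by
        rw [← zpow_natCast, ← zpow_mul]
        congr 1
        push_cast
        ring
      rw [div_pow, e3, hx']
      field_simp
    rw [e2, map_div₀, hvt2, div_one]
    exact ht
  obtain ⟨x, hx, rfl, hxv⟩ := approx_cls (Af_fin (H38T1.rp_prime w)) c (fun _ => 1)
    (fun _ _ => one_pos) happ
  have hN : Algebra.norm ℚ x ≠ 0 := Algebra.norm_ne_zero_iff.2 hx
  have h5 : ∀ v : HeightOneSpectrum (𝓞 K), rp v = rp w →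
      v.valuation K (x - 1) ≤ v.valuation K ((rp w : K) ^ 1) := by
    intro v hv
    refine (hxv v hv).trans ?_
    have h6 := H38T1.Ed_ordq v
    rw [he v hv] at h6
    have hq0 : ((rp v : ℕ) : K) ≠ 0 := Nat.cast_ne_zero.2 (H38T1.rp_prime v).ne_zero
    rw [pow_one, ← hv, Af_val_ord _ hq0, h6]
    exact le_rfl
  have h6 := norm_one 1 h5
  have h7 : w.valuation ℚ ((rp w : ℚ) ^ 1) < 1 := by
    rw [pow_one]
    exact Af_lt w
  have h8 : w.valuation ℚ (Algebra.norm ℚ x - 1) < 1 := h6.trans_lt h7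
  have h9 : w.valuation ℚ (Algebra.norm ℚ x) = 1 := by
    have h10 := (w.valuation ℚ).map_one_add_of_lt h8
    rwa [add_sub_cancel] at h10
  rw [nm_sc hx, H38T1.la_sc (H38T1.oddP_iff.2 h2) hN, lam_unit h9, if_pos]
  refine ⟨1, ?_⟩
  rw [one_pow]
  exact h8

theorem nm_pri {c : SC K} {w : HeightOneSpectrum (𝓞 ℚ)} (h2 : rp w = 2)
    (h : ∀ v : HeightOneSpectrum (𝓞 K), rp v = 2 → Pri v c) : Pri w (nm K c) := by
  have e4 : ∀ v : HeightOneSpectrum (𝓞 K), rp v = 2 → 0 < ord (v.valuation K) (2 : K) := by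
    intro v hv
    have h3 := Af_lt v
    rw [hv] at h3
    have h4 : v.valuation K (2 : K) < 1 := by exact_mod_cast h3
    rw [Af_val_ord _ (two_ne_zero), ← exp_zero, exp_lt_exp] at h4
    omega
  have e5 : ∀ v : HeightOneSpectrum (𝓞 K),
      v.valuation K (4 : K) = exp (-(2 * ord (v.valuation K) (2 : K))) := by
    intro v
    have h3 : (4 : K) = 2 * 2 := by norm_num
    rw [h3, map_mul, Af_val_ord (v.valuation K) (two_ne_zero (α := K)), ← exp_add]
    congr 1
    ring
  have happ : ∀ v ∈ {v : HeightOneSpectrum (𝓞 K) | rp v = rp w},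
      ∃ y : K, y ≠ 0 ∧ v.valuation K (rep c * y ^ 2 - 1) ≤
        exp (-(2 * ord (v.valuation K) (2 : K))) := by
    intro v hv
    obtain ⟨t, z, c', ht, hz, hc, he⟩ := h v (by rw [← h2]; exact hv)
    have hz0 : z ≠ 0 := by
      rintro rfl
      rw [map_zero] at hz
      exact zero_ne_one hz
    refine ⟨(t * z)⁻¹, inv_ne_zero (mul_ne_zero ht hz0), ?_⟩
    have e6 : rep c * ((t * z)⁻¹) ^ 2 - 1 = -(4 * c' / z ^ 2) := by
      rw [he]
      field_simp
      ring
    rw [e6, Valuation.map_neg, map_div₀, map_pow, hz, one_pow, div_one, map_mul, ← e5 v]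
    exact mul_le_of_le_one_right' hc
  obtain ⟨x, hx, rfl, hxv⟩ := approx_cls (Af_fin (H38T1.rp_prime w)) c
    (fun v => 2 * ord (v.valuation K) (2 : K)) (fun v hv => by
      have h3 := e4 v (by rw [← h2]; exact hv)
      show 0 < 2 * ord (v.valuation K) (2 : K)
      omega) happ
  have hN : Algebra.norm ℚ x ≠ 0 := Algebra.norm_ne_zero_iff.2 hx
  have h5 : ∀ v : HeightOneSpectrum (𝓞 K), rp v = rp w →
      v.valuation K (x - 1) ≤ v.valuation K ((rp w : K) ^ 2) := by
    intro v hv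
    refine (hxv v hv).trans ?_
    have h6 : ((rp w : K) ^ 2) = 4 := by
      rw [h2]
      norm_num
    rw [h6, e5 v]
  have h6 := norm_one 2 h5
  have h7 : ((rp w : ℚ) ^ 2) = 4 := by
    rw [h2]
    norm_num
  rw [h7] at h6
  have hodd : ¬ H38T1.OddP w := fun h8 => H38T1.oddP_iff.1 h8 h2
  rw [nm_sc hx, H38T1.pri_sc hodd hN]
  refine ⟨1, 1, (1 - Algebra.norm ℚ x) / 4, one_ne_zero, map_one _, ?_, by ring⟩
  have h40 : w.valuation ℚ (4 : ℚ) ≠ 0 := (Valuation.ne_zero_iff _).2 (by norm_num)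
  rw [map_div₀, Valuation.map_sub_swap]
  exact div_le_one_of_le₀ h6 zero_le

theorem nm_si {c : SC K} (h : ∀ u : K →+* ℝ, si u c = 0) (u : ℚ →+* ℝ) : si u (nm K c) = 0 := by
  obtain ⟨x, hx, rfl⟩ := H38T1.sc_surj c
  have hN : Algebra.norm ℚ x ≠ 0 := Algebra.norm_ne_zero_iff.2 hx
  have h1 : ∀ u : K →+* ℝ, 0 ≤ u x := by
    intro u
    have h2 := h u
    rw [H38T1.si_sc u hx] at h2
    unfold sw at h2
    by_contra hcon
    rw [if_pos (not_le.1 hcon)] at h2
    exact one_ne_zero h2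
  have h3 := Af_norm_nonneg h1
  rw [nm_sc hx, H38T1.si_sc u hN]
  unfold sw
  rw [if_neg]
  rw [not_lt, eq_ratCast]
  exact_mod_cast h3

end H88T7
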