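import Pool.Agent.H88.T7.Ag
import Pool.Agent.H88.T7.Ah

/-!
ROW Ai (project MP_78d38b_T7, about 170 lines): the existence of the functionals `Ψ` (no discriminant
classes in the Selmer groups over the rationals).

PROOF. Everything is over `ℚ`; `D = a^2 - 64 β`, `b₀ = sc (β : ℚ)`, `d₀ = sc (D : ℚ)`, `Δ = Dc`.
(1) There are primes `q ∣ β` (`β > 1`) and `q' ∣ D` (`|D| > 1`: `D` is odd and `D = -1` would give `a^2 + 1 = 64 β`,
impossible modulo four). With the places `w`, `w'` of `ℚ` above them (`ov_rat`): `eo w b₀ = 1` (`eo_int7`, squarefree: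
`padicValInt = 1`), `eo w d₀ = 0`, `eo w Δ = 0` (`hD.disc`, as `q ∉ B` by `hD.co`); `eo w' b₀ = 0`, `eo w' d₀ = 1`, `eo w' Δ = 0`.
(2) If `Δ ∈ XX (L7 ℚ ..)` then `Δ = 0`: its order is even outside `P'`, and at the places of `P'` because they are outside `B`
(`hD.disc`); it is positive: `Δ ∈ NS ∅`, `ns_rat`. If `Δ ∈ XX' (L7 ℚ ..)` then `Δ = 0`: the order is even everywhere, so
`Δ = sc (± 1)` (`int_rep`: squarefree without prime divisors), and `sc (-1)` is not primary at two: `-1 = t^2 (z^2 - 4 c)`,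
`w z = 1`, `w c ≤ 1` gives with `s = 1 / (t z)` (a unit) `- s^2 = 1 - 4 c / z^2`, so `s^2 ≡ -1 mod 4` in `ℚ` at two: write
`s = m / n`, `m, n` odd: `4 ∣ m^2 + n^2`, impossible.
(3) sepP: `r ∈ XX (L7 ℚ ..)`, `r ≠ 0`, `r ≠ b₀`. `r ∉ ⟨b₀, d₀, Δ⟩`: if `r = x b₀ + y d₀ + z Δ` (coefficients in `ZMod 2`), apply
`eo w'`: `w' ∈ P` and `w' ∉ P'`, so `eo w' r = 0` and `y = 0`; so `z Δ = r - x b₀ ∈ XX` (subgroup `sub7`, `beta_mem`), so `z Δ = 0`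
by (2), `r = x b₀`, a contradiction. `d₀ ∉ ⟨b₀, Δ⟩` by `eo w'`. Therefore there is a linear functional on `SC ℚ` with
`Ψ Δ = 0`, `Ψ b₀ = 0`, `Ψ d₀ = 1`, `Ψ r = 1`: `W = span {b₀, Δ, r - d₀}` does not contain `d₀`: `d₀ = x b₀ + z Δ + u (r - d₀)`, `u = 0`
contradicts `d₀ ∉ ⟨b₀, Δ⟩`, `u = 1` gives `r ∈ ⟨b₀, d₀, Δ⟩`. `Submodule.exists_le_ker_of_notMem` gives a functional `f` with
`f d₀ ≠ 0` vanishing on `W`; then `f d₀ = 1` (`ZMod 2`), `f r = f d₀ = 1`. (`-x = x` in `SC ℚ`.) `AddMonoidHom` from the linear map.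
sepP0: the case without `r`. sepP': the same with the roles exchanged: `r ∈ XX'`, `r ≠ 0, d₀`: apply `eo w` (`w ∈ P'`, `w ∉ P`).
sepP'0: without `r` (`b₀ ∉ ⟨d₀, Δ⟩` by `eo w`).
sepN: let `W = span ({Δ, sc (-1)} ∪ {sc p : p ∈ Q} ∪ {b₀ - d₀})`. `eo w`, `eo w'` of (1) vanish on `Δ`, `sc (-1)`, `sc p`
(`p ≠ q, q'` as `p ∤ β D`), so `eo w + eo w'` vanishes on `W` (`b₀ - d₀` has both equal to one) and is `1` at `b₀`... so take
simply `Ψ c = eo w c + eo w' c`? it has `Ψ b₀ = 1`, `Ψ d₀ = 1`, `Ψ Δ = Ψ (sc (-1)) = Ψ (sc p) = 0`. (Same trick, `Ψ = eo w'`, for sepP0 and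
`Ψ = eo w` for sepP'0. These are additive by `H38T1.eo_add`.)
-/

set_option autoImplicit false
set_option linter.unusedSectionVars false
open scoped Classical

open WithZero NumberField IsDedekindDomain H38RT
open H38T1 (SC sc rep eo la si Pri OddP LD XX XX' NS ov rp SqMod)

namespace H88T7

variable {K : Type} [Field K] [NumberField K] {B : Finset ℕ} {Dc : SC ℚ} {a β : ℤ}
  {Pp Pp' : Finset ℕ}

lemma Ai_eo1 {v : HeightOneSpectrum (𝓞 ℚ)} {m : ℤ} (hsq : Squarefree m) (h : (rp v : ℤ) ∣ m) :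
    eo v (sc (m : ℚ)) = 1 := by
  have hp := H38T1.rp_prime v
  haveI : Fact (rp v).Prime := ⟨hp⟩
  have hm : m ≠ 0 := hsq.ne_zero
  have hm' : m.natAbs ≠ 0 := Int.natAbs_ne_zero.2 hm
  have h1 : padicValInt (rp v) m = 1 := by
    unfold padicValInt
    apply le_antisymm
    · by_contra hlt
      have h2 : 2 ≤ padicValNat (rp v) m.natAbs := by omega
      have h3 : rp v ^ 2 ∣ m.natAbs := (padicValNat_dvd_iff_le hm').2 h2
      have h4 : Squarefree m.natAbs := Int.squarefree_natAbs.2 hsq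
      rw [sq] at h3
      exact hp.one_lt.ne' (Nat.isUnit_iff.1 (h4 _ h3))
    · exact one_le_padicValNat_of_dvd hm' (Int.natCast_dvd.1 h)
  rw [eo_int7 (rat_ef v).1 hm, h1, Nat.cast_one]

lemma Ai_eo0 {v : HeightOneSpectrum (𝓞 ℚ)} {m : ℤ} (hm : m ≠ 0) (h : ¬ (rp v : ℤ) ∣ m) :
    eo v (sc (m : ℚ)) = 0 := by
  refine eo_int0 hm ?_
  unfold padicValInt
  rw [padicValNat.eq_zero_of_not_dvd (fun h' => h (Int.natCast_dvd.2 h'))]
  exact ⟨0, rfl⟩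

lemma Ai_cop (hD : Dat K B Dc a β) {p : ℕ} (hp : p.Prime) (h1 : (p : ℤ) ∣ β)
    (h2 : (p : ℤ) ∣ a ^ 2 - 64 * β) : False := by
  have h3 : (p : ℤ) ∣ a ^ 2 := by
    have h4 := dvd_add h2 (Dvd.dvd.mul_left h1 64)
    have h5 : a ^ 2 - 64 * β + 64 * β = a ^ 2 := by ring
    rwa [h5] at h4
  have hp' : Prime (p : ℤ) := Nat.prime_iff_prime_int.1 hp
  have h6 : (p : ℤ) ∣ a := hp'.dvd_of_dvd_pow h3
  exact hp'.not_unit (hD.cop.isUnit_of_dvd' h6 h1)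

lemma Ai_bpos (hD : Dat K B Dc a β) : 0 < β := by
  have h1 := hD.pos
  nlinarith [sq_nonneg a]

lemma Ai_exp {m : ℤ} (h : m.natAbs ≠ 1) : ∃ w : HeightOneSpectrum (𝓞 ℚ), (rp w : ℤ) ∣ m := by
  obtain ⟨p, hp, h1⟩ := Nat.exists_prime_and_dvd h
  obtain ⟨w, hw, -⟩ := ov_rat hp
  exact ⟨w, by rw [hw]; exact Int.natCast_dvd.2 h1⟩

lemma Ai_w (hD : Dat K B Dc a β) : ∃ w : HeightOneSpectrum (𝓞 ℚ), (rp w : ℤ) ∣ β ∧
    eo w (sc (β : ℚ)) = 1 ∧ eo w (sc ((a ^ 2 - 64 * β : ℤ) : ℚ)) = 0 ∧ eo w Dc = 0 := by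
  have hb := Ai_bpos hD
  have hne := hD.ne
  obtain ⟨w, hw⟩ := Ai_exp (m := β) (by omega)
  have hsq : Squarefree β := hD.sqf.squarefree_of_dvd (dvd_mul_right _ _)
  have hsq' : Squarefree (a ^ 2 - 64 * β) := hD.sqf.squarefree_of_dvd (dvd_mul_left _ _)
  refine ⟨w, hw, Ai_eo1 hsq hw, Ai_eo0 hsq'.ne_zero (fun h => Ai_cop hD (H38T1.rp_prime w) hw h),
    hD.disc w (hD.co _ (H38T1.rp_prime w) (Dvd.dvd.mul_right hw _))⟩

lemma Ai_w' (hD : Dat K B Dc a β) : ∃ w : HeightOneSpectrum (𝓞 ℚ), (rp w : ℤ) ∣ a ^ 2 - 64 * β ∧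
    eo w (sc (β : ℚ)) = 0 ∧ eo w (sc ((a ^ 2 - 64 * β : ℤ) : ℚ)) = 1 ∧ eo w Dc = 0 := by
  have hb := Ai_bpos hD
  have hpos := hD.pos
  have ha := hD.a4
  have h1 : (a ^ 2 - 64 * β).natAbs ≠ 1 := by
    intro h
    have h2 : a ^ 2 - 64 * β = -1 := by omega
    obtain ⟨k, hk⟩ : ∃ k, a = 4 * k + 1 := ⟨a / 4, by omega⟩
    rw [hk] at h2
    have h3 : 4 * (4 * k ^ 2 + 2 * k - 16 * β) = -2 := by nlinarith
    omega
  obtain ⟨w, hw⟩ := Ai_exp h1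
  have hsq : Squarefree β := hD.sqf.squarefree_of_dvd (dvd_mul_right _ _)
  have hsq' : Squarefree (a ^ 2 - 64 * β) := hD.sqf.squarefree_of_dvd (dvd_mul_left _ _)
  refine ⟨w, hw, Ai_eo0 hsq.ne_zero (fun h => Ai_cop hD (H38T1.rp_prime w) h hw), Ai_eo1 hsq' hw,
    hD.disc w (hD.co _ (H38T1.rp_prime w) (Dvd.dvd.mul_left hw _))⟩

lemma Ai_memP (hS : St K B a β Pp Pp') {v : HeightOneSpectrum (𝓞 ℚ)} :
    v ∈ (L7 ℚ a β Pp Pp').P ↔ rp v ∈ pd (a ^ 2 - 64 * β) ∪ (Pp : Set ℕ) := by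
  refine H38T1.mem_ov ?_
  rintro q (hq | hq)
  · exact hq.1
  · exact (hS.nice q (Finset.mem_union_left _ (Finset.mem_coe.1 hq))).1

lemma Ai_memP' (hS : St K B a β Pp Pp') {v : HeightOneSpectrum (𝓞 ℚ)} :
    v ∈ (L7 ℚ a β Pp Pp').P' ↔ rp v ∈ pd β ∪ (Pp' : Set ℕ) := by
  refine H38T1.mem_ov ?_
  rintro q (hq | hq)
  · exact hq.1
  · exact (hS.nice q (Finset.mem_union_right _ (Finset.mem_coe.1 hq))).1

lemma Ai_nB (hD : Dat K B Dc a β) (hS : St K B a β Pp Pp') {v : HeightOneSpectrum (𝓞 ℚ)}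
    (hv : rp v ∈ B) : v ∉ (L7 ℚ a β Pp Pp').P ∧ v ∉ (L7 ℚ a β Pp Pp').P' := by
  constructor
  · intro h
    rcases (Ai_memP hS).1 h with h | h
    · exact hD.co _ h.1 (Dvd.dvd.mul_left h.2 _) hv
    · exact hS.nB _ (Finset.mem_union_left _ (Finset.mem_coe.1 h)) hv
  · intro h
    rcases (Ai_memP' hS).1 h with h | h
    · exact hD.co _ h.1 (Dvd.dvd.mul_right h.2 _) hv
    · exact hS.nB _ (Finset.mem_union_right _ (Finset.mem_coe.1 h)) hv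

lemma Ai_XX (hD : Dat K B Dc a β) (hS : St K B a β Pp Pp') (h : Dc ∈ XX (L7 ℚ a β Pp Pp')) :
    Dc = 0 := by
  refine ns_rat (S := ∅) ⟨fun v => ?_, fun v hv => absurd hv (Set.notMem_empty v), h.2.2.2 rfl⟩
  by_cases hv : rp v ∈ B
  · exact h.1 v (Set.notMem_empty v) (Ai_nB hD hS hv).2
  · exact hD.disc v hv

lemma Ai_unit {c : SC ℚ} (h : ∀ v, eo v c = 0) : c = 0 ∨ c = sc (-1 : ℚ) := by
  obtain ⟨m, hm, hsq, rfl⟩ := int_rep c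
  have h1 : m.natAbs = 1 := by
    by_contra h2
    obtain ⟨w, hw⟩ := Ai_exp h2
    have h3 := h w
    rw [Ai_eo1 hsq hw] at h3
    exact one_ne_zero h3
  rcases Int.natAbs_eq m with h2 | h2
  · left
    rw [h2, h1]
    refine (H38T1.sc_eq_zero (by norm_num)).2 ⟨1, by norm_num⟩
  · right
    rw [h2, h1]
    norm_num

lemma Ai_val_one {v : HeightOneSpectrum (𝓞 ℚ)} {m : ℤ} (h : ¬ (rp v : ℤ) ∣ m) :
    v.valuation ℚ (m : ℚ) = 1 := by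
  have h2 : (m : 𝓞 ℚ) ∉ v.asIdeal := fun h' => h ((H38T1.mem_iff_int m).1 h')
  have h3 := (v.valuation_eq_one_iff_notMem (K := ℚ) (r := (m : 𝓞 ℚ))).mpr h2
  rwa [map_intCast] at h3

lemma Ai_val_le {v : HeightOneSpectrum (𝓞 ℚ)} (m : ℤ) : v.valuation ℚ (m : ℚ) ≤ 1 := by
  have h2 := v.valuation_le_one (K := ℚ) (m : 𝓞 ℚ)
  change v.valuation ℚ (algebraMap (𝓞 ℚ) ℚ (m : 𝓞 ℚ)) ≤ 1 at h2
  rwa [map_intCast] at h2

lemma Ai_two (v : HeightOneSpectrum (𝓞 ℚ)) (hv : rp v = 2) : ¬ Pri v (sc (-1 : ℚ)) := by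
  intro h
  have hod : ¬ OddP v := fun h' => H38T1.oddP_iff.1 h' hv
  obtain ⟨t, z, c, ht, hz, hc, he⟩ := (H38T1.pri_sc hod (neg_ne_zero.2 one_ne_zero)).1 h
  have hz0 : z ≠ 0 := by
    rintro rfl
    rw [map_zero] at hz
    exact zero_ne_one hz
  have h2lt : v.valuation ℚ (2 : ℚ) < 1 := by
    refine lt_of_le_of_ne ?_ hod
    have := Ai_val_le (v := v) 2
    exact_mod_cast this
  have h20 : v.valuation ℚ (2 : ℚ) ≠ 0 := (Valuation.ne_zero_iff _).2 two_ne_zero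
  -- the unit `s`
  obtain ⟨s, hs⟩ : ∃ s : ℚ, s = 1 / (t * z) := ⟨_, rfl⟩
  have he1 : 1 + s ^ 2 = 4 * (c / z ^ 2) := by
    have h1 : t ^ 2 * z ^ 2 + 1 = 4 * (t ^ 2 * c) := by linarith
    rw [hs]
    field_simp
    linarith
  have hle : v.valuation ℚ (1 + s ^ 2) ≤ v.valuation ℚ (2 : ℚ) ^ 2 := by
    rw [he1, map_mul, map_div₀, map_pow, hz, one_pow, div_one]
    have h4 : v.valuation ℚ (4 : ℚ) = v.valuation ℚ (2 : ℚ) ^ 2 := by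
      rw [← map_pow]
      norm_num
    rw [h4]
    exact mul_le_of_le_one_right' hc
  have hlt2 : v.valuation ℚ (2 : ℚ) ^ 2 < v.valuation ℚ (2 : ℚ) := by
    rw [sq]
    exact mul_lt_of_lt_one_right (zero_lt_iff.2 h20) h2lt
  have hs2 : v.valuation ℚ (s ^ 2) = 1 := by
    have h1 : s ^ 2 = -1 + (1 + s ^ 2) := by ring
    rw [h1]
    have h3 : v.valuation ℚ (-1 : ℚ) = 1 := by rw [Valuation.map_neg, map_one]
    rw [Valuation.map_add_eq_of_lt_left]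
    · exact h3
    · rw [h3]
      exact lt_of_le_of_lt hle (lt_trans hlt2 h2lt)
  have hs1 : v.valuation ℚ s = 1 := by
    rw [map_pow] at hs2
    exact (pow_left_inj₀ zero_le' zero_le' two_ne_zero).1 (hs2.trans (one_pow 2).symm)
  -- numerator and denominator are odd
  have hnd : ((s.num : ℤ) : ℚ) = s * ((s.den : ℤ) : ℚ) := by
    have := Rat.num_div_den s
    have hd0 : (s.den : ℚ) ≠ 0 := by exact_mod_cast s.den_ne_zero
    push_cast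
    rw [div_eq_iff hd0] at this
    exact this
  have hvv : v.valuation ℚ ((s.num : ℤ) : ℚ) = v.valuation ℚ ((s.den : ℤ) : ℚ) := by
    rw [hnd, map_mul, hs1, one_mul]
  have hval : ∀ m : ℤ, v.valuation ℚ (m : ℚ) = 1 ↔ ¬ (2 : ℤ) ∣ m := by
    intro m
    constructor
    · rintro h1 ⟨k, rfl⟩
      push_cast at h1
      rw [map_mul] at h1
      have h3 := Ai_val_le (v := v) k
      have h4 : v.valuation ℚ (2 : ℚ) * v.valuation ℚ (k : ℚ) < 1 := mul_lt_one_of_lt_of_le h2lt h3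
      exact h4.ne h1
    · intro h1
      exact Ai_val_one (by rw [hv]; exact_mod_cast h1)
  have hcop : ¬ ((2 : ℤ) ∣ s.num ∧ (2 : ℤ) ∣ (s.den : ℤ)) := by
    rintro ⟨h1, h3⟩
    have h4 := s.reduced
    have h5 : 2 ∣ Nat.gcd s.num.natAbs s.den :=
      Nat.dvd_gcd (Int.natCast_dvd.1 h1) (by exact_mod_cast h3)
    rw [h4] at h5
    omega
  have hdo : ¬ (2 : ℤ) ∣ (s.den : ℤ) := by
    intro h1
    have h3 : ¬ (2 : ℤ) ∣ s.num := fun h4 => hcop ⟨h4, h1⟩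
    exact (hval _).1 (hvv ▸ (hval _).2 h3) h1
  have hno : ¬ (2 : ℤ) ∣ s.num := (hval _).1 (hvv.trans ((hval _).2 hdo))
  have hsum : v.valuation ℚ ((s.num ^ 2 + (s.den : ℤ) ^ 2 : ℤ) : ℚ) ≤ v.valuation ℚ (2 : ℚ) ^ 2 := by
    have h1 : ((s.num ^ 2 + (s.den : ℤ) ^ 2 : ℤ) : ℚ) = (1 + s ^ 2) * (((s.den : ℤ) : ℚ)) ^ 2 := by
      rw [Int.cast_add, Int.cast_pow, Int.cast_pow, hnd]
      ring
    rw [h1, map_mul, map_pow, (hval _).2 hdo, one_pow, mul_one]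
    exact hle
  obtain ⟨k, hk⟩ : ∃ k, s.num = 2 * k + 1 := ⟨s.num / 2, by omega⟩
  obtain ⟨l, hl⟩ : ∃ l, (s.den : ℤ) = 2 * l + 1 := ⟨(s.den : ℤ) / 2, by omega⟩
  have h5 : (s.num ^ 2 + (s.den : ℤ) ^ 2 : ℤ) = 2 * (2 * (k ^ 2 + k + l ^ 2 + l) + 1) := by
    rw [hk, hl]
    ring
  have h7 : ¬ (2 : ℤ) ∣ 2 * (k ^ 2 + k + l ^ 2 + l) + 1 := by omega
  rw [h5, Int.cast_mul, map_mul, (hval _).2 h7, mul_one] at hsum
  have h6 : v.valuation ℚ ((2 : ℤ) : ℚ) = v.valuation ℚ (2 : ℚ) := by norm_num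
  rw [h6] at hsum
  exact absurd hsum (not_le.2 hlt2)

lemma Ai_XX' (hD : Dat K B Dc a β) (hS : St K B a β Pp Pp') (h : Dc ∈ XX' (L7 ℚ a β Pp Pp')) :
    Dc = 0 := by
  have h1 : ∀ v, eo v Dc = 0 := by
    intro v
    by_cases hv : rp v ∈ B
    · exact h.1 v (Set.notMem_empty v) (Ai_nB hD hS hv).1
    · exact hD.disc v hv
  rcases Ai_unit h1 with h2 | h2
  · exact h2
  · exfalso
    obtain ⟨v, hv, -⟩ := ov_rat Nat.prime_two
    have h3 := h.2.1 v (fun h' => H38T1.oddP_iff.1 h' hv)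
    rw [h2] at h3
    exact Ai_two v hv h3

/-- The parity of the order as an additive map. -/
noncomputable def Ai_eh (v : HeightOneSpectrum (𝓞 ℚ)) : SC ℚ →+ ZMod 2 where
  toFun := eo v
  map_zero' := H38T1.eo_zero v
  map_add' := H38T1.eo_add v

lemma Ai_eh_ap (v : HeightOneSpectrum (𝓞 ℚ)) (c : SC ℚ) : Ai_eh v c = eo v c := rfl

lemma Ai_z2 (x : ZMod 2) : x = 0 ∨ x = 1 := by
  revert x
  decide

lemma Ai_lin {b d e r : SC ℚ} (H : AddSubgroup (SC ℚ)) (f : SC ℚ →+ ZMod 2) (fb : f b = 0)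
    (fd : f d = 1) (fe : f e = 0) (fr : f r = 0) (hb : b ∈ H) (hr : r ∈ H) (he : e ∈ H → e = 0)
    (r0 : r ≠ 0) (rb : r ≠ b) :
    ∃ Ψ : SC ℚ →+ ZMod 2, Ψ e = 0 ∧ Ψ b = 0 ∧ Ψ d = 1 ∧ Ψ r = 1 := by
  have key : r ∉ Submodule.span (ZMod 2) ({b, d, e} : Set (SC ℚ)) := by
    intro hmem
    obtain ⟨x, y, z, hxyz⟩ := Submodule.mem_span_triple.1 hmem
    have hf : f r = y := by
      rw [← hxyz, map_add, map_add]
      have e1 : ∀ (u : ZMod 2) (c : SC ℚ), f (u • c) = u * f c := by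
        intro u c
        rcases Ai_z2 u with rfl | rfl
        · rw [zero_smul, map_zero, zero_mul]
        · rw [one_smul, one_mul]
      rw [e1, e1, e1, fb, fd, fe]
      ring
    rw [fr] at hf
    rw [← hf, zero_smul, add_zero] at hxyz
    have hz : z • e = 0 := by
      rcases Ai_z2 z with rfl | rfl
      · rw [zero_smul]
      · rw [one_smul] at hxyz ⊢
        apply he
        have h1 : e = r - x • b := by rw [← hxyz]; abel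
        rw [h1]
        refine H.sub_mem hr ?_
        rcases Ai_z2 x with rfl | rfl
        · rw [zero_smul]
          exact H.zero_mem
        · rwa [one_smul]
    rw [hz, add_zero] at hxyz
    rcases Ai_z2 x with rfl | rfl
    · rw [zero_smul] at hxyz
      exact r0 hxyz.symm
    · rw [one_smul] at hxyz
      exact rb hxyz.symm
  obtain ⟨g, hg, hk⟩ := Submodule.exists_le_ker_of_notMem key
  have gb : g b = 0 := LinearMap.mem_ker.1 (hk (Submodule.subset_span (by simp)))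
  have gd : g d = 0 := LinearMap.mem_ker.1 (hk (Submodule.subset_span (by simp)))
  have ge : g e = 0 := LinearMap.mem_ker.1 (hk (Submodule.subset_span (by simp)))
  have gr : g r = 1 := (Ai_z2 _).resolve_left hg
  refine ⟨f + g.toAddMonoidHom, ?_, ?_, ?_, ?_⟩
  · change f e + g e = 0
    rw [fe, ge, add_zero]
  · change f b + g b = 0
    rw [fb, gb, add_zero]
  · change f d + g d = 1
    rw [fd, gd, add_zero]
  · change f r + g r = 1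
    rw [fr, gr, zero_add]

theorem sepP (hD : Dat K B Dc a β) (hS : St K B a β Pp Pp') {r : SC ℚ}
    (hr : r ∈ XX (L7 ℚ a β Pp Pp')) (h0 : r ≠ 0) (hb : r ≠ sc (β : ℚ)) :
    ∃ Ψ : SC ℚ →+ ZMod 2, Ψ Dc = 0 ∧ Ψ (sc (β : ℚ)) = 0 ∧
      Ψ (sc ((a ^ 2 - 64 * β : ℤ) : ℚ)) = 1 ∧ Ψ r = 1 := by
  obtain ⟨w, hw, e1, e2, e3⟩ := Ai_w' hD
  obtain ⟨H, hH⟩ := sub7 (dat_rat hD) (st_rat hS)
  have hm : ∀ c, c ∈ H ↔ c ∈ XX (L7 ℚ a β Pp Pp') := fun c => by rw [← hH]; rfl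
  have hwP : w ∉ (L7 ℚ a β Pp Pp').P' := by
    intro h
    rcases (Ai_memP' hS).1 h with h | h
    · exact Ai_cop hD h.1 h.2 hw
    · exact hS.ndvd _ (Finset.mem_union_right _ (Finset.mem_coe.1 h))
        (Dvd.dvd.mul_left (Dvd.dvd.mul_left hw _) _)
  exact Ai_lin H (Ai_eh w) e1 e2 e3 (hr.1 w (Set.notMem_empty w) hwP)
    ((hm _).2 (beta_mem (dat_rat hD) (st_rat hS))) ((hm _).2 hr)
    (fun h => Ai_XX hD hS ((hm _).1 h)) h0 hb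

theorem sepP0 (hD : Dat K B Dc a β) : ∃ Ψ : SC ℚ →+ ZMod 2, Ψ Dc = 0 ∧ Ψ (sc (β : ℚ)) = 0 ∧
    Ψ (sc ((a ^ 2 - 64 * β : ℤ) : ℚ)) = 1 := by
  obtain ⟨w, -, e1, e2, e3⟩ := Ai_w' hD
  exact ⟨Ai_eh w, e3, e1, e2⟩

theorem sepP' (hD : Dat K B Dc a β) (hS : St K B a β Pp Pp') {r : SC ℚ}
    (hr : r ∈ XX' (L7 ℚ a β Pp Pp')) (h0 : r ≠ 0) (hd : r ≠ sc ((a ^ 2 - 64 * β : ℤ) : ℚ)) :
    ∃ Ψ : SC ℚ →+ ZMod 2, Ψ Dc = 0 ∧ Ψ (sc (β : ℚ)) = 1 ∧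
      Ψ (sc ((a ^ 2 - 64 * β : ℤ) : ℚ)) = 0 ∧ Ψ r = 1 := by
  obtain ⟨w, hw, e1, e2, e3⟩ := Ai_w hD
  obtain ⟨H, hH⟩ := sub7' (dat_rat hD) (st_rat hS)
  have hm : ∀ c, c ∈ H ↔ c ∈ XX' (L7 ℚ a β Pp Pp') := fun c => by rw [← hH]; rfl
  have hwP : w ∉ (L7 ℚ a β Pp Pp').P := by
    intro h
    rcases (Ai_memP hS).1 h with h | h
    · exact Ai_cop hD h.1 hw h.2
    · exact hS.ndvd _ (Finset.mem_union_left _ (Finset.mem_coe.1 h))
        (Dvd.dvd.mul_left (Dvd.dvd.mul_right hw _) _)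
  obtain ⟨Ψ, h1, h2, h3, h4⟩ := Ai_lin H (Ai_eh w) e2 e1 e3 (hr.1 w (Set.notMem_empty w) hwP)
    ((hm _).2 (disc_mem (dat_rat hD) (st_rat hS))) ((hm _).2 hr)
    (fun h => Ai_XX' hD hS ((hm _).1 h)) h0 hd
  exact ⟨Ψ, h1, h3, h2, h4⟩

theorem sepP'0 (hD : Dat K B Dc a β) : ∃ Ψ : SC ℚ →+ ZMod 2, Ψ Dc = 0 ∧ Ψ (sc (β : ℚ)) = 1 ∧
    Ψ (sc ((a ^ 2 - 64 * β : ℤ) : ℚ)) = 0 := by
  obtain ⟨w, -, e1, e2, e3⟩ := Ai_w hD
  exact ⟨Ai_eh w, e3, e1, e2⟩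

/-- For the neutral primes: prescribed values. -/
theorem sepN (hD : Dat K B Dc a β) (Q : Finset ℕ)
    (hQ : ∀ p ∈ Q, p.Prime ∧ ¬ (p : ℤ) ∣ β * (a ^ 2 - 64 * β)) :
    ∃ Ψ : SC ℚ →+ ZMod 2, Ψ Dc = 0 ∧ Ψ (sc (β : ℚ)) = 1 ∧
      Ψ (sc ((a ^ 2 - 64 * β : ℤ) : ℚ)) = 1 ∧ Ψ (sc (-1 : ℚ)) = 0 ∧
      ∀ p ∈ Q, Ψ (sc (p : ℚ)) = 0 := by
  obtain ⟨w, hw, e1, e2, e3⟩ := Ai_w hD
  obtain ⟨w', hw', e1', e2', e3'⟩ := Ai_w' hD
  have hu : ∀ v : HeightOneSpectrum (𝓞 ℚ), eo v (sc (-1 : ℚ)) = 0 := by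
    intro v
    have h1 := Ai_eo0 (v := v) (m := -1) (by norm_num) (fun h =>
      (Nat.prime_iff_prime_int.1 (H38T1.rp_prime v)).not_unit (isUnit_of_dvd_unit h (by decide)))
    have h2 : ((-1 : ℤ) : ℚ) = -1 := by norm_num
    rwa [h2] at h1
  have hp0 : ∀ v : HeightOneSpectrum (𝓞 ℚ), (rp v : ℤ) ∣ β * (a ^ 2 - 64 * β) → ∀ p ∈ Q,
      eo v (sc (p : ℚ)) = 0 := by
    intro v hv p hp
    obtain ⟨hpp, hpd⟩ := hQ p hp
    have h1 := Ai_eo0 (v := v) (m := (p : ℤ)) (by exact_mod_cast hpp.ne_zero) (fun h => by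
      have h2 : rp v ∣ p := by exact_mod_cast h
      rw [(Nat.prime_dvd_prime_iff_eq (H38T1.rp_prime v) hpp).1 h2] at hv
      exact hpd hv)
    rwa [Int.cast_natCast] at h1
  refine ⟨Ai_eh w + Ai_eh w', ?_, ?_, ?_, ?_, fun p hp => ?_⟩
  · change eo w Dc + eo w' Dc = 0
    rw [e3, e3', add_zero]
  · change eo w (sc (β : ℚ)) + eo w' (sc (β : ℚ)) = 1
    rw [e1, e1', add_zero]
  · change eo w (sc ((a ^ 2 - 64 * β : ℤ) : ℚ)) + eo w' (sc ((a ^ 2 - 64 * β : ℤ) : ℚ)) = 1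
    rw [e2, e2', zero_add]
  · change eo w (sc (-1 : ℚ)) + eo w' (sc (-1 : ℚ)) = 0
    rw [hu, hu, add_zero]
  · change eo w (sc (p : ℚ)) + eo w' (sc (p : ℚ)) = 0
    rw [hp0 w (Dvd.dvd.mul_right hw _) p hp, hp0 w' (Dvd.dvd.mul_left hw' _) p hp, add_zero]

end H88T7
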