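import Pool.Agent.H86.TL.Od

/-!
ROW Cb (project MP_78d38b_T7, about 130 lines): the local condition at the places above two for
good ordinary reduction.

PROOF. Write `v x = - log (V x)` for `x ≠ 0`, `e = v 2 > 0`, `v 4 = 2 e`, `v B = v 16 = 4 e` (so `B ≠ 0`), `V (A - 1) ≤ V 4 < 1`, so `V A = 1`.
(0) If `V z = exp (-m)`, `m` odd, `0 < m < 2 e`, then `1 + z` is not a square: `1 + z = s^2`, `t = s - 1`, `z = t (t + 2)`. If `v t < e` then
`v (t + 2) = v t` and `m = 2 v t` is even; if `v t ≥ e` (or `t = 0`) then `v (t + 2) ≥ e` and `m ≥ 2 e`. (`t ≠ 0`, `t + 2 ≠ 0` as `z ≠ 0`.)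
`qpt_xy` (file `H86/TL/Bs.lean`): `IsSquare d` (`even_of_sq`), or `IsSquare (B * d)` (`log (V B) = - 4 e` is even, `even_iff`), or
`y^2 = x (x^2 + A x + B)`, `x ≠ 0`, `IsSquare (x * d)`; by `even_iff` it is enough that `v x` is even. Suppose `j = v x` is odd.
(1) `j < 0`: `V (A x) < V (x^2)`, `V B < V (x^2)`, so `v (x^2 + A x + B) = 2 j`, `v (y^2) = 3 j` odd: contradiction (`y ≠ 0`; `even_of_sq`).
(2) `j > 4 e`: `V (x^2), V (A x) < V B`, so `v (y^2) = j + 4 e` is odd: contradiction.
(3) `0 < j < 4 e` (`j ≠ 4 e` as `j` is odd): `y^2 = x^2 (A + x + B / x)`, so `A + x + B / x = (y / x)^2` is a square. `v (B / x) = 4 e - j` is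
odd, different from `j` unless `j = 2 e` (even, excluded). `m = min (j, 4 e - j)` is odd and `< 2 e`, so `v (x + B / x) = m`, and
`v (A - 1) ≥ 2 e > m`: `A + x + B / x = 1 + z` with `z = (A - 1) + x + B / x`, `v z = m`. This contradicts (0).
-/

set_option autoImplicit false

open WithZero H73IS H86TL

namespace H88T7

variable {F : Type*} [Field F] {V : Valuation F (WithZero (Multiplicative ℤ))}

lemma Cb_exp {x : F} (hx : x ≠ 0) : ∃ j : ℤ, V x = exp (-j) := by
  refine ⟨-log (V x), ?_⟩
  rw [neg_neg, exp_log ((Valuation.ne_zero_iff V).2 hx)]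

lemma Cb_log {x : F} {j : ℤ} (h : V x = exp (-j)) : log (V x) = -j := by
  rw [h, log_exp]

/-- a unit congruent to one modulo an odd level below four is not a square -/
lemma Cb_ns {e : ℤ} (h2 : V 2 = exp (-e)) {m : ℤ} (hm : Odd m) (hm2 : m < 2 * e) {z : F}
    (hz : V z = exp (-m)) : ¬ IsSquare (1 + z) := by
  rintro ⟨s, hs⟩
  have h1 : z = (s - 1) * (s - 1 + 2) := by linear_combination hs
  have hz0 : z ≠ 0 := by
    rintro rfl
    rw [map_zero] at hz
    exact exp_ne_zero hz.symm
  have ht : s - 1 ≠ 0 := by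
    intro h
    rw [h, zero_mul] at h1
    exact hz0 h1
  have ht2 : s - 1 + 2 ≠ 0 := by
    intro h
    rw [h, mul_zero] at h1
    exact hz0 h1
  obtain ⟨a, ha⟩ := Cb_exp (V := V) ht
  obtain ⟨b, hb⟩ := Cb_exp (V := V) ht2
  have h3 : m = a + b := by
    rw [h1, map_mul, ha, hb, ← exp_add, exp_inj] at hz
    omega
  rcases lt_trichotomy a e with h | h | h
  · have h4 : V (s - 1 + 2) = V (s - 1) := by
      apply val_close
      rw [add_sub_cancel_left, h2, ha, exp_lt_exp]
      omega
    rw [ha, hb, exp_inj] at h4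
    have h5 : m = 2 * a := by omega
    rw [h5] at hm
    exact (Int.not_even_iff_odd.2 hm) ⟨a, by ring⟩
  · have h4 : V (s - 1 + 2) ≤ exp (-e) := by
      refine V.map_add_le ?_ h2.le
      rw [ha, h]
    rw [hb, exp_le_exp] at h4
    omega
  · have h4 : V (s - 1 + 2) = V (2 : F) := by
      apply val_close
      rw [add_sub_cancel_right, h2, ha, exp_lt_exp]
      omega
    rw [h2, hb, exp_inj] at h4
    omega

theorem even_two {e : ℤ} (he : 0 < e) (h2 : V 2 = exp (-e)) {A B d : F} (hA : V (A - 1) ≤ V 4)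
    (hB : V B = V 16) (hd : d ≠ 0) (H : QPt A B d) : Even (log (V d)) := by
  have h4 : V (4 : F) = exp (-(2 * e)) := by
    rw [show (4 : F) = 2 * 2 by norm_num, map_mul, h2, ← exp_add]
    congr 1
    ring
  have h16 : V B = exp (-(4 * e)) := by
    rw [hB, show (16 : F) = 4 * 4 by norm_num, map_mul, h4, ← exp_add]
    congr 1
    ring
  have hB0 : B ≠ 0 := by
    rintro rfl
    rw [map_zero] at h16
    exact exp_ne_zero h16.symm
  rw [h4] at hA
  have hA1 : V A = 1 := by
    rw [← map_one V]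
    apply val_close
    rw [map_one, ← exp_zero]
    refine hA.trans_lt ?_
    rw [exp_lt_exp]
    omega
  rcases qpt_xy hd H with h | h | ⟨x, y, hx, hxy, hxd⟩
  · exact even_of_sq h
  · refine (even_iff hB0 hd h).1 ?_
    rw [Cb_log h16]
    exact ⟨-(2 * e), by ring⟩
  rw [← even_iff hx hd hxd]
  obtain ⟨j, hj⟩ := Cb_exp (V := V) hx
  rw [Cb_log hj]
  by_contra hodd
  have hjo : Odd j := by
    rw [even_neg, Int.not_even_iff_odd] at hodd
    exact hodd
  have hx2 : V (x ^ 2) = exp (-(2 * j)) := by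
    rw [sq, map_mul, hj, ← exp_add]
    congr 1
    ring
  have hAx : V (A * x) = exp (-j) := by rw [map_mul, hA1, one_mul, hj]
  have hysq : Even (log (V (y ^ 2))) := even_of_sq ⟨y, sq y⟩
  rcases lt_trichotomy j 0 with h0 | h0 | h0
  · -- large x
    have h5 : V (x ^ 2 + A * x + B) = V (x ^ 2) := by
      apply val_close
      rw [show x ^ 2 + A * x + B - x ^ 2 = A * x + B by ring]
      refine V.map_add_lt ?_ ?_
      · rw [hAx, hx2, exp_lt_exp]
        omega
      · rw [h16, hx2, exp_lt_exp]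
        omega
    rw [hxy, map_mul, h5, hx2, hj, ← exp_add, log_exp] at hysq
    obtain ⟨k, hk⟩ := hysq
    obtain ⟨n, hn⟩ := hjo
    omega
  · rw [h0] at hjo
    exact absurd hjo (by decide)
  rcases lt_trichotomy j (4 * e) with h1 | h1 | h1
  · have hBx : V (B / x) = exp (-(4 * e - j)) := by
      rw [map_div₀, h16, hj, ← exp_sub]
      congr 1
      ring
    have hsq : IsSquare (1 + ((A - 1) + x + B / x)) := by
      refine ⟨y / x, ?_⟩
      field_simp
      linear_combination -hxy
    rcases lt_trichotomy j (2 * e) with h3 | h3 | h3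
    · refine Cb_ns h2 hjo h3 ?_ hsq
      rw [← hj]
      apply val_close
      rw [show A - 1 + x + B / x - x = (A - 1) + B / x by ring]
      refine V.map_add_lt (hA.trans_lt ?_) ?_
      · rw [hj, exp_lt_exp]
        omega
      · rw [hj, hBx, exp_lt_exp]
        omega
    · rw [h3] at hjo
      exact (Int.not_even_iff_odd.2 hjo) ⟨e, by ring⟩
    · have hmo : Odd (4 * e - j) := by
        obtain ⟨n, hn⟩ := hjo
        exact ⟨2 * e - n - 1, by omega⟩
      refine Cb_ns h2 hmo (by omega) ?_ hsq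
      rw [← hBx]
      apply val_close
      rw [show A - 1 + x + B / x - B / x = (A - 1) + x by ring]
      refine V.map_add_lt (hA.trans_lt ?_) ?_
      · rw [hBx, exp_lt_exp]
        omega
      · rw [hj, hBx, exp_lt_exp]
        omega
  · rw [h1] at hjo
    exact (Int.not_even_iff_odd.2 hjo) ⟨2 * e, by ring⟩
  · have h5 : V (x ^ 2 + A * x + B) = V B := by
      apply val_close
      rw [show x ^ 2 + A * x + B - B = x ^ 2 + A * x by ring]
      refine V.map_add_lt ?_ ?_
      · rw [h16, hx2, exp_lt_exp]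
        omega
      · rw [h16, hAx, exp_lt_exp]
        omega
    rw [hxy, map_mul, h5, h16, hj, ← exp_add, log_exp] at hysq
    obtain ⟨k, hk⟩ := hysq
    obtain ⟨n, hn⟩ := hjo
    omega

end H88T7
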