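import Pool.Agent.H88.T7.Aa
import Pool.Agent.H86.TL.Lz

/-!
ROW Cc (project MP_78d38b_T7, about 80 lines): the local condition at a place dividing the twisting
integer. Modification of `H86TL.P_X` (`Pool/Agent/H86/TL/Ly.lean`), where `K` is Galois of odd degree.

PROOF. Copy the proof of `P_X`. It uses `IsGalois`/`hodd` only through `odd_ef hodd v` (in `odd_int`, `even_int`,
`not_sq_of_nonres` or similar lemmas), i.e. `Odd (v.asIdeal.ramificationIdx ℤ)` and `Odd (v.asIdeal.inertiaDeg ℤ)`: here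
`ramificationIdx = 1` and `hf`. Restate these auxiliary lemmas with the hypotheses `he`, `hf` and copy their proofs
(`Lx.lean`, `Nr.lean` of the same folder): `log_int` holds for all `K`.
-/

set_option autoImplicit false
set_option linter.unusedSectionVars false
open scoped Classical

open WithZero NumberField IsDedekindDomain H38RT H73IS
open H38T1 (SC sc rep eo la si Pri OddP LD XX XX' NS ov rp SqMod)

namespace H88T7

variable {K : Type} [Field K] [NumberField K]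

section Cc_aux

open H86TL H38T1 Pool.Agent.H10

theorem Cc_odd_int {v : HeightOneSpectrum (𝓞 K)} (he : v.asIdeal.ramificationIdx ℤ = 1) {x : ℤ}
    (hx : x ≠ 0) :
    Odd (log (Valued.v ((x : ℤ) : v.adicCompletion K))) ↔ Odd (padicValInt (H38T1.rp v) x) := by
  rw [log_int v hx, he, Nat.cast_one, one_mul, odd_neg]
  exact_mod_cast Iff.rfl

theorem Cc_not_sq {v : HeightOneSpectrum (𝓞 K)} (hf0 : Odd (v.asIdeal.inertiaDeg ℤ))
    (h2 : H38T1.rp v ≠ 2) {x : ℤ} (h : ¬ H38T1.SqMod (H38T1.rp v) x) :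
    ¬ IsSquare ((x : ℤ) : v.adicCompletion K) := by
  rintro ⟨s, hs⟩
  have hq := rp_prime v
  have : Fact (rp v).Prime := ⟨hq⟩
  have hqo : Odd (rp v) := hq.odd_of_ne_two h2
  have hsV : Valued.v s ≤ 1 := by
    by_contra hcon
    push Not at hcon
    have h3 := val_int_le v x
    rw [hs, map_mul] at h3
    exact absurd h3 (not_le.2 (one_lt_mul_of_lt_of_le hcon hcon.le))
  obtain ⟨t, ht⟩ := exists_int_close v s hsV
  have htV : Valued.v (algebraMap K (v.adicCompletion K) (t : K)) ≤ 1 := by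
    rw [valued_algebraMap]
    exact v.valuation_le_one t
  have hmem : (x : 𝓞 K) - t ^ 2 ∈ v.asIdeal := by
    apply mem_of_val_lt
    have e : algebraMap K (v.adicCompletion K) (((x : 𝓞 K) - t ^ 2 : 𝓞 K) : K) =
        -((algebraMap K (v.adicCompletion K) (t : K) - s) *
          (algebraMap K (v.adicCompletion K) (t : K) + s)) := by
      have e1 : algebraMap K (v.adicCompletion K) (((x : 𝓞 K) - t ^ 2 : 𝓞 K) : K) =
          ((x : ℤ) : v.adicCompletion K) - (algebraMap K (v.adicCompletion K) (t : K)) ^ 2 := by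
        simp
      rw [e1, hs]
      ring
    rw [e, Valuation.map_neg, map_mul]
    calc _ ≤ Valued.v (algebraMap K (v.adicCompletion K) (t : K) - s) * 1 :=
          mul_le_mul_right (Valuation.map_add_le _ htV hsV) _
      _ = Valued.v (algebraMap K (v.adicCompletion K) (t : K) - s) := mul_one _
      _ < 1 := ht
  have : v.asIdeal.IsMaximal := v.isMaximal
  let : Field (𝓞 K ⧸ v.asIdeal) := Ideal.Quotient.field _
  have : Finite (𝓞 K ⧸ v.asIdeal) := Ideal.finiteQuotientOfFreeOfNeBot _ v.ne_bot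
  let : Fintype (𝓞 K ⧸ v.asIdeal) := Fintype.ofFinite _
  have : CharP (𝓞 K ⧸ v.asIdeal) (rp v) := ringChar.charP _
  have hsq : IsSquare ((x : ℤ) : 𝓞 K ⧸ v.asIdeal) := by
    refine ⟨Ideal.Quotient.mk _ t, ?_⟩
    have h3 := Ideal.Quotient.eq_zero_iff_mem.2 hmem
    rw [map_sub, map_pow, map_intCast, sub_eq_zero] at h3
    rw [h3, sq]
  have hx : ¬ (rp v : ℤ) ∣ x := by
    intro h3
    exact h ⟨0, by simpa using h3⟩
  have hx0 : ((x : ℤ) : 𝓞 K ⧸ v.asIdeal) ≠ 0 := by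
    rw [Ne, CharP.intCast_eq_zero_iff (𝓞 K ⧸ v.asIdeal) (rp v)]
    exact hx
  have hx0' : ((x : ℤ) : ZMod (rp v)) ≠ 0 := by
    rw [Ne, ZMod.intCast_zmod_eq_zero_iff_dvd]
    exact hx
  have hns : ¬ IsSquare ((x : ℤ) : ZMod (rp v)) := by
    rintro ⟨y, hy⟩
    obtain ⟨t, rfl⟩ := ZMod.intCast_surjective y
    apply h
    refine ⟨t, ?_⟩
    rw [← ZMod.intCast_zmod_eq_zero_iff_dvd]
    push_cast
    rw [hy]
    ring
  rw [ZMod.euler_criterion _ hx0'] at hns
  have hneg := (ZMod.pow_div_two_eq_neg_one_or_one _ hx0').resolve_left hns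
  -- transport to the residue field
  have hneg' : ((x : ℤ) : 𝓞 K ⧸ v.asIdeal) ^ (rp v / 2) = -1 := by
    have h3 := congrArg (ZMod.castHom dvd_rfl (𝓞 K ⧸ v.asIdeal)) hneg
    rw [map_pow, map_intCast, map_neg, map_one] at h3
    exact h3
  have hF2 : ringChar (𝓞 K ⧸ v.asIdeal) ≠ 2 := h2
  rw [FiniteField.isSquare_iff hF2 hx0] at hsq
  have hcard : Fintype.card (𝓞 K ⧸ v.asIdeal) = rp v ^ v.asIdeal.inertiaDeg ℤ := by
    rw [← card_res, Nat.card_eq_fintype_card]
  obtain ⟨f, hf⟩ : ∃ f, f = v.asIdeal.inertiaDeg ℤ := ⟨_, rfl⟩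
  have hfo : Odd f := by rw [hf]; exact hf0
  rw [hcard, ← hf] at hsq
  have hdiv : rp v ^ f / 2 = (rp v / 2) * ∑ i ∈ Finset.range f, rp v ^ i := by
    obtain ⟨A, hA⟩ := hqo
    have h3 : (∑ i ∈ Finset.range f, (rp v) ^ i) * (rp v - 1) = rp v ^ f - 1 :=
      Nat.geomSum_eq hq.two_le f ▸ Nat.div_mul_cancel (by
        exact (Nat.sub_dvd_pow_sub_pow (rp v) 1 f).trans (by rw [one_pow]))
    have h4 : 1 ≤ rp v ^ f := Nat.one_le_pow _ _ hq.pos
    have h5 : rp v / 2 = A := by omega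
    have h6 : rp v - 1 = 2 * A := by omega
    rw [h6] at h3
    rw [h5]
    obtain ⟨S, hS⟩ : ∃ S, S = ∑ i ∈ Finset.range f, (rp v) ^ i := ⟨_, rfl⟩
    rw [← hS] at h3 ⊢
    have h7 : S * (2 * A) = 2 * (A * S) := by ring
    omega
  rw [hdiv, pow_mul, hneg', (odd_geom hqo hfo).neg_one_pow] at hsq
  have h3 : (2 : 𝓞 K ⧸ v.asIdeal) = 0 := by linear_combination -hsq
  have h4 : ((2 : ℕ) : 𝓞 K ⧸ v.asIdeal) = 0 := by exact_mod_cast h3
  rw [CharP.cast_eq_zero_iff (𝓞 K ⧸ v.asIdeal) (rp v)] at h4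
  exact h2 ((Nat.prime_dvd_prime_iff_eq hq Nat.prime_two).1 h4)

end Cc_aux

theorem P_X7 {A B n : ℤ} {v : HeightOneSpectrum (𝓞 K)} (he : v.asIdeal.ramificationIdx ℤ = 1)
    (hf : Odd (v.asIdeal.inertiaDeg ℤ)) (h2 : rp v ≠ 2) (hB : ¬ (rp v : ℤ) ∣ B)
    (hD : ¬ (rp v : ℤ) ∣ A ^ 2 - 4 * B) (hr : ¬ SqMod (rp v) (A ^ 2 - 4 * B))
    (hn : Squarefree n) (hqn : (rp v : ℤ) ∣ n) {d : K} (hd : d ≠ 0)
    (H : QPt (((A : ℤ) : v.adicCompletion K) * ((n : ℤ) : v.adicCompletion K))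
      (((B : ℤ) : v.adicCompletion K) * ((n : ℤ) : v.adicCompletion K) ^ 2)
      (algebraMap K (v.adicCompletion K) d)) :
    eo v (sc d) = 0 ∧ (SqMod (rp v) B → la v (sc d) = 0) := by
  have hBV := H86TL.val_int_one v hB
  have hDV := H86TL.val_int_one v hD
  have hns := Cc_not_sq hf h2 hr
  push_cast at hDV hns
  have hdF := (map_ne_zero (algebraMap K (v.adicCompletion K))).2 hd
  have hno : Odd (log (Valued.v ((n : ℤ) : v.adicCompletion K))) := by
    rw [Cc_odd_int he hn.ne_zero, H86TL.padic_sqf (H38T1.rp_prime v) hn hqn]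
    exact odd_one
  have hB0 : ((B : ℤ) : v.adicCompletion K) ≠ 0 := by
    intro h0
    rw [h0, map_zero] at hBV
    exact zero_ne_one hBV
  rcases H86TL.loc_P (Pool.Agent.H10.hS_odd v (H86TL.two_notMem h2)) (H86TL.v2F h2) (H86TL.val_int_le v A) hBV hDV hns hno hdF H with h | h
  · obtain ⟨h3, h4⟩ := H86TL.triv_of_sq v (H86TL.oddP_of h2) hd h
    exact ⟨h3, fun _ => h4⟩
  · refine ⟨?_, fun hs => ?_⟩
    · apply H86TL.eo_of_even v hd
      refine (H86TL.even_iff hB0 hdF h).1 ?_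
      rw [hBV]
      exact H86TL.even_zero
    · obtain ⟨s, hs'⟩ := H86TL.sq_of_res h2 hB hs
      have hs0 : s ≠ 0 := by
        rintro rfl
        exact hB0 (by rw [hs', mul_zero])
      rw [hs', show s * s * algebraMap K (v.adicCompletion K) d =
        algebraMap K (v.adicCompletion K) d * s ^ 2 by ring, H86TL.sq_mul_sq hs0] at h
      exact (H86TL.triv_of_sq v (H86TL.oddP_of h2) hd h).2

end H88T7
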