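import Pool.Agent.H88.T7.Ca
import Pool.Agent.H88.T7.Cb
import Pool.Agent.H88.T7.Cc
import Pool.Agent.H88.T7.Ah

/-! Row Cd (project MP_78d38b_T7). -/

set_option autoImplicit false
set_option linter.unusedSectionVars false
open scoped Classical

open WithZero NumberField IsDedekindDomain H38RT H73IS
open H38T1 (SC sc rep eo la si Pri OddP LD XX XX' NS ov rp SqMod)

namespace H88T7

variable {K : Type} [Field K] [NumberField K] {B : Finset ℕ} {Dc : SC ℚ} {a β : ℤ}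
  {Pp Pp' : Finset ℕ} {n : ℤ}

theorem Cd_q (hD : Dat K B Dc a β) {q : ℕ} (hq : q.Prime)
    (h : (q : ℤ) ∣ β * (a ^ 2 - 64 * β)) : q ∉ B ∧ q ≠ 2 := by
  have h1 := hD.co q hq h
  refine ⟨h1, ?_⟩
  intro h2
  rw [h2] at h1
  exact h1 hD.two

theorem Cd_pow2 {q : ℕ} (hq : q.Prime) (h2 : q ≠ 2) (k : ℕ) : ¬ (q : ℤ) ∣ 2 ^ k := by
  intro h
  have h8 : q ∣ 2 ^ k := by exact_mod_cast h
  exact h2 ((Nat.prime_dvd_prime_iff_eq hq Nat.prime_two).1 (hq.dvd_of_dvd_pow h8))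

theorem Cd_16 {q : ℕ} (hq : q.Prime) (h2 : q ≠ 2) (hb : ¬ (q : ℤ) ∣ β) : ¬ (q : ℤ) ∣ 16 * β := by
  have hqZ : Prime ((q : ℕ) : ℤ) := Nat.prime_iff_prime_int.1 hq
  intro h
  rcases hqZ.dvd_or_dvd h with h7 | h7
  · exact Cd_pow2 hq h2 4 (by norm_num; exact h7)
  · exact hb h7

theorem Cd_disc (hD : Dat K B Dc a β) {q : ℕ} (hq : q.Prime) (h : (q : ℤ) ∣ a ^ 2 - 64 * β) :
    ¬ (q : ℤ) ∣ a ∧ ¬ (q : ℤ) ∣ β := by
  have hqZ : Prime ((q : ℕ) : ℤ) := Nat.prime_iff_prime_int.1 hq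
  obtain ⟨-, h2⟩ := Cd_q hD hq (h.mul_left β)
  have h1 : ¬ ((q : ℤ) ∣ a ∧ (q : ℤ) ∣ β) := by
    rintro ⟨h3, h4⟩
    exact hqZ.not_isUnit (hD.cop.isUnit_of_dvd' h3 h4)
  have h3 : (q : ℤ) ∣ β → (q : ℤ) ∣ a := by
    intro h4
    have h5 : (q : ℤ) ∣ a ^ 2 := by
      have h6 := dvd_add h (h4.mul_left 64)
      rwa [sub_add_cancel] at h6
    exact hqZ.dvd_of_dvd_pow h5
  have h4 : (q : ℤ) ∣ a → (q : ℤ) ∣ β := by
    intro h5
    have h6 : (q : ℤ) ∣ 64 * β := by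
      have h7 := dvd_sub (h5.mul_right a) h
      rwa [show a * a - (a ^ 2 - 64 * β) = 64 * β by ring] at h7
    rcases hqZ.dvd_or_dvd h6 with h7 | h7
    · exact absurd h7 (by
        have h8 := Cd_pow2 hq h2 6
        norm_num at h8
        exact h8)
    · exact h7
  exact ⟨fun h5 => h1 ⟨h5, h4 h5⟩, fun h5 => h1 ⟨h3 h5, h5⟩⟩

theorem Cd_P (hn : Tw7 K B a β Pp Pp' n) {v : HeightOneSpectrum (𝓞 K)} (hqn : (rp v : ℤ) ∣ n)
    (hr : ¬ SqMod (rp v) (a ^ 2 - 64 * β)) {d : K} (hd : d ≠ 0)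
    (hf : FinQ K ((a * n : ℤ) : K) ((16 * β * n ^ 2 : ℤ) : K) d) :
    eo v (sc d) = 0 ∧ (SqMod (rp v) β → la v (sc d) = 0) := by
  have hq := H38T1.rp_prime v
  obtain ⟨⟨-, h2, hnice⟩, hbD⟩ := hn.nice (rp v) hq hqn
  obtain ⟨he, hfd⟩ := hnice v (H38T1.rp_mem v)
  have hb : ¬ (rp v : ℤ) ∣ β := fun h => hbD (h.mul_right _)
  have hDD : ¬ (rp v : ℤ) ∣ a ^ 2 - 64 * β := fun h => hbD (h.mul_left _)
  have hb16 : ¬ (rp v : ℤ) ∣ 16 * β := Cd_16 hq h2 hb
  have e : a ^ 2 - 4 * (16 * β) = a ^ 2 - 64 * β := by ring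
  have key := P_X7 (A := a) (B := 16 * β) (n := n) he hfd h2 hb16 (by rw [e]; exact hDD)
    (by rw [e]; exact hr) hn.sqf hqn hd (H86TL.E_form hf v)
  refine ⟨key.1, fun hs => key.2 ?_⟩
  obtain ⟨t, ht⟩ := hs
  refine ⟨4 * t, ?_⟩
  rw [show 16 * β - (4 * t) ^ 2 = 16 * (β - t ^ 2) by ring]
  exact ht.mul_left _

theorem Cd_node (hD : Dat K B Dc a β) (hn : Tw7 K B a β Pp Pp' n) {v : HeightOneSpectrum (𝓞 K)}
    (hv : (rp v : ℤ) ∣ a ^ 2 - 64 * β) {d : K} (hd : d ≠ 0)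
    (hf : FinQ K ((a * n : ℤ) : K) ((16 * β * n ^ 2 : ℤ) : K) d) :
    eo v (sc d) = 0 ∧ la v (sc d) = 0 := by
  have hq := H38T1.rp_prime v
  obtain ⟨hqB, h2⟩ := Cd_q hD hq (hv.mul_left β)
  obtain ⟨hqa, hqb⟩ := Cd_disc hD hq hv
  have hqn : ¬ (rp v : ℤ) ∣ n := fun h => (hn.nice (rp v) hq h).2 (hv.mul_left β)
  have he : v.asIdeal.ramificationIdx ℤ = 1 := hD.unr v hqB
  apply H86TL.triv_of_sq v (H86TL.oddP_of h2) hd
  have hdF : algebraMap K (v.adicCompletion K) d ≠ 0 := (map_ne_zero _).2 hd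
  have hnV := H86TL.val_int_one v hqn
  have haV := H86TL.val_int_one v hqa
  have h2V := H86TL.v2F h2
  have hch : CharZero (v.adicCompletion K) := Pool.Agent.H10.charZero_of_alg (K := K)
  have hDV := (H86TL.val_int_lt v _).2 hv
  have hDne : a ^ 2 - 64 * β ≠ 0 := by
    have := hD.pos
    intro h0
    linarith
  have hDsq : Squarefree (a ^ 2 - 64 * β) := hD.sqf.of_mul_right
  have hlog : log (Valued.v (((a ^ 2 - 64 * β : ℤ)) : v.adicCompletion K)) = -1 := by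
    rw [H86TL.log_int v hDne, he, H86TL.padic_sqf hq hDsq hv]
    norm_num
  have h4V : Valued.v (4 : v.adicCompletion K) = 1 := by
    rw [show (4 : v.adicCompletion K) = 2 * 2 by norm_num, map_mul, h2V, one_mul]
  have hE : Valued.v ((((a ^ 2 - 64 * β : ℤ)) : v.adicCompletion K) * ((n : ℤ) : v.adicCompletion K) ^ 2 / 4) =
      Valued.v (((a ^ 2 - 64 * β : ℤ)) : v.adicCompletion K) := by
    rw [map_div₀, map_mul, map_pow, hnV, h4V, one_pow, mul_one, div_one]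
  have H := H86TL.E_form hf v
  have e1 : -2 * (-(((a : ℤ) : v.adicCompletion K) * ((n : ℤ) : v.adicCompletion K)) / 2) =
      ((a : ℤ) : v.adicCompletion K) * ((n : ℤ) : v.adicCompletion K) := by ring
  have e2 : (-(((a : ℤ) : v.adicCompletion K) * ((n : ℤ) : v.adicCompletion K)) / 2) ^ 2 -
      (((a ^ 2 - 64 * β : ℤ)) : v.adicCompletion K) * ((n : ℤ) : v.adicCompletion K) ^ 2 / 4 =
      ((16 * β : ℤ) : v.adicCompletion K) * ((n : ℤ) : v.adicCompletion K) ^ 2 := by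
    push_cast
    ring
  rw [← e1, ← e2] at H
  refine sq_node (Pool.Agent.H10.hS_odd v (H86TL.two_notMem h2)) ?_ ?_ ?_ hdF H
  · rw [map_div₀, Valuation.map_neg, map_mul, haV, hnV, h2V, mul_one, div_one]
  · rw [hE]
    exact hDV
  · rw [hE, hlog]
    exact ⟨-1, by norm_num⟩

theorem Cd_two (hD : Dat K B Dc a β) (hn : Tw7 K B a β Pp Pp' n) {v : HeightOneSpectrum (𝓞 K)}
    (h2 : rp v = 2) {d : K} (hd : d ≠ 0)
    (hf : FinQ K ((a * n : ℤ) : K) ((16 * β * n ^ 2 : ℤ) : K) d) : eo v (sc d) = 0 := by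
  have hdF : algebraMap K (v.adicCompletion K) d ≠ 0 := (map_ne_zero _).2 hd
  have hV2 : Valued.v (2 : v.adicCompletion K) = exp (-(v.asIdeal.ramificationIdx ℤ : ℤ)) := by
    have h3 := H86TL.val_rp v
    rw [h2] at h3
    have h4 : Valued.v (2 : v.adicCompletion K) = v.valuation K 2 := Pool.Agent.H10.valued_ofNat v 2
    rw [h4]
    exact_mod_cast h3
  have hlt : Valued.v (2 : v.adicCompletion K) < 1 := by
    have h3 := (H86TL.val_int_lt v 2).2 (by rw [h2]; exact dvd_rfl)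
    exact_mod_cast h3
  have he : (0 : ℤ) < v.asIdeal.ramificationIdx ℤ := by
    rw [hV2, ← exp_zero, exp_lt_exp] at hlt
    omega
  have hn2 : ¬ (rp v : ℤ) ∣ n := by
    rw [h2]
    intro h3
    have := hn.n4
    push_cast at h3
    omega
  have hb2 : ¬ (rp v : ℤ) ∣ β := by
    rw [h2]
    intro h3
    have := hD.bo
    push_cast at h3
    omega
  have hnV := H86TL.val_int_one v hn2
  have hbV := H86TL.val_int_one v hb2
  apply H86TL.eo_of_even v hd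
  refine even_two he hV2 ?_ ?_ hdF (H86TL.qF hf v)
  · obtain ⟨m, hm⟩ : ∃ m : ℤ, a * n = 1 + 4 * m := by
      have h5 : a * n % 4 = 1 := by
        rw [Int.mul_emod, hD.a4, hn.n4]
        norm_num
      exact ⟨a * n / 4, by omega⟩
    rw [hm]
    push_cast
    rw [show (1 : v.adicCompletion K) + 4 * (m : v.adicCompletion K) - 1 =
      4 * (m : v.adicCompletion K) by ring, map_mul]
    exact mul_le_of_le_one_right' (H86TL.val_int_le v m)
  · push_cast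
    rw [map_mul, map_mul, map_pow, hnV, hbV, one_pow, mul_one, mul_one]

theorem loc_X7 (hD : Dat K B Dc a β) (hS : St K B a β Pp Pp') (hn : Tw7 K B a β Pp Pp' n) {d : K}
    (hd : d ≠ 0) (hf : FinQ K ((a * n : ℤ) : K) ((16 * β * n ^ 2 : ℤ) : K) d)
    (hi : InfQ K ((a * n : ℤ) : K) ((16 * β * n ^ 2 : ℤ) : K) d) :
    sc d ∈ XX (L7 K a β Pp Pp') := by
  refine ⟨?_, ?_, ?_, ?_⟩
  · intro v _ hv'
    have hq := H38T1.rp_prime v
    have hv1 : rp v ∉ pd β ∪ (Pp' : Set ℕ) := fun h => hv' (H86TL.ov_of_rp h)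
    by_cases h2 : rp v = 2
    · exact Cd_two hD hn h2 hd hf
    · by_cases hDv : (rp v : ℤ) ∣ a ^ 2 - 64 * β
      · exact (Cd_node hD hn hDv hd hf).1
      · have hb : ¬ (rp v : ℤ) ∣ β := fun h => hv1 (Or.inl ⟨hq, h⟩)
        by_cases hqn : (rp v : ℤ) ∣ n
        · have hP' : rp v ∉ Pp' := fun h => hv1 (Or.inr (Finset.mem_coe.2 h))
          have hr : ¬ SqMod (rp v) (a ^ 2 - 64 * β) := by
            by_cases hP : rp v ∈ Pp
            · exact (hS.sq _ hP).2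
            · exact (hn.neu _ hq hqn hP hP').2
          exact (Cd_P hn hqn hr hd hf).1
        · exact H86TL.unit_X (Cd_16 hq h2 hb) hqn hd (H86TL.E_form hf v)
  · intro v hv
    exact absurd hv (Set.notMem_empty v)
  · intro v hv
    have hq := H38T1.rp_prime v
    have hP : rp v ∈ pd (a ^ 2 - 64 * β) ∪ (Pp : Set ℕ) := by
      refine H86TL.rp_of_ov (fun q hq' => ?_) hv
      rcases hq' with h | h
      · exact h.1
      · exact (hS.nice q (Finset.mem_union_left _ (Finset.mem_coe.1 h))).1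
    rcases hP with h | h
    · exact (Cd_node hD hn h.2 hd hf).2
    · have h' : rp v ∈ Pp := Finset.mem_coe.1 h
      have hqn : (rp v : ℤ) ∣ n := hn.mem _ (Finset.mem_union_left _ h')
      exact (Cd_P hn hqn (hS.sq _ h').2 hd hf).2 (hS.sq _ h').1
  · intro _ w
    apply H86TL.si_of_inf ?_ hd hi
    left
    have hn0 : n ≠ 0 := hn.sqf.ne_zero
    have hn2 : 0 < n ^ 2 := by positivity
    have hpos := hD.pos
    have h3 := mul_lt_mul_of_pos_right hpos hn2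
    calc (a * n) ^ 2 = a ^ 2 * n ^ 2 := by ring
      _ < 64 * β * n ^ 2 := h3
      _ = 4 * (16 * β * n ^ 2) := by ring

end H88T7
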