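import Pool.Agent.H88.T7.Ca
import Pool.Agent.H88.T7.Cb
import Pool.Agent.H88.T7.Cc
import Pool.Agent.H88.T7.Ah

/-!
ROW Ce (project MP_78d38b_T7, about 200 lines): the Selmer group of the isogenous curve
`y^2 = x (x^2 - 2 a n x + (a^2 - 64 β) n^2)` is contained in `XX'`.

PROOF. Compare `H86TL.loc_X'` (`Pool/Agent/H86/TL/Lz.lean`), same structure and auxiliary statements (`hpri`, `ha2`, `h16`, `hs16`
there, with `b = 16 β`; `D = a^2 - 64 β = a^2 - 4 b`). Membership in `P`, `P'`: `H38T1.mem_ov` (or `ov_of_rp`, `rp_of_ov`).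
Primary at `rp v = 2`: `loc_two'` exactly as `hpri` (`A = a n ≡ 1 mod 4`, `V (16 β n^2) ≤ V 16`); then `pri_of`; it also gives
`eo v (sc d) = 0` (`H38T1.pri_eo`).
`eo v (sc d) = 0` for `v ∉ P`, `rp v ≠ 2`: * `rp v ∣ β`: `v ∈ P'`, see below. * `rp v ∣ D`: excluded. * `rp v ∤ 2 β D n`: `unit_X` with
`E'_form`. * `rp v ∣ n`: `Nice K (rp v)`, `rp v ∤ β D` (`hn.nice`), `rp v ∉ Pp` (`v ∉ P`), so `rp v ∈ Pp'` or neutral (`hn.neu`): `β` is not a
square modulo `rp v`, so `(-2 a)^2 - 4 D = 256 β` is not one (`hs16`): `P_X7` for `A = -2 a`, `B = D` (first part).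
`la v (sc d) = 0` for `v ∈ P'`: * `rp v ∣ β`: `rp v ≠ 2`, `rp v ∤ a n`, `ramificationIdx = 1` (`hD.unr`, `hD.co`): `sq_node` with `c = a n`,
`e = 64 β n^2` in the completion: `-2 c = -2 a n`, `c^2 - e = D n^2`; `V c = 1`, `log (V e) = -1` (`log_int`, `padic_sqf`; `β` is squarefree as
`β D` is); `hS` is `hS_odd v`: `d` is a square in the completion: `triv_of_sq` (both `eo` and `la`).
* `rp v ∈ Pp'`: `rp v ∣ n` (`hn.mem`), `D` is a square modulo `rp v`, `β` is not (`hS.sq'`): `P_X7`, second part.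
`τ = false`: no sign condition (`Bool` contradiction).
-/

/-!
ROW Ce (project MP_78d38b_T7): the Selmer group of the isogenous curve
`y^2 = x (x^2 - 2 a n x + (a^2 - 64 β) n^2)` is contained in `XX'`.
-/

set_option autoImplicit false
set_option linter.unusedSectionVars false
open scoped Classical

open WithZero NumberField IsDedekindDomain H38RT H73IS
open H38T1 (SC sc rep eo la si Pri OddP LD XX XX' NS ov rp SqMod)

namespace H88T7

variable {K : Type} [Field K] [NumberField K] {B : Finset ℕ} {Dc : SC ℚ} {a β : ℤ}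
  {Pp Pp' : Finset ℕ} {n : ℤ}

theorem Ce_sq {q : ℕ} (hq : q.Prime) (h2 : q ≠ 2) {a β : ℤ} (hb : ¬ SqMod q β) :
    ¬ SqMod q ((-2 * a) ^ 2 - 4 * (a ^ 2 - 64 * β)) := by
  rintro ⟨t, ht⟩
  apply hb
  have hcop : IsCoprime (16 : ℤ) (q : ℤ) := by
    rw [show (16 : ℤ) = ((2 ^ 4 : ℕ) : ℤ) by norm_num, Nat.isCoprime_iff_coprime]
    apply Nat.Coprime.pow_left
    rw [Nat.coprime_primes Nat.prime_two hq]
    exact fun h => h2 h.symm
  obtain ⟨x, y, hxy⟩ := hcop
  refine ⟨x * t, ?_⟩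
  have h4 : β - (x * t) ^ 2 =
      x ^ 2 * (((-2 * a) ^ 2 - 4 * (a ^ 2 - 64 * β)) - t ^ 2) +
        (q : ℤ) * (β * y * (1 + x * 16)) := by
    have h5 : (q : ℤ) * y = 1 - x * 16 := by linear_combination hxy
    linear_combination (-β * (1 + x * 16)) * h5
  rw [h4]
  exact dvd_add (ht.mul_left _) (dvd_mul_right _ _)

theorem Ce_pow_two {q : ℕ} (hq : q.Prime) (h2 : q ≠ 2) (k : ℕ) : ¬ (q : ℤ) ∣ 2 ^ k := by
  intro h
  have h3 : q ∣ 2 ^ k := by exact_mod_cast h
  exact h2 ((Nat.prime_dvd_prime_iff_eq hq Nat.prime_two).1 (hq.dvd_of_dvd_pow h3))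

theorem Ce_ne (hD : Dat K B Dc a β) : β ≠ 0 ∧ a ^ 2 - 64 * β ≠ 0 := by
  constructor
  · intro h
    have := hD.bo
    rw [h] at this
    norm_num at this
  · have := hD.pos
    intro h
    omega

/-- The places above the prime divisors of `β`. -/
theorem Ce_node (hD : Dat K B Dc a β) (hn : Tw7 K B a β Pp Pp' n) {d : K}
    (hd : d ≠ 0) (hf : FinQ K ((-2 * (a * n) : ℤ) : K) (((a ^ 2 - 64 * β) * n ^ 2 : ℤ) : K) d)
    {v : HeightOneSpectrum (𝓞 K)} (hv : (rp v : ℤ) ∣ β) :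
    rp v ≠ 2 ∧ eo v (sc d) = 0 ∧ la v (sc d) = 0 := by
  have hq := H38T1.rp_prime v
  have hqZ : Prime ((rp v : ℕ) : ℤ) := Nat.prime_iff_prime_int.1 hq
  have h2 : rp v ≠ 2 := by
    intro h
    rw [h] at hv
    have := hD.bo
    push_cast at hv
    omega
  obtain ⟨hb0, -⟩ := Ce_ne hD
  have hda : ¬ (rp v : ℤ) ∣ a := by
    intro h
    exact hqZ.not_isUnit (hD.cop.isUnit_of_dvd' h hv)
  have hdn : ¬ (rp v : ℤ) ∣ n := fun h => (hn.nice _ hq h).2 (hv.mul_right _)
  have hdan : ¬ (rp v : ℤ) ∣ a * n := by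
    intro h
    rcases hqZ.dvd_or_dvd h with h | h
    · exact hda h
    · exact hdn h
  have hdu : ¬ (rp v : ℤ) ∣ 64 * n ^ 2 := by
    intro h
    rcases hqZ.dvd_or_dvd h with h | h
    · exact Ce_pow_two hq h2 6 (by norm_num; exact h)
    · exact hdn (hqZ.dvd_of_dvd_pow h)
  have he : v.asIdeal.ramificationIdx ℤ = 1 := hD.unr v (hD.co _ hq (hv.mul_right _))
  have hsq : Squarefree β := hD.sqf.squarefree_of_dvd (dvd_mul_right _ _)
  have hcast : ((64 * β * n ^ 2 : ℤ) : v.adicCompletion K) =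
      ((64 * n ^ 2 : ℤ) : v.adicCompletion K) * ((β : ℤ) : v.adicCompletion K) := by
    push_cast
    ring
  have heo : log (Valued.v ((64 * β * n ^ 2 : ℤ) : v.adicCompletion K)) = -1 := by
    rw [hcast, map_mul, H86TL.val_int_one v hdu, one_mul, H86TL.log_int v hb0, he,
      H86TL.padic_sqf hq hsq hv]
    norm_num
  have h1 : IsSquare (algebraMap K (v.adicCompletion K) d) := by
    refine sq_node (V := (Valued.v : Valuation (v.adicCompletion K) (WithZero (Multiplicative ℤ))))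
      (c := ((a * n : ℤ) : v.adicCompletion K)) (e := ((64 * β * n ^ 2 : ℤ) : v.adicCompletion K))
      (Pool.Agent.H10.hS_odd v (H86TL.two_notMem h2)) (H86TL.val_int_one v hdan)
      ((H86TL.val_int_lt v _).2 ?_) ?_ ((map_ne_zero (algebraMap K (v.adicCompletion K))).2 hd) ?_
    · exact (hv.mul_left 64).mul_right _
    · rw [heo]
      exact ⟨-1, by norm_num⟩
    · have h3 := H86TL.qF hf v
      convert h3 using 1
      · push_cast
        ring
      · push_cast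
        ring
  exact ⟨h2, H86TL.triv_of_sq v (H86TL.oddP_of h2) hd h1⟩

theorem Ce_pri (hD : Dat K B Dc a β) (hn : Tw7 K B a β Pp Pp' n) {d : K}
    (hd : d ≠ 0) (hf : FinQ K ((-2 * (a * n) : ℤ) : K) (((a ^ 2 - 64 * β) * n ^ 2 : ℤ) : K) d)
    {v : HeightOneSpectrum (𝓞 K)} (h2 : rp v = 2) : Pri v (sc d) := by
  obtain ⟨hb0, hD0⟩ := Ce_ne hD
  have hn0 := hn.sqf.ne_zero
  have hch : CharZero (v.adicCompletion K) := Pool.Agent.H10.charZero_of_alg (K := K)
  have hlt : Valued.v (2 : v.adicCompletion K) < 1 := by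
    have h3 := (H86TL.val_int_lt v 2).2 (by rw [h2]; exact dvd_rfl)
    exact_mod_cast h3
  refine H86TL.pri_of v (H86TL.two_mem h2) hd ?_
  refine H86TL.loc_two' (A := ((a * n : ℤ) : v.adicCompletion K))
    (B := ((16 * β * n ^ 2 : ℤ) : v.adicCompletion K)) two_ne_zero hlt ?_ ?_ ?_ ?_
    ((map_ne_zero (algebraMap K (v.adicCompletion K))).2 hd) ?_
  · obtain ⟨m, hm⟩ : ∃ m : ℤ, a * n = 1 + 4 * m := by
      refine ⟨a * n / 4, ?_⟩
      have h3 : (a * n) % 4 = 1 := by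
        rw [Int.mul_emod, hD.a4, hn.n4]
        norm_num
      omega
    rw [hm]
    push_cast
    rw [add_sub_cancel_left, map_mul]
    exact mul_le_of_le_one_right' (H86TL.val_int_le v m)
  · exact H86TL.ne_zero_int v (mul_ne_zero (mul_ne_zero (by norm_num) hb0) (pow_ne_zero 2 hn0))
  · have h3 : ((16 * β * n ^ 2 : ℤ) : v.adicCompletion K) =
        16 * ((β * n ^ 2 : ℤ) : v.adicCompletion K) := by
      push_cast
      ring
    rw [h3, map_mul]
    exact mul_le_of_le_one_right' (H86TL.val_int_le v _)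
  · have h5 : (a * n) ^ 2 - 4 * (16 * β * n ^ 2) ≠ 0 := by
      rw [show (a * n) ^ 2 - 4 * (16 * β * n ^ 2) = (a ^ 2 - 64 * β) * n ^ 2 by ring]
      exact mul_ne_zero hD0 (pow_ne_zero 2 hn0)
    have h6 := H86TL.ne_zero_int v h5
    push_cast at h6 ⊢
    exact h6
  · have h3 := H86TL.qF hf v
    convert h3 using 1
    · push_cast
      ring
    · push_cast
      ring

theorem loc_X7' (hD : Dat K B Dc a β) (hS : St K B a β Pp Pp') (hn : Tw7 K B a β Pp Pp' n) {d : K}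
    (hd : d ≠ 0) (hf : FinQ K ((-2 * (a * n) : ℤ) : K) (((a ^ 2 - 64 * β) * n ^ 2 : ℤ) : K) d)
    (hi : InfQ K ((-2 * (a * n) : ℤ) : K) (((a ^ 2 - 64 * β) * n ^ 2 : ℤ) : K) d) :
    sc d ∈ XX' (L7 K a β Pp Pp') := by
  have E' : ∀ v : HeightOneSpectrum (𝓞 K),
      QPt ((((-2 * a : ℤ) : ℤ) : v.adicCompletion K) * ((n : ℤ) : v.adicCompletion K))
      ((((a ^ 2 - 64 * β : ℤ) : ℤ) : v.adicCompletion K) * ((n : ℤ) : v.adicCompletion K) ^ 2)
      (algebraMap K (v.adicCompletion K) d) := by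
    intro v
    have h1 := H86TL.qF hf v
    convert h1 using 1
    · push_cast
      ring
    · push_cast
      ring
  have hprS : ∀ q ∈ Pp ∪ Pp', q.Prime := fun q hq => (hS.nice q hq).1
  have hP : ∀ q ∈ (pd (a ^ 2 - 64 * β) ∪ (Pp : Set ℕ)), q.Prime := by
    rintro q (hq | hq)
    · exact hq.1
    · exact hprS q (Finset.mem_union_left _ (Finset.mem_coe.1 hq))
  have hP' : ∀ q ∈ (pd β ∪ (Pp' : Set ℕ)), q.Prime := by
    rintro q (hq | hq)
    · exact hq.1
    · exact hprS q (Finset.mem_union_right _ (Finset.mem_coe.1 hq))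
  -- the places dividing `n`
  have hX : ∀ v : HeightOneSpectrum (𝓞 K), rp v ≠ 2 → (rp v : ℤ) ∣ n → ¬ SqMod (rp v) β →
      eo v (sc d) = 0 ∧ (SqMod (rp v) (a ^ 2 - 64 * β) → la v (sc d) = 0) := by
    intro v h2 hvn hnb
    have hq := H38T1.rp_prime v
    have hqZ : Prime ((rp v : ℕ) : ℤ) := Nat.prime_iff_prime_int.1 hq
    obtain ⟨hnice, hbD⟩ := hn.nice _ hq hvn
    obtain ⟨he, hf'⟩ := hnice.2.2 v (H38T1.rp_mem v)
    refine P_X7 he hf' h2 (fun h => hbD (h.mul_left _)) ?_ (Ce_sq hq h2 hnb) hn.sqf hvn hd (E' v)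
    intro h
    rw [show (-2 * a) ^ 2 - 4 * (a ^ 2 - 64 * β) = 2 ^ 8 * β by ring] at h
    rcases hqZ.dvd_or_dvd h with h | h
    · exact Ce_pow_two hq h2 8 h
    · exact hbD (h.mul_right _)
  refine ⟨?_, ?_, ?_, ?_, ?_⟩
  · intro v _ hv
    have hq := H38T1.rp_prime v
    have hvP : rp v ∉ (pd (a ^ 2 - 64 * β) ∪ (Pp : Set ℕ)) := fun h =>
      hv ((H38T1.mem_ov hP).2 h)
    by_cases h2 : rp v = 2
    · refine H38T1.pri_eo ?_ (Ce_pri hD hn hd hf h2)
      rw [H38T1.oddP_iff]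
      exact fun h => h h2
    · by_cases hb : (rp v : ℤ) ∣ β
      · exact (Ce_node hD hn hd hf hb).2.1
      · have hDv : ¬ (rp v : ℤ) ∣ a ^ 2 - 64 * β := fun h => hvP (Or.inl ⟨hq, h⟩)
        by_cases hvn : (rp v : ℤ) ∣ n
        · have hnb : ¬ SqMod (rp v) β := by
            by_cases h3 : rp v ∈ Pp'
            · exact (hS.sq' _ h3).1
            · exact (hn.neu _ hq hvn (fun h => hvP (Or.inr (Finset.mem_coe.2 h))) h3).1
          exact (hX v h2 hvn hnb).1
        · exact H86TL.unit_X hDv hvn hd (E' v)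
  · intro v hv
    exact Ce_pri hD hn hd hf (H86TL.rp_of_not_oddP hv)
  · intro v hv
    exact absurd hv (Set.notMem_empty v)
  · intro v hv
    rcases (H38T1.mem_ov hP').1 hv with h | h
    · exact (Ce_node hD hn hd hf h.2).2.2
    · have h3 : rp v ∈ Pp' := Finset.mem_coe.1 h
      have hvn := hn.mem _ (Finset.mem_union_right _ h3)
      have h2 : rp v ≠ 2 := (hS.nice _ (Finset.mem_union_right _ h3)).2.1
      exact (hX v h2 hvn (hS.sq' _ h3).1).2 (hS.sq' _ h3).2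
  · intro h
    have h1 : (false : Bool) = true := h
    exact absurd h1 (by decide)

end H88T7
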