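import Pool.Agent.H88.T7.Cd
import Pool.Agent.H88.T7.Ce
import Pool.Agent.H38.T1.La

/-!
ROW Cf (project MP_78d38b_T7, about 90 lines): the conclusion for a state with minimal groups.

PROOF. `H38T1.concl` (file `H38/T1/La.lean`) with `A = a n`, `B = 16 β n^2`: `B ≠ 0`, `A^2 - 4 B = (a^2 - 64 β) n^2 ≠ 0`. h1: for `d` with
`FinQ`, `InfQ`: `loc_X7`: `sc d ∈ {0, sc β}`: if `sc d = 0`: `IsSquare d` (`sc_eq_zero`); if `sc d = sc β`: `sc (d β) = 0` (`sc_mul`,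
`SC.two_smul`), so `d β` is a square and `d B = (d β) (4 n)^2` is one. h2: `loc_X7'`: `sc d = 0` or `sc d = sc D`: `d D n^2` is a square.
The casts: `Both K a (16 * β) n` unfolds to `Triv K ((a * n : ℤ) : K) ((16 * β * n ^ 2 : ℤ) : K) ∧
Triv K ((-2 * (a * n) : ℤ) : K) (((a ^ 2 - 4 * (16 * β)) * n ^ 2 : ℤ) : K)`; `push_cast`, `ring_nf`/`convert`.
-/

set_option autoImplicit false
set_option linter.unusedSectionVars false
open scoped Classical

open WithZero NumberField IsDedekindDomain H38RT H73IS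
open H38T1 (SC sc rep eo la si Pri OddP LD XX XX' NS ov rp SqMod Both)

namespace H88T7

variable {K : Type} [Field K] [NumberField K] {B : Finset ℕ} {Dc : SC ℚ} {a β : ℤ}
  {Pp Pp' : Finset ℕ} {n : ℤ}

theorem Cf_sq_or {F : Type} [Field F] {d B t : F} (hd : d ≠ 0) (hB : B ≠ 0)
    (h : sc d ∈ ({0, sc B} : Set (SC F))) : IsSquare d ∨ IsSquare (d * (B * t ^ 2)) := by
  rcases h with h | h
  · exact Or.inl ((H38T1.sc_eq_zero hd).1 h)
  · rw [Set.mem_singleton_iff] at h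
    right
    have h1 : sc (d * B) = 0 := by
      rw [H38T1.sc_mul hd hB, h]
      exact (two_nsmul (sc B)).symm.trans (SC.two_smul _)
    obtain ⟨s, hs⟩ := (H38T1.sc_eq_zero (mul_ne_zero hd hB)).1 h1
    exact ⟨s * t, by rw [← mul_assoc, hs]; ring⟩

theorem both7 (hD : Dat K B Dc a β) (hS : St K B a β Pp Pp') (hn : Tw7 K B a β Pp Pp' n)
    (hX : XX (L7 K a β Pp Pp') ⊆ {0, sc (β : K)})
    (hX' : XX' (L7 K a β Pp Pp') ⊆ {0, sc ((a ^ 2 - 64 * β : ℤ) : K)}) :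
    Both K a (16 * β) n := by
  have hb0 : β ≠ 0 := by
    intro h
    have := hD.bo
    rw [h] at this
    norm_num at this
  have hD0 : a ^ 2 - 64 * β ≠ 0 := by
    have := hD.pos
    intro h
    omega
  have hn0 := hn.sqf.ne_zero
  have hnK : (n : K) ≠ 0 := Int.cast_ne_zero.2 hn0
  have hbK : ((β : ℤ) : K) ≠ 0 := Int.cast_ne_zero.2 hb0
  have hDK : ((a ^ 2 - 64 * β : ℤ) : K) ≠ 0 := Int.cast_ne_zero.2 hD0
  have e1 : ((16 * β * n ^ 2 : ℤ) : K) = ((β : ℤ) : K) * (4 * (n : K)) ^ 2 := by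
    push_cast; ring
  have e2 : (((a ^ 2 - 64 * β) * n ^ 2 : ℤ) : K) = ((a ^ 2 - 64 * β : ℤ) : K) * (n : K) ^ 2 := by
    push_cast; ring
  have e3 : ((a * n : ℤ) : K) ^ 2 - 4 * ((16 * β * n ^ 2 : ℤ) : K) =
      (((a ^ 2 - 64 * β) * n ^ 2 : ℤ) : K) := by
    push_cast; ring
  have e4 : -2 * ((a * n : ℤ) : K) = ((-2 * (a * n) : ℤ) : K) := by push_cast; ring
  have e5 : ((a ^ 2 - 4 * (16 * β)) * n ^ 2 : ℤ) = (a ^ 2 - 64 * β) * n ^ 2 := by ring
  have hfin := H38T1.concl (K := K) (A := ((a * n : ℤ) : K)) (B := ((16 * β * n ^ 2 : ℤ) : K))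
    (by
      rw [e1]
      exact mul_ne_zero hbK (pow_ne_zero 2 (mul_ne_zero (by norm_num) hnK)))
    (by rw [e3, e2]; exact mul_ne_zero hDK (pow_ne_zero 2 hnK))
    (fun d hd hf hi => by
      rw [e1]
      exact Cf_sq_or hd hbK (hX (loc_X7 hD hS hn hd hf hi)))
    (fun d hd hf hi => by
      rw [e3] at hf hi ⊢
      rw [e4] at hf hi
      rw [e2]
      exact Cf_sq_or hd hDK (hX' (loc_X7' hD hS hn hd hf hi)))
  rw [e3, e4] at hfin
  unfold Both
  rw [e5]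
  exact hfin

end H88T7
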