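import Pool.Agent.H88.T7.Fk

/-!
ROW Fn (project MP_78d38b_T7, about 150 lines): two elementary statements (Mathlib only).

PROOF. cop_inf: the map `d ↦ Nat.gcd d n.natAbs` from `D` to the finite set of divisors of `n.natAbs` has an infinite fibre `T` (pigeonhole:
`Set.Infinite.exists_...`, or: `D` is the finite union of the fibres, `Set.Finite.biUnion`). Fix `d₀ ∈ T`. For `d ∈ T` choose (`hmul`) `f d ∈ D` with `d * d₀ = f d * s^2`.
`f` is injective on `T`: `f d = f d'` gives `d * s'^2 = d' * s^2` (cancel `d₀`), and `d`, `d'` are squarefree, so `d = d'` (compare `Nat.factorization` at each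
prime: both factorizations are at most one (`Nat.Squarefree.natFactorization_le_one`) and have the same parity). `IsCoprime n (f d)`: let `p` be a prime
dividing `n` and `f d`. `p ∣ d ↔ p ∣ Nat.gcd d n.natAbs ↔ p ∣ d₀`, so `d.factorization p = d₀.factorization p`, `(d * d₀).factorization p` is even, but
`(f d * s^2).factorization p = 1 + 2 * s.factorization p` is odd. So the image `f '' T` is infinite (`Set.Infinite.image`) and contained in the set.
j_inf: if the set `J` of the `j` is finite, then `S ⊆ ⋃ j ∈ J, {b | 256 (a^2 - 3 b)^3 = j b^2 (a^2 - 4 b)}` (for `b ∈ S` take `j` = the quotient) and each of these sets is finite: it is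
contained in the roots of the polynomial `256 (C a^2 - 3 X)^3 - C j X^2 (C a^2 - 4 X)` over `ℚ`, which is not zero as its value at zero is `256 a^6 ≠ 0`
(`Polynomial.finite_setOf_isRoot`; the cast `ℤ → ℚ` is injective: `Set.Finite.preimage`).
-/

set_option autoImplicit false
set_option linter.unusedSectionVars false
open scoped Classical

open WithZero NumberField IsDedekindDomain H38RT

namespace H88T7

/-- The squarefree integer `n` and the set `D` of neutral integers: all twists by `n d`, `d ∈ D`,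
have trivial two-primary part of the Tate-Shafarevich group. -/
structure GoodT (K : Type) [Field K] [NumberField K] (a b n : ℤ) (D : Set ℕ) : Prop where
  sqn : Squarefree n
  one : 1 ∈ D
  sq : ∀ d ∈ D, Squarefree d
  mul : ∀ d ∈ D, ∀ d' ∈ D, ∃ d'' ∈ D, ∃ s : ℕ, s ≠ 0 ∧ d * d' = d'' * s ^ 2
  inf : D.Infinite
  both : ∀ d ∈ D, H38T1.Both K a b (n * d)

theorem fn_even_fac {a b c s : ℕ} (ha : a ≠ 0) (hb : b ≠ 0) (hc : c ≠ 0) (hs : s ≠ 0)
    (h : a * b = c * s ^ 2) (p : ℕ) :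
    a.factorization p + b.factorization p = c.factorization p + 2 * s.factorization p := by
  have h1 : (a * b).factorization p = (c * s ^ 2).factorization p := by rw [h]
  rw [Nat.factorization_mul ha hb, Nat.factorization_mul hc (pow_ne_zero 2 hs),
    Nat.factorization_pow] at h1
  simpa using h1

theorem cop_inf {D : Set ℕ} (hinf : D.Infinite) (hsq : ∀ d ∈ D, Squarefree d)
    (hmul : ∀ d ∈ D, ∀ d' ∈ D, ∃ d'' ∈ D, ∃ s : ℕ, s ≠ 0 ∧ d * d' = d'' * s ^ 2) {n : ℤ}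
    (hn : n ≠ 0) : {d : ℕ | d ∈ D ∧ IsCoprime n (d : ℤ)}.Infinite := by
  have hn' : n.natAbs ≠ 0 := Int.natAbs_ne_zero.mpr hn
  obtain ⟨g, hg⟩ : ∃ g : ℕ, {d : ℕ | d ∈ D ∧ Nat.gcd d n.natAbs = g}.Infinite := by
    by_contra hcon
    push Not at hcon
    apply hinf
    have : D ⊆ ⋃ g ∈ (n.natAbs.divisors : Set ℕ), {d : ℕ | d ∈ D ∧ Nat.gcd d n.natAbs = g} := by
      intro d hd
      simp only [Set.mem_iUnion]
      refine ⟨Nat.gcd d n.natAbs, ?_, hd, rfl⟩
      simp only [Finset.mem_coe, Nat.mem_divisors]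
      exact ⟨Nat.gcd_dvd_right _ _, hn'⟩
    refine Set.Finite.subset (Set.Finite.biUnion (Finset.finite_toSet _) ?_) this
    intro g _
    exact hcon g
  obtain ⟨d0, hd0, hg0⟩ := hg.nonempty
  choose! f hfD s hs0 hf using hmul
  have hne : ∀ d ∈ D, d ≠ 0 := fun d hd => (hsq d hd).ne_zero
  have hinj : Set.InjOn (fun d => f d d0) {d : ℕ | d ∈ D ∧ Nat.gcd d n.natAbs = g} := by
    rintro d ⟨hd, -⟩ d' ⟨hd', -⟩ h
    simp only at h
    apply Nat.eq_of_factorization_eq (hne d hd) (hne d' hd')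
    intro p
    have e1 := fn_even_fac (hne d hd) (hne d0 hd0) (hne _ (hfD d hd d0 hd0)) (hs0 d hd d0 hd0)
      (hf d hd d0 hd0) p
    have e2 := fn_even_fac (hne d' hd') (hne d0 hd0) (hne _ (hfD d' hd' d0 hd0))
      (hs0 d' hd' d0 hd0) (hf d' hd' d0 hd0) p
    rw [h] at e1
    have l1 := (hsq d hd).natFactorization_le_one p
    have l2 := (hsq d' hd').natFactorization_le_one p
    omega
  refine Set.Infinite.mono ?_ (hg.image hinj)
  rintro _ ⟨d, ⟨hd, hgd⟩, rfl⟩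
  refine ⟨hfD d hd d0 hd0, ?_⟩
  rw [Int.isCoprime_iff_gcd_eq_one, Int.gcd, Int.natAbs_natCast]
  by_contra hcon
  obtain ⟨p, hp, hpd⟩ := Nat.exists_prime_and_dvd hcon
  have hpn : p ∣ n.natAbs := hpd.trans (Nat.gcd_dvd_left _ _)
  have hpf : p ∣ f d d0 := hpd.trans (Nat.gcd_dvd_right _ _)
  have e1 := fn_even_fac (hne d hd) (hne d0 hd0) (hne _ (hfD d hd d0 hd0)) (hs0 d hd d0 hd0)
    (hf d hd d0 hd0) p
  have l1 := (hsq d hd).natFactorization_le_one p
  have l2 := (hsq d0 hd0).natFactorization_le_one p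
  have l3 := (hsq _ (hfD d hd d0 hd0)).natFactorization_le_one p
  have l4 : 0 < (f d d0).factorization p := hp.factorization_pos_of_dvd (hne _ (hfD d hd d0 hd0)) hpf
  have key : p ∣ d ↔ p ∣ d0 := by
    have a1 : p ∣ d ↔ p ∣ Nat.gcd d n.natAbs := by
      rw [Nat.dvd_gcd_iff]; exact ⟨fun h => ⟨h, hpn⟩, fun h => h.1⟩
    have a2 : p ∣ d0 ↔ p ∣ Nat.gcd d0 n.natAbs := by
      rw [Nat.dvd_gcd_iff]; exact ⟨fun h => ⟨h, hpn⟩, fun h => h.1⟩
    rw [a1, a2, hgd, hg0]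
  have m1 : p ∣ d ↔ 0 < d.factorization p := by
    rw [hp.dvd_iff_one_le_factorization (hne d hd)]; rfl
  have m2 : p ∣ d0 ↔ 0 < d0.factorization p := by
    rw [hp.dvd_iff_one_le_factorization (hne d0 hd0)]; rfl
  rw [m1, m2] at key
  omega

theorem j_inf {a : ℤ} (ha : a ≠ 0) {S : Set ℤ} (hS : S.Infinite)
    (h0 : ∀ b ∈ S, b ≠ 0 ∧ a ^ 2 - 4 * b ≠ 0) :
    {j : ℚ | ∃ b ∈ S, 256 * ((a : ℚ) ^ 2 - 3 * b) ^ 3 =
      j * ((b : ℚ) ^ 2 * ((a : ℚ) ^ 2 - 4 * b))}.Infinite := by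
  intro hfin
  apply hS
  have hsub : S ⊆ ⋃ j ∈ {j : ℚ | ∃ b ∈ S, 256 * ((a : ℚ) ^ 2 - 3 * b) ^ 3 =
      j * ((b : ℚ) ^ 2 * ((a : ℚ) ^ 2 - 4 * b))}, {b : ℤ | 256 * ((a : ℚ) ^ 2 - 3 * b) ^ 3 =
      j * ((b : ℚ) ^ 2 * ((a : ℚ) ^ 2 - 4 * b))} := by
    intro b hb
    obtain ⟨hb0, hb1⟩ := h0 b hb
    have hb0' : (b : ℚ) ≠ 0 := Int.cast_ne_zero.mpr hb0
    have hb1' : (a : ℚ) ^ 2 - 4 * b ≠ 0 := by
      intro h; apply hb1; exact_mod_cast h
    have hnz : ((b : ℚ) ^ 2 * ((a : ℚ) ^ 2 - 4 * b)) ≠ 0 :=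
      mul_ne_zero (pow_ne_zero 2 hb0') hb1'
    have heq : 256 * ((a : ℚ) ^ 2 - 3 * b) ^ 3 =
      (256 * ((a : ℚ) ^ 2 - 3 * b) ^ 3 / ((b : ℚ) ^ 2 * ((a : ℚ) ^ 2 - 4 * b))) *
        ((b : ℚ) ^ 2 * ((a : ℚ) ^ 2 - 4 * b)) := (div_mul_cancel₀ _ hnz).symm
    simp only [Set.mem_iUnion]
    exact ⟨_, ⟨b, hb, heq⟩, heq⟩
  refine Set.Finite.subset (Set.Finite.biUnion hfin ?_) hsub
  intro j _
  let P : Polynomial ℚ := 256 * (Polynomial.C ((a : ℚ) ^ 2) - 3 * Polynomial.X) ^ 3 -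
    Polynomial.C j * (Polynomial.X ^ 2 * (Polynomial.C ((a : ℚ) ^ 2) - 4 * Polynomial.X))
  have hev : ∀ x : ℚ, P.eval x = 256 * ((a : ℚ) ^ 2 - 3 * x) ^ 3 -
      j * (x ^ 2 * ((a : ℚ) ^ 2 - 4 * x)) := by
    intro x
    simp [P]
  have hP : P ≠ 0 := by
    intro h
    have h1 := hev 0
    rw [h] at h1
    simp at h1
    exact ha h1
  have hfr := Polynomial.finite_setOfPred_isRoot hP
  have := hfr.preimage (f := fun b : ℤ => (b : ℚ)) (Set.injOn_of_injective Int.cast_injective)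
  refine this.subset ?_
  intro b hb
  simp only [Set.mem_preimage, Set.mem_ofPred_eq, Polynomial.IsRoot.def] at hb ⊢
  rw [hev, hb, sub_self]

end H88T7
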