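import Pool.Agent.H88.T7.Mv

/-!
ROW Ma (project MP_78d38b_T7, about 150 lines): adding a prime to a state.

PROOF. `L7 K a β Pp Pp'` has `P = ov K (pd D ∪ Pp)`, `P' = ov K (pd β ∪ Pp')`, `Sg = ∅`, `τ = false`. `ov K (S ∪ insert p T) =
ov K (S ∪ T) ∪ ov K {p}` (unfold `ov`, sets). P_ins, P'_ins: this. XX_insP: unfold `XX`: only the condition `la v c = 0` for `v ∈ P`
changes. XX'_insP': only the condition `la v c = 0` for `v ∈ P'` changes. XX_insP' (inclusion): enlarging `P'` weakens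
the condition `eo v c = 0` for `v ∉ P'`. XX'_insP the same. ncard: the union is disjoint: `H38T1.mem_ov`: `v ∈ ov K {p}` iff `rp v = p`;
`p ∉ pd D`, `p ∉ pd β` as `p ∤ 2 β D`, `p ∉ Pp ∪ Pp'`; finiteness: `good7`, `H38T1.fin_ov`; `Set.ncard_union_eq`.
st_insP', st_insP: all fields are immediate except `sq`, `sq'` for the new prime `p`: choose a place `v` above `p`
(`H38T1.exists_above`): `rp v = p`; `res K (sc β) = sc (β : K)` (`res_int`); `la_int7` (`hp`: `Odd inertiaDeg`; `p ≠ 2`;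
`p ∤ β D`): `SqMod p β ↔ la v (sc β) = 0`; `1 ≠ 0` in `ZMod 2`. `Disjoint` by `hnew`.
NS_mono: immediate.
-/

set_option autoImplicit false
set_option linter.unusedSectionVars false
open scoped Classical

open WithZero NumberField IsDedekindDomain H38RT
open H38T1 (SC sc rep eo la si Pri OddP LD XX XX' NS ov rp SqMod)

namespace H88T7

variable {K : Type} [Field K] [NumberField K] {B : Finset ℕ} {Dc : SC ℚ} {a β : ℤ}
  {Pp Pp' : Finset ℕ} {p : ℕ}

/-- The prime `p` may be added to the state. -/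
structure New (K : Type) [Field K] [NumberField K] (B : Finset ℕ) (a β : ℤ) (Pp Pp' : Finset ℕ)
    (p : ℕ) : Prop where
  nice : Nice K p
  nB : p ∉ B
  nd : ¬ (p : ℤ) ∣ 2 * (β * (a ^ 2 - 64 * β))
  new : p ∉ Pp ∪ Pp'

private lemma Ma_ov (S : Set ℕ) (T : Finset ℕ) (p : ℕ) :
    ov K (S ∪ ((insert p T : Finset ℕ) : Set ℕ)) = ov K (S ∪ (T : Set ℕ)) ∪ ov K {p} := by
  ext v
  simp only [ov, Set.mem_setOf_eq, Set.mem_union, Finset.coe_insert, Set.mem_insert_iff,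
    Set.mem_singleton_iff]
  constructor
  · rintro ⟨q, hq, hv⟩
    rcases hq with h | h | h
    · exact Or.inl ⟨q, Or.inl h, hv⟩
    · exact Or.inr ⟨q, h, hv⟩
    · exact Or.inl ⟨q, Or.inr h, hv⟩
  · rintro (⟨q, hq, hv⟩ | ⟨q, hq, hv⟩)
    · rcases hq with h | h
      · exact ⟨q, Or.inl h, hv⟩
      · exact ⟨q, Or.inr (Or.inr h), hv⟩
    · exact ⟨q, Or.inr (Or.inl hq), hv⟩

theorem P_ins : (L7 K a β (insert p Pp) Pp').P = (L7 K a β Pp Pp').P ∪ ov K {p} ∧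
    (L7 K a β (insert p Pp) Pp').P' = (L7 K a β Pp Pp').P' :=
  ⟨Ma_ov _ _ _, rfl⟩

theorem P'_ins : (L7 K a β Pp (insert p Pp')).P' = (L7 K a β Pp Pp').P' ∪ ov K {p} ∧
    (L7 K a β Pp (insert p Pp')).P = (L7 K a β Pp Pp').P :=
  ⟨Ma_ov _ _ _, rfl⟩

theorem XX_insP : XX (L7 K a β (insert p Pp) Pp') =
    {c | c ∈ XX (L7 K a β Pp Pp') ∧ ∀ v ∈ ov K {p}, la v c = 0} := by
  ext c
  constructor
  · rintro ⟨h1, h2, h3, h4⟩
    rw [P_ins.1] at h3
    exact ⟨⟨h1, h2, fun v hv => h3 v (Or.inl hv), h4⟩, fun v hv => h3 v (Or.inr hv)⟩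
  · rintro ⟨⟨h1, h2, h3, h4⟩, h5⟩
    refine ⟨h1, h2, ?_, h4⟩
    rw [P_ins.1]
    rintro v (hv | hv)
    · exact h3 v hv
    · exact h5 v hv

theorem XX'_insP' : XX' (L7 K a β Pp (insert p Pp')) =
    {c | c ∈ XX' (L7 K a β Pp Pp') ∧ ∀ v ∈ ov K {p}, la v c = 0} := by
  ext c
  constructor
  · rintro ⟨h1, h2, h3, h4, h5⟩
    rw [P'_ins.1] at h4
    exact ⟨⟨h1, h2, h3, fun v hv => h4 v (Or.inl hv), h5⟩, fun v hv => h4 v (Or.inr hv)⟩
  · rintro ⟨⟨h1, h2, h3, h4, h5⟩, h6⟩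
    refine ⟨h1, h2, h3, ?_, h5⟩
    rw [P'_ins.1]
    rintro v (hv | hv)
    · exact h4 v hv
    · exact h6 v hv

theorem XX_insP' : XX (L7 K a β Pp Pp') ⊆ XX (L7 K a β Pp (insert p Pp')) := by
  rintro c ⟨h1, h2, h3, h4⟩
  refine ⟨?_, h2, h3, h4⟩
  rw [P'_ins.1]
  intro v hv hv'
  exact h1 v hv (fun h => hv' (Or.inl h))

theorem XX'_insP : XX' (L7 K a β Pp Pp') ⊆ XX' (L7 K a β (insert p Pp) Pp') := by
  rintro c ⟨h1, h2, h3, h4, h5⟩
  refine ⟨?_, h2, h3, h4, h5⟩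
  rw [P_ins.1]
  intro v hv hv'
  exact h1 v hv (fun h => hv' (Or.inl h))

private lemma Ma_fin1 (hpp : p.Prime) : (ov K {p}).Finite :=
  H38T1.fin_ov (Set.finite_singleton p) (by
    intro q hq
    rw [Set.mem_singleton_iff.1 hq]
    exact hpp)

private lemma Ma_mem1 (hpp : p.Prime) (v : HeightOneSpectrum (𝓞 K)) :
    v ∈ ov K {p} ↔ rp v = p := by
  rw [H38T1.mem_ov (by
    intro q hq
    rw [Set.mem_singleton_iff.1 hq]
    exact hpp), Set.mem_singleton_iff]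

theorem ncard_insP (hD : Dat K B Dc a β) (hS : St K B a β Pp Pp')
    (hp : New K B a β Pp Pp' p) : (L7 K a β (insert p Pp) Pp').P.ncard =
      (L7 K a β Pp Pp').P.ncard + (ov K {p}).ncard := by
  have hpp : p.Prime := hp.nice.1
  rw [P_ins.1]
  refine Set.ncard_union_eq ?_ (good7 hD hS).finP (Ma_fin1 hpp)
  rw [Set.disjoint_left]
  intro v hv hv'
  have h1 : rp v = p := (Ma_mem1 hpp v).1 hv'
  have h2 : rp v ∈ pd (a ^ 2 - 64 * β) ∪ (Pp : Set ℕ) := by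
    refine (H38T1.mem_ov ?_).1 hv
    rintro q (hq | hq)
    · exact hq.1
    · exact (hS.nice q (Finset.mem_union_left _ hq)).1
  rw [h1] at h2
  rcases h2 with h2 | h2
  · exact hp.nd (dvd_mul_of_dvd_right (dvd_mul_of_dvd_right h2.2 _) _)
  · exact hp.new (Finset.mem_union_left _ h2)

theorem ncard_insP' (hD : Dat K B Dc a β) (hS : St K B a β Pp Pp')
    (hp : New K B a β Pp Pp' p) : (L7 K a β Pp (insert p Pp')).P'.ncard =
      (L7 K a β Pp Pp').P'.ncard + (ov K {p}).ncard := by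
  have hpp : p.Prime := hp.nice.1
  rw [P'_ins.1]
  refine Set.ncard_union_eq ?_ (good7 hD hS).finP' (Ma_fin1 hpp)
  rw [Set.disjoint_left]
  intro v hv hv'
  have h1 : rp v = p := (Ma_mem1 hpp v).1 hv'
  have h2 : rp v ∈ pd β ∪ (Pp' : Set ℕ) := by
    refine (H38T1.mem_ov ?_).1 hv
    rintro q (hq | hq)
    · exact hq.1
    · exact (hS.nice q (Finset.mem_union_right _ hq)).1
  rw [h1] at h2
  rcases h2 with h2 | h2
  · exact hp.nd (dvd_mul_of_dvd_right (dvd_mul_of_dvd_left h2.2 _) _)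
  · exact hp.new (Finset.mem_union_right _ h2)

/-- the class of an integer prime to `p` at the places above the nice prime `p` -/
private lemma Ma_sq (hn : Nice K p) {m : ℤ} (hm : ¬ (p : ℤ) ∣ m) :
    ∃ v ∈ ov K {p}, (la v (res K (sc (m : ℚ))) = 0 ↔ SqMod p m) := by
  obtain ⟨v, hv⟩ := H38T1.exists_above (K := K) hn.1
  have h1 : rp v = p := (H38T1.mem_iff_eq hn.1).1 hv
  have hm0 : m ≠ 0 := by
    rintro rfl
    exact hm (dvd_zero _)
  refine ⟨v, (Ma_mem1 hn.1 v).2 h1, ?_⟩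
  have h2 := la_int7 (v := v) (hn.2.2 v hv).2 (by rw [h1]; exact hn.2.1) (m := m) (by rw [h1]; exact hm)
  rw [res_int hm0, h2, h1]

theorem st_insP (hD : Dat K B Dc a β) (hS : St K B a β Pp Pp') (hp : New K B a β Pp Pp' p)
    (hb : ∀ v ∈ ov K {p}, la v (res K (sc (β : ℚ))) = 0)
    (hd : ∀ v ∈ ov K {p}, la v (res K (sc ((a ^ 2 - 64 * β : ℤ) : ℚ))) = 1) :
    St K B a β (insert p Pp) Pp' := by
  have hb' : ¬ (p : ℤ) ∣ β := fun h => hp.nd (dvd_mul_of_dvd_right (dvd_mul_of_dvd_left h _) _)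
  have hd' : ¬ (p : ℤ) ∣ (a ^ 2 - 64 * β) :=
    fun h => hp.nd (dvd_mul_of_dvd_right (dvd_mul_of_dvd_right h _) _)
  have hn := hp.new
  rw [Finset.mem_union, not_or] at hn
  refine ⟨?_, ?_, ?_, ?_, ?_, hS.sq'⟩
  · rw [Finset.disjoint_insert_left]
    exact ⟨hn.2, hS.dj⟩
  · intro q hq
    rw [Finset.insert_union, Finset.mem_insert] at hq
    rcases hq with rfl | hq
    · exact hp.nice
    · exact hS.nice q hq
  · intro q hq
    rw [Finset.insert_union, Finset.mem_insert] at hq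
    rcases hq with rfl | hq
    · exact hp.nd
    · exact hS.ndvd q hq
  · intro q hq
    rw [Finset.insert_union, Finset.mem_insert] at hq
    rcases hq with rfl | hq
    · exact hp.nB
    · exact hS.nB q hq
  · intro q hq
    rw [Finset.mem_insert] at hq
    rcases hq with rfl | hq
    · obtain ⟨v, hv, h1⟩ := Ma_sq hp.nice hb'
      obtain ⟨w, hw, h2⟩ := Ma_sq hp.nice hd'
      refine ⟨h1.1 (hb v hv), fun h => ?_⟩
      have h3 := h2.2 h
      rw [hd w hw] at h3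
      exact one_ne_zero h3
    · exact hS.sq q hq

theorem st_insP' (hD : Dat K B Dc a β) (hS : St K B a β Pp Pp') (hp : New K B a β Pp Pp' p)
    (hb : ∀ v ∈ ov K {p}, la v (res K (sc (β : ℚ))) = 1)
    (hd : ∀ v ∈ ov K {p}, la v (res K (sc ((a ^ 2 - 64 * β : ℤ) : ℚ))) = 0) :
    St K B a β Pp (insert p Pp') := by
  have hb' : ¬ (p : ℤ) ∣ β := fun h => hp.nd (dvd_mul_of_dvd_right (dvd_mul_of_dvd_left h _) _)
  have hd' : ¬ (p : ℤ) ∣ (a ^ 2 - 64 * β) :=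
    fun h => hp.nd (dvd_mul_of_dvd_right (dvd_mul_of_dvd_right h _) _)
  have hn := hp.new
  rw [Finset.mem_union, not_or] at hn
  refine ⟨?_, ?_, ?_, ?_, hS.sq, ?_⟩
  · rw [Finset.disjoint_insert_right]
    exact ⟨hn.1, hS.dj⟩
  · intro q hq
    rw [Finset.union_insert, Finset.mem_insert] at hq
    rcases hq with rfl | hq
    · exact hp.nice
    · exact hS.nice q hq
  · intro q hq
    rw [Finset.union_insert, Finset.mem_insert] at hq
    rcases hq with rfl | hq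
    · exact hp.nd
    · exact hS.ndvd q hq
  · intro q hq
    rw [Finset.union_insert, Finset.mem_insert] at hq
    rcases hq with rfl | hq
    · exact hp.nB
    · exact hS.nB q hq
  · intro q hq
    rw [Finset.mem_insert] at hq
    rcases hq with rfl | hq
    · obtain ⟨v, hv, h1⟩ := Ma_sq hp.nice hb'
      obtain ⟨w, hw, h2⟩ := Ma_sq hp.nice hd'
      refine ⟨fun h => ?_, h2.1 (hd w hw)⟩
      have h3 := h1.2 h
      rw [hb v hv] at h3
      exact one_ne_zero h3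
    · exact hS.sq' q hq

theorem NS_mono {S S' : Set (HeightOneSpectrum (𝓞 K))} (h : S ⊆ S') : NS S' ⊆ NS S :=
  fun _ hc => ⟨hc.1, fun v hv => hc.2.1 v (h hv), hc.2.2⟩

/-- An infinite set of nice primes contains new ones. -/
theorem exists_new (hS : St K B a β Pp Pp') (hD : Dat K B Dc a β) {T : Set ℕ} (hT : T.Infinite)
    (hn : ∀ p ∈ T, Nice K p) (N₀ : ℕ) : ∃ p ∈ T, New K B a β Pp Pp' p ∧ N₀ < p := by
  have hne : (2 * (β * (a ^ 2 - 64 * β)) : ℤ) ≠ 0 := by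
    have h1 : β * (a ^ 2 - 64 * β) ≠ 0 := hD.sqf.ne_zero
    exact mul_ne_zero two_ne_zero h1
  obtain ⟨p, hpT, hp⟩ := hT.exists_notMem_finset (Finset.range (N₀ + 1) ∪ B ∪ (Pp ∪ Pp') ∪
    Finset.range ((2 * (β * (a ^ 2 - 64 * β)) : ℤ).natAbs + 1))
  simp only [Finset.mem_union, Finset.mem_range, not_or, not_lt] at hp
  obtain ⟨⟨⟨h1, h2⟩, h3⟩, h4⟩ := hp
  refine ⟨p, hpT, ⟨hn p hpT, h2, ?_, ?_⟩, by omega⟩
  · intro h
    have h5 : p ∣ (2 * (β * (a ^ 2 - 64 * β)) : ℤ).natAbs := Int.natCast_dvd.1 h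
    have h6 := Nat.le_of_dvd (Int.natAbs_pos.2 hne) h5
    omega
  · rw [Finset.mem_union, not_or]
    exact h3

end H88T7
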