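import Pool.Agent.H88.T7.Mv

/-!
ROW Mb (project MP_78d38b_T7, about 150 lines): cardinalities of the groups of a state.

PROOF. gwK: `gw7` (file `Gw.lean`) for `L7`: `τ = false`, so the last summand is zero; `Sg = ∅` so `Sg ∪ P ∪ P' = PP`; `good7`.
gwQ: the same for `ℚ`: `dat_rat`, `st_rat`, `NS ⊆ {0}` by `ns_rat`; `nrComplexPlaces ℚ = 0` (`Module.finrank_self`,
`InfinitePlace.card_add_two_mul_card_eq_rank`: `r₁ + 2 r₂ = 1`).
split7: the map `XX(ℚ) × XW → XX(K)`, `(r, c) ↦ res r + c` is a bijection: `res_XX`, `sub7`; inverse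
`c ↦ (nm c, c - res (nm c))` (`nm_XX`, `nm_res hD.odd`). `Set.ncard` of the image of a product, finiteness `fin7`.
pow7: a finite additive subgroup `H` of a group of exponent two has cardinality `2 ^ k` (`Module.card_eq_pow_finrank` for the
`ZMod 2`-submodule `AddSubgroup.toZModSubmodule 2 H`); apply it to `XX(ℚ)` (`sub7` for `ℚ`) and to `XW` (`sub7` intersected with the
kernel of `nm K`). two_le: `0`, `sc β` are different elements (`beta_mem`, `ne7` for `ℚ`).
card_XX': `XX' ⊆ {0, sc D}` and `0`, `sc D ∈ XX'`, different: the cardinality is two. eq_XX': conversely, a finite set of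
cardinality two containing the two elements. rat_XX': `res_XX'`, `res_int` and the injectivity of `res K` (`res_inj hD.odd`).
-/

set_option autoImplicit false
set_option linter.unusedSectionVars false
open scoped Classical

open WithZero NumberField IsDedekindDomain H38RT
open H38T1 (SC sc rep eo la si Pri OddP LD XX XX' NS ov rp SqMod)

namespace H88T7

variable {K : Type} [Field K] [NumberField K] {B : Finset ℕ} {Dc : SC ℚ} {a β : ℤ}
  {Pp Pp' : Finset ℕ}

private lemma Mb_pow {F : Type} [Field F] (H : AddSubgroup (SC F)) (hf : (H : Set (SC F)).Finite) :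
    ∃ x : ℕ, (H : Set (SC F)).ncard = 2 ^ x := by
  have : Finite (AddSubgroup.toZModSubmodule 2 H : Submodule (ZMod 2) (SC F)) := hf.to_subtype
  refine ⟨Module.finrank (ZMod 2) (AddSubgroup.toZModSubmodule 2 H : Submodule (ZMod 2) (SC F)), ?_⟩
  have h1 := Module.natCard_eq_pow_finrank (K := ZMod 2)
    (V := (AddSubgroup.toZModSubmodule 2 H : Submodule (ZMod 2) (SC F)))
  rw [Nat.card_zmod] at h1
  rw [← h1]
  exact (Nat.card_coe_set_eq (H : Set (SC F))).symm

private lemma Mb_disc (hD : Dat K B Dc a β) : (a ^ 2 - 64 * β : ℤ) ≠ 0 := by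
  have := hD.pos
  omega

theorem gwK (hD : Dat K B Dc a β) (hS : St K B a β Pp Pp')
    (hN : NS (PP K a β Pp Pp') ⊆ {(0 : SC K)}) :
    (XX' (L7 K a β Pp Pp')).ncard *
      2 ^ (InfinitePlace.nrComplexPlaces K + (L7 K a β Pp Pp').P'.ncard) =
      (XX (L7 K a β Pp Pp')).ncard * 2 ^ (L7 K a β Pp Pp').P.ncard := by
  have hs : (L7 K a β Pp Pp').Sg ∪ (L7 K a β Pp Pp').P ∪ (L7 K a β Pp Pp').P' =
      PP K a β Pp Pp' := by
    have h0 : (L7 K a β Pp Pp').Sg = ∅ := rfl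
    rw [h0, Set.empty_union]
    rfl
  have h1 := gw7 (good7 hD hS) (by rw [hs]; exact hN)
  have hτ : (L7 K a β Pp Pp').τ = false := rfl
  rw [hτ, if_neg Bool.false_ne_true, Nat.add_zero] at h1
  exact h1

theorem gwQ (hD : Dat K B Dc a β) (hS : St K B a β Pp Pp') :
    (XX' (L7 ℚ a β Pp Pp')).ncard * 2 ^ (L7 ℚ a β Pp Pp').P'.ncard =
      (XX (L7 ℚ a β Pp Pp')).ncard * 2 ^ (L7 ℚ a β Pp Pp').P.ncard := by
  have h1 := gwK (dat_rat hD) (st_rat hS) (fun c hc => Set.mem_singleton_iff.2 (ns_rat hc))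
  have h2 := InfinitePlace.card_add_two_mul_card_eq_rank ℚ
  have h3 : Module.finrank ℚ ℚ = 1 := by rw [Module.finrank_self]
  rw [h3] at h2
  have h4 : InfinitePlace.nrComplexPlaces ℚ = 0 := by omega
  rw [h4, Nat.zero_add] at h1
  exact h1

theorem split7 (hD : Dat K B Dc a β) (hS : St K B a β Pp Pp') :
    (XX (L7 K a β Pp Pp')).ncard = (XX (L7 ℚ a β Pp Pp')).ncard * (XW K a β Pp Pp').ncard := by
  obtain ⟨H, hH⟩ := sub7 hD hS
  have him : XX (L7 K a β Pp Pp') =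
      (fun x : SC ℚ × SC K => res K x.1 + x.2) '' (XX (L7 ℚ a β Pp Pp') ×ˢ XW K a β Pp Pp') := by
    ext c
    constructor
    · intro hc
      refine ⟨(nm K c, c - res K (nm K c)), ⟨nm_XX hD hS hc, ?_, ?_⟩, ?_⟩
      · have h1 : res K (nm K c) ∈ XX (L7 K a β Pp Pp') := res_XX hD hS (nm_XX hD hS hc)
        rw [← hH] at hc h1 ⊢
        exact H.sub_mem hc h1
      · show nm K (c - res K (nm K c)) = 0
        rw [map_sub, nm_res hD.odd, sub_self]
      · show res K (nm K c) + (c - res K (nm K c)) = c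
        rw [add_sub_cancel]
    · rintro ⟨⟨r, d⟩, ⟨hr, hd, _⟩, rfl⟩
      have h1 : res K r ∈ XX (L7 K a β Pp Pp') := res_XX hD hS hr
      show res K r + d ∈ XX (L7 K a β Pp Pp')
      have h2 : d ∈ XX (L7 K a β Pp Pp') := hd
      rw [← hH] at h1 h2 ⊢
      exact H.add_mem h1 h2
  have hinj : Set.InjOn (fun x : SC ℚ × SC K => res K x.1 + x.2)
      (XX (L7 ℚ a β Pp Pp') ×ˢ XW K a β Pp Pp') := by
    rintro ⟨r, d⟩ ⟨_, _, hd⟩ ⟨r', d'⟩ ⟨_, _, hd'⟩ h
    have h0 : res K r + d = res K r' + d' := h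
    have h1 := congrArg (nm K) h0
    have e1 : nm K d = 0 := hd
    have e2 : nm K d' = 0 := hd'
    rw [map_add, map_add, nm_res hD.odd, nm_res hD.odd, e1, e2, add_zero, add_zero] at h1
    subst h1
    have h2 := add_left_cancel h0
    rw [h2]
  rw [him, hinj.ncard_image, Set.ncard_prod]

theorem pow7 (hD : Dat K B Dc a β) (hS : St K B a β Pp Pp') :
    (∃ x : ℕ, (XX (L7 ℚ a β Pp Pp')).ncard = 2 ^ x) ∧ ∃ w : ℕ, (XW K a β Pp Pp').ncard = 2 ^ w := by
  constructor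
  · obtain ⟨H, hH⟩ := sub7 (dat_rat hD) (st_rat hS)
    have hf := fin7 (dat_rat hD) (st_rat hS)
    rw [← hH] at hf ⊢
    exact Mb_pow H hf
  · obtain ⟨H, hH⟩ := sub7 hD hS
    have hf := fin7 hD hS
    have h1 : XW K a β Pp Pp' = ((H ⊓ (nm K).ker : AddSubgroup (SC K)) : Set (SC K)) := by
      ext c
      rw [AddSubgroup.coe_inf, hH]
      rfl
    have hf' : (XW K a β Pp Pp').Finite := hf.subset (fun c hc => hc.1)
    rw [h1] at hf' ⊢
    exact Mb_pow _ hf'

theorem two_le (hD : Dat K B Dc a β) (hS : St K B a β Pp Pp') :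
    2 ≤ (XX (L7 ℚ a β Pp Pp')).ncard := by
  have hf := fin7 (dat_rat hD) (st_rat hS)
  have hb := beta_mem (dat_rat hD) (st_rat hS)
  have hn := (ne7 (dat_rat hD)).1
  obtain ⟨H, hH⟩ := sub7 (dat_rat hD) (st_rat hS)
  have h0 : (0 : SC ℚ) ∈ XX (L7 ℚ a β Pp Pp') := by
    rw [← hH]
    exact H.zero_mem
  have hs : ({(0 : SC ℚ), sc (β : ℚ)} : Set (SC ℚ)) ⊆ XX (L7 ℚ a β Pp Pp') := by
    rintro x (rfl | hx)
    · exact h0
    · rw [Set.mem_singleton_iff] at hx
      rw [hx]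
      exact hb
  have h2 := Set.ncard_le_ncard hs hf
  rwa [Set.ncard_pair hn.symm] at h2

private lemma Mb_pair (hD : Dat K B Dc a β) (hS : St K B a β Pp Pp') :
    ({0, sc ((a ^ 2 - 64 * β : ℤ) : K)} : Set (SC K)) ⊆ XX' (L7 K a β Pp Pp') := by
  obtain ⟨H, hH⟩ := sub7' hD hS
  have h0 : (0 : SC K) ∈ XX' (L7 K a β Pp Pp') := by
    rw [← hH]
    exact H.zero_mem
  rintro x (rfl | hx)
  · exact h0
  · rw [Set.mem_singleton_iff] at hx
    rw [hx]
    exact disc_mem hD hS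

theorem card_XX' (hD : Dat K B Dc a β) (hS : St K B a β Pp Pp')
    (h : XX' (L7 K a β Pp Pp') ⊆ {0, sc ((a ^ 2 - 64 * β : ℤ) : K)}) :
    (XX' (L7 K a β Pp Pp')).ncard = 2 := by
  rw [Set.Subset.antisymm h (Mb_pair hD hS)]
  exact Set.ncard_pair (ne7 hD).2.1.symm

theorem eq_XX' (hD : Dat K B Dc a β) (hS : St K B a β Pp Pp')
    (h : (XX' (L7 K a β Pp Pp')).ncard = 2) :
    XX' (L7 K a β Pp Pp') ⊆ {0, sc ((a ^ 2 - 64 * β : ℤ) : K)} := by
  have h1 := Set.eq_of_subset_of_ncard_le (Mb_pair hD hS)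
    (by rw [h, Set.ncard_pair (ne7 hD).2.1.symm]) (fin7' hD hS)
  rw [← h1]

/-- The second group over the rationals. -/
theorem rat_XX' (hD : Dat K B Dc a β) (hS : St K B a β Pp Pp')
    (h : XX' (L7 K a β Pp Pp') ⊆ {0, sc ((a ^ 2 - 64 * β : ℤ) : K)}) :
    XX' (L7 ℚ a β Pp Pp') ⊆ {0, sc ((a ^ 2 - 64 * β : ℤ) : ℚ)} := by
  intro r hr
  have h1 := h (res_XX' hD hS hr)
  rcases h1 with h1 | h1
  · left
    exact res_inj hD.odd (h1.trans (map_zero (res K)).symm)
  · right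
    rw [Set.mem_singleton_iff] at h1 ⊢
    rw [← res_int (Mb_disc hD)] at h1
    exact res_inj hD.odd h1

end H88T7
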