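import Pool.Agent.H88.T7.Ga

/-!
ROW Gb (project MP_78d38b_T7, about 170 lines): a big Galois extension.

PROOF. `Ω = AlgebraicClosure ℚ`. Let `T ⊆ Ω` be the finite set consisting of all `σ θ` (`σ : K →ₐ[ℚ] Ω`, `θ` a primitive element of `K`,
`Field.exists_primitive_element`; there are finitely many `σ`), of a square root of `σ (rep z)` for all `z ∈ Z`, `σ`, and of a square
root of `rep ρ` for `ρ ∈ R` (`IsAlgClosed.exists_pow_nat_eq`). `E = IntermediateField.adjoin ℚ T` is finite dimensional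
(`IntermediateField.finiteDimensional_adjoin`), `L = IntermediateField.normalClosure ℚ E Ω` is finite and Galois over `ℚ` and
contains `E`, exactly as in `Pool/Agent/H93/T1/Cd.lean`. Every `σ : K →ₐ[ℚ] Ω` has values in `L` (`K = ℚ(θ)`), so composition with
`L.val` is a bijection `e : (K →ₐ[ℚ] L) ≃ (K →ₐ[ℚ] Ω)`; the number of embeddings is `finrank ℚ K` (`AlgHom.card`).
The square roots: for `σ : K →ₐ[ℚ] L` the square root of `e σ (rep z)` is in `T ⊆ L`.
AltGal: for `τ ∈ alternatingGroup (K →ₐ[ℚ] L)` let `τ' = e.permCongr τ` (`Equiv.Perm.sign_permCongr`: even); `hA` gives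
`g : Ω ≃ₐ[ℚ] Ω` with `g ∘ σ = τ' σ`; `g.restrictNormal L : L ≃ₐ[ℚ] L` (`AlgEquiv.restrictNormal_commutes`) acts on `K →ₐ[ℚ] L` as `τ`
(compose with `L.val`, `e` is injective).
-/

set_option autoImplicit false
set_option linter.unusedSectionVars false
open scoped Classical

open WithZero NumberField IsDedekindDomain H38RT
open H38T1 (SC sc rep eo la si Pri OddP LD XX XX' NS ov rp SqMod)

namespace H88T7

private theorem Gb_surj {K L : Type} [Field K] [NumberField K] [Field L] [NumberField L]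
    (i : L →ₐ[ℚ] AlgebraicClosure ℚ) (σ : K →ₐ[ℚ] AlgebraicClosure ℚ)
    (hi : ∀ x, ∃ y, i y = σ x) : ∃ τ : K →ₐ[ℚ] L, i.comp τ = σ := by
  have hinj : Function.Injective i := i.toRingHom.injective
  let τ : K →ₐ[ℚ] L := ((AlgEquiv.ofInjective i hinj).symm : i.range →ₐ[ℚ] L).comp
    (σ.codRestrict i.range (fun x => by
      obtain ⟨y, hy⟩ := hi x
      exact ⟨y, hy⟩))
  refine ⟨τ, ?_⟩
  ext x
  have h1 := congrArg Subtype.val ((AlgEquiv.ofInjective i hinj).apply_symm_apply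
    ((σ.codRestrict i.range (fun x => by
      obtain ⟨y, hy⟩ := hi x
      exact ⟨y, hy⟩)) x))
  exact h1

private theorem Gb_abs (K L : Type) [Field K] [NumberField K] [Field L] [NumberField L]
    (hG : IsGalois ℚ L) (i : L →ₐ[ℚ] AlgebraicClosure ℚ)
    (hi : ∀ σ : K →ₐ[ℚ] AlgebraicClosure ℚ, ∀ x, ∃ y, i y = σ x)
    (Z : Finset (SC K)) (R : Finset (SC ℚ))
    (hZ : ∀ z ∈ Z, ∀ σ : K →ₐ[ℚ] AlgebraicClosure ℚ, ∃ y : L, i y ^ 2 = σ (rep z))
    (hR : ∀ ρ ∈ R, ∃ y : L, i y ^ 2 = algebraMap ℚ (AlgebraicClosure ℚ) (rep ρ)) :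
    BigL K L ∧
      (∀ z ∈ Z, ∀ σ : K →ₐ[ℚ] L, ∃ r : L, r ^ 2 = σ (rep z)) ∧
      (∀ ρ ∈ R, ∃ s : L, s ^ 2 = algebraMap ℚ L (rep ρ)) ∧
      (AltGal K → ∀ τ ∈ alternatingGroup (K →ₐ[ℚ] L), ∃ g : L ≃ₐ[ℚ] L, actH K L g = τ) := by
  have hinj : Function.Injective i := i.toRingHom.injective
  have hbij : Function.Bijective (fun σ : K →ₐ[ℚ] L => i.comp σ) := by
    constructor
    · intro σ τ h
      ext x
      exact hinj (congrArg (fun f : K →ₐ[ℚ] AlgebraicClosure ℚ => f x) h)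
    · intro σ
      exact Gb_surj i σ (hi σ)
  obtain ⟨e, he⟩ : ∃ e : (K →ₐ[ℚ] L) ≃ (K →ₐ[ℚ] AlgebraicClosure ℚ), ∀ σ, e σ = i.comp σ :=
    ⟨Equiv.ofBijective _ hbij, fun σ => rfl⟩
  refine ⟨⟨hG, ?_⟩, ?_, ?_, ?_⟩
  · rw [← AlgHom.card ℚ K (AlgebraicClosure ℚ)]
    exact Fintype.card_congr e
  · intro z hz σ
    obtain ⟨y, hy⟩ := hZ z hz (i.comp σ)
    refine ⟨y, hinj ?_⟩
    rw [map_pow, hy]
    rfl
  · intro ρ hρ
    obtain ⟨y, hy⟩ := hR ρ hρ
    refine ⟨y, hinj ?_⟩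
    rw [map_pow, hy]
    exact (i.commutes (rep ρ)).symm
  · intro hA τ hτ
    have hτ' : e.permCongr τ ∈ alternatingGroup (K →ₐ[ℚ] AlgebraicClosure ℚ) := by
      rw [Equiv.Perm.mem_alternatingGroup] at hτ ⊢
      rw [Equiv.Perm.sign_permCongr]
      exact hτ
    obtain ⟨g, hg⟩ := hA _ hτ'
    let alg : Algebra L (AlgebraicClosure ℚ) := i.toRingHom.toAlgebra
    have htow : IsScalarTower ℚ L (AlgebraicClosure ℚ) := IsScalarTower.of_algHom i
    have hn : Normal ℚ L := hG.to_normal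
    have hγ : ∀ x : L, i (g.restrictNormal L x) = g (i x) := fun x =>
      AlgEquiv.restrictNormal_commutes g L x
    refine ⟨g.restrictNormal L, ?_⟩
    refine Equiv.ext fun σ => e.injective ?_
    have h1 := hg (e σ)
    rw [Equiv.permCongr_apply, Equiv.symm_apply_apply] at h1
    rw [← h1, he, he]
    ext x
    exact hγ (σ x)

theorem exists_bigL (K : Type) [Field K] [NumberField K] (Z : Finset (SC K)) (R : Finset (SC ℚ)) :
    ∃ (L : Type) (_ : Field L) (_ : NumberField L), BigL K L ∧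
      (∀ z ∈ Z, ∀ σ : K →ₐ[ℚ] L, ∃ r : L, r ^ 2 = σ (rep z)) ∧
      (∀ ρ ∈ R, ∃ s : L, s ^ 2 = algebraMap ℚ L (rep ρ)) ∧
      (AltGal K → ∀ τ ∈ alternatingGroup (K →ₐ[ℚ] L), ∃ g : L ≃ₐ[ℚ] L, actH K L g = τ) := by
  let Ω := AlgebraicClosure ℚ
  have halg : Algebra.IsAlgebraic ℚ Ω := AlgebraicClosure.isAlgebraic ℚ
  have hcl : IsAlgClosure ℚ Ω := ⟨inferInstance, halg⟩
  have hnΩ : Normal ℚ Ω := IsAlgClosure.normal ℚ Ω
  have hρ : ∀ w : Ω, ∃ z : Ω, z ^ 2 = w := fun w => IsAlgClosed.exists_pow_nat_eq _ two_pos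
  choose ρ hρ using hρ
  let E1 : IntermediateField ℚ Ω := IntermediateField.normalClosure ℚ K Ω
  let S : Set Ω := ρ '' ((⋃ z ∈ Z, Set.range (fun σ : K →ₐ[ℚ] Ω => σ (rep z))) ∪
    ((fun r : SC ℚ => algebraMap ℚ Ω (rep r)) '' (R : Set (SC ℚ))))
  have hSf : S.Finite := by
    refine Set.Finite.image _ (Set.Finite.union ?_ ((Finset.finite_toSet R).image _))
    exact Set.Finite.biUnion (Finset.finite_toSet Z) (fun z _ => Set.finite_range _)
  have : Finite S := hSf.to_subtype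
  let E2 : IntermediateField ℚ Ω := IntermediateField.adjoin ℚ S
  have h1 : FiniteDimensional ℚ E1 := normalClosure.is_finiteDimensional ℚ K Ω
  have h2 : FiniteDimensional ℚ E2 :=
    IntermediateField.finiteDimensional_adjoin (fun x _ => Algebra.IsIntegral.isIntegral x)
  let E : IntermediateField ℚ Ω := E1 ⊔ E2
  have : FiniteDimensional ℚ E := IntermediateField.finiteDimensional_sup E1 E2
  let L : IntermediateField ℚ Ω := IntermediateField.normalClosure ℚ E Ω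
  have hLf : FiniteDimensional ℚ L := normalClosure.is_finiteDimensional ℚ E Ω
  have hLn : Normal ℚ L := normalClosure.normal ℚ E Ω
  have hEL : E ≤ L := IntermediateField.le_normalClosure E
  have hK : ∀ σ : K →ₐ[ℚ] Ω, ∀ x, σ x ∈ L := fun σ x =>
    hEL (le_sup_left (a := E1) (b := E2) (AlgHom.fieldRange_le_normalClosure σ ⟨x, rfl⟩))
  let hNF : NumberField L := { to_charZero := inferInstance, to_finiteDimensional := hLf }
  refine ⟨L, inferInstance, hNF, Gb_abs K L ?_ L.val ?_ Z R ?_ ?_⟩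
  · exact { to_isSeparable := inferInstance, to_normal := hLn }
  · intro σ x
    exact ⟨⟨σ x, hK σ x⟩, rfl⟩
  · intro z hz σ
    refine ⟨⟨ρ (σ (rep z)), hEL (le_sup_right (a := E1) (b := E2)
      (IntermediateField.subset_adjoin ℚ S ⟨_, Or.inl ?_, rfl⟩))⟩, hρ _⟩
    rw [Set.mem_iUnion₂]
    exact ⟨z, hz, σ, rfl⟩
  · intro r hr
    exact ⟨⟨ρ (algebraMap ℚ Ω (rep r)), hEL (le_sup_right (a := E1) (b := E2)
      (IntermediateField.subset_adjoin ℚ S ⟨_, Or.inr ⟨r, hr, rfl⟩, rfl⟩))⟩, hρ _⟩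

end H88T7
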