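import Pool.Agent.H88.T7.Ga

/-!
ROW Gd (project MP_78d38b_T7, about 130 lines): squares in the Galois closure.

PROOF. `SqT K L x`: `x ≠ 0` and `x = t^2` with `t` fixed by all `γ` with `actH K L γ = 1`. mul, div: the product, quotient of the roots.
map: `g x = (g t)^2`; if `actH γ = 1` then `actH (g⁻¹ * γ * g) = 1` (`map_mul`, `map_inv`), so `γ (g t) = g ((g⁻¹ γ g) t) = g t`.
sqT_pow: `x^(2 m + 1) = t^2`: `x = (t / x^m)^2` and `x^m` is fixed. fix_emb: `γ ∘ σ = actH γ σ = σ`.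
norm_prod: `hL.card`: the number of embeddings `K →ₐ[ℚ] L` is the degree. Let `Ω = AlgebraicClosure L`; composition with
`L → Ω` is an injective map `(K →ₐ[ℚ] L) → (K →ₐ[ℚ] Ω)` between sets of the same cardinality (`AlgHom.card`), hence a bijection;
`Algebra.norm_eq_prod_embeddings` for `Ω` and `map_prod`, injectivity of `L → Ω`. nm_sq: `nm K (sc u) = sc (N u) = 0` means that
`N u` is a nonzero square of a rational number (`nm_sc`, `sc_eq_zero`).
trans: any two embeddings are conjugate: `L / ℚ` is normal: with `Algebra K L` given by `σ`, the embedding `τ` extends to `L → L`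
(`AlgHom.liftNormal`/`IsAlgClosed`-free: `Normal`; or `(τ.comp σ⁻¹)` on `σ.fieldRange` and `AlgHom.liftNormal`).
-/

set_option autoImplicit false
set_option linter.unusedSectionVars false
open scoped Classical

open WithZero NumberField IsDedekindDomain H38RT
open H38T1 (SC sc rep eo la si Pri OddP LD XX XX' NS ov rp SqMod)

namespace H88T7

variable {K L : Type} [Field K] [NumberField K] [Field L] [NumberField L]

theorem sqT_mul {x y : L} (hx : SqT K L x) (hy : SqT K L y) : SqT K L (x * y) := by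
  obtain ⟨hx0, t, ht, hf⟩ := hx
  obtain ⟨hy0, s, hs, hg⟩ := hy
  exact ⟨mul_ne_zero hx0 hy0, t * s, by rw [mul_pow, ht, hs],
    fun γ h => by rw [map_mul, hf γ h, hg γ h]⟩

theorem sqT_div {x y : L} (hx : SqT K L x) (hy : SqT K L y) : SqT K L (x / y) := by
  obtain ⟨hx0, t, ht, hf⟩ := hx
  obtain ⟨hy0, s, hs, hg⟩ := hy
  exact ⟨div_ne_zero hx0 hy0, t / s, by rw [div_pow, ht, hs],
    fun γ h => by rw [map_div₀, hf γ h, hg γ h]⟩

theorem sqT_map (g : L ≃ₐ[ℚ] L) {x : L} (hx : SqT K L x) : SqT K L (g x) := by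
  obtain ⟨hx0, t, ht, hf⟩ := hx
  refine ⟨(map_ne_zero g).2 hx0, g t, by rw [← map_pow, ht], fun γ h => ?_⟩
  have h1 : actH K L (g⁻¹ * γ * g) = 1 := by
    rw [map_mul, map_mul, h, mul_one, map_inv, inv_mul_cancel]
  have h2 : g⁻¹ (γ (g t)) = t := hf _ h1
  have h3 : g (g⁻¹ (γ (g t))) = g t := by rw [h2]
  have h4 : g (g⁻¹ (γ (g t))) = γ (g t) := g.apply_symm_apply _
  rw [← h4, h3]

theorem sqT_sq {t : L} (ht : t ≠ 0) (h : ∀ γ : L ≃ₐ[ℚ] L, actH K L γ = 1 → γ t = t) :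
    SqT K L (t ^ 2) := by
  exact ⟨pow_ne_zero 2 ht, t, rfl, h⟩

theorem sqT_pow {m : ℕ} {x : L} (hx0 : x ≠ 0) (hfix : ∀ γ : L ≃ₐ[ℚ] L, actH K L γ = 1 → γ x = x)
    (h : SqT K L (x ^ (2 * m + 1))) : SqT K L x := by
  obtain ⟨-, t, ht, hf⟩ := h
  refine ⟨hx0, t / x ^ m, ?_, fun γ h => by rw [map_div₀, map_pow, hf γ h, hfix γ h]⟩
  rw [div_pow, ht, div_eq_iff (pow_ne_zero _ (pow_ne_zero _ hx0))]
  ring

theorem fix_emb {γ : L ≃ₐ[ℚ] L} (h : actH K L γ = 1) (σ : K →ₐ[ℚ] L) (y : K) : γ (σ y) = σ y := by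
  rw [← actH_apply, h]
  rfl

theorem norm_prod (hL : BigL K L) (u : K) :
    ∏ σ : K →ₐ[ℚ] L, σ u = algebraMap ℚ L (Algebra.norm ℚ u) := by
  let i : L →ₐ[ℚ] AlgebraicClosure L := IsScalarTower.toAlgHom ℚ L (AlgebraicClosure L)
  have hi : Function.Injective i := i.toRingHom.injective
  have hb : Function.Bijective (fun σ : K →ₐ[ℚ] L => i.comp σ) := by
    rw [Fintype.bijective_iff_injective_and_card]
    refine ⟨fun σ τ h => ?_, ?_⟩
    · ext x
      exact hi (DFunLike.congr_fun h x)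
    · rw [hL.card, AlgHom.card]
  apply hi
  have h1 := Algebra.norm_eq_prod_embeddings (K := ℚ) (L := K) (E := AlgebraicClosure L) u
  rw [map_prod, AlgHom.commutes i, h1]
  exact Fintype.prod_bijective _ hb _ _ (fun σ => rfl)

theorem nm_sq {u : K} (hu : u ≠ 0) (h : nm K (sc u) = 0) :
    ∃ q : ℚ, q ≠ 0 ∧ Algebra.norm ℚ u = q ^ 2 := by
  have hn : Algebra.norm ℚ u ≠ 0 := Algebra.norm_ne_zero_iff.2 hu
  rw [nm_sc hu, H38T1.sc_eq_zero hn] at h
  obtain ⟨q, hq⟩ := h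
  refine ⟨q, ?_, by rw [hq, sq]⟩
  rintro rfl
  exact hn (by rw [hq, mul_zero])

theorem trans_emb (hL : BigL K L) (σ τ : K →ₐ[ℚ] L) : ∃ g : L ≃ₐ[ℚ] L, actH K L g σ = τ := by
  haveI := hL.gal
  letI : Algebra K L := σ.toRingHom.toAlgebra
  haveI : IsScalarTower ℚ K L := IsScalarTower.of_algebraMap_eq (fun x => (σ.commutes x).symm)
  let φ : L →ₐ[ℚ] L := τ.liftNormal L
  have hφ : ∀ x : K, φ (σ x) = τ x := fun x => τ.liftNormal_commutes L x
  refine ⟨AlgEquiv.ofBijective φ (Algebra.IsAlgebraic.algHom_bijective φ), ?_⟩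
  ext x
  exact hφ x

end H88T7
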