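import Pool.Agent.H88.T7.Df

/-!
ROW Aa (project MP_78d38b_T7, about 110 lines): classes of integers in the number field `K`.

PROOF. `e = v.asIdeal.ramificationIdx ℤ`. `H38T1.Ed_ord v hm : ord (v.valuation K) (m : K) =
e * padicValInt (rp v) m` and `H38T1.eo_sc` (`eo v (sc x) = (ord .. x : ZMod 2)`).
eo_int7: `e = 1`. eo_int0: the product is even, its cast to `ZMod 2` is zero.
la_int7: copy the proof of `H38T1.la_int` (`Pool/Agent/H38/T1/Ed.lean`): it uses `IsGalois` and the odd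
degree only through `Ed_odd hodd v : Odd e ∧ Odd (v.asIdeal.inertiaDeg ℤ)`, and needs only the second
part `hf` for the value of the Legendre class of a unit. la_int0: the easy direction needs no
hypothesis on the degree: if `rp v ∣ m - t^2` then `Sq (v.valuation K) m` (`V (m - t^2) < 1`,
`H38T1.Mb_val_lt`), so `lam = 0` (`la_sc` with `oddP_iff`, `ord = 0`, `unfold lam`).
res_int, nm_int: `res_sc`, `nm_res` of `Df.lean`; `map_intCast`.
-/

set_option autoImplicit false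
set_option linter.unusedSectionVars false
open scoped Classical

open WithZero NumberField IsDedekindDomain H38RT
open H38T1 (SC sc rep eo la si Pri OddP LD XX XX' NS ov rp SqMod)

namespace H88T7

variable {K : Type} [Field K] [NumberField K] {v : HeightOneSpectrum (𝓞 K)}

theorem Aa_unit (h2 : rp v ≠ 2) {m : ℤ} (hm : ¬ (rp v : ℤ) ∣ m) :
    v.valuation K (m : K) = 1 ∧ (la v (sc (m : K)) = 0 ↔ Sq (v.valuation K) (m : K)) := by
  have hv : OddP v := H38T1.oddP_iff.2 h2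
  have hm0 : m ≠ 0 := by
    rintro rfl
    exact hm (dvd_zero _)
  have hmK : (m : K) ≠ 0 := by exact_mod_cast hm0
  have h2 : (m : 𝓞 K) ∉ v.asIdeal := fun h => hm ((H38T1.mem_iff_int m).1 h)
  have h3 := (v.valuation_eq_one_iff_notMem (K := K) (r := (m : 𝓞 K))).mpr h2
  rw [map_intCast] at h3
  have h4 : ord (v.valuation K) (m : K) = 0 := by
    unfold ord
    rw [h3, log_one, neg_zero]
  refine ⟨h3, ?_⟩
  rw [H38T1.la_sc hv hmK]
  unfold lam
  rw [h4, neg_zero, zpow_zero, mul_one]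
  constructor
  · intro h
    by_contra hn
    rw [if_neg hn] at h
    exact one_ne_zero h
  · intro h
    exact if_pos h

theorem eo_int7 (he : v.asIdeal.ramificationIdx ℤ = 1) {m : ℤ} (hm : m ≠ 0) :
    eo v (sc (m : K)) = (padicValInt (rp v) m : ZMod 2) := by
  have hmK : (m : K) ≠ 0 := by exact_mod_cast hm
  rw [H38T1.eo_sc hmK, H38T1.Ed_ord v hm, he]
  push_cast
  rw [one_mul]

theorem eo_int0 {m : ℤ} (hm : m ≠ 0) (h : Even (padicValInt (rp v) m)) :
    eo v (sc (m : K)) = 0 := by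
  have hmK : (m : K) ≠ 0 := by exact_mod_cast hm
  obtain ⟨k, hk⟩ := h
  rw [H38T1.eo_sc hmK, H38T1.Ed_ord v hm, hk]
  push_cast
  have h2 : (k : ZMod 2) + k = 0 := by
    rw [← two_mul, (by decide : (2 : ZMod 2) = 0), zero_mul]
  rw [h2, mul_zero]

theorem la_int7 (hf : Odd (v.asIdeal.inertiaDeg ℤ)) (h2 : rp v ≠ 2) {m : ℤ}
    (hm : ¬ (rp v : ℤ) ∣ m) : la v (sc (m : K)) = 0 ↔ SqMod (rp v) m := by
  have hF : Fact (rp v).Prime := ⟨H38T1.rp_prime v⟩
  obtain ⟨h3, h5⟩ := Aa_unit (K := K) h2 hm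
  have hq2 : rp v ≠ 2 := h2
  rw [h5]
  constructor
  · rintro ⟨t, ht⟩
    have ht1 : v.valuation K t ≤ 1 := by
      have e1 : t ^ 2 = (m : K) - ((m : K) - t ^ 2) := by ring
      have e2 : v.valuation K (t ^ 2) ≤ 1 := by
        rw [e1]
        exact (Valuation.map_sub _ _ _).trans (max_le h3.le ht.le)
      rw [map_pow] at e2
      by_contra hc
      exact absurd e2 (not_le.2 (one_lt_pow₀ (not_le.1 hc) two_ne_zero))
    obtain ⟨a, ha⟩ := v.exists_valuation_sub_lt_of_integer ht1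
      (Units.mk0 (1 : WithZero (Multiplicative ℤ)) one_ne_zero)
    have ha' : v.valuation K ((a : K) - t) < 1 := ha
    have hsub : (m : 𝓞 K) - a ^ 2 ∈ v.asIdeal := by
      rw [← v.valuation_lt_one_iff_mem (K := K)]
      have e3 : algebraMap (𝓞 K) K ((m : 𝓞 K) - a ^ 2) =
          ((m : K) - t ^ 2) - ((a : K) - t) * ((a : K) + t) := by
        rw [map_sub, map_intCast, map_pow]
        ring
      change v.valuation K (algebraMap (𝓞 K) K ((m : 𝓞 K) - a ^ 2)) < 1
      rw [e3]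
      refine (Valuation.map_sub _ _ _).trans_lt (max_lt ht ?_)
      rw [map_mul]
      refine mul_lt_one_of_lt_of_le ha' ?_
      exact (Valuation.map_add _ _ _).trans (max_le (v.valuation_le_one a) ht1)
    have hmax : v.asIdeal.IsMaximal := v.isMaximal
    have hfin : Finite (𝓞 K ⧸ v.asIdeal) := Ideal.finiteQuotientOfFreeOfNeBot _ v.ne_bot
    let _ : Field (𝓞 K ⧸ v.asIdeal) := Ideal.Quotient.field _
    let _ : Fintype (𝓞 K ⧸ v.asIdeal) := Fintype.ofFinite _
    have hch : CharP (𝓞 K ⧸ v.asIdeal) (rp v) := ringChar.charP _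
    have hl := H38T1.Ed_lies v
    have hcard : Fintype.card (𝓞 K ⧸ v.asIdeal) = rp v ^ (v.asIdeal.inertiaDeg ℤ) := by
      rw [← Nat.card_eq_fintype_card, ← Submodule.cardQuot_apply, ← Ideal.absNorm_apply]
      have hh := Ideal.absNorm_pow_inertiaDeg (Ideal.span {((rp v : ℕ) : ℤ)}) v.asIdeal
      rw [← hh]
      simp
    have hsq : IsSquare (((m : ℤ) : 𝓞 K ⧸ v.asIdeal)) := by
      refine ⟨Ideal.Quotient.mk v.asIdeal a, ?_⟩
      have e4 : ((m : ℤ) : 𝓞 K ⧸ v.asIdeal) = Ideal.Quotient.mk v.asIdeal (m : 𝓞 K) := by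
        rw [map_intCast]
      rw [e4, ← map_mul, Ideal.Quotient.eq, ← sq]
      exact hsub
    obtain ⟨r, hr⟩ := H38T1.Ed_sq hq2 hf hcard hm hsq
    refine ⟨(r.val : ℤ), ?_⟩
    rw [← CharP.intCast_eq_zero_iff (ZMod (rp v)) (rp v)]
    push_cast
    rw [ZMod.natCast_zmod_val, hr]
    ring
  · rintro ⟨t, ht⟩
    refine ⟨(t : K), ?_⟩
    have h6 : v.valuation K (algebraMap (𝓞 K) K ((m - t ^ 2 : ℤ) : 𝓞 K)) < 1 :=
      (v.valuation_lt_one_iff_mem (K := K) _).2 ((H38T1.mem_iff_int (v := v) _).2 ht)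
    rw [map_intCast] at h6
    push_cast at h6
    exact h6

theorem la_int0 (h2 : rp v ≠ 2) {m : ℤ} (hm : ¬ (rp v : ℤ) ∣ m) (h : SqMod (rp v) m) :
    la v (sc (m : K)) = 0 := by
  obtain ⟨-, h5⟩ := Aa_unit (K := K) h2 hm
  rw [h5]
  obtain ⟨t, ht⟩ := h
  refine ⟨(t : K), ?_⟩
  have h6 : v.valuation K (algebraMap (𝓞 K) K ((m - t ^ 2 : ℤ) : 𝓞 K)) < 1 :=
    (v.valuation_lt_one_iff_mem (K := K) _).2 ((H38T1.mem_iff_int (v := v) _).2 ht)
  rw [map_intCast] at h6
  push_cast at h6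
  exact h6

theorem res_int {m : ℤ} (hm : m ≠ 0) : res K (sc (m : ℚ)) = sc (m : K) := by
  have h1 : (m : ℚ) ≠ 0 := by exact_mod_cast hm
  rw [res_sc h1, map_intCast]

theorem nm_int (hodd : Odd (Module.finrank ℚ K)) {m : ℤ} (hm : m ≠ 0) :
    nm K (sc (m : K)) = sc (m : ℚ) := by
  rw [← res_int hm, nm_res hodd]

end H88T7
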