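import Pool.Agent.H88.T7.Af

/-!
ROW Ag (project MP_78d38b_T7, about 170 lines): restriction and norm respect the Selmer groups.

PROOF. Membership in `P`, `P'` of `L7`: `H38T1.mem_ov` (all members of the sets are primes: `pd`, `hS.nice`):
`v ∈ (L7 K a β Pp Pp').P ↔ rp v ∈ pd (a^2 - 64 β) ∪ Pp`; the same for `ℚ`. `Sg = ∅`, `τ = false`. For a place `v` of `K` let `w` be the
place of `ℚ` with `rp w = rp v` (`ov_rat`), for a place `w` of `ℚ` the places `v` of `K` with `rp v = rp w`.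
`v` above a prime of `P` or `P'`: `rp v ≠ 2`: `rp v ∉ B` (`hD.co` for the divisors of `β (a^2 - 64 β)`, `hS.nB` for the others) and
`2 ∈ B`; `v.asIdeal.ramificationIdx ℤ = 1` (`hD.unr`). `¬ OddP v ↔ rp v = 2` (`H38T1.oddP_iff`).
res_XX: `eo v (res r) = 0` from `eo_res0`; at `P`: `w ∈ P`, `eo w r = 0` as `w ∉ P'` (the two sets are disjoint:
`rp w` cannot divide both `β` and `a^2 - 64 β` because `IsCoprime a β` and `rp w ≠ 2`; `hS.dj`; `hS.ndvd`) and `la w r = 0`: `la_res0`;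
`si_res`. res_XX': the same with `pri_res` (`rp v = 2`).
nm_XX: `nm_eo` (outside `P'`), `nm_la` (at `P`: `eo v c = 0` as `v ∉ P'`), `nm_si`. nm_XX': `nm_eo`, `nm_pri`, `nm_la`.
ns_rat: `c = sc m`, `m` squarefree (`int_rep`), `padicValInt (rp w) m` even for all `w`, so no prime divides `m` (`ov_rat`
gives the places), `m = ± 1` (`Int` squarefree without prime divisors is a unit), positive (`si_sc`): `m = 1`, `sc 1 = 0`.
nm_NS: `nm_eo`, `nm_si` show `nm K c ∈ NS ∅` over `ℚ`; then `ns_rat`.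
-/

set_option autoImplicit false
set_option linter.unusedSectionVars false
open scoped Classical

open WithZero NumberField IsDedekindDomain H38RT
open H38T1 (SC sc rep eo la si Pri OddP LD XX XX' NS ov rp SqMod)

namespace H88T7

variable {K : Type} [Field K] [NumberField K] {B : Finset ℕ} {Dc : SC ℚ} {a β : ℤ}
  {Pp Pp' : Finset ℕ}

private lemma Ag_P (hpr : ∀ p ∈ Pp ∪ Pp', p.Prime) {F : Type} [Field F] [NumberField F]
    (v : HeightOneSpectrum (𝓞 F)) :
    v ∈ (L7 F a β Pp Pp').P ↔ rp v ∈ pd (a ^ 2 - 64 * β) ∪ (Pp : Set ℕ) := by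
  change v ∈ ov F (pd (a ^ 2 - 64 * β) ∪ (Pp : Set ℕ)) ↔ _
  refine H38T1.mem_ov ?_
  rintro q (hq | hq)
  · exact hq.1
  · exact hpr q (Finset.mem_union_left _ hq)

private lemma Ag_P' (hpr : ∀ p ∈ Pp ∪ Pp', p.Prime) {F : Type} [Field F] [NumberField F]
    (v : HeightOneSpectrum (𝓞 F)) :
    v ∈ (L7 F a β Pp Pp').P' ↔ rp v ∈ pd β ∪ (Pp' : Set ℕ) := by
  change v ∈ ov F (pd β ∪ (Pp' : Set ℕ)) ↔ _
  refine H38T1.mem_ov ?_
  rintro q (hq | hq)
  · exact hq.1
  · exact hpr q (Finset.mem_union_right _ hq)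

private lemma Ag_nB (hD : Dat K B Dc a β) (hS : St K B a β Pp Pp') {q : ℕ}
    (hq : q ∈ pd (a ^ 2 - 64 * β) ∪ (Pp : Set ℕ)) : q ∉ B := by
  rcases hq with hq | hq
  · exact hD.co q hq.1 (Dvd.dvd.mul_left hq.2 _)
  · exact hS.nB q (Finset.mem_union_left _ hq)

private lemma Ag_nB' (hD : Dat K B Dc a β) (hS : St K B a β Pp Pp') {q : ℕ}
    (hq : q ∈ pd β ∪ (Pp' : Set ℕ)) : q ∉ B := by
  rcases hq with hq | hq
  · exact hD.co q hq.1 (Dvd.dvd.mul_right hq.2 _)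
  · exact hS.nB q (Finset.mem_union_right _ hq)

private lemma Ag_dj (hD : Dat K B Dc a β) (hS : St K B a β Pp Pp') {q : ℕ}
    (hq : q ∈ pd (a ^ 2 - 64 * β) ∪ (Pp : Set ℕ)) (hq' : q ∈ pd β ∪ (Pp' : Set ℕ)) : False := by
  rcases hq with hq | hq <;> rcases hq' with hq' | hq'
  · have h1 : (q : ℤ) ∣ a ^ 2 := by
      have h2 : (q : ℤ) ∣ (a ^ 2 - 64 * β) + 64 * β := dvd_add hq.2 (Dvd.dvd.mul_left hq'.2 _)
      rwa [sub_add_cancel] at h2
    have hqp : Prime (q : ℤ) := Nat.prime_iff_prime_int.mp hq.1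
    have h3 := hqp.dvd_of_dvd_pow h1
    exact hqp.not_isUnit (hD.cop.isUnit_of_dvd' h3 hq'.2)
  · exact hS.ndvd q (Finset.mem_union_right _ hq')
      (Dvd.dvd.mul_left (Dvd.dvd.mul_left hq.2 _) _)
  · exact hS.ndvd q (Finset.mem_union_left _ hq)
      (Dvd.dvd.mul_left (Dvd.dvd.mul_right hq'.2 _) _)
  · exact (Finset.disjoint_left.mp hS.dj) hq hq'

private lemma Ag_pr (hS : St K B a β Pp Pp') : ∀ p ∈ Pp ∪ Pp', p.Prime :=
  fun p hp => (hS.nice p hp).1

private lemma Ag_two {F : Type} [Field F] [NumberField F] {v : HeightOneSpectrum (𝓞 F)}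
    (h : ¬ OddP v) : rp v = 2 := by
  rw [H38T1.oddP_iff, not_not] at h
  exact h

private lemma Ag_ntwo {F : Type} [Field F] [NumberField F] {v : HeightOneSpectrum (𝓞 F)}
    (h : rp v = 2) : ¬ OddP v := by
  rw [H38T1.oddP_iff, not_not]
  exact h

private lemma Ag_w (v : HeightOneSpectrum (𝓞 K)) : ∃ w : HeightOneSpectrum (𝓞 ℚ), rp v = rp w := by
  obtain ⟨w, hw, _⟩ := ov_rat (H38T1.rp_prime v)
  exact ⟨w, hw.symm⟩

theorem res_XX (hD : Dat K B Dc a β) (hS : St K B a β Pp Pp') {r : SC ℚ}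
    (hr : r ∈ XX (L7 ℚ a β Pp Pp')) : res K r ∈ XX (L7 K a β Pp Pp') := by
  have hpr := Ag_pr hS
  obtain ⟨h1, _, h3, h4⟩ := hr
  refine ⟨?_, ?_, ?_, ?_⟩
  · intro v _ hv
    obtain ⟨w, hw⟩ := Ag_w v
    refine eo_res0 hw (h1 w (Set.notMem_empty _) ?_)
    rw [Ag_P' hpr] at hv ⊢
    rwa [← hw]
  · intro v hv
    exact absurd hv (Set.notMem_empty _)
  · intro v hv
    obtain ⟨w, hw⟩ := Ag_w v
    rw [Ag_P hpr] at hv
    have hv2 : rp v ≠ 2 := by
      intro h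
      exact Ag_nB hD hS hv (h ▸ hD.two)
    refine la_res0 hv2 hw (h1 w (Set.notMem_empty _) ?_) (h3 w ?_)
    · rw [Ag_P' hpr]
      intro h
      rw [hw] at hv
      exact Ag_dj hD hS hv h
    · rw [Ag_P hpr, ← hw]
      exact hv
  · intro ht u
    exact si_res (h4 ht) u

theorem res_XX' (hD : Dat K B Dc a β) (hS : St K B a β Pp Pp') {r : SC ℚ}
    (hr : r ∈ XX' (L7 ℚ a β Pp Pp')) : res K r ∈ XX' (L7 K a β Pp Pp') := by
  have hpr := Ag_pr hS
  obtain ⟨h1, h2, _, h4, _⟩ := hr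
  refine ⟨?_, ?_, ?_, ?_, ?_⟩
  · intro v _ hv
    obtain ⟨w, hw⟩ := Ag_w v
    refine eo_res0 hw (h1 w (Set.notMem_empty _) ?_)
    rw [Ag_P hpr] at hv ⊢
    rwa [← hw]
  · intro v hv
    obtain ⟨w, hw⟩ := Ag_w v
    have hv2 := Ag_two hv
    exact pri_res hv2 hw (h2 w (Ag_ntwo (by rw [← hw]; exact hv2)))
  · intro v hv
    exact absurd hv (Set.notMem_empty _)
  · intro v hv
    obtain ⟨w, hw⟩ := Ag_w v
    rw [Ag_P' hpr] at hv
    have hv2 : rp v ≠ 2 := by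
      intro h
      exact Ag_nB' hD hS hv (h ▸ hD.two)
    refine la_res0 hv2 hw (h1 w (Set.notMem_empty _) ?_) (h4 w ?_)
    · rw [Ag_P hpr]
      intro h
      rw [hw] at hv
      exact Ag_dj hD hS h hv
    · rw [Ag_P' hpr, ← hw]
      exact hv
  · intro ht
    exact absurd ht (by simp [L7])

theorem nm_XX (hD : Dat K B Dc a β) (hS : St K B a β Pp Pp') {c : SC K}
    (hc : c ∈ XX (L7 K a β Pp Pp')) : nm K c ∈ XX (L7 ℚ a β Pp Pp') := by
  have hpr := Ag_pr hS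
  obtain ⟨h1, _, h3, h4⟩ := hc
  refine ⟨?_, ?_, ?_, ?_⟩
  · intro w _ hw
    refine nm_eo fun v hv => h1 v (Set.notMem_empty _) ?_
    rw [Ag_P' hpr] at hw ⊢
    rwa [hv]
  · intro v hv
    exact absurd hv (Set.notMem_empty _)
  · intro w hw
    rw [Ag_P hpr] at hw
    have hnB := Ag_nB hD hS hw
    refine nm_la ?_ ?_ ?_
    · intro h
      exact hnB (h ▸ hD.two)
    · intro v hv
      exact hD.unr v (by rw [hv]; exact hnB)
    · intro v hv
      refine ⟨h1 v (Set.notMem_empty _) ?_, h3 v ?_⟩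
      · rw [Ag_P' hpr, hv]
        exact fun h => Ag_dj hD hS hw h
      · rw [Ag_P hpr, hv]
        exact hw
  · intro ht u
    exact nm_si (h4 ht) u

theorem nm_XX' (hD : Dat K B Dc a β) (hS : St K B a β Pp Pp') {c : SC K}
    (hc : c ∈ XX' (L7 K a β Pp Pp')) : nm K c ∈ XX' (L7 ℚ a β Pp Pp') := by
  have hpr := Ag_pr hS
  obtain ⟨h1, h2, _, h4, _⟩ := hc
  refine ⟨?_, ?_, ?_, ?_, ?_⟩
  · intro w _ hw
    refine nm_eo fun v hv => h1 v (Set.notMem_empty _) ?_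
    rw [Ag_P hpr] at hw ⊢
    rwa [hv]
  · intro w hw
    exact nm_pri (Ag_two hw) fun v hv => h2 v (Ag_ntwo hv)
  · intro v hv
    exact absurd hv (Set.notMem_empty _)
  · intro w hw
    rw [Ag_P' hpr] at hw
    have hnB := Ag_nB' hD hS hw
    refine nm_la ?_ ?_ ?_
    · intro h
      exact hnB (h ▸ hD.two)
    · intro v hv
      exact hD.unr v (by rw [hv]; exact hnB)
    · intro v hv
      refine ⟨h1 v (Set.notMem_empty _) ?_, h4 v ?_⟩
      · rw [Ag_P hpr, hv]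
        exact fun h => Ag_dj hD hS h hw
      · rw [Ag_P' hpr, hv]
        exact hw
  · intro ht
    exact absurd ht (by simp [L7])

theorem ns_rat {S : Set (HeightOneSpectrum (𝓞 ℚ))} {c : SC ℚ} (hc : c ∈ NS S) : c = 0 := by
  obtain ⟨m, hm0, hmsq, rfl⟩ := int_rep c
  obtain ⟨h1, _, h3⟩ := hc
  have hmQ : (m : ℚ) ≠ 0 := by exact_mod_cast hm0
  have hunit : m.natAbs = 1 := by
    by_contra hne
    obtain ⟨p, hp, hpm⟩ := Nat.exists_prime_and_dvd hne
    obtain ⟨v, hv, _⟩ := ov_rat hp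
    have h2 := h1 v
    rw [eo_int7 (rat_ef v).1 hm0, hv] at h2
    have : Fact p.Prime := ⟨hp⟩
    have hpmz : (p : ℤ) ∣ m := Int.natCast_dvd.mpr hpm
    have h4 : padicValInt p m = 1 := by
      have h5 : 1 ≤ padicValInt p m := by
        have := (padicValInt_dvd_iff 1 m).mp (by rw [pow_one]; exact hpmz)
        exact this.resolve_left hm0
      have h6 : ¬ 2 ≤ padicValInt p m := by
        intro h7
        have h8 := (padicValInt_dvd_iff (p := p) 2 m).mpr (Or.inr h7)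
        rw [pow_two] at h8
        have h9 := hmsq (p : ℤ) h8
        exact (Nat.prime_iff_prime_int.mp hp).not_isUnit h9
      omega
    rw [h4, Nat.cast_one] at h2
    exact one_ne_zero h2
  have hpos : 0 ≤ m := by
    have h2 := h3 (algebraMap ℚ ℝ)
    rw [H38T1.si_sc _ hmQ] at h2
    unfold sw at h2
    by_contra hneg
    rw [if_pos] at h2
    · exact one_ne_zero h2
    · rw [map_intCast]
      exact_mod_cast not_le.mp hneg
  have hm1 : m = 1 := by omega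
  subst hm1
  rw [Int.cast_one, H38T1.sc_eq_zero one_ne_zero]
  exact ⟨1, by ring⟩

theorem nm_NS {S : Set (HeightOneSpectrum (𝓞 K))} {c : SC K} (hc : c ∈ NS S) : nm K c = 0 := by
  refine ns_rat (S := ∅) ⟨?_, ?_, ?_⟩
  · intro w
    exact nm_eo fun v _ => hc.1 v
  · intro v hv
    exact absurd hv (Set.notMem_empty _)
  · intro u
    exact nm_si hc.2.2 u

end H88T7
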