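import Pool.Agent.H86.TL.Od

/-!
ROW Ca (project MP_78d38b_T7, about 100 lines): the local condition at a node (odd residue
characteristic is contained in `hS`).

PROOF. `b = c^2 - e = c^2 (1 - e / c^2)` is a square times... by `hS` it is a nonzero square (`V (e / c^2) < 1`), `e ≠ 0`
(`ne_of_odd`). `qpt_xy` (file `H86/TL/Bs.lean`) with `a = -2 c`: `IsSquare d`, or `IsSquare (b * d)` (then `d` is a square as `b` is a
nonzero square), or there are `x ≠ 0`, `y` with `y^2 = x (x^2 - 2 c x + c^2 - e) = x ((x - c)^2 - e)` and `IsSquare (x * d)`. We show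
that `x` is a nonzero square, so `d` is a square (`sq_trans`/`sq_mul_sq`).
(1) `V (x - c) ^ 2 ≠ V e` always (the logarithm of the first is even or `x = c`, `V e ≠ 0` has odd logarithm).
(2) If `V e < V (x - c)^2`: `(x - c)^2 - e = (x - c)^2 (1 - e / (x - c)^2)` is a nonzero square `s^2` (`hS`), `y^2 = x s^2`, so `x = (y / s)^2`.
(3) If `V (x - c)^2 < V e < 1`: `V (x - c) < 1`, so `V x = V c = 1` (`val_close`), and `V ((x - c)^2 - e) = V e` (`Valuation.map_sub_eq..`)
has odd logarithm; but `y^2 = x ((x - c)^2 - e)` is a nonzero square with logarithm of the value `log (V e)`, odd, against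
`even_of_sq`.
-/

set_option autoImplicit false

open WithZero H73IS H86TL

namespace H88T7

variable {F : Type*} [Field F] {V : Valuation F (WithZero (Multiplicative ℤ))}

theorem sq_node (hS : ∀ x : F, V x < 1 → IsSquare (1 + x)) {c e d : F} (hc : V c = 1)
    (he : V e < 1) (heo : Odd (log (V e))) (hd : d ≠ 0) (H : QPt (-2 * c) (c ^ 2 - e) d) :
    IsSquare d := by
  have hc0 : c ≠ 0 := by
    rintro rfl
    rw [map_zero] at hc
    exact zero_ne_one hc
  have hcc : V (c ^ 2) = 1 := by rw [map_pow, hc, one_pow]
  rcases qpt_xy hd H with h | h | ⟨x, y, hx, hxy, hxd⟩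
  · exact h
  · have h3 : V (c ^ 2 - e - c ^ 2) < V (c ^ 2) := by
      rw [show c ^ 2 - e - c ^ 2 = -e by ring, Valuation.map_neg, hcc]
      exact he
    have h4 : IsSquare (c ^ 2 - e) := (sq_mul_sq hc0).1 (sq_close hS h3)
    have h5 : IsSquare (1 * d) := sq_trans (ne_close h3) (by rwa [one_mul]) h
    rwa [one_mul] at h5
  · have hw : x ^ 2 + -2 * c * x + (c ^ 2 - e) = (x - c) ^ 2 - e := by ring
    rw [hw] at hxy
    have hsq : IsSquare x := by
      rcases lt_trichotomy (V ((x - c) ^ 2)) (V e) with h | h | h
      · exfalso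
        have h1 : V (x - c) < V c := by
          rw [hc]
          by_contra h1
          have h2 : (1 : WithZero (Multiplicative ℤ)) ≤ V (x - c) ^ 2 := one_le_pow₀ (not_lt.1 h1)
          rw [← map_pow] at h2
          exact absurd (h.trans he) (not_lt.2 h2)
        have hVx : V x = 1 := by rw [val_close h1, hc]
        have h3 : V ((x - c) ^ 2 - e - (-e)) < V (-e) := by
          rw [show (x - c) ^ 2 - e - (-e) = (x - c) ^ 2 by ring, Valuation.map_neg]
          exact h
        have h4 := val_close h3
        rw [Valuation.map_neg] at h4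
        have h5 := even_of_sq (V := V) (⟨y, by rw [← hxy]; ring⟩ : IsSquare (x * ((x - c) ^ 2 - e)))
        rw [log_mul' hx (ne_close h3), hVx, h4, log_one, zero_add] at h5
        exact (Int.not_even_iff_odd.2 heo) h5
      · exfalso
        rw [← h, log_pow'] at heo
        exact (Int.not_even_iff_odd.2 heo) ⟨log (V (x - c)), by push_cast; ring⟩
      · have h3 : V ((x - c) ^ 2 - e - (x - c) ^ 2) < V ((x - c) ^ 2) := by
          rw [show (x - c) ^ 2 - e - (x - c) ^ 2 = -e by ring, Valuation.map_neg]
          exact h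
        have h4 := sq_of_eq hxy (ne_close h3) (sq_close hS h3)
        have h5 : x - c ≠ 0 := by
          intro h6
          rw [h6] at h
          simp at h
        exact (sq_mul_sq h5).1 h4
    have h5 : IsSquare (1 * d) := sq_trans hx (by rwa [one_mul]) hxd
    rwa [one_mul] at h5

end H88T7
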