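import Pool.Agent.H38.T1.Tw2
import Pool.Agent.H38.T1.Ea
import Pool.Agent.H38.T1.Ed
import Pool.Agent.H38.T1.Ma

/-!
Definitions for the project MP_78d38b_T7 (generic fields of odd degree); no row.
-/

set_option autoImplicit false
set_option linter.unusedSectionVars false
open scoped Classical

open WithZero NumberField IsDedekindDomain H38RT
open H38T1 (SC sc scu scu_surj sc_mul sc_of_ne sc_surj rep rep_ne sc_rep sc_eq_zero eo la si Pri OddP LD
  XX XX' NS ov rp SqMod)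

namespace H88T7

section Maps

variable {F F' : Type} [Field F] [Field F']

/-- The map of square classes induced by a multiplicative map of fields. -/
noncomputable def scm (f : F →* F') : SC F →+ SC F' :=
  (MonoidHom.toAdditive (QuotientGroup.map (powMonoidHom 2 : Fˣ →* Fˣ).range
    (powMonoidHom 2 : F'ˣ →* F'ˣ).range (Units.map f) (by
    rintro x ⟨y, rfl⟩
    exact ⟨Units.map f y, by
      ext
      simp [powMonoidHom_apply]⟩)) :
    Additive (Fˣ ⧸ (powMonoidHom 2 : Fˣ →* Fˣ).range) →+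
      Additive (F'ˣ ⧸ (powMonoidHom 2 : F'ˣ →* F'ˣ).range))

lemma scm_scu (f : F →* F') (u : Additive Fˣ) :
    scm f (scu F u) = scu F' (Additive.ofMul (Units.map f (Additive.toMul u))) := rfl

lemma scm_ne (f : F →* F') {x : F} (hx : x ≠ 0) : f x ≠ 0 := by
  have h : IsUnit (f x) := (Units.mk0 x hx).isUnit.map f
  exact h.ne_zero

lemma scm_sc (f : F →* F') {x : F} (hx : x ≠ 0) : scm f (sc x) = sc (f x) := by
  rw [sc_of_ne hx, sc_of_ne (scm_ne f hx), scm_scu]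
  congr 1
  apply Additive.toMul.injective
  ext
  rfl

end Maps

section Numb

variable (K : Type) [Field K] [NumberField K]

/-- The restriction `SC ℚ → SC K`. -/
noncomputable def res : SC ℚ →+ SC K := scm ((algebraMap ℚ K : ℚ →+* K) : ℚ →* K)

/-- The norm `SC K → SC ℚ`. -/
noncomputable def nm : SC K →+ SC ℚ := scm (Algebra.norm ℚ : K →* ℚ)

variable {K}

lemma res_sc {x : ℚ} (hx : x ≠ 0) : res K (sc x) = sc (algebraMap ℚ K x) := scm_sc _ hx

lemma nm_sc {x : K} (hx : x ≠ 0) : nm K (sc x) = sc (Algebra.norm ℚ x) := scm_sc _ hx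

lemma zsmul_two {F : Type} [Field F] (m : ℕ) (c : SC F) : (2 * m + 1) • c = c := by
  rw [add_smul, mul_comm, mul_smul, SC.two_smul, smul_zero, zero_add, one_smul]

lemma sc_pow {F : Type} [Field F] {x : F} (hx : x ≠ 0) (n : ℕ) : sc (x ^ n) = n • sc x := by
  induction n with
  | zero =>
    rw [pow_zero, zero_smul, sc_eq_zero one_ne_zero]
    exact ⟨1, by ring⟩
  | succ n ih => rw [pow_succ, sc_mul (pow_ne_zero _ hx) hx, ih, add_smul, one_smul]

/-- The norm is a retraction of the restriction. -/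
theorem nm_res (hodd : Odd (Module.finrank ℚ K)) (r : SC ℚ) : nm K (res K r) = r := by
  obtain ⟨x, hx, rfl⟩ := sc_surj r
  obtain ⟨m, hm⟩ := hodd
  have h1 : algebraMap ℚ K x ≠ 0 := (map_ne_zero _).2 hx
  rw [res_sc hx, nm_sc h1, Algebra.norm_algebraMap, sc_pow hx, hm, zsmul_two]

theorem res_inj (hodd : Odd (Module.finrank ℚ K)) : Function.Injective (res K) := fun x y h => by
  rw [← nm_res hodd x, h, nm_res hodd]

end Numb

/-- The hypotheses on the curve `y^2 = x (x^2 + a x + 16 β)`. -/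
structure Hyp7 (a β : ℤ) : Prop where
  a4 : a % 4 = 1
  bo : β % 2 = 1
  pos : a ^ 2 < 64 * β
  cop : IsCoprime a β
  sqf : Squarefree (β * (a ^ 2 - 64 * β))
  ne : β ≠ 1

/-- The prime `p` is odd, unramified in `K` and has only residue fields of odd degree. -/
def Nice (K : Type) [Field K] [NumberField K] (p : ℕ) : Prop :=
  p.Prime ∧ p ≠ 2 ∧ ∀ v : HeightOneSpectrum (𝓞 K), (p : 𝓞 K) ∈ v.asIdeal →
    v.asIdeal.ramificationIdx ℤ = 1 ∧ Odd (v.asIdeal.inertiaDeg ℤ)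

/-- The set `B` contains `2` and all primes which ramify in the field `K` of odd degree or divide the
class `Dc`. -/
structure Bas (K : Type) [Field K] [NumberField K] (B : Finset ℕ) (Dc : SC ℚ) : Prop where
  odd : Odd (Module.finrank ℚ K)
  two : 2 ∈ B
  unr : ∀ v : HeightOneSpectrum (𝓞 K), rp v ∉ B → v.asIdeal.ramificationIdx ℤ = 1
  disc : ∀ v : HeightOneSpectrum (𝓞 ℚ), rp v ∉ B → eo v Dc = 0

/-- The primes dividing `m`. -/
def pd (m : ℤ) : Set ℕ := {q | q.Prime ∧ (q : ℤ) ∣ m}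

/-- The sets of primes at which the local conditions are trivial. -/
noncomputable def L7 (K : Type) [Field K] [NumberField K] (a β : ℤ) (Pp Pp' : Finset ℕ) : LD K where
  Sg := ∅
  g := fun _ => 0
  P := ov K (pd (a ^ 2 - 64 * β) ∪ (Pp : Set ℕ))
  P' := ov K (pd β ∪ (Pp' : Set ℕ))
  τ := false

/-- A state of the algorithm: `Pp`, `Pp'` are disjoint sets of nice primes outside `B` not dividing
`2 β (a^2 - 64 β)`, at which `β` (respectively `a^2 - 64 β`) is a square and the other number is a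
non-residue. -/
structure St (K : Type) [Field K] [NumberField K] (B : Finset ℕ) (a β : ℤ) (Pp Pp' : Finset ℕ) :
    Prop where
  dj : Disjoint Pp Pp'
  nice : ∀ p ∈ Pp ∪ Pp', Nice K p
  ndvd : ∀ p ∈ Pp ∪ Pp', ¬ (p : ℤ) ∣ 2 * (β * (a ^ 2 - 64 * β))
  nB : ∀ p ∈ Pp ∪ Pp', p ∉ B
  sq : ∀ p ∈ Pp, SqMod p β ∧ ¬ SqMod p (a ^ 2 - 64 * β)
  sq' : ∀ p ∈ Pp', ¬ SqMod p β ∧ SqMod p (a ^ 2 - 64 * β)

/-- The curve and the base: `β (a^2 - 64 β)` is prime to `B`. -/
structure Dat (K : Type) [Field K] [NumberField K] (B : Finset ℕ) (Dc : SC ℚ) (a β : ℤ) : Prop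
    extends Bas K B Dc, Hyp7 a β where
  co : ∀ q : ℕ, q.Prime → (q : ℤ) ∣ β * (a ^ 2 - 64 * β) → q ∉ B

/-- The primes given by the density theorem. -/
structure Adm7 (K : Type) [Field K] [NumberField K] (Dc : SC ℚ) : Prop where
  c1 : ∀ Z : Finset (SC K), (∀ z ∈ Z, nm K z = 0) → ∀ (R : Finset (SC ℚ)) (Φ₁ Φ₂ : SC K →+ ZMod 2)
    (Ψ : SC ℚ →+ ZMod 2), Ψ Dc = 0 →
    {p : ℕ | Nice K p ∧ ∃ v₁ v₂ v₃ : HeightOneSpectrum (𝓞 K), v₁ ≠ v₂ ∧ v₁ ≠ v₃ ∧ v₂ ≠ v₃ ∧
      ov K {p} = {v₁, v₂, v₃} ∧ (∀ z ∈ Z, la v₁ z = Φ₁ z ∧ la v₂ z = Φ₂ z ∧ la v₃ z = Φ₁ z + Φ₂ z) ∧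
      ∀ r ∈ R, ∀ v ∈ ov K {p}, la v (res K r) = Ψ r}.Infinite
  c2 : ∀ (R : Finset (SC ℚ)) (Ψ : SC ℚ →+ ZMod 2), Ψ Dc = 0 →
    {p : ℕ | Nice K p ∧ ∃ v, ov K {p} = {v} ∧ ∀ r ∈ R, la v (res K r) = Ψ r}.Infinite

/-- The twisting integer belongs to the state: the prime divisors of `n` are the primes of the state
and neutral primes. -/
structure Tw7 (K : Type) [Field K] [NumberField K] (B : Finset ℕ) (a β : ℤ) (Pp Pp' : Finset ℕ)
    (n : ℤ) : Prop where
  sqf : Squarefree n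
  n4 : n % 4 = 1
  mem : ∀ p ∈ Pp ∪ Pp', (p : ℤ) ∣ n
  nice : ∀ p : ℕ, p.Prime → (p : ℤ) ∣ n → Nice K p ∧ ¬ (p : ℤ) ∣ β * (a ^ 2 - 64 * β)
  neu : ∀ p : ℕ, p.Prime → (p : ℤ) ∣ n → p ∉ Pp → p ∉ Pp' →
    ¬ SqMod p β ∧ ¬ SqMod p (a ^ 2 - 64 * β)

end H88T7
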