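import Pool.Agent.H88.T7.Ga

/-!
ROW Gq (project MP_78d38b_T7, about 120 lines): the square root of the discriminant.

PROOF. Let `ω = NumberField.integralBasis K` (index type `ι = Module.Free.ChooseBasisIndex ℤ (𝓞 K)`, `|ι| = finrank ℚ K`), elements of `𝓞 K`.
`hL.card` gives an equivalence `e : ι ≃ (K →ₐ[ℚ] L)`. `δ = det (fun i j => e i (ω j))` (a `Matrix ι ι L`).
int: a determinant of algebraic integers (`IsIntegral.det`/`Matrix.det` of integral entries: `IsIntegral.det`, or expand: sum of products of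
`IsIntegral`). act: `g δ = det (fun i j => (actH g (e i)) (ω j))` (`RingHom.map_det`), the rows are permuted by the permutation
`e⁻¹ (actH g) e` of `ι`: `Matrix.det_permute`, the sign is `sign (actH g)` (`Equiv.Perm.sign_permCongr`/`sign_symm_trans_trans`).
sq: `δ^2 = discr`: `Mᵀ M = (∑ i, e i (ω j ω k)) = (Tr (ω j ω k))` where `∑_σ σ x = Tr x` over the embeddings in `L`: `Ω = AlgebraicClosure L`,
composition with `L → Ω` is a bijection `(K →ₐ[ℚ] L) → (K →ₐ[ℚ] Ω)` (injective, same cardinality `AlgHom.card`), `trace_eq_sum_embeddings`.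
`Algebra.discr ℚ (integralBasis K) = (NumberField.discr K : ℚ)` (`NumberField.coe_discr`), `Algebra.discr` is the determinant of
`Algebra.traceMatrix`. (Or use `Algebra.discr_eq_det_embeddingsMatrixReindex_pow_two` over `Ω`.)
-/

set_option autoImplicit false
set_option linter.unusedSectionVars false
open scoped Classical

open WithZero NumberField IsDedekindDomain H38RT
open H38T1 (SC sc rep eo la si Pri OddP LD XX XX' NS ov rp SqMod)

namespace H88T7

variable {K L : Type} [Field K] [NumberField K] [Field L] [NumberField L]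

theorem Gq_trace (hL : BigL K L) (x : K) :
    ∑ σ : K →ₐ[ℚ] L, σ x = algebraMap ℚ L (Algebra.trace ℚ K x) := by
  apply (algebraMap L (AlgebraicClosure L)).injective
  have h1 := trace_eq_sum_embeddings (K := ℚ) (L := K) (E := AlgebraicClosure L) (x := x)
  rw [map_sum, ← IsScalarTower.algebraMap_apply ℚ L (AlgebraicClosure L), h1]
  let c : (K →ₐ[ℚ] L) → (K →ₐ[ℚ] AlgebraicClosure L) := fun σ =>
    (IsScalarTower.toAlgHom ℚ L (AlgebraicClosure L)).comp σ
  have hc : ∀ σ y, c σ y = algebraMap L (AlgebraicClosure L) (σ y) := fun σ y => rfl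
  have hinj : Function.Injective c := by
    intro σ τ h
    ext y
    apply (algebraMap L (AlgebraicClosure L)).injective
    rw [← hc, ← hc, h]
  have hbij : Function.Bijective c := by
    rw [Fintype.bijective_iff_injective_and_card]
    exact ⟨hinj, by rw [hL.card, AlgHom.card]⟩
  exact Fintype.sum_bijective c hbij _ _ (fun σ => (hc σ x).symm)

theorem exists_del (hL : BigL K L) : ∃ δ : L, IsDel K L (NumberField.discr K) δ := by
  have hcard : Fintype.card (Module.Free.ChooseBasisIndex ℤ (𝓞 K)) =
      Fintype.card (K →ₐ[ℚ] L) := by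
    rw [hL.card, ← Module.finrank_eq_card_basis (NumberField.integralBasis K)]
  obtain ⟨e⟩ : Nonempty (Module.Free.ChooseBasisIndex ℤ (𝓞 K) ≃ (K →ₐ[ℚ] L)) :=
    ⟨Fintype.equivOfCardEq hcard⟩
  obtain ⟨ω, hω⟩ : ∃ ω : (K →ₐ[ℚ] L) → K, ω = (NumberField.integralBasis K) ∘ e.symm := ⟨_, rfl⟩
  obtain ⟨M, hM⟩ : ∃ M : Matrix (K →ₐ[ℚ] L) (K →ₐ[ℚ] L) L, ∀ σ τ, M σ τ = σ (ω τ) :=
    ⟨fun σ τ => σ (ω τ), fun _ _ => rfl⟩
  refine ⟨M.det, ?_, ?_, ?_⟩
  · apply IsIntegral.det
    intro σ τ
    rw [hM, hω]
    show IsIntegral ℤ ((σ : K →+* L) (NumberField.integralBasis K (e.symm τ)))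
    rw [NumberField.integralBasis_apply]
    exact map_isIntegral_int _ (RingOfIntegers.isIntegral_coe _)
  · have h1 : M.transpose * M = (Algebra.traceMatrix ℚ ω).map (algebraMap ℚ L) := by
      ext τ τ'
      rw [Matrix.mul_apply, Matrix.map_apply, Algebra.traceMatrix_apply, Algebra.traceForm_apply,
        ← Gq_trace hL]
      refine Finset.sum_congr rfl fun σ _ => ?_
      rw [Matrix.transpose_apply, hM, hM, map_mul]
    have h2 : M.det ^ 2 = algebraMap ℚ L (Algebra.discr ℚ ω) := by
      rw [Algebra.discr_def, RingHom.map_det, RingHom.mapMatrix_apply, ← h1, Matrix.det_mul,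
        Matrix.det_transpose, sq]
    have h3 : Algebra.discr ℚ ω = Algebra.discr ℚ (NumberField.integralBasis K) := by
      rw [hω]
      exact Algebra.discr_reindex ℚ (NumberField.integralBasis K) e
    rw [h2, h3, ← NumberField.coe_discr, map_intCast]
  · intro g
    have h1 : g M.det = (M.submatrix (actH K L g) id).det := by
      show (g : L →+* L) M.det = _
      rw [RingHom.map_det]
      congr 1
      ext σ τ
      rw [RingHom.mapMatrix_apply, Matrix.map_apply, Matrix.submatrix_apply, hM, hM]
      rfl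
    rw [h1, Matrix.det_permute]

end H88T7
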