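import Mathlib

/-!
ROW Gx (project MP_78d38b_T7, about 160 lines): permutations.

PROOF. exists_cyc: `N = card α` odd, `N ≥ 3` (two different points and odd). List the points different from `a, b`
(`Finset.toList` of `univ \ {a, b}`, `N - 2` elements, no duplicates) and let `π = List.formPerm` of the list: a cycle on these points
(if `N - 2 = 1` it is the identity) (`List.isCycle_formPerm`, `List.formPerm_apply_of_notMem`, `List.SameCycle`...,
`Equiv.Perm.IsCycleOn`: `List.Nodup.isCycleOn_formPerm`); sign `(-1)^(N-3) = 1` (`Equiv.Perm.IsCycle.sign`), `π^(N-2) = 1`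
(`IsCycleOn.pow_card_apply` or `orderOf`). Period: `IsCycleOn` of a set with `m` elements: minimal period `m`
(`IsCycleOn.pow_apply_eq`: `(f ^ n) a = a ↔ s.card ∣ n`).
exists_full: the same with all the points (`N`-cycle, sign `(-1)^(N-1) = 1`).
sign_orbits: `sign π = (-1)^(N - k)`, `k` the number of the classes of `SameCycle`. `Equiv.Perm.sign_of_cycleType`:
`sign π = (-1)^(π.cycleType.sum + π.cycleType.card)`; `π.cycleType.sum = #π.support` (`sum_cycleType`), and the classes of `SameCycle` are the
`cycleType.card` nontrivial cycles (`cycleFactorsFinset`: `x ↦ π.cycleOf x` on the support; `card_cycleType_eq..`) and the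
`N - #support` fixed points. So `k = cycleType.card + N - #support`, `N + k ≡ cycleType.sum + cycleType.card` modulo two. (Alternative:
induction over the cycle decomposition, `Equiv.Perm.cycle_induction_on`.)
-/

set_option autoImplicit false
open scoped Classical

namespace H88T7

private theorem Gx_on {α : Type} [Fintype α] (s : Finset α) (hs : Odd s.card) :
    ∃ π ∈ alternatingGroup α, (∀ x, x ∉ s → π x = x) ∧ π ^ s.card = 1 ∧
      (∀ x y : α, x ∈ s → y ∈ s → π.SameCycle x y) ∧
      ∀ x : α, x ∈ s → Function.minimalPeriod π x = s.card := by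
  have hon : (s.toList.formPerm).IsCycleOn (s : Set α) := by
    have h1 := (Finset.nodup_toList s).isCycleOn_formPerm
    have h2 : {a | a ∈ s.toList} = (s : Set α) := by
      ext x
      exact Finset.mem_toList
    rwa [h2] at h1
  obtain ⟨π, hπ⟩ : ∃ π : Equiv.Perm α, π = s.toList.formPerm := ⟨_, rfl⟩
  rw [← hπ] at hon
  have hfix : ∀ x, x ∉ s → π x = x := by
    intro x hx
    rw [hπ]
    exact List.formPerm_apply_of_notMem (fun h => hx (Finset.mem_toList.1 h))
  have hpow : π ^ s.card = 1 := by
    ext x
    rw [Equiv.Perm.one_apply]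
    by_cases hx : x ∈ s
    · exact hon.pow_card_apply hx
    · exact Equiv.Perm.pow_apply_eq_self_of_apply_eq_self (hfix x hx) _
  refine ⟨π, ?_, hfix, hpow, fun x y hx hy => hon.2 hx hy, ?_⟩
  · rw [Equiv.Perm.mem_alternatingGroup]
    have h1 : Equiv.Perm.sign π ^ s.card = 1 := by
      rw [← map_pow, hpow, map_one]
    rcases Int.units_eq_one_or (Equiv.Perm.sign π) with h2 | h2
    · exact h2
    · rw [h2, hs.neg_one_pow] at h1
      rw [h2]
      exact h1
  · intro x hx
    have h1 : ∀ n : ℕ, Function.minimalPeriod π x ∣ n ↔ s.card ∣ n := by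
      intro n
      rw [← Function.isPeriodicPt_iff_minimalPeriod_dvd, ← hon.pow_apply_eq hx]
      unfold Function.IsPeriodicPt Function.IsFixedPt
      rw [Equiv.Perm.iterate_eq_pow]
    exact Nat.dvd_antisymm ((h1 _).2 dvd_rfl) ((h1 _).1 dvd_rfl)

theorem exists_cyc {α : Type} [Fintype α] (h : Odd (Fintype.card α)) {a b : α} (hab : a ≠ b) :
    ∃ π ∈ alternatingGroup α, π a = a ∧ π b = b ∧ π ^ (Fintype.card α - 2) = 1 ∧
      (∀ x y : α, x ≠ a → x ≠ b → y ≠ a → y ≠ b → π.SameCycle x y) ∧
      ∀ x : α, x ≠ a → x ≠ b → Function.minimalPeriod π x = Fintype.card α - 2 := by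
  have hc : ((Finset.univ : Finset α) \ {a, b}).card = Fintype.card α - 2 := by
    rw [Finset.card_sdiff_of_subset (Finset.subset_univ _), Finset.card_univ,
      Finset.card_pair hab]
  have h2 : 2 ≤ Fintype.card α := by
    rw [← Finset.card_pair hab]
    exact Finset.card_le_univ _
  have hodd : Odd ((Finset.univ : Finset α) \ {a, b}).card := by
    rw [hc]
    obtain ⟨k, hk⟩ := h
    exact ⟨k - 1, by omega⟩
  have hm : ∀ x : α, x ≠ a → x ≠ b → x ∈ (Finset.univ : Finset α) \ {a, b} := by
    intro x hx hy
    simp [hx, hy]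
  obtain ⟨π, h1, h3, h4, h5, h6⟩ := Gx_on _ hodd
  rw [hc] at h4 h6
  exact ⟨π, h1, h3 a (by simp), h3 b (by simp), h4,
    fun x y hxa hxb hya hyb => h5 x y (hm x hxa hxb) (hm y hya hyb),
    fun x hxa hxb => h6 x (hm x hxa hxb)⟩

theorem exists_full {α : Type} [Fintype α] (h : Odd (Fintype.card α)) :
    ∃ π ∈ alternatingGroup α, π ^ (Fintype.card α) = 1 ∧ (∀ x y : α, π.SameCycle x y) ∧
      ∀ x : α, Function.minimalPeriod π x = Fintype.card α := by
  obtain ⟨π, h1, h3, h4, h5, h6⟩ := Gx_on (Finset.univ : Finset α) h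
  exact ⟨π, h1, h4, fun x y => h5 x y (Finset.mem_univ _) (Finset.mem_univ _),
    fun x => h6 x (Finset.mem_univ _)⟩

private theorem Gx_card {α : Type} [Fintype α] (π : Equiv.Perm α) :
    Nat.card (Quotient (Equiv.Perm.SameCycle.setoid π)) =
      Fintype.card {x // π x = x} + π.cycleFactorsFinset.card := by
  let f : α → {x // π x = x} ⊕ {c // c ∈ π.cycleFactorsFinset} := fun x =>
    if h : π x = x then Sum.inl ⟨x, h⟩ else Sum.inr ⟨π.cycleOf x,
      Equiv.Perm.cycleOf_mem_cycleFactorsFinset_iff.2 (Equiv.Perm.mem_support.2 h)⟩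
  have hf : ∀ x y, f x = f y ↔ π.SameCycle x y := by
    intro x y
    by_cases hx : π x = x
    · have hfx : f x = Sum.inl ⟨x, hx⟩ := dif_pos hx
      by_cases hy : π y = y
      · have hfy : f y = Sum.inl ⟨y, hy⟩ := dif_pos hy
        rw [hfx, hfy]
        constructor
        · intro h
          have h1 : x = y := congrArg Subtype.val (Sum.inl.inj h)
          rw [h1]
        · intro h
          have h1 : x = y := h.eq_of_left hx
          subst h1
          rfl
      · have hfy : f y = Sum.inr ⟨π.cycleOf y, Equiv.Perm.cycleOf_mem_cycleFactorsFinset_iff.2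
          (Equiv.Perm.mem_support.2 hy)⟩ := dif_neg hy
        rw [hfx, hfy]
        constructor
        · intro h
          exact absurd h (by simp)
        · intro h
          have h1 : x = y := h.eq_of_left hx
          subst h1
          exact absurd hx hy
    · have hfx : f x = Sum.inr ⟨π.cycleOf x, Equiv.Perm.cycleOf_mem_cycleFactorsFinset_iff.2
          (Equiv.Perm.mem_support.2 hx)⟩ := dif_neg hx
      by_cases hy : π y = y
      · have hfy : f y = Sum.inl ⟨y, hy⟩ := dif_pos hy
        rw [hfx, hfy]
        constructor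
        · intro h
          exact absurd h (by simp)
        · intro h
          have h1 : x = y := h.eq_of_right hy
          subst h1
          exact absurd hy hx
      · have hfy : f y = Sum.inr ⟨π.cycleOf y, Equiv.Perm.cycleOf_mem_cycleFactorsFinset_iff.2
          (Equiv.Perm.mem_support.2 hy)⟩ := dif_neg hy
        rw [hfx, hfy]
        constructor
        · intro h
          have h1 : π.cycleOf x = π.cycleOf y := congrArg Subtype.val (Sum.inr.inj h)
          have h2 : y ∈ (π.cycleOf y).support := by
            rw [Equiv.Perm.mem_support_cycleOf_iff]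
            exact ⟨Equiv.Perm.SameCycle.refl _ _, Equiv.Perm.mem_support.2 hy⟩
          rw [← h1, Equiv.Perm.mem_support_cycleOf_iff] at h2
          exact h2.1
        · intro h
          have h1 : π.cycleOf x = π.cycleOf y := h.cycleOf_eq
          congr 2
  have hsurj : Function.Surjective f := by
    rintro (⟨x, hx⟩ | ⟨c, hc⟩)
    · exact ⟨x, dif_pos hx⟩
    · obtain ⟨x, hx⟩ := (Equiv.Perm.mem_cycleFactorsFinset_iff.1 hc).1.nonempty_support
      have h1 : c = π.cycleOf x := Equiv.Perm.cycle_is_cycleOf hx hc
      have h2 : π x ≠ x := by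
        rw [← Equiv.Perm.mem_support]
        exact Equiv.Perm.mem_cycleFactorsFinset_support_le hc hx
      refine ⟨x, ?_⟩
      have h3 : f x = Sum.inr ⟨π.cycleOf x, Equiv.Perm.cycleOf_mem_cycleFactorsFinset_iff.2
          (Equiv.Perm.mem_support.2 h2)⟩ := dif_neg h2
      rw [h3]
      subst h1
      rfl
  let g : Quotient (Equiv.Perm.SameCycle.setoid π) →
      {x // π x = x} ⊕ {c // c ∈ π.cycleFactorsFinset} :=
    Quotient.lift f (fun x y h => (hf x y).2 h)
  have hg : Function.Bijective g := by
    constructor
    · intro x y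
      refine Quotient.inductionOn₂ x y ?_
      intro x y h
      exact Quotient.sound ((hf x y).1 h)
    · intro z
      obtain ⟨x, hx⟩ := hsurj z
      exact ⟨Quotient.mk _ x, hx⟩
  rw [Nat.card_congr (Equiv.ofBijective g hg), Nat.card_eq_fintype_card, Fintype.card_sum,
    Fintype.card_coe]

theorem sign_orbits {α : Type} [Fintype α] (π : Equiv.Perm α) :
    Equiv.Perm.sign π = (-1) ^ (Fintype.card α +
      Nat.card (Quotient (Equiv.Perm.SameCycle.setoid π))) := by
  rw [Gx_card, Equiv.Perm.sign_of_cycleType, Equiv.Perm.sum_cycleType]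
  have h1 : Multiset.card π.cycleType = π.cycleFactorsFinset.card := by
    rw [Equiv.Perm.cycleType_def, Multiset.card_map]
    rfl
  have h2 : Fintype.card α = Fintype.card {x // π x = x} + π.support.card := by
    rw [Fintype.card_subtype]
    have h3 := Finset.card_filter_add_card_filter_not (s := (Finset.univ : Finset α))
      (fun x => π x = x)
    rw [← Finset.card_univ, ← h3]
    rfl
  rw [h1, h2]
  have h4 : Fintype.card {x // π x = x} + π.support.card +
      (Fintype.card {x // π x = x} + π.cycleFactorsFinset.card) =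
      2 * Fintype.card {x // π x = x} + (π.support.card + π.cycleFactorsFinset.card) := by ring
  rw [h4, pow_add _ (2 * _), pow_mul, neg_one_sq, one_pow, one_mul]

end H88T7
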