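import Pool.Agent.H88.T7.Gk
import Pool.Agent.H88.T7.Gx
import Pool.Agent.H88.T7.Gq
import Pool.Agent.H88.T7.Gb
import Pool.Agent.H42.PC.BFin
import Pool.Agent.H93.T1.Cf
import Pool.Agent.H38.T1.Md

/-!
ROW Fa (project MP_78d38b_T7, about 140 lines): Stickelberger's theorem on the number of places.

PROOF. `exists_bigL K ∅ ∅` gives `L`; `δ` from `exists_del`, `Δ = discr K`. Let `w` be a place of `L` above `q` (`H38T1.exists_above`), `rp w = q`, and
`φ` a Frobenius element at `w`: it exists for all places (Mathlib `exists_arithFrobAt`-like: `AlgHom.IsArithFrobAt`,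
`IsArithFrobAt`, `arithFrobAt` for `𝓞 L` over `ℤ` or `𝓞 ℚ`; see `frb`, `IsFr`, `BAvg_frb` in `Pool/Agent/H42/PC`, `Cf.lean` (4) in `H93/T1`): `φ • x - x^q ∈ w` for
all `x ∈ 𝓞 L`, which is `IsFb φ w`. Let `π = actH K L φ`, `k = |ov K {q}|` the number of classes of `SameCycle` (`count_places`), `N = finrank` odd:
`sign π = (-1)^(N + k) = (-1)^(k + 1)` (`sign_orbits`, `hL.card`). `φ δ = sign π * δ`, and `φ δ - δ^q ∈ w` (`δ ∈ 𝓞 L`), `δ^q = δ * Δ^((q-1)/2)`.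
`δ ∉ w` as `δ^2 = Δ`, `q ∤ Δ` (`H38T1.mem_iff_int` for `L`). So `sign π - Δ^((q-1)/2) ∈ w`, an integer, divisible by `q`
(`mem_iff_int`). `jacobiSym Δ q = legendreSym q Δ ≡ Δ^((q-1)/2)` modulo `q` (`legendreSym.eq_pow`); both are `± 1` and `q > 2`, so they are equal.
-/

set_option autoImplicit false
set_option linter.unusedSectionVars false
open scoped Classical

open WithZero NumberField IsDedekindDomain H38RT
open H38T1 (SC sc rep eo la si Pri OddP LD XX XX' NS ov rp SqMod)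

namespace H88T7

theorem Fa_frob {L : Type} [Field L] [NumberField L] (hG : IsGalois ℚ L)
    (w : HeightOneSpectrum (𝓞 L)) : ∃ φ : L ≃ₐ[ℚ] L, IsFb φ w := by
  have hp := w.isPrime
  have hfin : Finite (𝓞 L ⧸ w.asIdeal) := Ideal.finiteQuotientOfFreeOfNeBot _ w.ne_bot
  obtain ⟨σ, hσ⟩ := IsArithFrobAt.exists_of_isInvariant (𝓞 ℚ) (L ≃ₐ[ℚ] L) w.asIdeal
  refine ⟨σ, fun x => ?_⟩
  have h1 := hσ x
  have hne : w.asIdeal.under (𝓞 ℚ) ≠ ⊥ := by
    intro h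
    have h3 : ((rp w : ℕ) : 𝓞 ℚ) ∈ w.asIdeal.under (𝓞 ℚ) := by
      rw [Ideal.mem_comap, map_natCast]
      exact H38T1.rp_mem w
    rw [h, Ideal.mem_bot] at h3
    exact (H38T1.rp_prime w).ne_zero (by exact_mod_cast h3)
  let v : HeightOneSpectrum (𝓞 ℚ) := ⟨w.asIdeal.under (𝓞 ℚ), inferInstance, hne⟩
  obtain ⟨h3, -⟩ := H93T1.Cf_rat v
  have h4 : ((Ideal.absNorm v.asIdeal : ℕ) : 𝓞 L) ∈ w.asIdeal := by
    have h5 : ((Ideal.absNorm v.asIdeal : ℕ) : 𝓞 ℚ) ∈ w.asIdeal.under (𝓞 ℚ) :=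
      Ideal.absNorm_mem v.asIdeal
    rw [Ideal.mem_comap, map_natCast] at h5
    exact h5
  have h2 : Nat.card (𝓞 ℚ ⧸ w.asIdeal.under (𝓞 ℚ)) = rp w := by
    rw [(H38T1.mem_iff_eq h3).1 h4, Ideal.absNorm_apply, Submodule.cardQuot_apply]
  rw [h2] at h1
  exact h1

theorem par_q {K : Type} [Field K] [NumberField K] (hodd : Odd (Module.finrank ℚ K)) {q : ℕ}
    (hq : q.Prime) (h2 : q ≠ 2)
    (hun : ∀ v : HeightOneSpectrum (𝓞 K), rp v = q → v.asIdeal.ramificationIdx ℤ = 1)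
    (hqd : ¬ (q : ℤ) ∣ NumberField.discr K) :
    jacobiSym (NumberField.discr K) q = (-1) ^ ((ov K {q}).ncard + 1) := by
  obtain ⟨L, hF, hN, hL, -, -, -⟩ := exists_bigL K ∅ ∅
  obtain ⟨δ, hδ⟩ := exists_del hL
  obtain ⟨w, hw⟩ := H38T1.exists_above (K := L) hq
  have hrw : rp w = q := (H38T1.mem_iff_eq hq).1 hw
  obtain ⟨φ, hφ⟩ := Fa_frob hL.gal w
  generalize hΔ : NumberField.discr K = Δ at *
  have hk : (ov K {q}).ncard =
      Nat.card (Quotient (Equiv.Perm.SameCycle.setoid (actH K L φ))) := by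
    have h3 := count_places hL hφ (by rw [hrw]; exact hun)
    rwa [hrw] at h3
  generalize hkk : (ov K {q}).ncard = k at *
  have hs : ((Equiv.Perm.sign (actH K L φ) : ℤˣ) : ℤ) = (-1) ^ (k + 1) := by
    rw [sign_orbits, hL.card, ← hk]
    obtain ⟨m, hm⟩ := hodd
    rw [hm]
    push_cast
    rw [show 2 * m + 1 + k = 2 * m + (k + 1) by ring, pow_add, pow_mul]
    norm_num
  obtain ⟨d, hd⟩ : ∃ d : 𝓞 L, (d : L) = δ := ⟨⟨δ, hδ.int⟩, rfl⟩
  have h1 : φ • d = (((-1) ^ (k + 1) : ℤ) : 𝓞 L) * d := by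
    apply FaithfulSMul.algebraMap_injective (𝓞 L) L
    have h3 := hδ.act φ
    rw [hs, ← hd] at h3
    rw [map_mul, map_intCast]
    exact h3
  have hd2 : d ^ 2 = (Δ : 𝓞 L) := by
    apply FaithfulSMul.algebraMap_injective (𝓞 L) L
    rw [map_pow, map_intCast]
    have h3 := hδ.sq
    rw [← hd] at h3
    exact h3
  have hdn : d ∉ w.asIdeal := by
    intro h
    have h3 : (Δ : 𝓞 L) ∈ w.asIdeal := by
      rw [← hd2, pow_two]
      exact Ideal.mul_mem_left _ _ h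
    rw [H38T1.mem_iff_int, hrw] at h3
    exact hqd h3
  have hq2 : q = 2 * (q / 2) + 1 := by
    have := hq.eq_two_or_odd
    omega
  have h3 : d ^ q = ((Δ ^ (q / 2) : ℤ) : 𝓞 L) * d := by
    conv_lhs => rw [hq2]
    rw [pow_succ, pow_mul, hd2]
    push_cast
    rfl
  have h4 := hφ d
  rw [h1, hrw, h3, ← sub_mul, ← Int.cast_sub] at h4
  have h5 := (w.isPrime.mem_or_mem h4).resolve_right hdn
  rw [H38T1.mem_iff_int, hrw] at h5
  have hFq : Fact q.Prime := ⟨hq⟩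
  have h6 := legendreSym.eq_pow q Δ
  rw [← jacobiSym.legendreSym.to_jacobiSym]
  have h7 : (q : ℤ) ∣ (-1) ^ (k + 1) - legendreSym q Δ := by
    rw [← ZMod.intCast_zmod_eq_zero_iff_dvd] at h5 ⊢
    push_cast at h5 ⊢
    rw [h6]
    exact h5
  have h8 : legendreSym q Δ = 1 ∨ legendreSym q Δ = -1 := by
    apply legendreSym.eq_one_or_neg_one
    rw [Ne, ZMod.intCast_zmod_eq_zero_iff_dvd]
    exact hqd
  have h9 : ((-1 : ℤ)) ^ (k + 1) = 1 ∨ ((-1 : ℤ)) ^ (k + 1) = -1 := neg_one_pow_eq_or ℤ (k + 1)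
  have hq3 : 3 ≤ q := by
    have := hq.two_le
    omega
  have hq3' : (3 : ℤ) ≤ q := by exact_mod_cast hq3
  rcases h8 with h8 | h8 <;> rcases h9 with h9 | h9 <;> rw [h8, h9] at h7 ⊢
  · have := Int.le_of_dvd (by norm_num) ((Int.dvd_neg).2 h7)
    omega
  · have := Int.le_of_dvd (by norm_num) h7
    omega

end H88T7
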