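import Mathlib

/-!
ROW Fc (project MP_78d38b_T7, about 190 lines): a squarefree sieve.

PROOF. `b t = β₀ + M t`, `d t = a^2 - 64 b t = (a^2 - 64 β₀) - 64 M t`, `f t = b t * d t`. Let `T` be large; we show that at least `T / 2` of the
integers `0 ≤ t < T` have `f t` squarefree and nonzero.
(1) If a prime `q ∣ M` divides `f t` then it divides `β₀ (a^2 - 64 β₀)` (`f t ≡ f 0` modulo `M`), against `hM`.
(2) Let `q ∤ M` be a prime with `q^2 ∣ f t`. `q ≥ 7` (`2, 3, 5 ∣ M`). If `q` divides both `b t` and `d t` then `q ∣ a^2`, `q ∣ a`, so `q ∣ M` (`ha`), a contradiction;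
so `q^2 ∣ b t` or `q^2 ∣ d t`. For each of the two there is one residue class of `t` modulo `q^2` (`M`, `64 M` are prime to `q`), so there are at most
`T / q^2 + 1` such `t` in `[0, T)`.
(3) If moreover `b t ≠ 0`, `d t ≠ 0` then `q^2 ≤ C T`, `C = 64 (|β₀| + M) + a^2` (`|b t|, |d t| ≤ C T` for `T ≥ 1`), so `q ≤ √(C T)`. At most two `t` have
`b t = 0` or `d t = 0`.
(4) The number of bad `t` is at most `2 + ∑_{7 ≤ q ≤ √(C T)} 2 (T / q^2 + 1) ≤ 2 + 2 T ∑_{m ≥ 7} 1 / m^2 + 2 √(C T) ≤ 2 + T / 3 + 2 √(C T)`, since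
`∑_{m ≥ 7} 1 / m^2 ≤ ∑ (1 / (m-1) - 1 / m) = 1 / 6` (telescoping, for finite sums over all integers `m` from `7` to `Q`). For large `T`
this is `< T / 2`. So there are more than `T / 2` good `t < T`, for all large `T`: infinitely many. (`Squarefree` of an integer `x ≠ 0`: no prime
`q` with `q^2 ∣ x`: `Int.squarefree_natAbs`, `Nat.squarefree_iff_prime_squarefree`.)
-/

set_option autoImplicit false
open scoped Classical

namespace H88T7

/-- a residue class has few members in an interval -/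
theorem Fc_class {n : ℕ} (hn : 0 < n) {e c : ℤ} (hc : IsCoprime (n : ℤ) c) (T : ℕ) :
    ((Finset.range T).filter (fun t : ℕ => (n : ℤ) ∣ e + c * t)).card ≤ T / n + 1 := by
  have h : ((Finset.range T).filter (fun t : ℕ => (n : ℤ) ∣ e + c * t)).card ≤
      (Finset.range (T / n + 1)).card := by
    apply Finset.card_le_card_of_injOn (fun t => t / n)
    · intro t ht
      simp only [Finset.coe_filter, Finset.mem_range, Set.mem_ofPred_eq] at ht
      simp only [Finset.coe_range, Set.mem_Iio]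
      exact Nat.lt_succ_of_le (Nat.div_le_div_right ht.1.le)
    · intro t ht t' ht' h
      simp only [Finset.coe_filter, Finset.mem_range, Set.mem_ofPred_eq] at ht ht'
      have h' : t / n = t' / n := h
      have h1 : (n : ℤ) ∣ c * ((t : ℤ) - t') := by
        have := dvd_sub ht.2 ht'.2
        rwa [show e + c * (t : ℤ) - (e + c * (t' : ℤ)) = c * ((t : ℤ) - t') by ring] at this
      have h2 : (n : ℤ) ∣ (t : ℤ) - t' := hc.dvd_of_dvd_mul_left h1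
      have h3 : t % n = t' % n := by
        have h4 : (t' : ℤ) ≡ t [ZMOD n] := (Int.modEq_iff_dvd).2 h2
        exact ((Int.natCast_modEq_iff).1 h4).symm
      rw [← Nat.div_add_mod t n, ← Nat.div_add_mod t' n, h', h3]
  rwa [Finset.card_range] at h

theorem Fc_sum (N : ℕ) (hN : 7 ≤ N) :
    ∑ m ∈ Finset.Ico 7 N, (1 : ℝ) / (m : ℝ) ^ 2 ≤ 1 / 6 - 1 / ((N : ℝ) - 1) := by
  induction N, hN using Nat.le_induction with
  | base =>
    rw [Finset.Ico_self, Finset.sum_empty]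
    norm_num
  | succ n hn ih =>
    rw [Finset.sum_Ico_succ_top hn]
    have h1 : (7 : ℝ) ≤ (n : ℝ) := by exact_mod_cast hn
    have h2 : (1 : ℝ) / (n : ℝ) ^ 2 ≤ 1 / ((n : ℝ) - 1) - 1 / (((n + 1 : ℕ) : ℝ) - 1) := by
      push_cast
      rw [show (n : ℝ) + 1 - 1 = n by ring, div_sub_div _ _ (by linarith) (by linarith),
        div_le_div_iff₀ (by positivity) (by nlinarith)]
      nlinarith
    linarith

theorem Fc_bad {a b M : ℤ} {t : ℕ} {β₀ : ℤ} (hb : b = β₀ + M * t) (h2 : (2 : ℤ) ∣ M) (h3 : (3 : ℤ) ∣ M)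
    (h5 : (5 : ℤ) ∣ M) (ha : ∀ q : ℕ, q.Prime → (q : ℤ) ∣ a → (q : ℤ) ∣ M)
    (hM : ∀ q : ℕ, q.Prime → (q : ℤ) ∣ M → ¬ (q : ℤ) ∣ β₀ * (a ^ 2 - 64 * β₀))
    (hns : ¬ Squarefree (b * (a ^ 2 - 64 * b))) (hb0 : b ≠ 0) (hd0 : a ^ 2 - 64 * b ≠ 0) :
    ∃ q : ℕ, q.Prime ∧ 7 ≤ q ∧ IsCoprime (q : ℤ) M ∧
      (((q ^ 2 : ℕ) : ℤ) ∣ b ∨ ((q ^ 2 : ℕ) : ℤ) ∣ a ^ 2 - 64 * b) := by
  rw [← Int.squarefree_natAbs, Nat.squarefree_iff_prime_squarefree] at hns
  push Not at hns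
  obtain ⟨q, hq, hqd⟩ := hns
  have hqd' : ((q : ℤ) * q) ∣ b * (a ^ 2 - 64 * b) := by
    have := Int.natCast_dvd.2 hqd
    push_cast at this
    exact this
  have hqZ : Prime (q : ℤ) := Nat.prime_iff_prime_int.1 hq
  have hqM : ¬ (q : ℤ) ∣ M := by
    intro h
    apply hM q hq h
    have h6 : (q : ℤ) ∣ b * (a ^ 2 - 64 * b) := (dvd_mul_right _ _).trans hqd'
    have h7 : b * (a ^ 2 - 64 * b) - β₀ * (a ^ 2 - 64 * β₀) =
        M * (t * (a ^ 2 - 64 * (β₀ + M * t)) - 64 * β₀ * t) := by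
      rw [hb]; ring
    have h8 : (q : ℤ) ∣ b * (a ^ 2 - 64 * b) - β₀ * (a ^ 2 - 64 * β₀) := by
      rw [h7]; exact h.mul_right _
    exact (dvd_sub_right h6).1 h8
  have hcop : IsCoprime (q : ℤ) M := (Prime.coprime_iff_not_dvd hqZ).2 hqM
  refine ⟨q, hq, ?_, hcop, ?_⟩
  · by_contra hlt
    push Not at hlt
    have hq2 := hq.two_le
    interval_cases q
    · exact hqM h2
    · exact hqM h3
    · exact absurd hq (by norm_num)
    · exact hqM h5
    · exact absurd hq (by norm_num)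
  · have hcast : ((q ^ 2 : ℕ) : ℤ) = (q : ℤ) * q := by push_cast; ring
    rw [hcast]
    by_cases h6 : (q : ℤ) ∣ b
    · by_cases h7 : (q : ℤ) ∣ a ^ 2 - 64 * b
      · exfalso
        have h8 : (q : ℤ) ∣ a ^ 2 := by
          have := dvd_add h7 (h6.mul_left 64)
          rwa [show a ^ 2 - 64 * b + 64 * b = a ^ 2 by ring] at this
        exact hqM (ha q hq (hqZ.dvd_of_dvd_pow h8))
      · left
        have h8 : IsCoprime ((q : ℤ) * q) (a ^ 2 - 64 * b) :=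
          IsCoprime.mul_left ((Prime.coprime_iff_not_dvd hqZ).2 h7) ((Prime.coprime_iff_not_dvd hqZ).2 h7)
        exact h8.dvd_of_dvd_mul_right hqd'
    · right
      have h8 : IsCoprime ((q : ℤ) * q) b :=
        IsCoprime.mul_left ((Prime.coprime_iff_not_dvd hqZ).2 h6) ((Prime.coprime_iff_not_dvd hqZ).2 h6)
      exact h8.dvd_of_dvd_mul_left hqd'

theorem Fc_le {q C T : ℕ} {x : ℤ} (hx : x ≠ 0) (hd : ((q ^ 2 : ℕ) : ℤ) ∣ x)
    (hxC : |x| ≤ (C : ℤ) * T) : q ≤ Nat.sqrt (C * T) := by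
  rw [Nat.le_sqrt]
  have h1 : ((q ^ 2 : ℕ) : ℤ) ≤ |x| := Int.le_of_dvd (abs_pos.2 hx) ((dvd_abs _ _).2 hd)
  have h2 : ((q ^ 2 : ℕ) : ℤ) ≤ ((C * T : ℕ) : ℤ) := by push_cast at h1 hxC ⊢; linarith
  have h3 : q ^ 2 ≤ C * T := by exact_mod_cast h2
  nlinarith

theorem Fc_zero {c e : ℤ} (hc : c ≠ 0) (T : ℕ) :
    ((Finset.range T).filter (fun t : ℕ => e + c * t = 0)).card ≤ 1 := by
  rw [Finset.card_le_one]
  intro t ht t' ht'
  have h1 := (Finset.mem_filter.1 ht).2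
  have h2 := (Finset.mem_filter.1 ht').2
  have h3 : c * ((t : ℤ) - t') = 0 := by linear_combination h1 - h2
  have h4 : (t : ℤ) - t' = 0 := (mul_eq_zero.1 h3).resolve_left hc
  omega

theorem sieve {a β₀ M : ℤ} (hM0 : 0 < M) (h2 : (2 : ℤ) ∣ M) (h3 : (3 : ℤ) ∣ M) (h5 : (5 : ℤ) ∣ M)
    (ha : ∀ q : ℕ, q.Prime → (q : ℤ) ∣ a → (q : ℤ) ∣ M)
    (hM : ∀ q : ℕ, q.Prime → (q : ℤ) ∣ M → ¬ (q : ℤ) ∣ β₀ * (a ^ 2 - 64 * β₀)) :
    {t : ℕ | Squarefree ((β₀ + M * t) * (a ^ 2 - 64 * (β₀ + M * t)))}.Infinite := by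
  intro hfin
  set S : Set ℕ := {t : ℕ | Squarefree ((β₀ + M * t) * (a ^ 2 - 64 * (β₀ + M * t)))} with hS
  obtain ⟨Kc, hKc⟩ : ∃ Kc : ℕ, Kc = hfin.toFinset.card := ⟨_, rfl⟩
  obtain ⟨C, hC⟩ : ∃ C : ℕ, (C : ℤ) = 64 * (|β₀| + M) + a ^ 2 := by
    refine ⟨(64 * (|β₀| + M) + a ^ 2).toNat, ?_⟩
    rw [Int.toNat_of_nonneg]
    positivity
  obtain ⟨T, hT⟩ : ∃ T : ℕ, T = 3 * (Kc + 3 + 4 * C) := ⟨_, rfl⟩
  set Q : ℕ := Nat.sqrt (C * T) with hQ
  have hT1 : (1 : ℤ) ≤ T := by rw [hT]; push_cast; nlinarith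
  have hT1' : 1 ≤ T := by omega
  have hC0 : (0 : ℤ) ≤ C := by positivity
  set U : ℕ → Finset ℕ := fun m => if IsCoprime (m : ℤ) M then
    (Finset.range T).filter (fun t : ℕ => ((m ^ 2 : ℕ) : ℤ) ∣ β₀ + M * t) ∪
    (Finset.range T).filter (fun t : ℕ => ((m ^ 2 : ℕ) : ℤ) ∣ (a ^ 2 - 64 * β₀) + (-64 * M) * t)
    else ∅ with hU
  have hUcard : ∀ m ∈ Finset.Ico 7 (Q + 1), (U m).card ≤ 2 * (T / m ^ 2 + 1) := by
    intro m hm
    rw [Finset.mem_Ico] at hm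
    simp only [hU]
    split_ifs with hcop
    · have hm2 : 0 < m ^ 2 := pow_pos (by omega) 2
      have c1 : IsCoprime ((m ^ 2 : ℕ) : ℤ) M := by
        push_cast
        exact hcop.pow_left
      have c2 : IsCoprime ((m ^ 2 : ℕ) : ℤ) (-64 * M) := by
        have e1 : IsCoprime ((m ^ 2 : ℕ) : ℤ) 2 := c1.of_isCoprime_of_dvd_right h2
        have e2 : IsCoprime ((m ^ 2 : ℕ) : ℤ) (64 : ℤ) := by
          have := e1.pow_right (n := 6)
          norm_num at this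
          exact_mod_cast this
        have e3 : IsCoprime ((m ^ 2 : ℕ) : ℤ) (-64 : ℤ) := e2.neg_right
        exact e3.mul_right c1
      have d1 := Fc_class hm2 (e := β₀) c1 T
      have d2 := Fc_class hm2 (e := a ^ 2 - 64 * β₀) c2 T
      refine (Finset.card_union_le _ _).trans ?_
      omega
    · rw [Finset.card_empty]
      exact Nat.zero_le _
  have hcov : Finset.range T ⊆ ((hfin.toFinset ∪
      ((Finset.range T).filter (fun t : ℕ => β₀ + M * t = 0))) ∪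
      ((Finset.range T).filter (fun t : ℕ => (a ^ 2 - 64 * β₀) + (-64 * M) * t = 0))) ∪
      (Finset.Ico 7 (Q + 1)).biUnion U := by
    intro t ht
    have htT := Finset.mem_range.1 ht
    have htT' : (t : ℤ) ≤ T := by exact_mod_cast htT.le
    have ht0 : (0 : ℤ) ≤ t := by positivity
    by_cases hs : t ∈ S
    · exact Finset.mem_union_left _ (Finset.mem_union_left _ (Finset.mem_union_left _
        ((Set.Finite.mem_toFinset hfin).2 hs)))
    by_cases hb0 : β₀ + M * (t : ℤ) = 0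
    · exact Finset.mem_union_left _ (Finset.mem_union_left _ (Finset.mem_union_right _
        (Finset.mem_filter.2 ⟨ht, hb0⟩)))
    have hdeq : a ^ 2 - 64 * (β₀ + M * (t : ℤ)) = (a ^ 2 - 64 * β₀) + (-64 * M) * t := by ring
    by_cases hd0 : (a ^ 2 - 64 * β₀) + (-64 * M) * (t : ℤ) = 0
    · exact Finset.mem_union_left _ (Finset.mem_union_right _ (Finset.mem_filter.2 ⟨ht, hd0⟩))
    refine Finset.mem_union_right _ ?_
    have hd0' : a ^ 2 - 64 * (β₀ + M * (t : ℤ)) ≠ 0 := by rw [hdeq]; exact hd0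
    obtain ⟨q, hq, hq7, hcop, hor⟩ := Fc_bad (t := t) rfl h2 h3 h5 ha hM hs hb0 hd0'
    have hβ := abs_nonneg β₀
    have hβ1 := neg_abs_le β₀
    have hβ2 := le_abs_self β₀
    have hMt : M * (t : ℤ) ≤ M * T := mul_le_mul_of_nonneg_left htT' hM0.le
    have hMt0 : 0 ≤ M * (t : ℤ) := by positivity
    have hβT : |β₀| ≤ |β₀| * T := by nlinarith
    have ha2 : a ^ 2 ≤ a ^ 2 * T := by nlinarith [sq_nonneg a]
    have hbC : |β₀ + M * (t : ℤ)| ≤ (C : ℤ) * T := by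
      rw [hC, abs_le]
      constructor <;> nlinarith [sq_nonneg a]
    have hdC : |a ^ 2 - 64 * (β₀ + M * (t : ℤ))| ≤ (C : ℤ) * T := by
      rw [hC, abs_le]
      constructor <;> nlinarith [sq_nonneg a]
    have hqQ : q ≤ Q := by
      rcases hor with h | h
      · exact Fc_le hb0 h hbC
      · exact Fc_le hd0' h hdC
    rw [Finset.mem_biUnion]
    refine ⟨q, Finset.mem_Ico.2 ⟨hq7, by omega⟩, ?_⟩
    simp only [hU]
    rw [if_pos hcop, Finset.mem_union]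
    rcases hor with h | h
    · exact Or.inl (Finset.mem_filter.2 ⟨ht, h⟩)
    · refine Or.inr (Finset.mem_filter.2 ⟨ht, ?_⟩)
      rw [← hdeq]
      exact h
  have hz1 := Fc_zero (c := M) (e := β₀) hM0.ne' T
  have hz2 := Fc_zero (c := -64 * M) (e := a ^ 2 - 64 * β₀) (by omega) T
  have hcard : T ≤ Kc + 1 + 1 + ∑ m ∈ Finset.Ico 7 (Q + 1), 2 * (T / m ^ 2 + 1) := by
    have h1 := Finset.card_le_card hcov
    rw [Finset.card_range] at h1
    refine h1.trans ((Finset.card_union_le _ _).trans (add_le_add ?_ ?_))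
    · refine (Finset.card_union_le _ _).trans (add_le_add ?_ hz2)
      refine (Finset.card_union_le _ _).trans (add_le_add (by rw [hKc]) hz1)
    · exact Finset.card_biUnion_le.trans (Finset.sum_le_sum hUcard)
  have hcardR : (T : ℝ) ≤ Kc + 2 + ∑ m ∈ Finset.Ico 7 (Q + 1), (2 * ((T : ℝ) * (1 / (m : ℝ) ^ 2)) + 2) := by
    have h1 : (T : ℝ) ≤ ((Kc + 1 + 1 + ∑ m ∈ Finset.Ico 7 (Q + 1), 2 * (T / m ^ 2 + 1) : ℕ) : ℝ) := by
      exact_mod_cast hcard
    refine h1.trans ?_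
    push_cast
    have h4 : ∑ m ∈ Finset.Ico 7 (Q + 1), 2 * (((T / m ^ 2 : ℕ) : ℝ) + 1) ≤
        ∑ m ∈ Finset.Ico 7 (Q + 1), (2 * ((T : ℝ) * (1 / (m : ℝ) ^ 2)) + 2) := by
      refine Finset.sum_le_sum fun m _ => ?_
      have h6 : ((T / m ^ 2 : ℕ) : ℝ) ≤ (T : ℝ) / ((m ^ 2 : ℕ) : ℝ) := Nat.cast_div_le
      push_cast at h6
      rw [div_eq_mul_one_div] at h6
      linarith
    push_cast at h4
    linarith
  rw [Finset.sum_add_distrib, ← Finset.mul_sum, ← Finset.mul_sum, Finset.sum_const, Nat.card_Ico,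
    nsmul_eq_mul] at hcardR
  have hsum : ∑ m ∈ Finset.Ico 7 (Q + 1), (1 : ℝ) / (m : ℝ) ^ 2 ≤ 1 / 6 := by
    by_cases h7 : 7 ≤ Q + 1
    · have h8 := Fc_sum (Q + 1) h7
      have h9 : (0 : ℝ) ≤ 1 / (((Q + 1 : ℕ) : ℝ) - 1) := by
        push_cast
        rw [add_sub_cancel_right]
        positivity
      linarith
    · rw [Finset.Ico_eq_empty (by omega), Finset.sum_empty]
      norm_num
  have hQc : ((Q + 1 - 7 : ℕ) : ℝ) ≤ (Q : ℝ) := by exact_mod_cast (by omega : Q + 1 - 7 ≤ Q)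
  have hQ2 : (Q : ℝ) * Q ≤ (C : ℝ) * T := by
    have h1 : Q * Q ≤ C * T := Nat.sqrt_le _
    exact_mod_cast h1
  have hTr : (T : ℝ) = 3 * (Kc + 3 + 4 * C) := by
    rw [hT]
    push_cast
    ring
  have hT0 : (0 : ℝ) ≤ T := Nat.cast_nonneg _
  have hCr : (0 : ℝ) ≤ C := Nat.cast_nonneg _
  have hKr : (0 : ℝ) ≤ Kc := Nat.cast_nonneg _
  have hQle : (Q : ℝ) ≤ (T : ℝ) / 8 + 2 * C := by
    by_contra hcon
    push Not at hcon
    have h1 : ((T : ℝ) / 8 + 2 * C) * ((T : ℝ) / 8 + 2 * C) < (Q : ℝ) * Q :=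
      mul_self_lt_mul_self (by positivity) hcon
    nlinarith [sq_nonneg ((T : ℝ) / 8 - 2 * C)]
  have hTs : (T : ℝ) * ∑ m ∈ Finset.Ico 7 (Q + 1), (1 : ℝ) / (m : ℝ) ^ 2 ≤ (T : ℝ) * (1 / 6) :=
    mul_le_mul_of_nonneg_left hsum hT0
  nlinarith

end H88T7
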