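import Mathlib

/-!
ROW Fd (project MP_78d38b_T7, about 150 lines): the Jacobi symbol of the discriminant.

PROOF. `D = a^2 - 64 β < 0`, `0 < β`, `m = (β D).natAbs = - β D`, odd. `a^2 ≡ 1`, `D ≡ 1` modulo `8`, so `β D ≡ 1`, `m ≡ 7 mod 8`. The Jacobi symbol is
multiplicative in `Δ` (`jacobiSym.mul_left`), `Δ = sign Δ * |Δ|`, `|Δ| = ∏ l^k` over primes (induction: `Nat.recOnMul`/`induction_on_primes`
over the positive integers `x` all of whose prime divisors divide `Δ`: `jacobiSym x m = 1`).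
* `jacobiSym (-1) m = -1` (`jacobiSym.at_neg_one`, `χ₄ m = -1` as `m ≡ 3 mod 4`), so `jacobiSym (sign Δ) m = sign Δ`.
* `jacobiSym 2 m = 1` (`jacobiSym.at_two`, `χ₈ m = 1` as `m ≡ 7 mod 8`).
* an odd prime `l ∣ Δ`: quadratic reciprocity (`jacobiSym.quadratic_reciprocity`): `J(l | m) = (-1)^((l/2)(m/2)) J(m | l)`, `m / 2` is odd, and
 `J(-1 | l) = (-1)^(l/2)` (`jacobiSym.at_neg_one`, `ZMod.χ₄_eq_neg_one_pow`): `J(l | m) = J(-m | l) = J(β D | l)`.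
 If `l ≠ 3`: `β ≡ 1`, `a ≡ 10` modulo `l`: `β D ≡ 100 - 64 = 36 = 6^2` modulo `l`, `l ∤ 6`: `J(36 | l) = 1` (`jacobiSym.mod_left`, `jacobiSym.sq_one`).
 If `l = 3`: `a ≡ 1`, `β ≡ 2`: `β D ≡ 2 (1 - 64 * 2) = 2 * (-127) ≡ 2 * 2 = 4 ≡ 1` modulo `3`: `J(1 | 3) = 1`.
-/

set_option autoImplicit false
open scoped Classical

namespace H88T7

theorem Fd_N8 {a β : ℤ} (ha8 : a % 8 = 1) (hb8 : β % 8 = 1) :
    (β * (a ^ 2 - 64 * β)) % 8 = 1 := by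
  have h1 : a ≡ 1 [ZMOD 8] := ha8
  have h2 : β ≡ 1 [ZMOD 8] := hb8
  have h3 : β * (a ^ 2 - 64 * β) ≡ 1 * (1 ^ 2 - 64 * 1) [ZMOD 8] :=
    h2.mul ((h1.pow 2).sub (h2.mul_left 64))
  have h4 : (1 * (1 ^ 2 - 64 * 1) : ℤ) ≡ 1 [ZMOD 8] := by decide
  exact h3.trans h4

theorem Fd_N3 {a β : ℤ} (ha3 : a % 3 = 1) (hb3 : β % 3 = 2) :
    (β * (a ^ 2 - 64 * β)) % 3 = 1 := by
  have h1 : a ≡ 1 [ZMOD 3] := ha3
  have h2 : β ≡ 2 [ZMOD 3] := hb3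
  have h3 : β * (a ^ 2 - 64 * β) ≡ 2 * (1 ^ 2 - 64 * 2) [ZMOD 3] :=
    h2.mul ((h1.pow 2).sub (h2.mul_left 64))
  have h4 : (2 * (1 ^ 2 - 64 * 2) : ℤ) ≡ 1 [ZMOD 3] := by decide
  exact h3.trans h4

theorem Fd_Nl {a β l : ℤ} (ha : l ∣ a - 10) (hb : l ∣ β - 1) :
    (β * (a ^ 2 - 64 * β)) ≡ 6 ^ 2 [ZMOD l] := by
  have h1 : a ≡ 10 [ZMOD l] := (Int.modEq_iff_dvd.2 ha).symm
  have h2 : β ≡ 1 [ZMOD l] := (Int.modEq_iff_dvd.2 hb).symm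
  have h3 : β * (a ^ 2 - 64 * β) ≡ 1 * (10 ^ 2 - 64 * 1) [ZMOD l] :=
    h2.mul ((h1.pow 2).sub (h2.mul_left 64))
  have h4 : (1 * (10 ^ 2 - 64 * 1) : ℤ) = 6 ^ 2 := by norm_num
  rw [h4] at h3
  exact h3

theorem Fd_rec {N : ℤ} {m l : ℕ} (hm : (m : ℤ) = -N) (hm8 : m % 8 = 7) (hl : l.Prime)
    (hl2 : l ≠ 2) : jacobiSym (l : ℤ) m = jacobiSym N l := by
  have hlo : Odd l := hl.odd_of_ne_two hl2
  have hmo : Odd m := by
    rw [Nat.odd_iff]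
    omega
  rw [jacobiSym.quadratic_reciprocity hlo hmo]
  have h1 : (-1 : ℤ) ^ (l / 2 * (m / 2)) = jacobiSym (-1) l := by
    rw [jacobiSym.at_neg_one hlo, ZMod.χ₄_eq_neg_one_pow (Nat.odd_iff.1 hlo)]
    have h2 : Odd (m / 2) := by
      rw [Nat.odd_iff]
      omega
    rw [mul_comm, pow_mul, h2.neg_one_pow]
  rw [h1, ← jacobiSym.mul_left, hm]
  congr 1
  ring

theorem Fd_prime {Δ a β : ℤ} (ha3 : a % 3 = 1) (hb3 : β % 3 = 2)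
    (h : ∀ l : ℕ, l.Prime → (l : ℤ) ∣ Δ → l ≠ 2 → l ≠ 3 → (l : ℤ) ∣ a - 10 ∧ (l : ℤ) ∣ β - 1)
    {m : ℕ} (hm : (m : ℤ) = -(β * (a ^ 2 - 64 * β))) (hm8 : m % 8 = 7) {l : ℕ} (hl : l.Prime)
    (hd : (l : ℤ) ∣ Δ) : jacobiSym (l : ℤ) m = 1 := by
  have hmo : Odd m := by
    rw [Nat.odd_iff]
    omega
  by_cases hl2 : l = 2
  · rw [hl2]
    show jacobiSym ((2 : ℕ) : ℤ) m = 1
    have h1 : ((2 : ℕ) : ℤ) = 2 := rfl
    rw [h1, jacobiSym.at_two hmo, ZMod.χ₈_nat_eq_if_mod_eight, if_neg (by omega),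
      if_pos (Or.inr hm8)]
  rw [Fd_rec hm hm8 hl hl2]
  by_cases hl3 : l = 3
  · rw [hl3]
    have h1 : (β * (a ^ 2 - 64 * β)) % ((3 : ℕ) : ℤ) = 1 % ((3 : ℕ) : ℤ) := by
      show (β * (a ^ 2 - 64 * β)) % 3 = 1 % 3
      rw [Fd_N3 ha3 hb3]
      rfl
    rw [jacobiSym.mod_left' h1, jacobiSym.one_left]
  · obtain ⟨h1, h2⟩ := h l hl hd hl2 hl3
    rw [jacobiSym.mod_left' (Fd_Nl h1 h2)]
    apply jacobiSym.sq_one'
    have h3 : Nat.Coprime 6 l := by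
      have e1 : Nat.Coprime 2 l := (Nat.coprime_primes Nat.prime_two hl).2 (Ne.symm hl2)
      have e2 : Nat.Coprime 3 l := (Nat.coprime_primes Nat.prime_three hl).2 (Ne.symm hl3)
      have e3 : (6 : ℕ) = 2 * 3 := rfl
      rw [e3]
      exact Nat.Coprime.mul_left e1 e2
    exact h3

theorem jac_disc {Δ a β : ℤ} (hΔ : Δ ≠ 0) (ha8 : a % 8 = 1) (hb8 : β % 8 = 1)
    (hpos : a ^ 2 < 64 * β) (ha3 : a % 3 = 1) (hb3 : β % 3 = 2)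
    (h : ∀ l : ℕ, l.Prime → (l : ℤ) ∣ Δ → l ≠ 2 → l ≠ 3 → (l : ℤ) ∣ a - 10 ∧ (l : ℤ) ∣ β - 1) :
    jacobiSym Δ (β * (a ^ 2 - 64 * β)).natAbs = Δ.sign := by
  obtain ⟨N, hN⟩ : ∃ N, N = β * (a ^ 2 - 64 * β) := ⟨_, rfl⟩
  obtain ⟨m, hm⟩ : ∃ m, m = N.natAbs := ⟨_, rfl⟩
  rw [← hN, ← hm]
  have hβ : 0 < β := by nlinarith [sq_nonneg a]
  have hNneg : N < 0 := by
    rw [hN]
    exact mul_neg_of_pos_of_neg hβ (by linarith)
  have hmN : (m : ℤ) = -N := by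
    rw [hm]
    omega
  have hN8 : N % 8 = 1 := by
    rw [hN]
    exact Fd_N8 ha8 hb8
  have hm8 : m % 8 = 7 := by omega
  have hmo : Odd m := by
    rw [Nat.odd_iff]
    omega
  have key : ∀ x : ℕ, x ≠ 0 → (∀ l : ℕ, l.Prime → l ∣ x → (l : ℤ) ∣ Δ) →
      jacobiSym (x : ℤ) m = 1 := by
    intro x
    induction x using induction_on_primes with
    | zero => exact fun h0 _ => absurd rfl h0
    | one =>
      intro _ _
      rw [Nat.cast_one, jacobiSym.one_left]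
    | prime_mul p y hp ih =>
      intro h0 hd
      have hy : y ≠ 0 := fun hy => h0 (by rw [hy, mul_zero])
      rw [Nat.cast_mul, jacobiSym.mul_left,
        ih hy (fun l hl hly => hd l hl (hly.mul_left p)),
        Fd_prime ha3 hb3 h (by rw [hmN, hN]) hm8 hp (hd p hp (dvd_mul_right p y)),
        one_mul]
  have h1 : jacobiSym (Δ.natAbs : ℤ) m = 1 := by
    apply key _ (Int.natAbs_ne_zero.2 hΔ)
    intro l _ hl
    exact Int.natCast_dvd.2 hl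
  have h2 : jacobiSym Δ m = jacobiSym Δ.sign m * jacobiSym (Δ.natAbs : ℤ) m := by
    rw [← jacobiSym.mul_left, Int.sign_mul_natAbs]
  rw [h2, h1, mul_one]
  rcases lt_or_gt_of_ne hΔ with h3 | h3
  · rw [Int.sign_eq_neg_one_of_neg h3, jacobiSym.at_neg_one hmo,
      ZMod.χ₄_nat_three_mod_four (by omega)]
  · rw [Int.sign_eq_one_of_pos h3, jacobiSym.one_left]

end H88T7
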