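import Pool.Agent.H88.T7.Ah
import Pool.Agent.H88.T7.Ag
import Pool.Agent.H88.T7.Gw

/-!
Definitions for the algorithm (project MP_78d38b_T7); no row.
-/

set_option autoImplicit false
set_option linter.unusedSectionVars false
open scoped Classical

open WithZero NumberField IsDedekindDomain H38RT
open H38T1 (SC sc rep eo la si Pri OddP LD XX XX' NS ov rp SqMod)

namespace H88T7

/-- The part of norm zero of the first group. -/
def XW (K : Type) [Field K] [NumberField K] (a β : ℤ) (Pp Pp' : Finset ℕ) : Set (SC K) :=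
  {c | c ∈ XX (L7 K a β Pp Pp') ∧ nm K c = 0}

/-- The places of the local conditions. -/
noncomputable def PP (K : Type) [Field K] [NumberField K] (a β : ℤ) (Pp Pp' : Finset ℕ) :
    Set (HeightOneSpectrum (𝓞 K)) :=
  (L7 K a β Pp Pp').P ∪ (L7 K a β Pp Pp').P'

/-- The parity condition. -/
def Par7 (K : Type) [Field K] [NumberField K] (a β : ℤ) : Prop :=
  Even (InfinitePlace.nrComplexPlaces K + (ov K (pd (β * (a ^ 2 - 64 * β)))).ncard +
    (pd (β * (a ^ 2 - 64 * β))).ncard)

end H88T7
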