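import Pool.Agent.H88.T7.Fa
import Pool.Agent.H88.T7.Mv

/-!
ROW Fe (project MP_78d38b_T7, about 130 lines): the parity condition from the Jacobi symbol.

PROOF. `Δ = discr K`, `x = β (a^2 - 64 β)`, `m = x.natAbs` squarefree (`hD.sqf`, `Int.squarefree_natAbs`), its prime divisors are the elements of `pd x`, not in
`B` (`hD.co`), so different from `2` (`hD.two`), not dividing `Δ` (`hdB`), and `hD.unr` gives `hun` of `par_q`. Therefore
`jacobiSym Δ m = ∏ q ∈ m.primeFactors, jacobiSym Δ q` (`m = ∏ q`, `Nat.prod_primeFactors_of_squarefree`; `jacobiSym.prod_right`-like: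
induction with `jacobiSym.mul_right`) `= (-1)^(∑ (k_q + 1))` with `k_q = (ov K {q}).ncard` (`par_q`). `∑ k_q = (ov K (pd x)).ncard` (disjoint union over
`q` of the finite sets `ov K {q}`: `H38T1.mem_ov`, `H38T1.fin_ov`, `Set.ncard` of a finite disjoint union; see the proof of `w_even` in `Mg.lean`), and the
number of the `q` is `(pd x).ncard`. `Δ.sign = (-1)^r₂` (`NumberField.sign_discr`). So `hjac` says `(-1)^((ov K (pd x)).ncard + (pd x).ncard) = (-1)^r₂`, and
the sum of the three numbers is even (`neg_one_pow_eq_one_iff_even`).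
-/

set_option autoImplicit false
set_option linter.unusedSectionVars false
open scoped Classical

open WithZero NumberField IsDedekindDomain H38RT
open H38T1 (SC sc rep eo la si Pri OddP LD XX XX' NS ov rp SqMod)

namespace H88T7

variable {K : Type} [Field K] [NumberField K] {B : Finset ℕ} {Dc : SC ℚ} {a β : ℤ}

private lemma Fe_union (F : Type) [Field F] [NumberField F] (S T : Set ℕ) :
    ov F (S ∪ T) = ov F S ∪ ov F T := by
  ext v
  constructor
  · rintro ⟨q, hq | hq, h⟩
    · exact Or.inl ⟨q, hq, h⟩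
    · exact Or.inr ⟨q, hq, h⟩
  · rintro (⟨q, hq, h⟩ | ⟨q, hq, h⟩)
    · exact ⟨q, Or.inl hq, h⟩
    · exact ⟨q, Or.inr hq, h⟩

private lemma Fe_disj (F : Type) [Field F] [NumberField F] {S T : Set ℕ} (hS : ∀ q ∈ S, q.Prime)
    (hT : ∀ q ∈ T, q.Prime) (h : Disjoint S T) : Disjoint (ov F S) (ov F T) := by
  rw [Set.disjoint_left]
  intro v hv hv'
  rw [H38T1.mem_ov hS] at hv
  rw [H38T1.mem_ov hT] at hv'
  exact (Set.disjoint_left.mp h) hv hv'

private lemma Fe_prod {F : Type} [Field F] [NumberField F] (Δ : ℤ) (T : Finset ℕ)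
    (hT : ∀ p ∈ T, p.Prime ∧ jacobiSym Δ p = (-1) ^ ((ov F {p}).ncard + 1)) :
    jacobiSym Δ (∏ p ∈ T, p) = (-1) ^ ((ov F (T : Set ℕ)).ncard + T.card) := by
  induction T using Finset.induction_on with
  | empty =>
    have h : ov F ((∅ : Finset ℕ) : Set ℕ) = ∅ := by
      ext v
      constructor
      · rintro ⟨q, hq, _⟩
        simp at hq
      · intro h
        exact absurd h (Set.notMem_empty _)
    rw [h, Set.ncard_empty, Finset.card_empty, Finset.prod_empty, jacobiSym.one_right, add_zero,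
      pow_zero]
  | insert p T hpT ih =>
    have ih' := ih fun q hq => hT q (Finset.mem_insert_of_mem hq)
    have hp := hT p (Finset.mem_insert_self _ _)
    have hprT : ∀ q ∈ (T : Set ℕ), q.Prime := fun q hq =>
      (hT q (Finset.mem_insert_of_mem hq)).1
    have hprp : ∀ q ∈ ({p} : Set ℕ), q.Prime := by
      intro q hq
      rw [Set.mem_singleton_iff] at hq
      rw [hq]
      exact hp.1
    have hd : Disjoint ({p} : Set ℕ) (T : Set ℕ) := by
      rw [Set.disjoint_singleton_left]
      exact fun h => hpT h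
    have hprod : ∏ q ∈ T, q ≠ 0 :=
      Finset.prod_ne_zero_iff.mpr fun q hq => (hprT q hq).ne_zero
    have h1 : NeZero p := ⟨hp.1.ne_zero⟩
    have h2 : NeZero (∏ q ∈ T, q) := ⟨hprod⟩
    rw [Finset.prod_insert hpT, jacobiSym.mul_right, ih', hp.2,
      Finset.coe_insert, Set.insert_eq, Fe_union, Set.ncard_union_eq (Fe_disj F hprp hprT hd)
      (H38T1.fin_ov (Set.finite_singleton p) hprp) (H38T1.fin_ov T.finite_toSet hprT),
      Finset.card_insert_of_notMem hpT, ← pow_add]
    congr 1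
    ring

theorem par_of (hD : Dat K B Dc a β)
    (hdB : ∀ q : ℕ, q.Prime → (q : ℤ) ∣ NumberField.discr K → q ∈ B)
    (hjac : jacobiSym (NumberField.discr K) (β * (a ^ 2 - 64 * β)).natAbs =
      (NumberField.discr K).sign) : Par7 K a β := by
  have hs : Squarefree (β * (a ^ 2 - 64 * β)).natAbs := Int.squarefree_natAbs.mpr hD.sqf
  have hpd : pd (β * (a ^ 2 - 64 * β)) = ((β * (a ^ 2 - 64 * β)).natAbs.primeFactors : Set ℕ) := by
    ext q
    rw [Finset.mem_coe, Nat.mem_primeFactors]
    constructor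
    · rintro ⟨h1, h2⟩
      exact ⟨h1, Int.natCast_dvd.mp h2, hs.ne_zero⟩
    · rintro ⟨h1, h2, -⟩
      exact ⟨h1, Int.natCast_dvd.mpr h2⟩
  have hT : ∀ p ∈ (β * (a ^ 2 - 64 * β)).natAbs.primeFactors, p.Prime ∧
      jacobiSym (NumberField.discr K) p = (-1) ^ ((ov K {p}).ncard + 1) := by
    intro p hp
    have h1 : p ∈ pd (β * (a ^ 2 - 64 * β)) := by
      rw [hpd]
      exact Finset.mem_coe.mpr hp
    have h2 : p ∉ B := hD.co p h1.1 h1.2
    refine ⟨h1.1, par_q hD.odd h1.1 ?_ ?_ ?_⟩
    · rintro rfl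
      exact h2 hD.two
    · intro v hv
      apply hD.unr
      rw [hv]
      exact h2
    · exact fun h => h2 (hdB p h1.1 h)
  have h := Fe_prod (F := K) (NumberField.discr K) _ hT
  rw [Nat.prod_primeFactors_of_squarefree hs, hjac, NumberField.sign_discr] at h
  unfold Par7
  rw [hpd, Set.ncard_coe_finset]
  generalize InfinitePlace.nrComplexPlaces K = r at h ⊢
  generalize (ov K ((β * (a ^ 2 - 64 * β)).natAbs.primeFactors : Set ℕ)).ncard = u at h ⊢
  generalize (β * (a ^ 2 - 64 * β)).natAbs.primeFactors.card = t at h ⊢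
  have h3 : (-1 : ℤ) ^ (r + u + t) = 1 := by
    rw [add_assoc, pow_add, h, ← pow_add, ← two_mul, pow_mul, neg_one_sq, one_pow]
  exact (neg_one_pow_eq_one_iff_even (by norm_num)).mp h3

end H88T7
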