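import Pool.Agent.H88.T7.Fc

/-!
ROW Ff (project MP_78d38b_T7, about 160 lines): the integers `a` and `β`.

PROOF. (1) Chinese remainder theorem for `a`: `a ≡ 1 mod 8`, `a ≡ 1 mod 3`, `a ≡ 10 mod l` for all `l ∈ B`, `l ≠ 2, 3` (pairwise coprime moduli). Explicitly:
let `P = ∏ l ∈ B \ {2, 3}, l`, prime to `24`; `a = 10 + P y` with `P y ≡ -9 mod 24` (`Int.emod_emod_of_dvd`, `Int.gcd`/`IsCoprime`); then `a ≡ 1 mod 24`. Note that
`5 ∈ B` gives `5 ∣ a`, so `a ≠ 0`... if `a = 0` then `a % 8 = 1` fails, so `a ≠ 0`.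
(2) `M₀ = ∏` of the primes `q ∣ a` with `q ∉ B` and of the primes of `B \ {2, 3}`; it is prime to `24`. `β₀` with `β₀ ≡ 1 mod M₀`, `β₀ ≡ 1 mod 8`, `β₀ ≡ 2 mod 3`:
`β₀ = 1 + M₀ z` with `M₀ z ≡ 16 mod 24`. (`17 ≡ 1 mod 8`, `17 ≡ 2 mod 3`.) `M = 24 M₀`: divisible by `2, 3, 5` and by all primes dividing `a`.
(3) For a prime `q ∣ M`: `q ∤ β₀ (a^2 - 64 β₀)`: `q = 2`: both factors are odd. `q = 3`: `β₀ ≡ 2`, `a^2 - 64 β₀ ≡ 1 - 2 ≡ 2`. `q ∈ B \ {2, 3}`: `β₀ ≡ 1`,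
`a^2 - 64 β₀ ≡ 100 - 64 = 36`, not divisible by `q ≥ 5`. `q ∣ a`, `q ∉ B`: `β₀ ≡ 1`, `a^2 - 64 β₀ ≡ -64`.
(4) `sieve` gives infinitely many `t` with `β (a^2 - 64 β)` squarefree for `β = β₀ + M t`; all but finitely many satisfy `a^2 < 64 β` and `β ≠ 1`; the map
`t ↦ β` is injective. `IsCoprime a β`: a prime `q` dividing both divides `M` and `β ≡ β₀ ≡ 1` modulo `q` if `q ≠ 3` (`q = 2, 3` do not divide `a`).
The congruences of `β` are those of `β₀`.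
-/

set_option autoImplicit false
open scoped Classical

namespace H88T7

theorem Ff_cop {q : ℕ} (hq : q.Prime) (h2 : q ≠ 2) (h3 : q ≠ 3) : IsCoprime (q : ℤ) 24 := by
  have h : Nat.Coprime q 24 := by
    rw [Nat.Prime.coprime_iff_not_dvd hq]
    intro hd
    have h1 : q ∣ 2 ^ 3 * 3 := by
      norm_num
      exact hd
    rcases (Nat.Prime.dvd_mul hq).1 h1 with h4 | h4
    · exact h2 ((Nat.prime_dvd_prime_iff_eq hq Nat.prime_two).1 (hq.dvd_of_dvd_pow h4))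
    · exact h3 ((Nat.prime_dvd_prime_iff_eq hq Nat.prime_three).1 h4)
  exact_mod_cast Nat.isCoprime_iff_coprime.2 h

theorem Ff_prod {Q : Finset ℕ} (hQ : ∀ q ∈ Q, q.Prime ∧ q ≠ 2 ∧ q ≠ 3) :
    0 < ∏ q ∈ Q, (q : ℤ) ∧ (∀ q ∈ Q, (q : ℤ) ∣ ∏ q ∈ Q, (q : ℤ)) ∧
      (∀ q : ℕ, q.Prime → (q : ℤ) ∣ ∏ q ∈ Q, (q : ℤ) → q ∈ Q) ∧
      ∃ u v : ℤ, u * (∏ q ∈ Q, (q : ℤ)) + v * 24 = 1 := by
  refine ⟨?_, ?_, ?_, ?_⟩
  · apply Finset.prod_pos
    intro q hq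
    exact_mod_cast (hQ q hq).1.pos
  · intro q hq
    exact Finset.dvd_prod_of_mem (fun q : ℕ => (q : ℤ)) hq
  · intro q hq hd
    obtain ⟨r, hr, hqr⟩ := (Prime.dvd_finset_prod_iff (Nat.prime_iff_prime_int.1 hq) _).1 hd
    have h1 : q ∣ r := by exact_mod_cast hqr
    rw [(Nat.prime_dvd_prime_iff_eq hq (hQ r hr).1).1 h1]
    exact hr
  · have h1 : IsCoprime (∏ q ∈ Q, (q : ℤ)) 24 := by
      apply IsCoprime.prod_left
      intro q hq
      obtain ⟨h1, h2, h3⟩ := hQ q hq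
      exact Ff_cop h1 h2 h3
    exact h1

theorem exists_ab (B : Finset ℕ) (hB : ∀ q ∈ B, q.Prime) (h2 : 2 ∈ B) (h3 : 3 ∈ B) (h5 : 5 ∈ B) :
    ∃ a : ℤ, a % 8 = 1 ∧ a % 3 = 1 ∧ (∀ l ∈ B, l ≠ 2 → l ≠ 3 → (l : ℤ) ∣ a - 10) ∧
      {β : ℤ | β % 8 = 1 ∧ β % 3 = 2 ∧ a ^ 2 < 64 * β ∧ IsCoprime a β ∧ β ≠ 1 ∧
        Squarefree (β * (a ^ 2 - 64 * β)) ∧
        ∀ l ∈ B, l ≠ 2 → l ≠ 3 → (l : ℤ) ∣ β - 1}.Infinite := by
  obtain ⟨a, ha8, ha3, haB⟩ : ∃ a : ℤ, a % 8 = 1 ∧ a % 3 = 1 ∧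
      ∀ l ∈ B, l ≠ 2 → l ≠ 3 → (l : ℤ) ∣ a - 10 := by
    obtain ⟨-, h6, -, u, v, h7⟩ := Ff_prod (Q := B.filter (fun q => q ≠ 2 ∧ q ≠ 3)) (by
      intro q hq
      rw [Finset.mem_filter] at hq
      exact ⟨hB q hq.1, hq.2⟩)
    generalize (∏ q ∈ B.filter (fun q => q ≠ 2 ∧ q ≠ 3), (q : ℤ)) = P at h6 h7
    have e : 10 + P * (u * (-9)) = 1 + 216 * v := by linear_combination -9 * h7
    refine ⟨10 + P * (u * (-9)), ?_, ?_, ?_⟩
    · rw [e]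
      omega
    · rw [e]
      omega
    · intro l hl hl2 hl3
      have h8 := h6 l (by
        rw [Finset.mem_filter]
        exact ⟨hl, hl2, hl3⟩)
      rw [add_sub_cancel_left]
      exact h8.mul_right _
  refine ⟨a, ha8, ha3, haB, ?_⟩
  have ha0 : a ≠ 0 := by
    rintro rfl
    omega
  obtain ⟨M₀, hM0, hMB, hMa, hMQ, u, v, huv⟩ : ∃ M₀ : ℤ, 0 < M₀ ∧
      (∀ q ∈ B, q ≠ 2 → q ≠ 3 → (q : ℤ) ∣ M₀) ∧
      (∀ q : ℕ, q.Prime → q ≠ 2 → q ≠ 3 → (q : ℤ) ∣ a → (q : ℤ) ∣ M₀) ∧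
      (∀ q : ℕ, q.Prime → (q : ℤ) ∣ M₀ → q ≠ 2 ∧ q ≠ 3 ∧ (q ∈ B ∨ (q : ℤ) ∣ a)) ∧
      ∃ u v : ℤ, u * M₀ + v * 24 = 1 := by
    obtain ⟨h5, h6, h7, h8⟩ := Ff_prod
      (Q := (a.natAbs.primeFactors ∪ B).filter (fun q => q ≠ 2 ∧ q ≠ 3)) (by
      intro q hq
      rw [Finset.mem_filter, Finset.mem_union] at hq
      refine ⟨?_, hq.2⟩
      rcases hq.1 with h | h
      · exact Nat.prime_of_mem_primeFactors h
      · exact hB q h)
    refine ⟨_, h5, ?_, ?_, ?_, h8⟩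
    · intro q hq hq2 hq3
      apply h6
      rw [Finset.mem_filter, Finset.mem_union]
      exact ⟨Or.inr hq, hq2, hq3⟩
    · intro q hq hq2 hq3 hqa
      apply h6
      rw [Finset.mem_filter, Finset.mem_union]
      refine ⟨Or.inl ?_, hq2, hq3⟩
      rw [Nat.mem_primeFactors]
      exact ⟨hq, Int.natCast_dvd.1 hqa, Int.natAbs_ne_zero.2 ha0⟩
    · intro q hq hd
      have h9 := h7 q hq hd
      rw [Finset.mem_filter, Finset.mem_union] at h9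
      refine ⟨h9.2.1, h9.2.2, ?_⟩
      rcases h9.1 with h | h
      · right
        exact Int.natCast_dvd.2 (Nat.dvd_of_mem_primeFactors h)
      · exact Or.inl h
  obtain ⟨β₀, hβ₀⟩ : ∃ β₀ : ℤ, β₀ = 1 + M₀ * (16 * u) := ⟨_, rfl⟩
  have hβ₀' : β₀ = 17 - 384 * v := by
    rw [hβ₀]
    linear_combination 16 * huv
  have hnd : ∀ q : ℕ, q.Prime → (q : ℤ) ∣ 24 * M₀ → ¬ (q : ℤ) ∣ β₀ * (a ^ 2 - 64 * β₀) := by
    intro q hq hd hcon
    have hqp := Nat.prime_iff_prime_int.1 hq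
    by_cases hq2 : q = 2
    · subst hq2
      rcases hqp.dvd_or_dvd hcon with h | h
      · push_cast at h
        omega
      · push_cast at h
        have h6 : (2 : ℤ) ∣ a ^ 2 := by
          have h7 : (2 : ℤ) ∣ (a ^ 2 - 64 * β₀) + 64 * β₀ := dvd_add h ⟨32 * β₀, by ring⟩
          rwa [sub_add_cancel] at h7
        have h7 : (2 : ℤ) ∣ a := Int.prime_two.dvd_of_dvd_pow h6
        omega
    by_cases hq3 : q = 3
    · subst hq3
      obtain ⟨s, hs⟩ : ∃ s, a = 3 * s + 1 := ⟨a / 3, by omega⟩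
      rcases hqp.dvd_or_dvd hcon with h | h
      · push_cast at h
        omega
      · push_cast at h
        have h6 : a ^ 2 - 64 * β₀ = 3 * (3 * s ^ 2 + 2 * s + 64 * 128 * v - 363) + 2 := by
          rw [hs, hβ₀']
          ring
        rw [h6] at h
        omega
    have hcop := Ff_cop hq hq2 hq3
    have hqM : (q : ℤ) ∣ M₀ := hcop.dvd_of_dvd_mul_left hd
    have h6 : (q : ℤ) ∣ β₀ - 1 := by
      rw [hβ₀, add_sub_cancel_left]
      exact hqM.mul_right _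
    have h24 : ∀ m : ℤ, (q : ℤ) ∣ m → m ∣ 24 ^ 2 → False := by
      intro m h7 h8
      have h9 := hcop.pow_right (n := 2)
      have h10 := h9.isUnit_of_dvd' dvd_rfl (h7.trans h8)
      rw [Int.isUnit_iff] at h10
      have := hq.two_le
      omega
    rcases (hMQ q hq hqM).2.2 with hqB | hqa
    · have h7 := haB q hqB hq2 hq3
      have h8 : (q : ℤ) ∣ 36 := by
        have h9 : β₀ * (a ^ 2 - 64 * β₀) - (β₀ * (a + 10)) * (a - 10) -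
          (100 - 64 * β₀ - 64) * (β₀ - 1) = 36 := by ring
        rw [← h9]
        exact dvd_sub (dvd_sub hcon (h7.mul_left _)) (h6.mul_left _)
      exact h24 36 h8 (by norm_num)
    · have h8 : (q : ℤ) ∣ 64 := by
        have h9 : β₀ * a * a - β₀ * (a ^ 2 - 64 * β₀) - 64 * (β₀ + 1) * (β₀ - 1) = 64 := by ring
        rw [← h9]
        exact dvd_sub (dvd_sub (hqa.mul_left _) hcon) (h6.mul_left _)
      exact h24 64 h8 (by norm_num)
  have haM : ∀ q : ℕ, q.Prime → (q : ℤ) ∣ a → (q : ℤ) ∣ 24 * M₀ := by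
    intro q hq hqa
    by_cases hq2 : q = 2
    · subst hq2
      push_cast
      exact ⟨12 * M₀, by ring⟩
    by_cases hq3 : q = 3
    · subst hq3
      push_cast
      exact ⟨8 * M₀, by ring⟩
    exact (hMa q hq hq2 hq3 hqa).mul_left _
  have hsieve := sieve (a := a) (β₀ := β₀) (M := 24 * M₀) (by positivity) ⟨12 * M₀, by ring⟩
    ⟨8 * M₀, by ring⟩ ((hMB 5 h5 (by norm_num) (by norm_num)).mul_left _) haM hnd
  have hbad : {t : ℕ | ¬ (a ^ 2 < 64 * (β₀ + 24 * M₀ * t) ∧ β₀ + 24 * M₀ * t ≠ 1)}.Finite := by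
    refine (Set.finite_Iic (a ^ 2 + |β₀| + 1).toNat).subset ?_
    intro t ht
    rw [Set.mem_Iic]
    by_contra hlt
    rw [not_le] at hlt
    apply ht
    have h6 : a ^ 2 + |β₀| + 1 < (t : ℤ) := by
      have h7 : 0 ≤ a ^ 2 + |β₀| + 1 := by positivity
      have h8 : (((a ^ 2 + |β₀| + 1).toNat : ℕ) : ℤ) < t := by exact_mod_cast hlt
      rwa [Int.toNat_of_nonneg h7] at h8
    have h7 : -|β₀| ≤ β₀ := neg_abs_le β₀
    have h8 : (t : ℤ) ≤ 24 * M₀ * t := by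
      have h9 : 1 ≤ 24 * M₀ := by omega
      have h10 : (0 : ℤ) ≤ t := Int.natCast_nonneg t
      nlinarith
    have h9 : 0 ≤ a ^ 2 := sq_nonneg a
    constructor
    · linarith
    · intro h10
      linarith
  have hinj : Function.Injective (fun t : ℕ => β₀ + 24 * M₀ * (t : ℤ)) := by
    intro s t hst
    have h6 : 24 * M₀ * (s : ℤ) = 24 * M₀ * t := by
      have := hst
      simp only at this
      linarith
    have h7 : (24 * M₀ : ℤ) ≠ 0 := by omega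
    exact_mod_cast mul_left_cancel₀ h7 h6
  refine ((hsieve.diff hbad).image hinj.injOn).mono ?_
  rintro _ ⟨t, ⟨ht, ht'⟩, rfl⟩
  have ht2 : a ^ 2 < 64 * (β₀ + 24 * M₀ * t) ∧ β₀ + 24 * M₀ * t ≠ 1 := not_not.1 ht'
  have ht1 : Squarefree ((β₀ + 24 * M₀ * t) * (a ^ 2 - 64 * (β₀ + 24 * M₀ * t))) := ht
  simp only [Set.mem_ofPred_eq]
  refine ⟨?_, ?_, ht2.1, ?_, ht2.2, ht1, ?_⟩
  · rw [hβ₀', mul_assoc]
    generalize M₀ * (t : ℤ) = z
    omega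
  · rw [hβ₀', mul_assoc]
    generalize M₀ * (t : ℤ) = z
    omega
  · rw [Int.isCoprime_iff_gcd_eq_one]
    by_contra hg
    obtain ⟨q, hq, hd⟩ := Nat.exists_prime_and_dvd hg
    have hqa : (q : ℤ) ∣ a := (Int.natCast_dvd_natCast.2 hd).trans (Int.gcd_dvd_left _ _)
    have hqb : (q : ℤ) ∣ β₀ + 24 * M₀ * t :=
      (Int.natCast_dvd_natCast.2 hd).trans (Int.gcd_dvd_right _ _)
    have hqM := haM q hq hqa
    have hqb0 : (q : ℤ) ∣ β₀ := (Int.dvd_add_left (hqM.mul_right _)).1 hqb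
    exact hnd q hq hqM (hqb0.mul_right _)
  · intro l hl hl2 hl3
    have h6 := hMB l hl hl2 hl3
    have h7 : β₀ + 24 * M₀ * t - 1 = M₀ * (16 * u + 24 * t) := by
      rw [hβ₀]
      ring
    rw [h7]
    exact h6.mul_right _

end H88T7
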