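import Pool.Agent.H88.T7.Fm
import Pool.Agent.H88.T7.Ai
import Pool.Agent.H88.T7.Ma

/-!
ROW Fi (project MP_78d38b_T7, about 170 lines): neutral integers and twisting integers.

PROOF. ds_mul: `g = Nat.gcd d d'`, `d = g x`, `d' = g y`, `d'' = x y`, `s = g`: `d d' = d'' g^2`; `x, y, g` pairwise coprime, so `d''` is squarefree; `g` is odd, `g^2 ≡ 1`
modulo four, so `d'' ≡ d d' ≡ 1`; the primes dividing `d''` divide `d` or `d'`. ds_one: no primes.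
ds_inf: `sepN hD ∅`: `Ψ` with `Ψ Dc = 0`, `Ψ β = Ψ D = 1`, `Ψ (sc (-1)) = 0`. `hA.c2 {sc β, sc D, sc (-1)} Ψ`: infinitely many nice `p` with one place `v` above `p`,
`la v (res β) = 1`, `la v (res D) = 1`, `la v (res (-1)) = 0`. Remove the finitely many `p` dividing `β D`. `la_int7` (`res_int`; for `-1`: `((-1 : ℤ) : ℚ) = -1`): `β`, `D` are
not squares modulo `p`, `-1` is a square modulo `p`, so `p ≡ 1 mod 4` (`ZMod.exists_sq_eq_neg_one_iff`: `p % 4 ≠ 3`, `p` odd). So `p ∈ Ds K a β` (the only prime dividing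
`p` is `p`).
exists_n7: `P = ∏ p ∈ Pp ∪ Pp', p` is odd (`Nice`: `p ≠ 2`), `n = P` or `- P`. tw7_mul: `n * d`: `n` is squarefree (a product of different primes, up to sign) and coprime to `d`:
a common prime `l` is in `Pp ∪ Pp'` and neutral, but `β` or `D` is a square modulo `l` by `hS.sq`, `hS.sq'`. `(n d) % 4 = 1`. A prime dividing `n d` divides `n` (then it is in
`Pp ∪ Pp'`: `hS.nice`, `hS.ndvd`) or `d`.
-/

set_option autoImplicit false
set_option linter.unusedSectionVars false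
open scoped Classical

open WithZero NumberField IsDedekindDomain H38RT
open H38T1 (SC sc rep eo la si Pri OddP LD XX XX' NS ov rp SqMod)

namespace H88T7

variable {K : Type} [Field K] [NumberField K] {B : Finset ℕ} {Dc : SC ℚ} {a β : ℤ}
  {Pp Pp' : Finset ℕ}

private lemma Fi_mem {p : ℕ} (hpp : p.Prime) (v : HeightOneSpectrum (𝓞 K)) :
    v ∈ ov K {p} ↔ rp v = p := by
  rw [H38T1.mem_ov (by
    intro q hq
    rw [Set.mem_singleton_iff.1 hq]
    exact hpp), Set.mem_singleton_iff]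

private lemma Fi_la {p : ℕ} (hn : Nice K p) {v : HeightOneSpectrum (𝓞 K)} (hv : v ∈ ov K {p})
    {m : ℤ} (hm : ¬ (p : ℤ) ∣ m) : la v (res K (sc (m : ℚ))) = 0 ↔ SqMod p m := by
  have h1 : rp v = p := (Fi_mem hn.1 v).1 hv
  have hv' := (H38T1.mem_iff_eq hn.1).2 h1
  have hm0 : m ≠ 0 := by
    rintro rfl
    exact hm (dvd_zero _)
  have h2 := la_int7 (v := v) (hn.2.2 v hv').2 (by rw [h1]; exact hn.2.1) (m := m)
    (by rw [h1]; exact hm)
  rw [res_int hm0, h2, h1]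

private lemma Fi_four {p : ℕ} (hp : p.Prime) (h2 : p ≠ 2) (h : SqMod p (-1)) : p % 4 = 1 := by
  have hF : Fact p.Prime := ⟨hp⟩
  obtain ⟨t, ht⟩ := h
  have h3 : IsSquare (-1 : ZMod p) := by
    refine ⟨(t : ZMod p), ?_⟩
    have h4 : ((-1 - t ^ 2 : ℤ) : ZMod p) = 0 := (ZMod.intCast_zmod_eq_zero_iff_dvd _ _).2 ht
    push_cast at h4
    linear_combination h4
  have h5 := ZMod.exists_sq_eq_neg_one_iff.1 h3
  have h6 := hp.eq_two_or_odd
  omega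

private lemma Fi_sqf {S : Finset ℕ} (h : ∀ p ∈ S, p.Prime) : Squarefree (∏ p ∈ S, p) := by
  induction S using Finset.induction_on with
  | empty => simp
  | insert p S hp ih =>
    rw [Finset.prod_insert hp]
    have h1 : p.Prime := h p (Finset.mem_insert_self _ _)
    refine Nat.squarefree_mul_iff.2 ⟨?_, Irreducible.squarefree h1,
      ih (fun q hq => h q (Finset.mem_insert_of_mem hq))⟩
    refine Nat.Coprime.prod_right (fun q hq => ?_)
    refine (Nat.coprime_primes h1 (h q (Finset.mem_insert_of_mem hq))).2 ?_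
    rintro rfl
    exact hp hq

theorem ds_one : 1 ∈ Ds K a β :=
  ⟨squarefree_one, by norm_num, fun l hl h => absurd (Nat.dvd_one.1 h) hl.one_lt.ne'⟩

theorem ds_mul {d d' : ℕ} (hd : d ∈ Ds K a β) (hd' : d' ∈ Ds K a β) :
    ∃ d'' ∈ Ds K a β, ∃ s : ℕ, s ≠ 0 ∧ d * d' = d'' * s ^ 2 := by
  obtain ⟨h1, h2, h3⟩ := hd
  obtain ⟨h1', h2', h3'⟩ := hd'
  have hd0 : d ≠ 0 := h1.ne_zero
  obtain ⟨g, x, y, hg, hxy, rfl, rfl⟩ : ∃ g x y : ℕ, 0 < g ∧ Nat.Coprime x y ∧ d = g * x ∧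
      d' = g * y := by
    obtain ⟨g, x, y, hg, hxy, e1, e2⟩ := Nat.exists_coprime' (m := d) (n := d')
      (Nat.gcd_pos_of_pos_left _ (Nat.pos_of_ne_zero hd0))
    exact ⟨g, x, y, hg, hxy, by rw [e1, mul_comm], by rw [e2, mul_comm]⟩
  obtain ⟨c1, c2, c3⟩ := Nat.squarefree_mul_iff.1 h1
  obtain ⟨c1', c2', c3'⟩ := Nat.squarefree_mul_iff.1 h1'
  refine ⟨x * y, ⟨Nat.squarefree_mul_iff.2 ⟨hxy, c3, c3'⟩, ?_, ?_⟩, g, hg.ne', by ring⟩
  · have e0 : (g * x) * (g * y) = (x * y) * g ^ 2 := by ring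
    have e1 : ((g * x) * (g * y)) % 4 = 1 := by
      rw [Nat.mul_mod, h2, h2']
    have e2 : g % 2 = 1 := by
      by_contra hg2
      have e3 : 2 ∣ g := Nat.dvd_of_mod_eq_zero (by omega)
      have e4 : 2 ∣ g * x := Dvd.dvd.mul_right e3 x
      omega
    have e3 : g ^ 2 % 4 = 1 := by
      rcases (by omega : g % 4 = 1 ∨ g % 4 = 3) with h | h <;> rw [Nat.pow_mod, h]
    rw [e0, Nat.mul_mod, e3, mul_one, Nat.mod_mod] at e1
    exact e1
  · intro l hl hdv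
    rcases (Nat.Prime.dvd_mul hl).1 hdv with h | h
    · exact h3 l hl (Dvd.dvd.mul_left h g)
    · exact h3' l hl (Dvd.dvd.mul_left h g)

theorem ds_inf (hD : Dat K B Dc a β) (hA : Adm7 K Dc) : (Ds K a β).Infinite := by
  obtain ⟨Ψ, h0, h1, h2, h3, -⟩ := sepN hD ∅ (by simp)
  have hinf := hA.c2 {sc (β : ℚ), sc ((a ^ 2 - 64 * β : ℤ) : ℚ), sc (-1 : ℚ)} Ψ h0
  have hne : β * (a ^ 2 - 64 * β) ≠ 0 := hD.sqf.ne_zero
  have hfin : {p : ℕ | (p : ℤ) ∣ β * (a ^ 2 - 64 * β)}.Finite := by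
    refine (Set.finite_Iic (β * (a ^ 2 - 64 * β)).natAbs).subset ?_
    intro p hp
    exact Nat.le_of_dvd (Int.natAbs_pos.2 hne) (Int.natCast_dvd.1 hp)
  refine (hinf.diff hfin).mono ?_
  rintro p ⟨⟨hn, v, hv, hr⟩, hnd⟩
  have hnd' : ¬ (p : ℤ) ∣ β * (a ^ 2 - 64 * β) := hnd
  have hb' : ¬ (p : ℤ) ∣ β := fun h => hnd' (dvd_mul_of_dvd_left h _)
  have hd' : ¬ (p : ℤ) ∣ (a ^ 2 - 64 * β) := fun h => hnd' (dvd_mul_of_dvd_right h _)
  have hm' : ¬ (p : ℤ) ∣ (-1 : ℤ) := by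
    intro h
    exact (Nat.prime_iff_prime_int.1 hn.1).not_unit (isUnit_of_dvd_unit h (by decide))
  have hvm : v ∈ ov K {p} := by
    rw [hv]
    exact Set.mem_singleton v
  have hb := Fi_la hn hvm hb'
  have hd := Fi_la hn hvm hd'
  have hm := Fi_la hn hvm hm'
  have e1 : (((-1 : ℤ) : ℤ) : ℚ) = (-1 : ℚ) := by norm_num
  rw [e1] at hm
  rw [hr _ (by simp), h1] at hb
  rw [hr _ (by simp), h2] at hd
  rw [hr _ (by simp), h3] at hm
  have hm2 : SqMod p (-1) := hm.1 rfl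
  refine ⟨Irreducible.squarefree hn.1, Fi_four hn.1 hn.2.1 hm2, ?_⟩
  intro l hl hlp
  have e2 : l = p := (Nat.prime_dvd_prime_iff_eq hl hn.1).1 hlp
  rw [e2]
  exact ⟨hn, hnd', fun h => one_ne_zero (hb.2 h), fun h => one_ne_zero (hd.2 h)⟩

theorem exists_n7 (hS : St K B a β Pp Pp') :
    ∃ n : ℤ, n.natAbs = ∏ p ∈ Pp ∪ Pp', p ∧ n % 4 = 1 := by
  have hodd : Odd (∏ p ∈ Pp ∪ Pp', p) := by
    refine Finset.prod_induction _ (fun x => Odd x) (fun x y hx hy => hx.mul hy) odd_one ?_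
    intro p hp
    exact (hS.nice p hp).1.odd_of_ne_two (hS.nice p hp).2.1
  obtain ⟨N, hN⟩ : ∃ N, N = ∏ p ∈ Pp ∪ Pp', p := ⟨_, rfl⟩
  rw [← hN] at hodd ⊢
  have h2 := Nat.odd_iff.1 hodd
  rcases (by omega : N % 4 = 1 ∨ N % 4 = 3) with h | h
  · exact ⟨N, by omega, by omega⟩
  · exact ⟨-N, by omega, by omega⟩

private lemma Fi_cop (hS : St K B a β Pp Pp') {d : ℕ} (hd : d ∈ Ds K a β) {p : ℕ}
    (hp : p ∈ Pp ∪ Pp') : ¬ p ∣ d := by
  intro h
  have h1 := hd.2.2 p (hS.nice p hp).1 h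
  rcases Finset.mem_union.1 hp with h2 | h2
  · exact h1.2.2.1 (hS.sq p h2).1
  · exact h1.2.2.2 (hS.sq' p h2).2

private lemma Fi_dvd (hS : St K B a β Pp Pp') {n : ℤ} (hn : n.natAbs = ∏ p ∈ Pp ∪ Pp', p)
    {d l : ℕ} (hl : l.Prime) (h : (l : ℤ) ∣ n * d) : l ∈ Pp ∪ Pp' ∨ l ∣ d := by
  have h1 : l ∣ (n * (d : ℤ)).natAbs := Int.natCast_dvd.1 h
  rw [Int.natAbs_mul, Int.natAbs_natCast, hn] at h1
  rcases (Nat.Prime.dvd_mul hl).1 h1 with h2 | h2
  · left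
    obtain ⟨q, hq, h3⟩ := (Prime.dvd_finset_prod_iff hl.prime _).1 h2
    rw [(Nat.prime_dvd_prime_iff_eq hl (hS.nice q hq).1).1 h3]
    exact hq
  · exact Or.inr h2

theorem tw7_mul (hS : St K B a β Pp Pp') {n : ℤ} (hn : n.natAbs = ∏ p ∈ Pp ∪ Pp', p)
    (h4 : n % 4 = 1) {d : ℕ} (hd : d ∈ Ds K a β) : Tw7 K B a β Pp Pp' (n * d) := by
  refine ⟨?_, ?_, ?_, ?_, ?_⟩
  · rw [← Int.squarefree_natAbs, Int.natAbs_mul, Int.natAbs_natCast, hn]
    refine Nat.squarefree_mul_iff.2 ⟨?_, Fi_sqf (fun p hp => (hS.nice p hp).1), hd.1⟩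
    refine Nat.Coprime.prod_left (fun p hp => ?_)
    exact ((hS.nice p hp).1.coprime_iff_not_dvd).2 (Fi_cop hS hd hp)
  · have h5 : (d : ℤ) % 4 = 1 := by
      have := hd.2.1
      omega
    rw [Int.mul_emod, h4, h5]
    norm_num
  · intro p hp
    refine Dvd.dvd.mul_right (Int.natCast_dvd.2 ?_) _
    rw [hn]
    exact Finset.dvd_prod_of_mem _ hp
  · intro p hp h
    rcases Fi_dvd hS hn hp h with h1 | h1
    · exact ⟨hS.nice p h1, fun h2 => hS.ndvd p h1 (dvd_mul_of_dvd_right h2 _)⟩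
    · exact ⟨(hd.2.2 p hp h1).1, (hd.2.2 p hp h1).2.1⟩
  · intro p hp h h1 h2
    rcases Fi_dvd hS hn hp h with h3 | h3
    · rcases Finset.mem_union.1 h3 with h4 | h4
      · exact absurd h4 h1
      · exact absurd h4 h2
    · exact (hd.2.2 p hp h3).2.2

end H88T7
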