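import Pool.Agent.H88.T7.Fm

/-!
ROW Fk (project MP_78d38b_T7, about 110 lines): the conclusion over the infinite extension. Copy of `H38T1.ctrl2`
(`Pool/Agent/H38/T1/Fy.lean`) with `D` in place of `Free a' b' J` / `Fs a' b' J` and `Dp D P` in place of `Fp a' b' J P`.

PROOF. dp_one, dp_mul: copy `fp_one`, `fp_mul` (with `hmul` for `free_mul`). dp_inf: `sub_inf` (see `fp_inf`). ctl7: copy the proof of `ctrl2`:
`multi` in `H38/T1/Xs.lean` assumes `IsGalois ℚ K` but its proof (through `H14T1.multi`, all number fields) does not use it: restate and copy it; `both_scale`, `fin_pts`, `tors_twist` hold for all number fields `K` (`IsGalois ℚ K` is not used in them; if one of them has this hypothesis,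
restate and copy it without it). `d₀ ≠ 0` as it is squarefree.
-/

set_option autoImplicit false
set_option linter.unusedSectionVars false
open scoped Classical

open WithZero NumberField IsDedekindDomain H38RT
open H38T1 (SC sc rep eo la si Pri OddP LD XX XX' NS ov rp SqMod)

namespace H88T7

open H38T1 (Both FinAll FinBoth Mf)

theorem dp_one {D : Set ℕ} (h1 : 1 ∈ D) (P : Finset ℕ) : 1 ∈ Dp D P :=
  ⟨h1, fun p _ _ => ⟨1, by simp⟩⟩

theorem dp_mul {D : Set ℕ}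
    (hmul : ∀ d ∈ D, ∀ d' ∈ D, ∃ d'' ∈ D, ∃ s : ℕ, s ≠ 0 ∧ d * d' = d'' * s ^ 2)
    {P : Finset ℕ} {d d' : ℕ} (hd : d ∈ Dp D P) (hd' : d' ∈ Dp D P) :
    ∃ d'' ∈ Dp D P, ∃ s : ℕ, s ≠ 0 ∧ d * d' = d'' * s ^ 2 := by
  obtain ⟨d'', hf, s, hs, he⟩ := hmul d hd.1 d' hd'.1
  refine ⟨d'', ⟨hf, fun p _ hp => ?_⟩, s, hs, he⟩
  obtain ⟨u, hu⟩ := hd.2 p hp
  obtain ⟨v, hv⟩ := hd'.2 p hp
  have hs0 : (s : ℚ_[p]) ≠ 0 := by exact_mod_cast hs
  have e : (d : ℚ_[p]) * d' = d'' * s ^ 2 := by exact_mod_cast he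
  refine ⟨u * v / s, ?_⟩
  rw [hu, hv] at e
  field_simp
  linear_combination -e

theorem multi7 {K L : Type} [Field K] [NumberField K] [Field L] [NumberField L]
    {D : Set ℕ} (h1 : 1 ∈ D)
    (hmul : ∀ d ∈ D, ∀ d' ∈ D, ∃ d'' ∈ D, ∃ s : ℕ, s ≠ 0 ∧ d * d' = d'' * s ^ 2) {A B : ℤ}
    (hB : B ≠ 0) (hAB : A ^ 2 - 4 * B ≠ 0)
    (h : ∀ d ∈ D, H38T1.Triv K ((A * d : ℤ) : K) ((B * d ^ 2 : ℤ) : K))
    (i : K →ₐ[ℚ] AlgebraicClosure ℚ) (j : L →ₐ[ℚ] AlgebraicClosure ℚ)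
    (hij : j.fieldRange ≤ i.fieldRange ⊔ Mf D) :
    H38T1.TwoPartFinite L (⟨0, (A : L), 0, (B : L), 0⟩ : WeierstrassCurve L) ∧
      Finite (⟨0, (A : L), 0, (B : L), 0⟩ : WeierstrassCurve L).toAffine.Point := by
  obtain ⟨D', hD'⟩ : ∃ D' : Set ℕ, D' = {d ∈ D | d ≠ 0} := ⟨_, rfl⟩
  have hM : H14T1.Mul2 D' := by
    subst hD'
    refine ⟨⟨h1, one_ne_zero⟩, fun d hd => hd.2, fun d hd d' hd' => ?_⟩
    obtain ⟨d'', hd'', s, hs, he⟩ := hmul d hd.1 d' hd'.1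
    refine ⟨d'', ⟨hd'', ?_⟩, s, hs, he⟩
    rintro rfl
    rw [zero_mul] at he
    rcases mul_eq_zero.1 he with h2 | h2
    · exact hd.2 h2
    · exact hd'.2 h2
  have hle : Mf D ≤ H14T1.Mf D' := by
    subst hD'
    unfold Mf
    rw [IntermediateField.adjoin_le_iff]
    rintro x ⟨d, hd, hx⟩
    by_cases h0 : d = 0
    · subst h0
      have hx0 : x = 0 := by
        have : x ^ 2 = 0 := by rw [hx]; simp
        exact pow_eq_zero_iff (two_ne_zero) |>.1 this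
      rw [hx0]
      exact zero_mem _
    · exact IntermediateField.subset_adjoin ℚ _ ⟨d, ⟨hd, h0⟩, hx⟩
  have hG : H14T1.GoodD D' A B K := H14T1.goodD_of_triv fun d hd => h d (by
    subst hD'
    exact hd.1)
  obtain ⟨k1, k2⟩ := H14T1.multi_sha hM hB hAB hG i j (hij.trans (sup_le_sup_left hle _)) 1
    hM.one
  have e : H14T1.cv L (A * (1 : ℕ)) (B * (1 : ℕ) ^ 2) = ⟨0, (A : L), 0, (B : L), 0⟩ := by
    simp [H14T1.cv]
  rw [e] at k1 k2
  exact ⟨H38T1.twoPartFinite_of k1, k2⟩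

theorem dp_inf {D : Set ℕ} (hinf : D.Infinite) (hsq : ∀ d ∈ D, Squarefree d)
    (hmul : ∀ d ∈ D, ∀ d' ∈ D, ∃ d'' ∈ D, ∃ s : ℕ, s ≠ 0 ∧ d * d' = d'' * s ^ 2)
    (P : Finset ℕ) : (Dp D P).Infinite :=
  H38T1.sub_inf hinf hsq hmul P

theorem ctl7 {a b n : ℤ} (hb : b ≠ 0) (hD : a ^ 2 - 4 * b ≠ 0) (hn : n ≠ 0) {D : Set ℕ}
    (h1 : 1 ∈ D) (hsq : ∀ d ∈ D, Squarefree d)
    (hmul : ∀ d ∈ D, ∀ d' ∈ D, ∃ d'' ∈ D, ∃ s : ℕ, s ≠ 0 ∧ d * d' = d'' * s ^ 2)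
    {P : Finset ℕ} {l l' : ℕ} [Fact l.Prime] [Fact l'.Prime]
    (hne : l ≠ l') (hl : ¬ (l : ℤ) ∣ 2 * (b * (a ^ 2 - 4 * b)))
    (hl' : ¬ (l' : ℤ) ∣ 2 * (b * (a ^ 2 - 4 * b))) (hlP : l ∈ P) (hlP' : l' ∈ P)
    {K : Type} [Field K] [NumberField K]
    (H : ∀ d ∈ D, Both K a b (n * d)) {d₀ : ℕ} (hd₀ : d₀ ∈ D) :
    FinAll K (Mf (Dp D P)) a b (n * d₀) := by
  have hd0 : d₀ ≠ 0 := (hsq d₀ hd₀).ne_zero
  have hm : (n * d₀ : ℤ) ≠ 0 := mul_ne_zero hn (by exact_mod_cast hd0)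
  have hm2 : (n * d₀ : ℤ) ^ 2 ≠ 0 := pow_ne_zero 2 hm
  have key : ∀ d ∈ Dp D P, Both K a b (n * d₀ * d) := by
    intro d hd
    obtain ⟨d'', hf, s, hs, he⟩ := hmul d₀ hd₀ d hd.1
    refine H38T1.both_scale (s := (s : ℤ)) (by exact_mod_cast hs) (n' := n * d'') ?_ (H d'' hf)
    have : ((d₀ : ℤ) * d) = d'' * s ^ 2 := by exact_mod_cast he
    linear_combination n * this
  have h2 : ∀ (L : Type) [Field L] [NumberField L] (i : K →ₐ[ℚ] AlgebraicClosure ℚ)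
    (j : L →ₐ[ℚ] AlgebraicClosure ℚ), j.fieldRange ≤ i.fieldRange ⊔ Mf (Dp D P) →
      FinBoth L a b (n * d₀) := by
    intro L _ _ i j hij
    constructor
    · exact multi7 (A := a * (n * d₀)) (B := b * (n * d₀) ^ 2) (dp_one h1 P)
        (fun d hd d' hd' => dp_mul hmul hd hd') (mul_ne_zero hb hm2) (by
        have e : (a * (n * d₀)) ^ 2 - 4 * (b * (n * d₀) ^ 2) = (a ^ 2 - 4 * b) * (n * d₀) ^ 2 := by
          ring
        rw [e]
        exact mul_ne_zero hD hm2) (fun d hd => by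
        have h2 := (key d hd).1
        convert h2 using 2
        · ring
        · ring) i j hij
    · exact multi7 (A := -2 * (a * (n * d₀))) (B := (a ^ 2 - 4 * b) * (n * d₀) ^ 2)
        (dp_one h1 P) (fun d hd d' hd' => dp_mul hmul hd hd') (mul_ne_zero hD hm2) (by
        have e : (-2 * (a * (n * d₀))) ^ 2 - 4 * ((a ^ 2 - 4 * b) * (n * d₀) ^ 2) =
            16 * (b * (n * d₀) ^ 2) := by
          ring
        rw [e]
        exact mul_ne_zero (by norm_num) (mul_ne_zero hb hm2)) (fun d hd => by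
        have h2 := (key d hd).2
        convert h2 using 2
        · ring
        · ring) i j hij
  refine ⟨fun i E hE => ?_, h2⟩
  have hfd : FiniteDimensional ℚ i.fieldRange :=
    Module.Finite.equiv (AlgEquiv.ofInjectiveField i).toLinearEquiv
  have hDl : ∀ d ∈ Dp D P, IsSquare ((d : ℕ) : ℚ_[l]) ∧ IsSquare ((d : ℕ) : ℚ_[l']) :=
    fun d hd => ⟨hd.2 l hlP, hd.2 l' hlP'⟩
  have hq : ∀ q : ℕ, q.Prime → ¬ (q : ℤ) ∣ 2 * (b * (a ^ 2 - 4 * b)) →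
      ¬ (q : ℤ) ∣ 2 * ((a ^ 2 - 4 * b) * ((-2 * a) ^ 2 - 4 * (a ^ 2 - 4 * b))) := by
    intro q hq h hdiv
    have hq' : Prime (q : ℤ) := Nat.prime_iff_prime_int.1 hq
    have e : 2 * ((a ^ 2 - 4 * b) * ((-2 * a) ^ 2 - 4 * (a ^ 2 - 4 * b))) =
        2 ^ 4 * (2 * (b * (a ^ 2 - 4 * b))) := by ring
    rw [e] at hdiv
    rcases hq'.dvd_or_dvd hdiv with h1 | h1
    · exact h (Dvd.dvd.mul_right (hq'.dvd_of_dvd_pow h1) _)
    · exact h h1
  constructor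
  · refine H38T1.fin_pts (A := a * (n * d₀)) (B := b * (n * d₀) ^ 2) (fun L _ _ j hj => ?_) ?_
    · exact (h2 L i j (hj.trans hE.le)).1.2
    · exact H38T1.tors_twist hne hl hl' hDl i.fieldRange hm hE
  · refine H38T1.fin_pts (A := -2 * (a * (n * d₀))) (B := (a ^ 2 - 4 * b) * (n * d₀) ^ 2)
      (fun L _ _ j hj => ?_) ?_
    · exact (h2 L i j (hj.trans hE.le)).2.2
    · have := H38T1.tors_twist (a := -2 * a) (b := a ^ 2 - 4 * b) hne (hq l Fact.out hl)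
        (hq l' Fact.out hl') hDl i.fieldRange hm hE
      rw [mul_assoc] at this
      exact this

end H88T7
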