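import Pool.Agent.H88.T7.Df
import Pool.Agent.H38.T1.Fy

/-!
Definitions: neutral integers (project MP_78d38b_T7); no row.
-/

set_option autoImplicit false
set_option linter.unusedSectionVars false
open scoped Classical

open WithZero NumberField IsDedekindDomain H38RT
open H38T1 (SC sc rep eo la si Pri OddP LD XX XX' NS ov rp SqMod)

namespace H88T7

/-- The squarefree positive integers congruent to one modulo four composed of neutral primes. -/
def Ds (K : Type) [Field K] [NumberField K] (a β : ℤ) : Set ℕ :=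
  {d | Squarefree d ∧ d % 4 = 1 ∧ ∀ l : ℕ, l.Prime → l ∣ d → Nice K l ∧
    ¬ (l : ℤ) ∣ β * (a ^ 2 - 64 * β) ∧ ¬ SqMod l β ∧ ¬ SqMod l (a ^ 2 - 64 * β)}

/-- The elements of `D` which are squares in `ℚ_p` for the primes `p` in `P`. -/
def Dp (D : Set ℕ) (P : Finset ℕ) : Set ℕ :=
  {d ∈ D | ∀ (p : ℕ) [Fact p.Prime], p ∈ P → IsSquare ((d : ℕ) : ℚ_[p])}

end H88T7
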