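import Pool.Agent.H88.T7.Ga

/-!
ROW Gc (project MP_78d38b_T7, about 170 lines): double transitivity.

PROOF. `H = K →ₐ[ℚ] L`, `N = |H| = finrank ℚ K` odd, `N ≠ 1` (a field of degree one is Galois), so `N ≥ 3`. Let `σ₁ ≠ σ₂`, `τ₁ ≠ τ₂`. There is
a permutation `π` with `π σ₁ = τ₁`, `π σ₂ = τ₂`: `π = swap (π₁ σ₂) τ₂ * π₁` with `π₁ = swap σ₁ τ₁` (`π₁ σ₂ ≠ τ₁`; check that `τ₁` is fixed by the
second transposition).
(1) `N ≥ 5`: if `π` is odd replace it by `swap x y * π` with two different points `x, y ∉ {τ₁, τ₂}`: it is even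
(`Equiv.Perm.mem_alternatingGroup`, `sign_swap`). `halt` gives `g`.
(2) `N = 3`: there is `g₁ : L ≃ₐ[ℚ] L` with `actH g₁` odd. Otherwise all `actH g` are even permutations of three points; an even
permutation of three points with a fixed point is the identity. Fix `σ : K →ₐ[ℚ] L`; if `actH g σ = σ` then `actH g = 1`. So the
stabilizer of `σ` is the kernel of `actH`, a normal subgroup. With `Algebra K L` given by `σ`, the stabilizer is `L ≃ₐ[K] L`, i.e. the
fixing subgroup of the intermediate field `σ.fieldRange`; a normal fixing subgroup means that `σ.fieldRange / ℚ` is Galois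
(`IsGalois.of_fixedField_normal_subgroup` or `IntermediateField`/`InfiniteGalois.normal_iff_isGalois`-like statements; or
directly: for all `τ : K →ₐ[ℚ] L`, `τ = g ∘ σ` for some `g` (the group is transitive: `L/ℚ` is normal), and `τ(K)` is fixed by the
conjugate subgroup = the same subgroup, so `τ(K) = σ(K)`; hence all conjugates of `K` are in `σ(K)` and `K / ℚ` is normal); so `K` is
Galois, against `hng`. Now if `π` is even use `halt`; if `π` is odd, `π * (actH g₁)⁻¹` is even, equal to `actH g`, and `actH (g * g₁) = π`.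
-/

set_option autoImplicit false
set_option linter.unusedSectionVars false
open scoped Classical

open WithZero NumberField IsDedekindDomain H38RT
open H38T1 (SC sc rep eo la si Pri OddP LD XX XX' NS ov rp SqMod)

namespace H88T7

lemma Gc_swap {α : Type} {s1 s2 t1 t2 : α} (hs : s1 ≠ s2) (ht : t1 ≠ t2) :
    ∃ π : Equiv.Perm α, π s1 = t1 ∧ π s2 = t2 := by
  have h1 : Equiv.swap s1 t1 s1 = t1 := Equiv.swap_apply_left _ _
  refine ⟨Equiv.swap (Equiv.swap s1 t1 s2) t2 * Equiv.swap s1 t1, ?_, ?_⟩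
  · rw [Equiv.Perm.mul_apply, h1]
    refine Equiv.swap_apply_of_ne_of_ne ?_ ht
    intro h
    apply hs
    apply (Equiv.swap s1 t1).injective
    rw [h1]
    exact h
  · rw [Equiv.Perm.mul_apply]
    exact Equiv.swap_apply_left _ _

lemma Gc_perm {α : Type} [Fintype α] [DecidableEq α] (h3 : Fintype.card α = 3)
    {π : Equiv.Perm α} (hs : Equiv.Perm.sign π = 1) {x : α} (hx : π x = x) : π = 1 := by
  have h1 : π.support ⊆ Finset.univ.erase x := by
    intro y hy
    rw [Finset.mem_erase]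
    refine ⟨?_, Finset.mem_univ _⟩
    rintro rfl
    exact Equiv.Perm.mem_support.1 hy hx
  have h2 := Finset.card_le_card h1
  rw [Finset.card_erase_of_mem (Finset.mem_univ _), Finset.card_univ, h3] at h2
  have h4 := Equiv.Perm.card_support_ne_one π
  have h5 : π.support.card ≠ 2 := by
    intro h
    have h6 := (Equiv.Perm.card_support_eq_two.1 h).sign_eq
    rw [hs] at h6
    exact absurd h6 (by decide)
  exact Equiv.Perm.card_support_eq_zero.1 (by omega)

/-- If all `actH g` with a fixed point are trivial, then `K` is Galois. -/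
lemma Gc_gal {K L : Type} [Field K] [NumberField K] [Field L] [NumberField L] (hL : BigL K L)
    (σ : K →ₐ[ℚ] L) (h : ∀ g : L ≃ₐ[ℚ] L, actH K L g σ = σ → actH K L g = 1) : IsGalois ℚ K := by
  haveI := hL.gal
  have hN := (IntermediateField.normal_iff_forall_map_le' (F := ℚ) (L := L)
    (K := σ.fieldRange)).2 (by
    intro g y hy
    obtain ⟨z, hz, rfl⟩ := (IntermediateField.mem_map _).1 hy
    obtain ⟨x, rfl⟩ := AlgHom.mem_fieldRange.1 hz
    rw [← IsGalois.fixedField_fixingSubgroup σ.fieldRange, IntermediateField.mem_fixedField_iff]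
    intro f hf
    have h1 : actH K L f σ = σ := by
      ext u
      rw [actH_apply]
      exact (IntermediateField.mem_fixingSubgroup_iff _ _).1 hf _ (AlgHom.mem_fieldRange.2 ⟨u, rfl⟩)
    have h2 := h f h1
    have h3 : actH K L f (actH K L g σ) = actH K L g σ := by rw [h2]; rfl
    have h4 := DFunLike.congr_fun h3 x
    rw [actH_apply, actH_apply] at h4
    exact h4)
  have hS := @Algebra.IsAlgebraic.isSeparable_of_perfectField ℚ σ.fieldRange _ _
    (IntermediateField.algebra' _) hN.toIsAlgebraic _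
  have hG := @IsGalois.mk ℚ _ σ.fieldRange _ (IntermediateField.algebra' _) hS hN
  exact @IsGalois.of_algEquiv ℚ σ.fieldRange _ _ K _ _ (IntermediateField.algebra' _) hG
    σ.equivFieldRange.symm

theorem two_of {K L : Type} [Field K] [NumberField K] [Field L] [NumberField L]
    (hodd : Odd (Module.finrank ℚ K)) (hng : ¬ IsGalois ℚ K) (hL : BigL K L)
    (halt : ∀ τ ∈ alternatingGroup (K →ₐ[ℚ] L), ∃ g : L ≃ₐ[ℚ] L, actH K L g = τ) : GenL K L := by
  refine ⟨hL, halt, ?_⟩
  intro σ₁ σ₂ τ₁ τ₂ hσ hτ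
  obtain ⟨π, h1, h2⟩ := Gc_swap hσ hτ
  rcases Int.units_eq_one_or (Equiv.Perm.sign π) with hs | hs
  · obtain ⟨g, hg⟩ := halt π (Equiv.Perm.mem_alternatingGroup.2 hs)
    exact ⟨g, by rw [hg]; exact h1, by rw [hg]; exact h2⟩
  by_cases h5 : 5 ≤ Fintype.card (K →ₐ[ℚ] L)
  · have hc : 1 < ((Finset.univ : Finset (K →ₐ[ℚ] L)) \ {τ₁, τ₂}).card := by
      have h3 : ({τ₁, τ₂} : Finset (K →ₐ[ℚ] L)).card ≤ 2 := Finset.card_le_two
      have h4 := Finset.le_card_sdiff ({τ₁, τ₂} : Finset (K →ₐ[ℚ] L)) Finset.univ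
      rw [Finset.card_univ] at h4
      omega
    obtain ⟨x, hx, y, hy, hxy⟩ := Finset.one_lt_card.1 hc
    rw [Finset.mem_sdiff, Finset.mem_insert, Finset.mem_singleton, not_or] at hx hy
    have hs' : Equiv.Perm.sign (Equiv.swap x y * π) = 1 := by
      rw [Equiv.Perm.sign_mul, Equiv.Perm.sign_swap hxy, hs]
      decide
    obtain ⟨g, hg⟩ := halt _ (Equiv.Perm.mem_alternatingGroup.2 hs')
    refine ⟨g, ?_, ?_⟩
    · rw [hg, Equiv.Perm.mul_apply, h1]
      exact Equiv.swap_apply_of_ne_of_ne (fun h => hx.2.1 h.symm) (fun h => hy.2.1 h.symm)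
    · rw [hg, Equiv.Perm.mul_apply, h2]
      exact Equiv.swap_apply_of_ne_of_ne (fun h => hx.2.2 h.symm) (fun h => hy.2.2 h.symm)
  · have h3 : Fintype.card (K →ₐ[ℚ] L) = 3 := by
      have h4 : 1 < Fintype.card (K →ₐ[ℚ] L) := Fintype.one_lt_card_iff.2 ⟨σ₁, σ₂, hσ⟩
      obtain ⟨m, hm⟩ := hodd
      have h6 := hL.card
      omega
    obtain ⟨g₁, hg₁⟩ : ∃ g₁ : L ≃ₐ[ℚ] L, Equiv.Perm.sign (actH K L g₁) = -1 := by
      by_contra hne
      push Not at hne
      refine hng (Gc_gal hL σ₁ fun g hg => ?_)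
      exact Gc_perm h3 ((Int.units_eq_one_or _).resolve_right (hne g)) hg
    have hs' : Equiv.Perm.sign (π * (actH K L g₁)⁻¹) = 1 := by
      rw [Equiv.Perm.sign_mul, Equiv.Perm.sign_inv, hg₁, hs]
      decide
    obtain ⟨g, hg⟩ := halt _ (Equiv.Perm.mem_alternatingGroup.2 hs')
    have hgg : actH K L (g * g₁) = π := by
      rw [map_mul, hg, inv_mul_cancel_right]
    exact ⟨g * g₁, by rw [hgg]; exact h1, by rw [hgg]; exact h2⟩

end H88T7
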