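import Pool.Agent.H88.T7.Ga

/-!
ROW Gg (project MP_78d38b_T7, about 130 lines): Kummer duality.

PROOF. select: `S = range κ` is an additive subgroup of `J → ZMod 2` (closed under addition by `hκ`; `κ 1 = 0`), a subspace. If `b ∉ S` there is a
linear functional `ℓ` with `ℓ b ≠ 0`, `S ≤ ker ℓ` (`Submodule.exists_le_ker_of_notMem`), `ℓ x = ∑ c j * x j` (`LinearMap.pi_apply_eq_sum_univ`);
`h c` gives `ℓ b = 0`, a contradiction. (Compare the proof of `kummer` in `Pool/Agent/H93/T1/Ck.lean`; its helper lemmas `Ck_e`,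
`Ck_cases`, `Ck_sum`, `Ck_inj` are private: copy them.)
sel_gen: `Γ = (actH K L).ker`. For `γ ∈ Γ` and `j` let `κ γ j ∈ ZMod 2` be defined by `γ (x j) = (-1)^(κ γ j) x j`, and `κ₀ j` by
`g₀ (x j) = (-1)^(κ₀ j) x j` (`x j ≠ 0`, characteristic zero: well defined). `κ` is additive. Apply `select` with `b = e + κ₀`: let
`c` satisfy `∑ c j * κ γ j = 0` for all `γ ∈ Γ`, `X = ∏ j, if c j = 0 then 1 else x j`: `γ X = (-1)^(∑ c j κ γ j) X = X`. So `hrel`: `∑ c j e j = 0`. And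
`g₀ X = (-1)^k X`, `k = ∑ c j κ₀ j`, `g₀^m X = (-1)^(m k) X`; but `g₀^m ∈ Γ` (`hg`) fixes `X ≠ 0`, so `m k = 0` in `ZMod 2` and, `m` being odd, `k = 0`.
So `∑ c j b j = 0`. We get `γ ∈ Γ` with `κ γ = e + κ₀`; `φ = γ * g₀`: `φ (x j) = γ (g₀ (x j)) = (-1)^(κ₀ j + κ γ j) x j = (-1)^(e j) x j`;
`actH φ = actH g₀`.
-/

set_option autoImplicit false
set_option linter.unusedSectionVars false
open scoped Classical

open WithZero NumberField IsDedekindDomain H38RT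
open H38T1 (SC sc rep eo la si Pri OddP LD XX XX' NS ov rp SqMod)

namespace H88T7

private noncomputable def Gg_e (L : Type) [Field L] (e : ZMod 2) : L := if e = 0 then 1 else -1

private lemma Gg_cases (e : ZMod 2) : e = 0 ∨ e = 1 := by
  revert e; decide

private lemma Gg_zero (L : Type) [Field L] : Gg_e L 0 = 1 := if_pos rfl

private lemma Gg_one (L : Type) [Field L] : Gg_e L 1 = -1 := if_neg (by decide)

private lemma Gg_add (L : Type) [Field L] (a b : ZMod 2) :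
    Gg_e L (a + b) = Gg_e L a * Gg_e L b := by
  rcases Gg_cases a with rfl | rfl <;> rcases Gg_cases b with rfl | rfl
  · rw [add_zero, Gg_zero, one_mul]
  · rw [zero_add, Gg_zero, one_mul]
  · rw [add_zero, Gg_zero, mul_one]
  · rw [show (1 : ZMod 2) + 1 = 0 from by decide, Gg_zero, Gg_one]
    norm_num

private lemma Gg_sum (L : Type) [Field L] {ι : Type*} (s : Finset ι) (x : ι → ZMod 2) :
    Gg_e L (∑ z ∈ s, x z) = ∏ z ∈ s, Gg_e L (x z) := by
  induction s using Finset.induction_on with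
  | empty => rw [Finset.sum_empty, Finset.prod_empty, Gg_zero]
  | insert a s ha ih => rw [Finset.sum_insert ha, Finset.prod_insert ha, Gg_add, ih]

private lemma Gg_inj {L : Type} [Field L] [CharZero L] {a b : ZMod 2} {r : L} (hr : r ≠ 0)
    (h : Gg_e L a * r = Gg_e L b * r) : a = b := by
  have h1 : Gg_e L a = Gg_e L b := mul_right_cancel₀ hr h
  rcases Gg_cases a with rfl | rfl <;> rcases Gg_cases b with rfl | rfl
  · rfl
  · rw [Gg_zero, Gg_one] at h1; norm_num at h1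
  · rw [Gg_zero, Gg_one] at h1; norm_num at h1
  · rfl

private lemma Gg_map {K' L : Type} [Field K'] [Field L] [Algebra K' L] (σ : L ≃ₐ[K'] L)
    (e : ZMod 2) : σ (Gg_e L e) = Gg_e L e := by
  rcases Gg_cases e with rfl | rfl
  · rw [Gg_zero, map_one]
  · rw [Gg_one, map_neg, map_one]

private lemma Gg_ex {L : Type} [Field L] {u v : L} (h : u = v ∨ u = -v) :
    ∃ a : ZMod 2, u = Gg_e L a * v := by
  rcases h with h | h
  · exact ⟨0, by rw [Gg_zero, one_mul, h]⟩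
  · exact ⟨1, by rw [Gg_one, h, neg_one_mul]⟩

private lemma Gg_prod {K' L : Type} [Field K'] [Field L] [Algebra K' L] {J : Type} [Fintype J] (x : J → L)
    (c : J → ZMod 2) (φ : L ≃ₐ[K'] L) (a : J → ZMod 2) (h : ∀ j, φ (x j) = Gg_e L (a j) * x j) :
    φ (∏ j, if c j = 0 then 1 else x j) = Gg_e L (∑ j, c j * a j) * ∏ j, if c j = 0 then 1 else x j := by
  rw [Gg_sum, ← Finset.prod_mul_distrib, map_prod]
  refine Finset.prod_congr rfl fun j _ => ?_
  rcases Gg_cases (c j) with h2 | h2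
  · rw [if_pos h2, h2, zero_mul, Gg_zero, map_one, one_mul]
  · rw [if_neg (by rw [h2]; decide), h2, one_mul]
    exact h j

private lemma Gg_pow {K' L : Type} [Field K'] [Field L] [Algebra K' L] {X : L} {φ : L ≃ₐ[K'] L} {k : ZMod 2}
    (h : φ X = Gg_e L k * X) (n : ℕ) : (φ ^ n) X = Gg_e L ((n : ZMod 2) * k) * X := by
  induction n with
  | zero => rw [Nat.cast_zero, zero_mul, Gg_zero, one_mul, pow_zero]; rfl
  | succ n ih =>
    rw [pow_succ, Nat.cast_succ, add_mul, one_mul, Gg_add]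
    change (φ ^ n) (φ X) = _
    rw [h, map_mul, Gg_map, ih]
    ring

theorem select {Γ : Type*} [Group Γ] {J : Type*} [Fintype J] (κ : Γ → J → ZMod 2)
    (hκ : ∀ γ γ', κ (γ * γ') = κ γ + κ γ') (b : J → ZMod 2)
    (h : ∀ c : J → ZMod 2, (∀ γ, ∑ j, c j * κ γ j = 0) → ∑ j, c j * b j = 0) :
    ∃ γ, κ γ = b := by
  have hone : κ 1 = 0 := by
    have h1 := hκ 1 1
    rw [mul_one] at h1
    exact left_eq_add.1 h1
  let S : Submodule (ZMod 2) (J → ZMod 2) :=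
    { carrier := Set.range κ
      add_mem' := by
        rintro _ _ ⟨σ, rfl⟩ ⟨τ, rfl⟩
        exact ⟨σ * τ, hκ σ τ⟩
      zero_mem' := ⟨1, hone⟩
      smul_mem' := by
        rintro c _ ⟨σ, rfl⟩
        rcases Gg_cases c with rfl | rfl
        · rw [zero_smul]; exact ⟨1, hone⟩
        · rw [one_smul]; exact ⟨σ, rfl⟩ }
  by_contra hb
  have hbS : b ∉ S := fun ⟨γ, hγ⟩ => hb ⟨γ, hγ⟩
  obtain ⟨ℓ, hℓ, hS⟩ := Submodule.exists_le_ker_of_notMem hbS
  have hκℓ : ∀ γ, ℓ (κ γ) = 0 := fun γ => hS ⟨γ, rfl⟩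
  obtain ⟨c, hc⟩ : ∃ c : J → ZMod 2, ∀ x, ℓ x = ∑ j, c j * x j :=
    ⟨fun z => ℓ fun j => if z = j then 1 else 0, fun x => by
      rw [LinearMap.pi_apply_eq_sum_univ ℓ x]
      refine Finset.sum_congr rfl fun j _ => ?_
      rw [smul_eq_mul, mul_comm]⟩
  apply hℓ
  rw [hc]
  exact h c (fun γ => by rw [← hc]; exact hκℓ γ)

theorem sel_gen {K L : Type} [Field K] [NumberField K] [Field L] [NumberField L]
    {g₀ : L ≃ₐ[ℚ] L} {m : ℕ} (hm : Odd m) (hg : (actH K L g₀) ^ m = 1) {J : Type} [Fintype J]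
    (x : J → L) (hx : ∀ j, x j ≠ 0)
    (hΓ : ∀ γ : L ≃ₐ[ℚ] L, actH K L γ = 1 → ∀ j, γ (x j) = x j ∨ γ (x j) = - x j)
    (hg' : ∀ j, g₀ (x j) = x j ∨ g₀ (x j) = - x j) (e : J → ZMod 2)
    (hrel : ∀ c : J → ZMod 2, (∀ γ : L ≃ₐ[ℚ] L, actH K L γ = 1 →
      γ (∏ j, if c j = 0 then 1 else x j) = ∏ j, if c j = 0 then 1 else x j) →
      ∑ j, c j * e j = 0) :
    ∃ φ : L ≃ₐ[ℚ] L, actH K L φ = actH K L g₀ ∧
      ∀ j, φ (x j) = if e j = 0 then x j else - x j := by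
  have h1 : ∀ (γ : (actH K L).ker) (j : J), ∃ a : ZMod 2, (γ : L ≃ₐ[ℚ] L) (x j) = Gg_e L a * x j :=
    fun γ j => Gg_ex (hΓ γ γ.2 j)
  choose κ hκ using h1
  have h2 : ∀ j : J, ∃ a : ZMod 2, g₀ (x j) = Gg_e L a * x j := fun j => Gg_ex (hg' j)
  choose κ₀ hκ₀ using h2
  have hmul : ∀ γ γ', κ (γ * γ') = κ γ + κ γ' := by
    intro σ τ
    funext z
    apply Gg_inj (hx z)
    rw [← hκ, Pi.add_apply, Gg_add]
    change (σ : L ≃ₐ[ℚ] L) ((τ : L ≃ₐ[ℚ] L) (x z)) = _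
    rw [hκ τ z, map_mul, Gg_map, hκ σ z]
    ring
  obtain ⟨γ, hγ⟩ := select κ hmul (fun j => e j + κ₀ j) (by
    intro c hc
    obtain ⟨X, hX⟩ : ∃ X : L, X = ∏ j, if c j = 0 then 1 else x j := ⟨_, rfl⟩
    have hX0 : X ≠ 0 := by
      rw [hX]
      refine Finset.prod_ne_zero_iff.2 fun j _ => ?_
      split_ifs
      · exact one_ne_zero
      · exact hx j
    have hfix : ∀ γ : L ≃ₐ[ℚ] L, actH K L γ = 1 → γ X = X := by
      intro γ hγ
      have h3 := Gg_prod x c γ (κ ⟨γ, hγ⟩) (hκ ⟨γ, hγ⟩)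
      rw [hc ⟨γ, hγ⟩, Gg_zero, one_mul, ← hX] at h3
      exact h3
    have h4 : ∑ j, c j * e j = 0 := by
      refine hrel c fun γ hγ => ?_
      have h3 := hfix γ hγ
      rw [hX] at h3
      exact h3
    have h5 := Gg_prod x c g₀ κ₀ hκ₀
    rw [← hX] at h5
    have h6 := Gg_pow h5 m
    rw [hfix (g₀ ^ m) (by rw [map_pow, hg])] at h6
    have h7 : (m : ZMod 2) * ∑ j, c j * κ₀ j = 0 := by
      apply Gg_inj hX0
      rw [← h6, Gg_zero, one_mul]
    have hm1 : (m : ZMod 2) = 1 := by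
      obtain ⟨t, rfl⟩ := hm
      push_cast
      rw [show (2 : ZMod 2) = 0 from rfl, zero_mul, zero_add]
    rw [hm1, one_mul] at h7
    have h8 : ∑ j, c j * (e j + κ₀ j) = ∑ j, c j * e j + ∑ j, c j * κ₀ j := by
      rw [← Finset.sum_add_distrib]
      exact Finset.sum_congr rfl fun j _ => mul_add _ _ _
    rw [h8, h4, h7, add_zero])
  refine ⟨(γ : L ≃ₐ[ℚ] L) * g₀, ?_, fun j => ?_⟩
  · rw [map_mul]
    have h3 : actH K L (γ : L ≃ₐ[ℚ] L) = 1 := γ.2
    rw [h3, one_mul]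
  · change (γ : L ≃ₐ[ℚ] L) (g₀ (x j)) = _
    rw [hκ₀, map_mul, Gg_map, hκ γ j, congrFun hγ j]
    have h3 : Gg_e L (κ₀ j) * Gg_e L (κ₀ j) = 1 := by
      rcases Gg_cases (κ₀ j) with h | h
      · rw [h, Gg_zero, one_mul]
      · rw [h, Gg_one]; norm_num
    rw [Gg_add]
    have h4 : Gg_e L (κ₀ j) * (Gg_e L (e j) * Gg_e L (κ₀ j) * x j)
        = Gg_e L (e j) * (Gg_e L (κ₀ j) * Gg_e L (κ₀ j)) * x j := by ring
    rw [h4, h3, mul_one]
    rcases Gg_cases (e j) with h | h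
    · rw [h, Gg_zero, one_mul, if_pos rfl]
    · rw [h, Gg_one, neg_one_mul, if_neg (by decide)]

end H88T7
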