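import Pool.Agent.H88.T7.Gf
import Pool.Agent.H88.T7.Gg

/-!
ROW Gh (project MP_78d38b_T7, about 220 lines): the automorphism for the primes with three places.

PROOF. `sel_gen` with `m = finrank - 2` (odd), `J = {z // z ∈ Z} ⊕ {z // z ∈ Z} ⊕ {z // z ∈ Z} ⊕ {ρ // ρ ∈ R}` (or
`J = ({z // z ∈ Z} × Fin 3) ⊕ {ρ // ρ ∈ R}`) and `x (z, 1) = r z σ₁`, `x (z, 2) = r z σ₂`, `x (z, 3) = ∏ σ ∈ O, r z σ`
with `O = univ \ {σ₁, σ₂}`, `x ρ = s ρ`; `e (z, 1) = Φ₁ z`, `e (z, 2) = Φ₂ z`, `e (z, 3) = Φ₁ z + Φ₂ z`, `e ρ = Ψ ρ`.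
`x ≠ 0`: their squares are nonzero (`rep_ne`). Signs under `γ` with `actH γ = 1`: the squares of the `x j` are fixed (`fix_emb`), and for
`g₀`: `g₀ (σ₁ y) = (actH g₀ σ₁) y = σ₁ y`, the same for `σ₂`; `g₀` permutes the factors `σ (rep z)`, `σ ∈ O` (`actH g₀` maps `O` to itself),
so the square of `x (z, 3)` is fixed; `a^2 = b^2` implies `a = ± b`.
hrel: let `c` be given and `X = ∏ (if c j = 0 then 1 else x j)` be fixed by all `γ` with `actH γ = 1`. Put `u_i = ∏ z, (if c (z,i) = 0 then 1 else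
rep z) ∈ K`, `z_i = ∑ z, (if c (z, i) = 0 then 0 else z)`, `sc u_i = z_i` (as `Ck_sc` in `H93/T1/Ck.lean`, `sc_rep`), `nm K z_i = 0` (`hZ`);
`q = ∏ ρ, (if c ρ = 0 then 1 else rep ρ) ∈ ℚ`, `sc q = ρ₀ = ∑ ..`. `X^2 = σ₁ u₁ * σ₂ u₂ * (∏ σ ∈ O, σ u₃) * q`, and
`∏ σ ∈ O, σ u₃ = N(u₃) / (σ₁ u₃ * σ₂ u₃)` (`norm_prod`), `N(u₃) = q₃^2` (`nm_sq`). So `T = X * σ₁ u₃ * σ₂ u₃ / q₃` is fixed by the
kernel and `T^2 = σ₁ (u₁ u₃) * σ₂ (u₂ u₃) * q`. `rel3` for `u = u₁ u₃`, `u' = u₂ u₃`, `ρ = q`: `z₁ + z₃ = 0`, `z₂ + z₃ = 0`, `ρ₀ = 0` or `ρ₀ = sc Δ`.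
Then `∑ c j e j = Φ₁ z₁ + Φ₂ z₂ + (Φ₁ + Φ₂) z₃ + Ψ ρ₀ = Φ₁ (z₁ + z₃) + Φ₂ (z₂ + z₃) + Ψ ρ₀ = 0` (`map_sum`, `hΨ`; `c j * e j =
if c j = 0 then 0 else e j` in `ZMod 2`).
-/

set_option autoImplicit false
set_option linter.unusedSectionVars false
open scoped Classical

open WithZero NumberField IsDedekindDomain H38RT
open H38T1 (SC sc rep eo la si Pri OddP LD XX XX' NS ov rp SqMod)

namespace H88T7

variable {K L : Type} [Field K] [NumberField K] [Field L] [NumberField L]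

private lemma Gh_cases (e : ZMod 2) : e = 0 ∨ e = 1 := by
  revert e; decide

private lemma Gh_prod {F : Type} [Field F] {ι : Type*} (s : Finset ι) (f : ι → F)
    (hf : ∀ i, f i ≠ 0) : sc (∏ i ∈ s, f i) = ∑ i ∈ s, sc (f i) := by
  induction s using Finset.induction_on with
  | empty =>
    rw [Finset.prod_empty, Finset.sum_empty, H38T1.sc_eq_zero one_ne_zero]
    exact ⟨1, by rw [one_mul]⟩
  | insert a s ha ih =>
    rw [Finset.prod_insert ha, Finset.sum_insert ha,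
      H38T1.sc_mul (hf a) (Finset.prod_ne_zero_iff.2 fun i _ => hf i), ih]

private lemma Gh_ne {F : Type} [Field F] (Z : Finset (SC F)) (c : {z // z ∈ Z} → ZMod 2) :
    (∏ z : {z // z ∈ Z}, if c z = 0 then (1 : F) else rep z.1) ≠ 0 := by
  apply Finset.prod_ne_zero_iff.2
  intro z _
  split_ifs
  · exact one_ne_zero
  · exact H38T1.rep_ne _

private lemma Gh_sc {F : Type} [Field F] (Z : Finset (SC F)) (c : {z // z ∈ Z} → ZMod 2) :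
    sc (∏ z : {z // z ∈ Z}, if c z = 0 then (1 : F) else rep z.1) =
      ∑ z : {z // z ∈ Z}, if c z = 0 then 0 else z.1 := by
  rw [Gh_prod]
  · refine Finset.sum_congr rfl fun z _ => ?_
    split_ifs
    · rw [H38T1.sc_eq_zero one_ne_zero]
      exact ⟨1, by rw [one_mul]⟩
    · exact H38T1.sc_rep _
  · intro z
    split_ifs
    · exact one_ne_zero
    · exact H38T1.rep_ne _

private lemma Gh_phi {F : Type} [Field F] (Z : Finset (SC F)) (c : {z // z ∈ Z} → ZMod 2)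
    (Φ : SC F →+ ZMod 2) :
    ∑ z : {z // z ∈ Z}, c z * Φ z.1 =
      Φ (sc (∏ z : {z // z ∈ Z}, if c z = 0 then (1 : F) else rep z.1)) := by
  rw [Gh_sc, map_sum]
  refine Finset.sum_congr rfl fun z _ => ?_
  rcases Gh_cases (c z) with h | h
  · rw [if_pos h, h, zero_mul, map_zero]
  · rw [if_neg (by rw [h]; decide), h, one_mul]

private lemma Gh_sq {ι : Type*} [Fintype ι] {M N : Type*} [CommMonoid M] [CommMonoid N] (f : M →* N)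
    (c : ι → ZMod 2) (a : ι → N) (b : ι → M) (h : ∀ i, a i ^ 2 = f (b i)) :
    (∏ i, if c i = 0 then 1 else a i) ^ 2 = f (∏ i, if c i = 0 then 1 else b i) := by
  rw [← Finset.prod_pow, map_prod]
  refine Finset.prod_congr rfl fun i _ => ?_
  split_ifs
  · rw [one_pow, map_one]
  · exact h i

private lemma Gh_pm {g : L ≃ₐ[ℚ] L} {x y : L} (h : x ^ 2 = y) (hg : g y = y) :
    g x = x ∨ g x = - x := by
  apply sq_eq_sq_iff_eq_or_eq_neg.1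
  rw [← map_pow, h, hg]

theorem sel1 (hodd : Odd (Module.finrank ℚ K)) (h3 : 3 ≤ Module.finrank ℚ K) (hL : GenL K L) {Δ : ℤ}
    (hΔ : Δ ≠ 0) {δ : L} (hδ : IsDel K L Δ δ) (Z : Finset (SC K)) (hZ : ∀ z ∈ Z, nm K z = 0)
    (R : Finset (SC ℚ)) (Φ₁ Φ₂ : SC K →+ ZMod 2) (Ψ : SC ℚ →+ ZMod 2) (hΨ : Ψ (sc (Δ : ℚ)) = 0)
    {σ₁ σ₂ : K →ₐ[ℚ] L} (hne : σ₁ ≠ σ₂) {g₀ : L ≃ₐ[ℚ] L} (h1 : actH K L g₀ σ₁ = σ₁)
    (h2 : actH K L g₀ σ₂ = σ₂) (hm : (actH K L g₀) ^ (Module.finrank ℚ K - 2) = 1)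
    (r : SC K → (K →ₐ[ℚ] L) → L) (hr : ∀ z ∈ Z, ∀ σ, r z σ ^ 2 = σ (rep z)) (s : SC ℚ → L)
    (hs : ∀ ρ ∈ R, s ρ ^ 2 = algebraMap ℚ L (rep ρ)) :
    ∃ φ : L ≃ₐ[ℚ] L, actH K L φ = actH K L g₀ ∧
      (∀ z ∈ Z, (φ (r z σ₁) = if Φ₁ z = 0 then r z σ₁ else - r z σ₁) ∧
        (φ (r z σ₂) = if Φ₂ z = 0 then r z σ₂ else - r z σ₂) ∧
        (φ (∏ σ ∈ Finset.univ \ {σ₁, σ₂}, r z σ) = if Φ₁ z + Φ₂ z = 0 then
          ∏ σ ∈ Finset.univ \ {σ₁, σ₂}, r z σ else - ∏ σ ∈ Finset.univ \ {σ₁, σ₂}, r z σ)) ∧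
      ∀ ρ ∈ R, φ (s ρ) = if Ψ ρ = 0 then s ρ else - s ρ := by
  obtain ⟨O, hO⟩ : ∃ O : Finset (K →ₐ[ℚ] L), O = Finset.univ \ {σ₁, σ₂} := ⟨_, rfl⟩
  rw [← hO]
  -- the product over `O` as a homomorphism
  obtain ⟨π, hπ⟩ : ∃ π : K →* L, ∀ u, π u = ∏ σ ∈ O, σ u :=
    ⟨{ toFun := fun u => ∏ σ ∈ O, σ u
       map_one' := by simp
       map_mul' := fun u v => by simp [Finset.prod_mul_distrib] }, fun u => rfl⟩
  have hπn : ∀ u, π u * (σ₁ u * σ₂ u) = algebraMap ℚ L (Algebra.norm ℚ u) := by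
    intro u
    rw [← norm_prod hL.toBigL u, hπ, hO, ← Finset.prod_pair (f := fun σ : K →ₐ[ℚ] L => σ u) hne]
    exact Finset.prod_sdiff (Finset.subset_univ _)
  have hπ3 : ∀ z ∈ Z, (∏ σ ∈ O, r z σ) ^ 2 = π (rep z) := by
    intro z hz
    rw [hπ, ← Finset.prod_pow]
    exact Finset.prod_congr rfl fun σ _ => hr z hz σ
  have hπg : ∀ u, g₀ (π u) = π u := by
    intro u
    rw [hπ, map_prod]
    apply Finset.prod_equiv (actH K L g₀)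
    · intro σ
      rw [hO]
      simp only [Finset.mem_sdiff, Finset.mem_univ, true_and, Finset.mem_insert,
        Finset.mem_singleton, not_or]
      have e1 : actH K L g₀ σ = σ₁ ↔ σ = σ₁ := by
        nth_rewrite 1 [← h1]
        exact (actH K L g₀).injective.eq_iff
      have e2 : actH K L g₀ σ = σ₂ ↔ σ = σ₂ := by
        nth_rewrite 1 [← h2]
        exact (actH K L g₀).injective.eq_iff
      rw [e1, e2]
    · intro σ _
      rfl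
  have hπk : ∀ γ : L ≃ₐ[ℚ] L, actH K L γ = 1 → ∀ u, γ (π u) = π u := by
    intro γ hγ u
    rw [hπ, map_prod]
    exact Finset.prod_congr rfl fun σ _ => fix_emb hγ σ u
  have hπ0 : ∀ u, u ≠ 0 → π u ≠ 0 := by
    intro u hu
    rw [hπ]
    exact Finset.prod_ne_zero_iff.2 fun σ _ => (map_ne_zero σ).2 hu
  have hg1 : ∀ y, g₀ (σ₁ y) = σ₁ y := fun y => by
    have := congrArg (fun τ : K →ₐ[ℚ] L => τ y) h1
    exact this
  have hg2 : ∀ y, g₀ (σ₂ y) = σ₂ y := fun y => by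
    have := congrArg (fun τ : K →ₐ[ℚ] L => τ y) h2
    exact this
  have hsq0 : ∀ {a b : L}, a ^ 2 = b → b ≠ 0 → a ≠ 0 := by
    intro a b hab hb ha
    apply hb
    rw [← hab, ha, zero_pow two_ne_zero]
  have hmodd : Odd (Module.finrank ℚ K - 2) := by
    obtain ⟨k, hk⟩ := hodd
    exact ⟨k - 1, by omega⟩
  obtain ⟨φ, hφ, hj⟩ := sel_gen (K := K) (L := L) (g₀ := g₀) hmodd hm
    (J := {z // z ∈ Z} ⊕ ({z // z ∈ Z} ⊕ ({z // z ∈ Z} ⊕ {ρ // ρ ∈ R})))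
    (Sum.elim (fun z => r z.1 σ₁) (Sum.elim (fun z => r z.1 σ₂)
      (Sum.elim (fun z => ∏ σ ∈ O, r z.1 σ) (fun ρ => s ρ.1)))) (by
      rintro (z | z | z | ρ)
      · exact hsq0 (hr z.1 z.2 σ₁) ((map_ne_zero σ₁).2 (H38T1.rep_ne _))
      · exact hsq0 (hr z.1 z.2 σ₂) ((map_ne_zero σ₂).2 (H38T1.rep_ne _))
      · exact hsq0 (hπ3 z.1 z.2) (hπ0 _ (H38T1.rep_ne _))
      · exact hsq0 (hs ρ.1 ρ.2) ((map_ne_zero (algebraMap ℚ L)).2 (H38T1.rep_ne _))) (by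
      intro γ hγ
      rintro (z | z | z | ρ)
      · exact Gh_pm (hr z.1 z.2 σ₁) (fix_emb hγ σ₁ _)
      · exact Gh_pm (hr z.1 z.2 σ₂) (fix_emb hγ σ₂ _)
      · exact Gh_pm (hπ3 z.1 z.2) (hπk γ hγ _)
      · exact Gh_pm (hs ρ.1 ρ.2) (γ.commutes _)) (by
      rintro (z | z | z | ρ)
      · exact Gh_pm (hr z.1 z.2 σ₁) (hg1 _)
      · exact Gh_pm (hr z.1 z.2 σ₂) (hg2 _)
      · exact Gh_pm (hπ3 z.1 z.2) (hπg _)
      · exact Gh_pm (hs ρ.1 ρ.2) (g₀.commutes _))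
    (Sum.elim (fun z => Φ₁ z.1) (Sum.elim (fun z => Φ₂ z.1)
      (Sum.elim (fun z => Φ₁ z.1 + Φ₂ z.1) (fun ρ => Ψ ρ.1)))) (by
      intro c hfix
      simp only [Fintype.prod_sum_type, Sum.elim_inl, Sum.elim_inr] at hfix
      simp only [Fintype.sum_sum_type, Sum.elim_inl, Sum.elim_inr]
      obtain ⟨c1, hc1⟩ : ∃ c1 : {z // z ∈ Z} → ZMod 2, ∀ z, c (Sum.inl z) = c1 z := ⟨_, fun z => rfl⟩
      obtain ⟨c2, hc2⟩ : ∃ c2 : {z // z ∈ Z} → ZMod 2, ∀ z, c (Sum.inr (Sum.inl z)) = c2 z :=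
        ⟨_, fun z => rfl⟩
      obtain ⟨c3, hc3⟩ : ∃ c3 : {z // z ∈ Z} → ZMod 2, ∀ z,
        c (Sum.inr (Sum.inr (Sum.inl z))) = c3 z := ⟨_, fun z => rfl⟩
      obtain ⟨c4, hc4⟩ : ∃ c4 : {ρ // ρ ∈ R} → ZMod 2, ∀ z,
        c (Sum.inr (Sum.inr (Sum.inr z))) = c4 z := ⟨_, fun z => rfl⟩
      simp only [hc1, hc2, hc3, hc4] at hfix ⊢
      have f1 := Gh_phi Z c1 Φ₁
      have f2 := Gh_phi Z c2 Φ₂
      have f3 : ∑ z : {z // z ∈ Z}, c3 z * (Φ₁ z.1 + Φ₂ z.1) =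
          (Φ₁ + Φ₂) (sc (∏ z : {z // z ∈ Z}, if c3 z = 0 then (1 : K) else rep z.1)) :=
        Gh_phi Z c3 (Φ₁ + Φ₂)
      have f4 := Gh_phi R c4 Ψ
      rw [f1, f2, f3, f4]
      have n1 := Gh_ne Z c1
      have n2 := Gh_ne Z c2
      have n3 := Gh_ne Z c3
      have n4 := Gh_ne R c4
      have hnm : ∀ c : {z // z ∈ Z} → ZMod 2,
          nm K (sc (∏ z : {z // z ∈ Z}, if c z = 0 then (1 : K) else rep z.1)) = 0 := by
        intro c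
        rw [Gh_sc, map_sum]
        apply Finset.sum_eq_zero
        intro z _
        split_ifs
        · rw [map_zero]
        · exact hZ z.1 z.2
      have m1 := hnm c1
      have m2 := hnm c2
      have m3 := hnm c3
      have s1' : (∏ z : {z // z ∈ Z}, if c1 z = 0 then 1 else r z.1 σ₁) ^ 2 =
          σ₁ (∏ z : {z // z ∈ Z}, if c1 z = 0 then (1 : K) else rep z.1) :=
        Gh_sq ((σ₁ : K →+* L) : K →* L) c1 (fun z => r z.1 σ₁) (fun z => rep z.1)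
          (fun z => hr z.1 z.2 σ₁)
      have s2' : (∏ z : {z // z ∈ Z}, if c2 z = 0 then 1 else r z.1 σ₂) ^ 2 =
          σ₂ (∏ z : {z // z ∈ Z}, if c2 z = 0 then (1 : K) else rep z.1) :=
        Gh_sq ((σ₂ : K →+* L) : K →* L) c2 (fun z => r z.1 σ₂) (fun z => rep z.1)
          (fun z => hr z.1 z.2 σ₂)
      have s3' : (∏ z : {z // z ∈ Z}, if c3 z = 0 then 1 else ∏ σ ∈ O, r z.1 σ) ^ 2 =
          π (∏ z : {z // z ∈ Z}, if c3 z = 0 then (1 : K) else rep z.1) :=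
        Gh_sq π c3 (fun z => ∏ σ ∈ O, r z.1 σ) (fun z => rep z.1) (fun z => hπ3 z.1 z.2)
      have s4' : (∏ z : {ρ // ρ ∈ R}, if c4 z = 0 then 1 else s z.1) ^ 2 =
          algebraMap ℚ L (∏ z : {ρ // ρ ∈ R}, if c4 z = 0 then (1 : ℚ) else rep z.1) :=
        Gh_sq ((algebraMap ℚ L : ℚ →+* L) : ℚ →* L) c4 (fun ρ => s ρ.1) (fun z => rep z.1)
          (fun z => hs z.1 z.2)
      obtain ⟨X1, hX1⟩ : ∃ X1, X1 = ∏ z : {z // z ∈ Z}, if c1 z = 0 then 1 else r z.1 σ₁ := ⟨_, rfl⟩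
      obtain ⟨X2, hX2⟩ : ∃ X1, X1 = ∏ z : {z // z ∈ Z}, if c2 z = 0 then 1 else r z.1 σ₂ := ⟨_, rfl⟩
      obtain ⟨X3, hX3⟩ : ∃ X1, X1 = ∏ z : {z // z ∈ Z}, if c3 z = 0 then 1 else ∏ σ ∈ O, r z.1 σ :=
        ⟨_, rfl⟩
      obtain ⟨X4, hX4⟩ : ∃ X1, X1 = ∏ z : {ρ // ρ ∈ R}, if c4 z = 0 then 1 else s z.1 := ⟨_, rfl⟩
      rw [← hX1] at s1'
      rw [← hX2] at s2'
      rw [← hX3] at s3'
      rw [← hX4] at s4'
      simp only [← hX1, ← hX2, ← hX3, ← hX4] at hfix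
      generalize (∏ z : {z // z ∈ Z}, if c1 z = 0 then (1 : K) else rep z.1) = u1 at *
      generalize (∏ z : {z // z ∈ Z}, if c2 z = 0 then (1 : K) else rep z.1) = u2 at *
      generalize (∏ z : {z // z ∈ Z}, if c3 z = 0 then (1 : K) else rep z.1) = u3 at *
      generalize (∏ z : {ρ // ρ ∈ R}, if c4 z = 0 then (1 : ℚ) else rep z.1) = q at *
      obtain ⟨q3, hq3, hN⟩ := nm_sq n3 m3
      have hn3 := hπn u3
      rw [hN, map_pow] at hn3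
      have hq3' : algebraMap ℚ L q3 ≠ 0 := (map_ne_zero (algebraMap ℚ L)).2 hq3
      have hS : SqT K L (σ₁ (u1 * u3) * σ₂ (u2 * u3) * algebraMap ℚ L q) := by
        refine ⟨?_, (X1 * (X2 * (X3 * X4))) * σ₁ u3 * σ₂ u3 / algebraMap ℚ L q3, ?_, ?_⟩
        · exact mul_ne_zero (mul_ne_zero ((map_ne_zero σ₁).2 (mul_ne_zero n1 n3))
            ((map_ne_zero σ₂).2 (mul_ne_zero n2 n3))) ((map_ne_zero (algebraMap ℚ L)).2 n4)
        · rw [div_pow, div_eq_iff (pow_ne_zero 2 hq3'), map_mul, map_mul, ← hn3]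
          have e1 : (X1 * (X2 * (X3 * X4)) * σ₁ u3 * σ₂ u3) ^ 2 =
            X1 ^ 2 * X2 ^ 2 * X3 ^ 2 * X4 ^ 2 * (σ₁ u3) ^ 2 * (σ₂ u3) ^ 2 := by ring
          rw [e1, s1', s2', s3', s4']
          ring
        · intro γ hγ
          rw [map_div₀, map_mul, map_mul, hfix γ hγ, fix_emb hγ, fix_emb hγ, γ.commutes]
      have hmm : nm K (sc (u1 * u3)) = 0 := by
        rw [H38T1.sc_mul n1 n3, map_add, m1, m3, add_zero]
      have hmm' : nm K (sc (u2 * u3)) = 0 := by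
        rw [H38T1.sc_mul n2 n3, map_add, m2, m3, add_zero]
      obtain ⟨t1, t2, t3⟩ := rel3 hodd h3 hL hΔ hδ (mul_ne_zero n1 n3) (mul_ne_zero n2 n3) n4 hne
        hmm hmm' hS
      rw [H38T1.sc_mul n1 n3] at t1
      rw [H38T1.sc_mul n2 n3] at t2
      have w1 := congrArg Φ₁ t1
      have w2 := congrArg Φ₂ t2
      rw [map_add, map_zero] at w1 w2
      have w3 : Ψ (sc q) = 0 := by
        rcases t3 with t3 | t3
        · rw [t3, map_zero]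
        · rw [t3, hΨ]
      rw [w3, add_zero, AddMonoidHom.add_apply]
      calc Φ₁ (sc u1) + (Φ₂ (sc u2) + (Φ₁ (sc u3) + Φ₂ (sc u3))) =
          (Φ₁ (sc u1) + Φ₁ (sc u3)) + (Φ₂ (sc u2) + Φ₂ (sc u3)) := by ring
        _ = 0 := by rw [w1, w2, add_zero])
  refine ⟨φ, hφ, fun z hz => ⟨?_, ?_, ?_⟩, fun ρ hρ => ?_⟩
  · exact hj (Sum.inl ⟨z, hz⟩)
  · exact hj (Sum.inr (Sum.inl ⟨z, hz⟩))
  · exact hj (Sum.inr (Sum.inr (Sum.inl ⟨z, hz⟩)))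
  · exact hj (Sum.inr (Sum.inr (Sum.inr ⟨ρ, hρ⟩)))

end H88T7
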