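import Pool.Agent.H88.T7.Gb
import Pool.Agent.H88.T7.Gc
import Pool.Agent.H88.T7.Gh
import Pool.Agent.H88.T7.Gk
import Pool.Agent.H88.T7.Gm
import Pool.Agent.H88.T7.Gn
import Pool.Agent.H88.T7.Gx
import Pool.Agent.H88.T7.Gq
import Pool.Agent.H93.T1.Cf

/-!
ROW Go (project MP_78d38b_T7, about 230 lines): infinitely many primes with three places, assembly.

PROOF. `N = finrank ℚ K` is odd (`hB.odd`) and not one (a field of degree one is Galois: `hng`), so `N ≥ 3`. `exists_bigL K Z R`: `L`,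
`BigL`, roots `r z σ` (`z ∈ Z`), `s ρ` (`ρ ∈ R`), even permutations (`hA`); `two_of`: `GenL K L`; `exists_del`: `δ`; `NumberField.discr_ne_zero`.
Choose `σ₁ ≠ σ₂` (`N ≥ 3` embeddings) and `σ₃` different from both. `exists_cyc` for `α = (K →ₐ[ℚ] L)`, `a = σ₁`, `b = σ₂`: `π`; `g₀` with `actH g₀ = π`
(`hL.alt`). `sel1`: `φ₀` with `actH φ₀ = π` and the signs. `H93T1.frob_inf φ₀`: infinitely many `p` with `j`, `w`: `rp w = p`
(`H38T1.mem_iff_eq`), `φ = φ₀^j`, `IsFb φ w`. Remove the finitely many `p` with `p ∈ B` or such that for a place `v` of `K` above `p` and some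
`z ∈ Z ∪ res K '' R` `v.valuation K (rep z) ≠ 1` (finiteness: `fin_bad` for `rep z ≠ 0`, see `Pool/Agent/H93/T1/Ca.lean`: `Ca_fin`, and how
`cheb_gen` removes them; `Set.Infinite.sdiff`, `Set.Infinite.mono`). For the remaining `p`: `p ≠ 2` (`hB.two`), `hun` from `hB.unr`.
`v_i = pl σ_i w`. `pow_cyc`: `SameCycle` and `minimalPeriod` of `actH φ` are those of `π`: `σ₁`, `σ₂` are fixed (period one, only in
`SameCycle` with themselves), all other embeddings form one cycle of period `N - 2`. `geom`: `v₁, v₂, v₃` are different, every place above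
`p` is `pl σ w` (`pl_surj`) and so one of them (`ov K {p}`: `H38T1.mem_ov`, `rp_pl`); residue degrees `1, 1, N - 2`, odd: `Nice K p`.
`z ∈ Z`: `leg7` for `σ₁`, `f = 1`: `φ (r z σ₁) = ± r z σ₁` by `pow_sign`; the same for `σ₂`; for `σ₃`, `f = N - 2`: `pow_sign` for
`x = ∏ σ ∈ univ \ {σ₁, σ₂}, r z σ` and `cyc_sign` for `φ` with `O = univ \ {σ₁, σ₂}`.
`ρ ∈ R`, `v = v_i = pl σ w`, `σ = σ_i`, `f` its period (odd): `rep (res K ρ) = algebraMap ℚ K (rep ρ) * y^2` for some `y ≠ 0` (`res_sc`,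
`sc_rep`, `H38T1.rep_sc`), so `r' = s ρ * σ y` has `r'^2 = σ (rep (res K ρ))`; `φ^f (s ρ) = (-1)^(f e) s ρ = (-1)^e s ρ`, `e = Ψ ρ` (`pow_sign`, `f` odd),
`φ^f (σ y) = σ y`: `leg7`.
-/

set_option autoImplicit false
set_option linter.unusedSectionVars false
open scoped Classical

open WithZero NumberField IsDedekindDomain H38RT
open H38T1 (SC sc rep eo la si Pri OddP LD XX XX' NS ov rp SqMod)

namespace H88T7

/-- Only finitely many rational primes lie below a finite set of places. -/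
private lemma Go_fin {K : Type} [Field K] [NumberField K] {S : Set (HeightOneSpectrum (𝓞 K))}
    (hS : S.Finite) : {p : ℕ | p.Prime ∧ ∃ v ∈ S, (p : 𝓞 K) ∈ v.asIdeal}.Finite := by
  refine (hS.image rp).subset ?_
  rintro p ⟨hp, v, hv, hpv⟩
  exact ⟨v, hv, (H38T1.mem_iff_eq hp).1 hpv⟩

private lemma Go_odd {L : Type} [Field L] [NumberField L] {φ : L ≃ₐ[ℚ] L} {x : L} {e : ZMod 2}
    (h : φ x = if e = 0 then x else - x) {m : ℕ} (hm : Odd m) :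
    (φ ^ m) x = if e = 0 then x else - x := by
  obtain ⟨k, rfl⟩ := hm
  have h2 : φ (φ x) = x := by
    by_cases he : e = 0
    · rw [if_pos he] at h
      rw [h, h]
    · rw [if_neg he] at h
      rw [h, map_neg, h, neg_neg]
  have h3 : ∀ k : ℕ, (φ ^ (2 * k)) x = x := by
    intro k
    induction k with
    | zero => rw [mul_zero, pow_zero]; rfl
    | succ k ih =>
      have h4 : φ ^ (2 * (k + 1)) = φ ^ (2 * k) * (φ * φ) := by
        rw [mul_add, pow_add, mul_one, pow_two]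
      rw [h4, AlgEquiv.mul_apply, AlgEquiv.mul_apply, h2, ih]
  have h5 : φ ^ (2 * k + 1) = φ * φ ^ (2 * k) := by rw [pow_succ']
  rw [h5, AlgEquiv.mul_apply, h3, h]

private lemma Go_per {K L : Type} [Field K] [NumberField K] [Field L] [NumberField L]
    {φ : L ≃ₐ[ℚ] L} (σ : K →ₐ[ℚ] L) :
    ((actH K L φ) ^ (Function.minimalPeriod (actH K L φ) σ)) σ = σ := by
  have h1 := Function.iterate_minimalPeriod (f := actH K L φ) (x := σ)
  rwa [Equiv.Perm.iterate_eq_pow] at h1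

/-- The Legendre classes of the restricted classes. -/
private lemma Go_res {K L : Type} [Field K] [NumberField K] [Field L] [NumberField L]
    {w : HeightOneSpectrum (𝓞 L)} {φ : L ≃ₐ[ℚ] L} (hφ : IsFb φ w) (h2 : rp w ≠ 2)
    (σ : K →ₐ[ℚ] L)
    (hin : (pl σ w).asIdeal.inertiaDeg ℤ = Function.minimalPeriod (actH K L φ) σ)
    (hodd : Odd (Function.minimalPeriod (actH K L φ) σ)) {ρ : SC ℚ} {e : ZMod 2} {s : L}
    (hs : s ^ 2 = algebraMap ℚ L (rep ρ)) (h : φ s = if e = 0 then s else - s)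
    (hu : (pl σ w).valuation K (rep (res K ρ)) = 1) : la (pl σ w) (res K ρ) = e := by
  have h0 : algebraMap ℚ K (rep ρ) ≠ 0 := (map_ne_zero _).2 (H38T1.rep_ne ρ)
  have h1 : res K ρ = sc (algebraMap ℚ K (rep ρ)) := by
    rw [← res_sc (H38T1.rep_ne ρ), H38T1.sc_rep]
  obtain ⟨y, hy, h3⟩ := H38T1.rep_sc h0
  rw [← h1] at h3
  have hr : (s * σ y) ^ 2 = σ (rep (res K ρ)) := by
    rw [mul_pow, hs, h3, map_mul, map_pow, AlgHom.commutes]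
  have hp := Go_per (φ := φ) σ
  have h4 : (φ ^ (Function.minimalPeriod (actH K L φ) σ)) (σ y) = σ y := by
    rw [← map_pow] at hp
    have h5 := congrArg (fun τ : K →ₐ[ℚ] L => τ y) hp
    exact h5
  refine (leg7 hφ h2 σ (f := Function.minimalPeriod (actH K L φ) σ) hin.symm hodd.pos hp hr ?_
    hu).2
  rw [map_mul, h4, Go_odd h hodd]
  split_ifs
  · rfl
  · rw [neg_mul]

private lemma Go_core {K L : Type} [Field K] [NumberField K] [Field L] [NumberField L]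
    (hodd : Odd (Module.finrank ℚ K)) (h3 : 3 ≤ Module.finrank ℚ K) (hL : GenL K L)
    (Z : Finset (SC K)) (R : Finset (SC ℚ)) (Φ₁ Φ₂ : SC K →+ ZMod 2)
    (Ψ : SC ℚ →+ ZMod 2) {σ₁ σ₂ σ₃ : K →ₐ[ℚ] L} (hne : σ₁ ≠ σ₂) (h31 : σ₃ ≠ σ₁) (h32 : σ₃ ≠ σ₂)
    {φ₀ : L ≃ₐ[ℚ] L} (h1 : actH K L φ₀ σ₁ = σ₁) (h2 : actH K L φ₀ σ₂ = σ₂)
    (hsc : ∀ x y : K →ₐ[ℚ] L, x ≠ σ₁ → x ≠ σ₂ → y ≠ σ₁ → y ≠ σ₂ → (actH K L φ₀).SameCycle x y)
    (hmp : ∀ x : K →ₐ[ℚ] L, x ≠ σ₁ → x ≠ σ₂ →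
      Function.minimalPeriod (actH K L φ₀) x = Module.finrank ℚ K - 2)
    (r : SC K → (K →ₐ[ℚ] L) → L) (hr : ∀ z ∈ Z, ∀ σ, r z σ ^ 2 = σ (rep z)) (s : SC ℚ → L)
    (hs : ∀ ρ ∈ R, s ρ ^ 2 = algebraMap ℚ L (rep ρ))
    (hZs : ∀ z ∈ Z, (φ₀ (r z σ₁) = if Φ₁ z = 0 then r z σ₁ else - r z σ₁) ∧
        (φ₀ (r z σ₂) = if Φ₂ z = 0 then r z σ₂ else - r z σ₂) ∧
        (φ₀ (∏ σ ∈ Finset.univ \ {σ₁, σ₂}, r z σ) = if Φ₁ z + Φ₂ z = 0 then
          ∏ σ ∈ Finset.univ \ {σ₁, σ₂}, r z σ else - ∏ σ ∈ Finset.univ \ {σ₁, σ₂}, r z σ))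
    (hRs : ∀ ρ ∈ R, φ₀ (s ρ) = if Ψ ρ = 0 then s ρ else - s ρ)
    {p : ℕ} (hp : p.Prime) (hp2 : p ≠ 2) {j : ℕ} (hj : j.Coprime (orderOf φ₀))
    {w : HeightOneSpectrum (𝓞 L)} (hpw : (p : 𝓞 L) ∈ w.asIdeal)
    (hφ : ∀ x : 𝓞 L, (φ₀ ^ j) • x - x ^ p ∈ w.asIdeal)
    (hun : ∀ v : HeightOneSpectrum (𝓞 K), rp v = p → v.asIdeal.ramificationIdx ℤ = 1)
    (hvZ : ∀ v : HeightOneSpectrum (𝓞 K), rp v = p → ∀ z ∈ Z, v.valuation K (rep z) = 1)
    (hvR : ∀ v : HeightOneSpectrum (𝓞 K), rp v = p → ∀ ρ ∈ R,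
      v.valuation K (rep (res K ρ)) = 1) :
    Nice K p ∧ ∃ v₁ v₂ v₃ : HeightOneSpectrum (𝓞 K), v₁ ≠ v₂ ∧ v₁ ≠ v₃ ∧ v₂ ≠ v₃ ∧
      ov K {p} = {v₁, v₂, v₃} ∧ (∀ z ∈ Z, la v₁ z = Φ₁ z ∧ la v₂ z = Φ₂ z ∧ la v₃ z = Φ₁ z + Φ₂ z) ∧
      ∀ r ∈ R, ∀ v ∈ ov K {p}, la v (res K r) = Ψ r := by
  have hrp : rp w = p := (H38T1.mem_iff_eq hp).1 hpw
  have hw2 : rp w ≠ 2 := by rw [hrp]; exact hp2
  have hF : IsFb (φ₀ ^ j) w := by
    intro x
    rw [hrp]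
    exact hφ x
  obtain ⟨hcyc, hper⟩ := pow_cyc (K := K) hj
  obtain ⟨hgeo, hin⟩ := geom hL.toBigL hF (fun v hv => hun v (hv.trans hrp))
  have hrpl : ∀ σ : K →ₐ[ℚ] L, rp (pl σ w) = p := fun σ => (rp_pl σ w).trans hrp
  have hfix1 : ∀ τ : K →ₐ[ℚ] L, (actH K L (φ₀ ^ j)).SameCycle σ₁ τ → σ₁ = τ := fun τ hτ =>
    ((hcyc _ _).1 hτ).eq_of_left h1
  have hfix2 : ∀ τ : K →ₐ[ℚ] L, (actH K L (φ₀ ^ j)).SameCycle σ₂ τ → σ₂ = τ := fun τ hτ =>
    ((hcyc _ _).1 hτ).eq_of_left h2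
  have hm1 : Function.minimalPeriod (actH K L (φ₀ ^ j)) σ₁ = 1 := by
    rw [hper]
    exact Function.minimalPeriod_eq_one_iff_isFixedPt.2 h1
  have hm2 : Function.minimalPeriod (actH K L (φ₀ ^ j)) σ₂ = 1 := by
    rw [hper]
    exact Function.minimalPeriod_eq_one_iff_isFixedPt.2 h2
  have hmodd : ∀ σ : K →ₐ[ℚ] L, Odd (Function.minimalPeriod (actH K L (φ₀ ^ j)) σ) := by
    intro σ
    by_cases ha : σ = σ₁
    · rw [ha, hm1]
      exact odd_one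
    by_cases hb : σ = σ₂
    · rw [hb, hm2]
      exact odd_one
    rw [hper, hmp σ ha hb]
    obtain ⟨k, hk⟩ := hodd
    exact ⟨k - 1, by omega⟩
  have hov : ∀ v : HeightOneSpectrum (𝓞 K), v ∈ ov K {p} ↔ rp v = p := by
    intro v
    rw [H38T1.mem_ov (by
      intro q hq
      rw [Set.mem_singleton_iff] at hq
      rw [hq]
      exact hp), Set.mem_singleton_iff]
  have hsurj : ∀ v : HeightOneSpectrum (𝓞 K), rp v = p → ∃ σ : K →ₐ[ℚ] L, v = pl σ w := fun v hv =>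
    pl_surj hL.toBigL w (hv.trans hrp.symm)
  refine ⟨⟨hp, hp2, ?_⟩, pl σ₁ w, pl σ₂ w, pl σ₃ w, ?_, ?_, ?_, ?_, ?_, ?_⟩
  · intro v hv
    have hv' : rp v = p := (H38T1.mem_iff_eq hp).1 hv
    refine ⟨hun v hv', ?_⟩
    obtain ⟨σ, rfl⟩ := hsurj v hv'
    rw [hin]
    exact hmodd σ
  · intro h
    exact hne (hfix1 _ ((hgeo _ _).1 h))
  · intro h
    exact h31 (hfix1 _ ((hgeo _ _).1 h)).symm
  · intro h
    exact h32 (hfix2 _ ((hgeo _ _).1 h)).symm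
  · ext v
    rw [hov, Set.mem_insert_iff, Set.mem_insert_iff, Set.mem_singleton_iff]
    constructor
    · intro hv
      obtain ⟨σ, rfl⟩ := hsurj v hv
      by_cases ha : σ = σ₁
      · exact Or.inl (by rw [ha])
      by_cases hb : σ = σ₂
      · exact Or.inr (Or.inl (by rw [hb]))
      exact Or.inr (Or.inr ((hgeo _ _).2 ((hcyc _ _).2 (hsc _ _ ha hb h31 h32))))
    · rintro (h | h | h)
      · rw [h, hrpl]
      · rw [h, hrpl]
      · rw [h, hrpl]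
  · intro z hz
    have hr0 : ∀ σ : K →ₐ[ℚ] L, r z σ ≠ 0 := by
      intro σ h
      have h4 := hr z hz σ
      rw [h, zero_pow two_ne_zero] at h4
      exact (map_ne_zero σ).2 (H38T1.rep_ne z) h4.symm
    obtain ⟨ha, hb, hc⟩ := hZs z hz
    refine ⟨?_, ?_, ?_⟩
    · refine (leg7 hF hw2 σ₁ (hin σ₁).symm (hmodd σ₁).pos (Go_per σ₁) (hr z hz σ₁) ?_
        (hvZ _ (hrpl _) z hz)).2
      rw [hm1, pow_one]
      exact pow_sign hj (hr0 σ₁) ha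
    · refine (leg7 hF hw2 σ₂ (hin σ₂).symm (hmodd σ₂).pos (Go_per σ₂) (hr z hz σ₂) ?_
        (hvZ _ (hrpl _) z hz)).2
      rw [hm2, pow_one]
      exact pow_sign hj (hr0 σ₂) hb
    · refine (leg7 hF hw2 σ₃ (hin σ₃).symm (hmodd σ₃).pos (Go_per σ₃) (hr z hz σ₃) ?_
        (hvZ _ (hrpl _) z hz)).2
      refine cyc_sign (O := Finset.univ \ {σ₁, σ₂}) ?_ (H38T1.rep_ne z) (r z)
        (fun τ _ => hr z hz τ) (pow_sign hj (Finset.prod_ne_zero_iff.2 fun τ _ => hr0 τ) hc)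
      intro τ
      rw [Finset.mem_sdiff, Finset.mem_insert, Finset.mem_singleton, not_or]
      constructor
      · rintro ⟨_, h5, h6⟩
        exact (hcyc _ _).2 (hsc _ _ h31 h32 h5 h6)
      · intro h
        refine ⟨Finset.mem_univ _, ?_, ?_⟩
        · rintro rfl
          exact h31 (hfix1 _ h.symm).symm
        · rintro rfl
          exact h32 (hfix2 _ h.symm).symm
  · intro ρ hρ v hv
    rw [hov] at hv
    obtain ⟨σ, rfl⟩ := hsurj v hv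
    have hs0 : s ρ ≠ 0 := by
      intro h
      have h4 := hs ρ hρ
      rw [h, zero_pow two_ne_zero] at h4
      exact (map_ne_zero (algebraMap ℚ L)).2 (H38T1.rep_ne ρ) h4.symm
    exact Go_res hF hw2 σ (hin σ) (hmodd σ) (hs ρ hρ) (pow_sign hj hs0 (hRs ρ hρ))
      (hvR _ hv ρ hρ)

theorem c1_of {K : Type} [Field K] [NumberField K] {B : Finset ℕ}
    (hB : Bas K B (sc (NumberField.discr K : ℚ))) (hng : ¬ IsGalois ℚ K) (hA : AltGal K)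
    (Z : Finset (SC K)) (hZ : ∀ z ∈ Z, nm K z = 0) (R : Finset (SC ℚ)) (Φ₁ Φ₂ : SC K →+ ZMod 2)
    (Ψ : SC ℚ →+ ZMod 2) (hΨ : Ψ (sc (NumberField.discr K : ℚ)) = 0) :
    {p : ℕ | Nice K p ∧ ∃ v₁ v₂ v₃ : HeightOneSpectrum (𝓞 K), v₁ ≠ v₂ ∧ v₁ ≠ v₃ ∧ v₂ ≠ v₃ ∧
      ov K {p} = {v₁, v₂, v₃} ∧ (∀ z ∈ Z, la v₁ z = Φ₁ z ∧ la v₂ z = Φ₂ z ∧ la v₃ z = Φ₁ z + Φ₂ z) ∧
      ∀ r ∈ R, ∀ v ∈ ov K {p}, la v (res K r) = Ψ r}.Infinite := by
  have hodd := hB.odd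
  have hN1 : Module.finrank ℚ K ≠ 1 := by
    intro h
    apply hng
    have h2 : (⊥ : Subalgebra ℚ K) = ⊤ := Subalgebra.bot_eq_top_of_finrank_eq_one h
    have h3 : Function.Surjective (algebraMap ℚ K) := by
      intro x
      have h4 : x ∈ (⊥ : Subalgebra ℚ K) := by
        rw [h2]
        exact Algebra.mem_top
      exact Algebra.mem_bot.1 h4
    exact IsGalois.of_algEquiv (AlgEquiv.ofBijective (Algebra.ofId ℚ K)
      ⟨(algebraMap ℚ K).injective, h3⟩)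
  have h3 : 3 ≤ Module.finrank ℚ K := by
    obtain ⟨k, hk⟩ := hodd
    have h4 : 0 < Module.finrank ℚ K := Module.finrank_pos
    omega
  obtain ⟨L, _, _, hbL, hrZ, hsR, halt⟩ := exists_bigL K Z R
  have hL : GenL K L := two_of hodd hng hbL (halt hA)
  obtain ⟨δ, hδ⟩ := exists_del hbL
  have : IsGalois ℚ L := hbL.gal
  have hcard : Fintype.card (K →ₐ[ℚ] L) = Module.finrank ℚ K := hbL.card
  -- the embeddings
  obtain ⟨σ₁, σ₂, hne⟩ : ∃ σ₁ σ₂ : K →ₐ[ℚ] L, σ₁ ≠ σ₂ :=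
    Fintype.exists_pair_of_one_lt_card (by omega)
  obtain ⟨σ₃, -, h33⟩ : ∃ σ ∈ (Finset.univ : Finset (K →ₐ[ℚ] L)), σ ∉ ({σ₁, σ₂} : Finset _) := by
    apply Finset.exists_mem_notMem_of_card_lt_card
    have h4 := Finset.card_le_two (a := σ₁) (b := σ₂)
    rw [Finset.card_univ]
    omega
  rw [Finset.mem_insert, Finset.mem_singleton, not_or] at h33
  obtain ⟨π, hπ, hπ1, hπ2, hπm, hπs, hπp⟩ := exists_cyc (α := K →ₐ[ℚ] L)
    (by rw [hcard]; exact hodd) hne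
  rw [hcard] at hπm hπp
  obtain ⟨g₀, hg₀⟩ := hL.alt π hπ
  -- the roots
  choose! r hr using hrZ
  choose! s hs using hsR
  obtain ⟨φ₀, hφ₀, hZs, hRs⟩ := sel1 hodd h3 hL (NumberField.discr_ne_zero K) hδ Z hZ R Φ₁ Φ₂ Ψ hΨ
    hne (g₀ := g₀) (by rw [hg₀, hπ1]) (by rw [hg₀, hπ2]) (by rw [hg₀, hπm]) r hr s hs
  rw [hg₀] at hφ₀
  -- the bad primes
  have hbad : {p : ℕ | p ∈ B ∨ (p.Prime ∧ ∃ v ∈ ⋃ z ∈ Z, {v : HeightOneSpectrum (𝓞 K) |
      v.valuation K (rep z) ≠ 1}, (p : 𝓞 K) ∈ v.asIdeal) ∨ (p.Prime ∧ ∃ v ∈ ⋃ ρ ∈ R,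
        {v : HeightOneSpectrum (𝓞 K) | v.valuation K (rep (res K ρ)) ≠ 1},
        (p : 𝓞 K) ∈ v.asIdeal)}.Finite := by
    have h2 : (⋃ z ∈ Z, {v : HeightOneSpectrum (𝓞 K) | v.valuation K (rep z) ≠ 1}).Finite := by
      exact Set.Finite.biUnion Z.finite_toSet fun z _ => fin_bad (H38T1.rep_ne z)
    have h4 : (⋃ ρ ∈ R, {v : HeightOneSpectrum (𝓞 K) |
        v.valuation K (rep (res K ρ)) ≠ 1}).Finite := by
      exact Set.Finite.biUnion R.finite_toSet fun ρ _ => fin_bad (H38T1.rep_ne _)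
    refine ((B.finite_toSet).union ((Go_fin h2).union (Go_fin h4))).subset ?_
    rintro p (h | h | h)
    · exact Or.inl h
    · exact Or.inr (Or.inl h)
    · exact Or.inr (Or.inr h)
  refine ((H93T1.frob_inf φ₀).sdiff hbad).mono ?_
  rintro p ⟨⟨hp, j, w, hj, hpw, hφ⟩, hgood⟩
  have hpB : p ∉ B := fun h => hgood (Or.inl h)
  refine Go_core hodd h3 hL Z R Φ₁ Φ₂ Ψ hne h33.1 h33.2 (φ₀ := φ₀) ?_ ?_ ?_ ?_ r hr s hs hZs hRs hp
    ?_ hj hpw hφ ?_ ?_ ?_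
  · rw [hφ₀, hπ1]
  · rw [hφ₀, hπ2]
  · rw [hφ₀]
    exact hπs
  · rw [hφ₀]
    exact hπp
  · rintro rfl
    exact hpB hB.two
  · intro v hv
    exact hB.unr v (by rw [hv]; exact hpB)
  · intro v hv z hz
    by_contra h
    refine hgood (Or.inr (Or.inl ⟨hp, v, Set.mem_biUnion hz h, ?_⟩))
    exact (H38T1.mem_iff_eq hp).2 hv
  · intro v hv ρ hρ
    by_contra h
    refine hgood (Or.inr (Or.inr ⟨hp, v, Set.mem_biUnion hρ h, ?_⟩))
    exact (H38T1.mem_iff_eq hp).2 hv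

end H88T7
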