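import Pool.Agent.H88.T7.Ge
import Pool.Agent.H88.T7.Gg

/-!
ROW Gi (project MP_78d38b_T7, about 90 lines): the automorphism for the inert primes.

PROOF. `sel_gen` with `m = finrank` (odd), `J = {ρ // ρ ∈ R}`, `x ρ = s ρ ≠ 0`, `e ρ = Ψ ρ`. All automorphisms fix `(s ρ)^2 = rep ρ ∈ ℚ`, so the
signs exist. hrel: `X = ∏ (if c ρ = 0 then 1 else s ρ)` is fixed by the kernel of `actH`, `X^2 = q = ∏ (if c ρ = 0 then 1 else rep ρ)`
is rational and `sc q = ρ₀ = ∑ (if c ρ = 0 then 0 else ρ)` (as `Ck_sc` in `H93/T1/Ck.lean`, `sc_rep`): `rho_of`: `ρ₀ = 0` or `ρ₀ = sc Δ`, so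
`Ψ ρ₀ = 0`, and `∑ c j e j = Ψ ρ₀` (`map_sum`; `c * y = if c = 0 then 0 else y` in `ZMod 2`).
-/

set_option autoImplicit false
set_option linter.unusedSectionVars false
open scoped Classical

open WithZero NumberField IsDedekindDomain H38RT
open H38T1 (SC sc rep eo la si Pri OddP LD XX XX' NS ov rp SqMod)

namespace H88T7

variable {K L : Type} [Field K] [NumberField K] [Field L] [NumberField L]

private theorem gi_sc {F : Type} [Field F] {ι : Type*} (s : Finset ι) (f : ι → F)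
    (hf : ∀ i, f i ≠ 0) : sc (∏ i ∈ s, f i) = ∑ i ∈ s, sc (f i) := by
  induction s using Finset.induction_on with
  | empty =>
    rw [Finset.prod_empty, Finset.sum_empty, H38T1.sc_eq_zero one_ne_zero]
    exact ⟨1, by rw [one_mul]⟩
  | insert a s ha ih =>
    rw [Finset.prod_insert ha, Finset.sum_insert ha,
      H38T1.sc_mul (hf a) (Finset.prod_ne_zero_iff.2 fun i _ => hf i), ih]

theorem sel2 (hodd : Odd (Module.finrank ℚ K)) (hL : GenL K L) {Δ : ℤ}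
    (hΔ : Δ ≠ 0) {δ : L} (hδ : IsDel K L Δ δ) (R : Finset (SC ℚ)) (Ψ : SC ℚ →+ ZMod 2)
    (hΨ : Ψ (sc (Δ : ℚ)) = 0) {g₀ : L ≃ₐ[ℚ] L} (hm : (actH K L g₀) ^ (Module.finrank ℚ K) = 1)
    (s : SC ℚ → L) (hs : ∀ ρ ∈ R, s ρ ^ 2 = algebraMap ℚ L (rep ρ)) :
    ∃ φ : L ≃ₐ[ℚ] L, actH K L φ = actH K L g₀ ∧
      ∀ ρ ∈ R, φ (s ρ) = if Ψ ρ = 0 then s ρ else - s ρ := by
  have hx0 : ∀ j : {ρ // ρ ∈ R}, s j ≠ 0 := by
    intro j h
    have h1 := hs j j.2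
    rw [h, zero_pow two_ne_zero] at h1
    exact H38T1.rep_ne _ ((map_eq_zero (algebraMap ℚ L)).1 h1.symm)
  have hpm : ∀ (g : L ≃ₐ[ℚ] L) (j : {ρ // ρ ∈ R}), g (s j) = s j ∨ g (s j) = - s j := by
    intro g j
    have h1 : (g (s j)) ^ 2 = (s j) ^ 2 := by
      rw [← map_pow, hs j j.2, g.commutes]
    exact sq_eq_sq_iff_eq_or_eq_neg.1 h1
  have hrel : ∀ c : {ρ // ρ ∈ R} → ZMod 2, (∀ γ : L ≃ₐ[ℚ] L, actH K L γ = 1 →
      γ (∏ j, if c j = 0 then 1 else s j) = ∏ j, if c j = 0 then 1 else s j) →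
      ∑ j, c j * Ψ (j : SC ℚ) = 0 := by
    intro c hc
    have hf : ∀ j : {ρ // ρ ∈ R}, (if c j = 0 then (1 : ℚ) else rep (j : SC ℚ)) ≠ 0 := by
      intro j
      split_ifs
      · exact one_ne_zero
      · exact H38T1.rep_ne _
    obtain ⟨q, hq⟩ : ∃ q : ℚ, q = ∏ j : {ρ // ρ ∈ R}, if c j = 0 then (1 : ℚ) else rep (j : SC ℚ) :=
      ⟨_, rfl⟩
    have hq0 : q ≠ 0 := by
      rw [hq]
      exact Finset.prod_ne_zero_iff.2 fun j _ => hf j
    have hX : (∏ j : {ρ // ρ ∈ R}, if c j = 0 then 1 else s j) ^ 2 = algebraMap ℚ L q := by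
      rw [hq, map_prod, ← Finset.prod_pow]
      refine Finset.prod_congr rfl fun j _ => ?_
      split_ifs
      · rw [one_pow, map_one]
      · exact hs j j.2
    have hsq : SqT K L (algebraMap ℚ L q) :=
      ⟨fun h => hq0 ((map_eq_zero (algebraMap ℚ L)).1 h), _, hX, hc⟩
    have h0 : Ψ (sc q) = 0 := by
      rcases rho_of hL hΔ hδ hq0 hsq with h | h
      · rw [h, map_zero]
      · rw [h, hΨ]
    rw [hq, gi_sc _ _ hf, map_sum] at h0
    rw [← h0]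
    refine Finset.sum_congr rfl fun j _ => ?_
    rcases (show ∀ e : ZMod 2, e = 0 ∨ e = 1 by decide) (c j) with h | h
    · rw [if_pos h, h, zero_mul, (H38T1.sc_eq_zero one_ne_zero).2 ⟨1, by rw [one_mul]⟩, map_zero]
    · rw [if_neg (by rw [h]; decide), h, one_mul, H38T1.sc_rep]
  obtain ⟨φ, h1, h2⟩ := sel_gen hodd hm (J := {ρ // ρ ∈ R}) (fun j => s j) hx0
    (fun γ _ j => hpm γ j) (fun j => hpm g₀ j) (fun j => Ψ j) hrel
  exact ⟨φ, h1, fun ρ hρ => h2 ⟨ρ, hρ⟩⟩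

end H88T7
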