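import Pool.Agent.H88.T7.Gb
import Pool.Agent.H88.T7.Gc
import Pool.Agent.H88.T7.Gi
import Pool.Agent.H88.T7.Gk
import Pool.Agent.H88.T7.Gm
import Pool.Agent.H88.T7.Gn
import Pool.Agent.H88.T7.Gx
import Pool.Agent.H88.T7.Gq
import Pool.Agent.H93.T1.Cf

/-!
ROW Gp (project MP_78d38b_T7, about 170 lines): infinitely many inert primes, assembly.

PROOF. `N = finrank ℚ K` is odd (`hB.odd`). `exists_bigL K ∅ R`: `L`, `BigL`, roots `s ρ` (`ρ ∈ R`), even permutations (`hA`); `two_of`: `GenL K L`;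
`exists_del`: `δ`; `NumberField.discr_ne_zero`. `exists_full` for `α = (K →ₐ[ℚ] L)`: `π`; `g₀` with `actH g₀ = π` (`hL.alt`). `sel2`: `φ₀` with
`actH φ₀ = π` and the signs on `s ρ`. `H93T1.frob_inf φ₀`: infinitely many `p` with `j`, `w`: `rp w = p` (`H38T1.mem_iff_eq`), `φ = φ₀^j`,
`IsFb φ w`. Remove the finitely many `p` with `p ∈ B` or such that for a place `v` of `K` above `p` and some `ρ ∈ R`
`v.valuation K (rep (res K ρ)) ≠ 1` (finiteness: `fin_bad`, see `Pool/Agent/H93/T1/Ca.lean`: `Ca_fin`, and how `cheb_gen` removes them). For the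
remaining `p`: `p ≠ 2` (`hB.two`), `hun` from `hB.unr`. `pow_cyc`: all embeddings are in one cycle of `actH φ`, of period `N`. `geom`,
`pl_surj`: one place `v = pl σ w` above `p` (`ov K {p} = {v}`: `H38T1.mem_ov`, `rp_pl`), of residue degree `N`, odd: `Nice K p`.
`ρ ∈ R`: `rep (res K ρ) = algebraMap ℚ K (rep ρ) * y^2`, `y ≠ 0` (`res_sc`, `sc_rep`, `H38T1.rep_sc`), `r' = s ρ * σ y`, `r'^2 = σ (rep (res K ρ))`;
`φ^N (s ρ) = (-1)^(N e) s ρ = (-1)^e s ρ`, `e = Ψ ρ` (`pow_sign`, `N` odd), `φ^N (σ y) = σ y` (`actH (φ^N) = 1`): `leg7` with `f = N`.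
-/

set_option autoImplicit false
set_option linter.unusedSectionVars false
open scoped Classical

open WithZero NumberField IsDedekindDomain H38RT
open H38T1 (SC sc rep eo la si Pri OddP LD XX XX' NS ov rp SqMod)

namespace H88T7

private lemma Gp_fin {K : Type} [Field K] [NumberField K] {S : Set (HeightOneSpectrum (𝓞 K))}
    (hS : S.Finite) : {p : ℕ | p.Prime ∧ ∃ v ∈ S, (p : 𝓞 K) ∈ v.asIdeal}.Finite := by
  refine (hS.image rp).subset ?_
  rintro p ⟨hp, v, hv, hpv⟩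
  exact ⟨v, hv, (H38T1.mem_iff_eq hp).1 hpv⟩

private lemma Gp_pow {L : Type} [Field L] [NumberField L] {φ : L ≃ₐ[ℚ] L} {x : L} {e : ZMod 2}
    (h : φ x = if e = 0 then x else - x) (m : ℕ) :
    (φ ^ (2 * m + 1)) x = if e = 0 then x else - x := by
  have h2 : φ (φ x) = x := by
    rw [h]
    split_ifs with he
    · rw [h, if_pos he]
    · rw [map_neg, h, if_neg he, neg_neg]
  induction m with
  | zero =>
    rw [mul_zero, zero_add, pow_one]
    exact h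
  | succ m ih =>
    have h3 : (φ ^ (2 * (m + 1) + 1)) x = (φ ^ (2 * m + 1)) (φ (φ x)) := by
      rw [show 2 * (m + 1) + 1 = (2 * m + 1) + 1 + 1 by ring, pow_succ, pow_succ]
      rfl
    rw [h3, h2, ih]

theorem c2_of {K : Type} [Field K] [NumberField K] {B : Finset ℕ}
    (hB : Bas K B (sc (NumberField.discr K : ℚ))) (hng : ¬ IsGalois ℚ K) (hA : AltGal K)
    (R : Finset (SC ℚ)) (Ψ : SC ℚ →+ ZMod 2) (hΨ : Ψ (sc (NumberField.discr K : ℚ)) = 0) :
    {p : ℕ | Nice K p ∧ ∃ v, ov K {p} = {v} ∧ ∀ r ∈ R, la v (res K r) = Ψ r}.Infinite := by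
  have hodd := hB.odd
  obtain ⟨L, _, _, hL, -, hs, halt⟩ := exists_bigL K ∅ R
  have hG : GenL K L := two_of hodd hng hL (halt hA)
  obtain ⟨δ, hδ⟩ := exists_del hL
  have hΔ : NumberField.discr K ≠ 0 := NumberField.discr_ne_zero K
  have hs' : ∀ ρ : SC ℚ, ∃ s : L, ρ ∈ R → s ^ 2 = algebraMap ℚ L (rep ρ) := by
    intro ρ
    by_cases hρ : ρ ∈ R
    · obtain ⟨s, h⟩ := hs ρ hρ
      exact ⟨s, fun _ => h⟩
    · exact ⟨0, fun h => absurd h hρ⟩
  choose s hs1 using hs'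
  have hs0 : ∀ ρ ∈ R, s ρ ≠ 0 := by
    intro ρ hρ h0
    have h1 := hs1 ρ hρ
    rw [h0, zero_pow two_ne_zero] at h1
    exact H38T1.rep_ne ρ ((map_eq_zero (algebraMap ℚ L)).1 h1.symm)
  obtain ⟨π, hπa, hπN, hπc, hπm⟩ := exists_full (α := K →ₐ[ℚ] L) (by rw [hL.card]; exact hodd)
  obtain ⟨g₀, hg₀⟩ := hG.alt π hπa
  obtain ⟨φ₀, hφ₀, hφs⟩ := sel2 hodd hG hΔ hδ R Ψ hΨ (g₀ := g₀)
    (by rw [hg₀, ← hL.card]; exact hπN) s hs1
  have hbad : {p : ℕ | p.Prime ∧ (p ∈ B ∨ (∃ v ∈ ⋃ ρ ∈ R, {v : HeightOneSpectrum (𝓞 K) |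
        v.valuation K (rep (res K ρ)) ≠ 1}, (p : 𝓞 K) ∈ v.asIdeal))}.Finite := by
    have h2 : (⋃ ρ ∈ R, {v : HeightOneSpectrum (𝓞 K) |
        v.valuation K (rep (res K ρ)) ≠ 1}).Finite :=
      Set.Finite.biUnion R.finite_toSet fun ρ _ => fin_bad (H38T1.rep_ne _)
    refine ((Finset.finite_toSet B).union (Gp_fin h2)).subset ?_
    rintro p ⟨hp, h | h⟩
    · exact Or.inl h
    · exact Or.inr ⟨hp, h⟩
  have hgal := hL.gal
  refine ((H93T1.frob_inf φ₀).sdiff hbad).mono ?_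
  rintro p ⟨⟨hp, j, w, hj, hpw, hφ⟩, hgood⟩
  have hrp : rp w = p := (H38T1.mem_iff_eq hp).1 hpw
  have hFb : IsFb (φ₀ ^ j) w := fun x => by rw [hrp]; exact hφ x
  have hpB : p ∉ B := fun h => hgood ⟨hp, Or.inl h⟩
  have hp2 : p ≠ 2 := by
    rintro rfl
    exact hpB hB.two
  have hun : ∀ v : HeightOneSpectrum (𝓞 K), rp v = rp w → v.asIdeal.ramificationIdx ℤ = 1 :=
    fun v hv => hB.unr v (by rw [hv, hrp]; exact hpB)
  obtain ⟨hc1, hc2⟩ := pow_cyc (K := K) hj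
  have hsame : ∀ σ τ : K →ₐ[ℚ] L, (actH K L (φ₀ ^ j)).SameCycle σ τ := by
    intro σ τ
    rw [hc1, hφ₀, hg₀]
    exact hπc σ τ
  have hper : ∀ σ : K →ₐ[ℚ] L, Function.minimalPeriod (actH K L (φ₀ ^ j)) σ =
      Module.finrank ℚ K := by
    intro σ
    rw [hc2, hφ₀, hg₀, hπm, hL.card]
  obtain ⟨hgeo1, hgeo2⟩ := geom hL hFb hun
  have hpos : 0 < Fintype.card (K →ₐ[ℚ] L) := by
    rw [hL.card]
    exact Module.finrank_pos
  obtain ⟨σ⟩ := Fintype.card_pos_iff.1 hpos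
  have hall : ∀ v : HeightOneSpectrum (𝓞 K), rp v = p → v = pl σ w := by
    intro v hv
    obtain ⟨σ', hσ'⟩ := pl_surj hL w (hv.trans hrp.symm)
    rw [hσ']
    exact (hgeo1 σ' σ).2 (hsame σ' σ)
  have hrpv : rp (pl σ w) = p := by rw [rp_pl, hrp]
  have hf : (pl σ w).asIdeal.inertiaDeg ℤ = Module.finrank ℚ K := by
    rw [hgeo2, hper]
  have hσN : ((actH K L (φ₀ ^ j)) ^ Module.finrank ℚ K) σ = σ := by
    have h1 := Function.isPeriodicPt_minimalPeriod (actH K L (φ₀ ^ j)) σ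
    rw [hper] at h1
    have h2 : (actH K L (φ₀ ^ j))^[Module.finrank ℚ K] σ = σ := h1
    rw [← Equiv.Perm.iterate_eq_pow]
    exact h2
  refine ⟨⟨hp, hp2, fun v hv => ?_⟩, pl σ w, ?_, ?_⟩
  · have hv' : rp v = p := (H38T1.mem_iff_eq hp).1 hv
    refine ⟨hun v (hv'.trans hrp.symm), ?_⟩
    rw [hall v hv', hf]
    exact hodd
  · ext v
    rw [H38T1.mem_ov (Q := {p}) (by rintro q rfl; exact hp), Set.mem_singleton_iff,
      Set.mem_singleton_iff]
    constructor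
    · exact hall v
    · rintro rfl
      exact hrpv
  · intro ρ hρ
    have h1 : res K ρ = sc (algebraMap ℚ K (rep ρ)) := by
      conv_lhs => rw [← H38T1.sc_rep ρ]
      exact res_sc (H38T1.rep_ne ρ)
    have h2 : algebraMap ℚ K (rep ρ) ≠ 0 := (map_ne_zero _).2 (H38T1.rep_ne ρ)
    obtain ⟨y, hy, hy2⟩ := H38T1.rep_sc h2
    rw [← h1] at hy2
    have hr : (s ρ * σ y) ^ 2 = σ (rep (res K ρ)) := by
      rw [hy2, map_mul, map_pow, AlgHom.commutes, mul_pow, hs1 ρ hρ]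
    have hy3 : ((φ₀ ^ j) ^ Module.finrank ℚ K) (σ y) = σ y := by
      have h3 := hσN
      rw [← map_pow] at h3
      have h4 := DFunLike.congr_fun h3 y
      rw [actH_apply] at h4
      exact h4
    have hs3 : ((φ₀ ^ j) ^ Module.finrank ℚ K) (s ρ) = if Ψ ρ = 0 then s ρ else - s ρ := by
      obtain ⟨m, hm⟩ := hodd
      rw [hm]
      exact Gp_pow (pow_sign hj (hs0 ρ hρ) (hφs ρ hρ)) m
    have hφr : ((φ₀ ^ j) ^ Module.finrank ℚ K) (s ρ * σ y) =
        if Ψ ρ = 0 then s ρ * σ y else - (s ρ * σ y) := by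
      rw [map_mul, hy3, hs3]
      split_ifs
      · rfl
      · ring
    have hu : (pl σ w).valuation K (rep (res K ρ)) = 1 := by
      by_contra hne
      exact hgood ⟨hp, Or.inr ⟨pl σ w, Set.mem_biUnion hρ hne,
        (H38T1.mem_iff_eq hp).2 hrpv⟩⟩
    exact (leg7 hFb (by rw [hrp]; exact hp2) σ hf.symm Module.finrank_pos hσN hr hφr hu).2

end H88T7
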