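import Pool.Agent.H88.T7.Ma
import Pool.Agent.H88.T7.Ai

/-!
ROW Md (project MP_78d38b_T7, about 120 lines): phase 1 of the algorithm.

PROOF. Strong induction on the cardinality of `XX' (L7 K a β ∅ Pp')` (finite: `fin7'`). If `XX' ⊆ {0, sc D}` we are done. Otherwise let
`c ∈ XX'`, `c ≠ 0`, `c ≠ sc D`; `r = nm K c ∈ XX' (L7 ℚ ..)` (`nm_XX'`), `w = c - res K r`, `nm K w = 0` (`nm_res hD.odd`).
We find a new prime `p` with `la v₁ c = 1` for a place `v₁ ∈ ov K {p}` and `la v (res β) = 1`, `la v (res D) = 0` for all `v ∈ ov K {p}`: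
* `w ≠ 0`: `Ψ` from `sepP'0`; an additive `Φ₁` with `Φ₁ w = 1 + Ψ r` (any value at a nonzero vector of a `ZMod 2`-vector space: a
 functional with value one, multiplied by the scalar `1 + Ψ r`), `Φ₂ = 0`. `hA.c1 {w} _ {sc β, sc D, r} Φ₁ 0 Ψ`: `la v₁ c = la v₁ w + la v₁ (res r)
 = (1 + Ψ r) + Ψ r = 1` (`H38T1.la_add`; `v₁` is odd as `p ≠ 2`: `H38T1.oddP_iff`).
* `w = 0`: `c = res K r`, `r ≠ 0`, `r ≠ sc D` (`res_int`): `Ψ` from `sepP'` with `Ψ r = 1`; `hA.c2 {sc β, sc D, r} Ψ`: `la v c = Ψ r = 1` for the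
 place `v` above `p`.
Add `p` to `Pp'` (`exists_new`, `st_insP'`): `XX'` becomes smaller: it is the set of the elements of the old `XX'` with `la v = 0` for
`v ∈ ov K {p}` (`XX'_insP'`), without `c`. `Set.ncard_lt_ncard`.
-/

set_option autoImplicit false
set_option linter.unusedSectionVars false
open scoped Classical

open WithZero NumberField IsDedekindDomain H38RT
open H38T1 (SC sc rep eo la si Pri OddP LD XX XX' NS ov rp SqMod)

namespace H88T7

variable {K : Type} [Field K] [NumberField K] {B : Finset ℕ} {Dc : SC ℚ} {a β : ℤ}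

lemma Md_fun {F : Type} [Field F] {w : SC F} (hw : w ≠ 0) (t : ZMod 2) :
    ∃ Φ : SC F →+ ZMod 2, Φ w = t := by
  have h1 : ∃ φ : Module.Dual (ZMod 2) (SC F), φ w ≠ 0 := by
    by_contra hcon
    push Not at hcon
    exact hw ((Module.forall_dual_apply_eq_zero_iff (ZMod 2) w).1 hcon)
  obtain ⟨φ, hφ⟩ := h1
  refine ⟨((t * (φ w)⁻¹) • φ : Module.Dual (ZMod 2) (SC F)).toAddMonoidHom, ?_⟩
  show (t * (φ w)⁻¹) * φ w = t
  rw [mul_assoc, inv_mul_cancel₀ hφ, mul_one]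

lemma Md_prime (hD : Dat K B Dc a β) (hA : Adm7 K Dc) {Pp' : Finset ℕ}
    (hS : St K B a β ∅ Pp') {c : SC K} (hc : c ∈ XX' (L7 K a β ∅ Pp')) (hc0 : c ≠ 0)
    (hcd : c ≠ sc ((a ^ 2 - 64 * β : ℤ) : K)) :
    ∃ p, New K B a β ∅ Pp' p ∧ (∀ v ∈ ov K {p}, la v (res K (sc (β : ℚ))) = 1) ∧
      (∀ v ∈ ov K {p}, la v (res K (sc ((a ^ 2 - 64 * β : ℤ) : ℚ))) = 0) ∧
      ∃ v ∈ ov K {p}, la v c = 1 := by
  have hD0 : (a ^ 2 - 64 * β : ℤ) ≠ 0 := by
    have := hD.pos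
    intro h
    linarith
  have hr := nm_XX' hD hS hc
  by_cases hw : c - res K (nm K c) = 0
  · have hcr : c = res K (nm K c) := sub_eq_zero.1 hw
    have hr0 : nm K c ≠ 0 := by
      intro h
      rw [h, map_zero] at hcr
      exact hc0 hcr
    have hrd : nm K c ≠ sc ((a ^ 2 - 64 * β : ℤ) : ℚ) := by
      intro h
      rw [h, res_int hD0] at hcr
      exact hcd hcr
    obtain ⟨Ψ, h1, h2, h3, h4⟩ := sepP' hD hS hr hr0 hrd
    obtain ⟨p, hp, hnew, _⟩ := exists_new hS hD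
      (hA.c2 {sc (β : ℚ), sc ((a ^ 2 - 64 * β : ℤ) : ℚ), nm K c} Ψ h1) (fun p hp => hp.1) 0
    obtain ⟨_, v, hv, hR⟩ := hp
    refine ⟨p, hnew, ?_, ?_, v, ?_, ?_⟩
    · intro u hu
      rw [hv, Set.mem_singleton_iff] at hu
      rw [hu, hR _ (by simp), h2]
    · intro u hu
      rw [hv, Set.mem_singleton_iff] at hu
      rw [hu, hR _ (by simp), h3]
    · rw [hv]
      exact Set.mem_singleton _
    · rw [hcr, hR _ (by simp), h4]
  · obtain ⟨Ψ, h1, h2, h3⟩ := sepP'0 hD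
    obtain ⟨Φ, hΦ⟩ := Md_fun hw (1 + Ψ (nm K c))
    have hnw : ∀ z ∈ ({c - res K (nm K c)} : Finset (SC K)), nm K z = 0 := by
      intro z hz
      rw [Finset.mem_singleton] at hz
      rw [hz, map_sub, nm_res hD.odd, sub_self]
    obtain ⟨p, hp, hnew, _⟩ := exists_new hS hD
      (hA.c1 {c - res K (nm K c)} hnw {sc (β : ℚ), sc ((a ^ 2 - 64 * β : ℤ) : ℚ), nm K c}
        Φ 0 Ψ h1) (fun p hp => hp.1) 0
    obtain ⟨hN, v₁, v₂, v₃, _, _, _, hv, hZ, hR⟩ := hp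
    have hmem : v₁ ∈ ov K {p} := by
      rw [hv]
      exact Set.mem_insert _ _
    have hodd : OddP v₁ := by
      rw [H38T1.oddP_iff]
      have h5 : rp v₁ ∈ ({p} : Set ℕ) := by
        rw [← H38T1.mem_ov (K := K)]
        · exact hmem
        · intro q hq
          rw [Set.mem_singleton_iff] at hq
          rw [hq]
          exact hN.1
      rw [Set.mem_singleton_iff] at h5
      rw [h5]
      exact hN.2.1
    refine ⟨p, hnew, fun u hu => ?_, fun u hu => ?_, v₁, hmem, ?_⟩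
    · rw [hR _ (by simp) u hu, h2]
    · rw [hR _ (by simp) u hu, h3]
    · have h6 : c = (c - res K (nm K c)) + res K (nm K c) := by rw [sub_add_cancel]
      have h7 : la v₁ c = la v₁ (c - res K (nm K c)) + la v₁ (res K (nm K c)) := by
        rw [← H38T1.la_add hodd, sub_add_cancel]
      rw [h7, (hZ _ (Finset.mem_singleton_self _)).1, hR _ (by simp) v₁ hmem, hΦ, add_assoc,
        CharTwo.add_self_eq_zero, add_zero]

theorem phase1 (hD : Dat K B Dc a β) (hA : Adm7 K Dc) {Pp' : Finset ℕ}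
    (hS : St K B a β ∅ Pp') : ∃ Qp' : Finset ℕ, Pp' ⊆ Qp' ∧ St K B a β ∅ Qp' ∧
      XX' (L7 K a β ∅ Qp') ⊆ {0, sc ((a ^ 2 - 64 * β : ℤ) : K)} := by
  suffices H : ∀ n : ℕ, ∀ Pp' : Finset ℕ, St K B a β ∅ Pp' →
      (XX' (L7 K a β ∅ Pp')).ncard = n → ∃ Qp' : Finset ℕ, Pp' ⊆ Qp' ∧ St K B a β ∅ Qp' ∧
      XX' (L7 K a β ∅ Qp') ⊆ {0, sc ((a ^ 2 - 64 * β : ℤ) : K)} from H _ Pp' hS rfl
  intro n
  induction n using Nat.strong_induction_on with
  | _ n ih =>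
    intro Pp' hS hn
    by_cases hsub : XX' (L7 K a β ∅ Pp') ⊆ {0, sc ((a ^ 2 - 64 * β : ℤ) : K)}
    · exact ⟨Pp', Finset.Subset.refl _, hS, hsub⟩
    · obtain ⟨c, hc, hc2⟩ := Set.not_subset.1 hsub
      rw [Set.mem_insert_iff, Set.mem_singleton_iff, not_or] at hc2
      obtain ⟨p, hnew, hb, hd, v, hv, hvc⟩ := Md_prime hD hA hS hc hc2.1 hc2.2
      have hSt := st_insP' hD hS hnew hb hd
      have hlt : (XX' (L7 K a β ∅ (insert p Pp'))).ncard < n := by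
        rw [← hn]
        refine Set.ncard_lt_ncard ?_ (fin7' hD hS)
        rw [XX'_insP']
        refine ⟨fun x hx => hx.1, fun h => ?_⟩
        have h1 := (h hc).2 v hv
        rw [hvc] at h1
        exact one_ne_zero h1
      obtain ⟨Q, hQ1, hQ2, hQ3⟩ := ih _ hlt (insert p Pp') hSt rfl
      exact ⟨Q, (Finset.subset_insert _ _).trans hQ1, hQ2, hQ3⟩

end H88T7
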