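import Pool.Agent.H88.T7.Ma
import Pool.Agent.H88.T7.Mb
import Pool.Agent.H88.T7.Ai

/-!
ROW Me (project MP_78d38b_T7, about 110 lines): step (a): an inert prime is added to `Pp'`.

PROOF. `Ψ` from `sepP'0` (`Ψ Dc = 0`, `Ψ β = 1`, `Ψ D = 0`), `hA.c2 {sc β, sc D} Ψ` and `exists_new` give a new prime `p` with `ov K {p} = {v}`,
`la v (res β) = 1`, `la v (res D) = 0`. `st_insP'`. By `XX'_insP'` and `la v (sc D) = 0` (`res_int`), `la v 0 = 0` (`H38T1.la_zero`, `v` odd):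
the new `XX'` equals the old one (both equal `{0, sc D}`; `disc_mem`), also over `ℚ`: there `XX' (L7 ℚ ..) ⊆ {0, sc D}` for the old state
(`rat_XX'`) and for the new one, cardinality two for both (`card_XX'` for `ℚ`: `dat_rat`, `st_rat`).
Cardinalities: `gwK` for the new state (`NS (PP new) ⊆ NS (PP old) ⊆ {0}`: `NS_mono`, `P'_ins`) and for the old one; `P'.ncard` increases by
`(ov K {p}).ncard = 1` (`ncard_insP'`), `P` does not change: `|XX new| = 2 |XX old|`. Over `ℚ` (`gwQ`; `ov ℚ {p}` has one element: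
`ov_rat`; `ncard_insP'` for `ℚ` with `dat_rat`, `st_rat`, and `New ℚ ..`: `nice_rat`): `|XX(ℚ) new| = 2 |XX(ℚ) old|`.
`split7` for both states: `|XW new| = |XW old|` (cancel positive factors).
-/

set_option autoImplicit false
set_option linter.unusedSectionVars false
open scoped Classical

open WithZero NumberField IsDedekindDomain H38RT
open H38T1 (SC sc rep eo la si Pri OddP LD XX XX' NS ov rp SqMod)

namespace H88T7

variable {K : Type} [Field K] [NumberField K] {B : Finset ℕ} {Dc : SC ℚ} {a β : ℤ}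
  {Pp Pp' : Finset ℕ}

/-- cancellation in the two formulas -/
theorem Me_dbl {x x' y y' p p' q q' r : ℕ} (h1 : x * 2 ^ (r + p) = y * 2 ^ q)
    (h2 : x' * 2 ^ (r + p') = y' * 2 ^ q') (hx : x' = x) (hp : p' = p + 1) (hq : q' = q) :
    y' = 2 * y := by
  subst hx hp hq
  have h3 : y' * 2 ^ q' = (2 * y) * 2 ^ q' := by
    rw [← h2, mul_assoc 2 y, ← h1, ← add_assoc, pow_succ]
    ring
  exact Nat.eq_of_mul_eq_mul_right (pow_pos two_pos _) h3

theorem stepa (hD : Dat K B Dc a β) (hA : Adm7 K Dc) (hS : St K B a β Pp Pp')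
    (hN : NS (PP K a β Pp Pp') ⊆ {(0 : SC K)})
    (h : XX' (L7 K a β Pp Pp') ⊆ {0, sc ((a ^ 2 - 64 * β : ℤ) : K)}) :
    ∃ p : ℕ, St K B a β Pp (insert p Pp') ∧ NS (PP K a β Pp (insert p Pp')) ⊆ {(0 : SC K)} ∧
      XX' (L7 K a β Pp (insert p Pp')) ⊆ {0, sc ((a ^ 2 - 64 * β : ℤ) : K)} ∧
      (XX (L7 ℚ a β Pp (insert p Pp'))).ncard = 2 * (XX (L7 ℚ a β Pp Pp')).ncard ∧
      (XW K a β Pp (insert p Pp')).ncard = (XW K a β Pp Pp').ncard := by
  obtain ⟨Ψ, hΨ, hΨβ, hΨD⟩ := sepP'0 hD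
  obtain ⟨p, hpT, hnew, -⟩ := exists_new hS hD
    (hA.c2 {sc (β : ℚ), sc ((a ^ 2 - 64 * β : ℤ) : ℚ)} Ψ hΨ) (fun p hp => hp.1) 0
  obtain ⟨hnice, v, hov, hla⟩ := hpT
  have hb : ∀ w ∈ ov K {p}, la w (res K (sc (β : ℚ))) = 1 := by
    intro w hw
    rw [hov, Set.mem_singleton_iff] at hw
    rw [hw, hla _ (Finset.mem_insert_self _ _), hΨβ]
  have hd : ∀ w ∈ ov K {p}, la w (res K (sc ((a ^ 2 - 64 * β : ℤ) : ℚ))) = 0 := by
    intro w hw
    rw [hov, Set.mem_singleton_iff] at hw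
    rw [hw, hla _ (Finset.mem_insert_of_mem (Finset.mem_singleton_self _)), hΨD]
  have hS' := st_insP' hD hS hnew hb hd
  have hPP : PP K a β Pp Pp' ⊆ PP K a β Pp (insert p Pp') := by
    unfold PP
    rw [P'_ins.1, P'_ins.2]
    exact Set.union_subset_union_right _ Set.subset_union_left
  have hN' : NS (PP K a β Pp (insert p Pp')) ⊆ {(0 : SC K)} := (NS_mono hPP).trans hN
  have hX' : XX' (L7 K a β Pp (insert p Pp')) ⊆ {0, sc ((a ^ 2 - 64 * β : ℤ) : K)} := by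
    rw [XX'_insP']
    exact fun c hc => h hc.1
  have hcK : (ov K {p}).ncard = 1 := by rw [hov, Set.ncard_singleton]
  obtain ⟨w, -, hw⟩ := ov_rat hnice.1
  have hcQ : (ov ℚ {p}).ncard = 1 := by rw [hw, Set.ncard_singleton]
  have hnewQ : New ℚ B a β Pp Pp' p :=
    ⟨nice_rat hnice.1 hnice.2.1, hnew.nB, hnew.nd, hnew.new⟩
  -- over `K`
  have hK : (XX (L7 K a β Pp (insert p Pp'))).ncard = 2 * (XX (L7 K a β Pp Pp')).ncard := by
    refine Me_dbl (gwK hD hS hN) (gwK hD hS' hN') ?_ ?_ ?_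
    · rw [card_XX' hD hS h, card_XX' hD hS' hX']
    · rw [ncard_insP' hD hS hnew, hcK]
    · rw [P'_ins.2]
  -- over `ℚ`
  have hQ : (XX (L7 ℚ a β Pp (insert p Pp'))).ncard = 2 * (XX (L7 ℚ a β Pp Pp')).ncard := by
    have e1 := gwQ hD hS
    have e2 := gwQ hD hS'
    rw [← Nat.zero_add (L7 ℚ a β Pp Pp').P'.ncard] at e1
    rw [← Nat.zero_add (L7 ℚ a β Pp (insert p Pp')).P'.ncard] at e2
    refine Me_dbl e1 e2 ?_ ?_ ?_
    · rw [card_XX' (dat_rat hD) (st_rat hS) (rat_XX' hD hS h),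
        card_XX' (dat_rat hD) (st_rat hS') (rat_XX' hD hS' hX')]
    · rw [ncard_insP' (dat_rat hD) (st_rat hS) hnewQ, hcQ]
    · rw [P'_ins.2]
  refine ⟨p, hS', hN', hX', hQ, ?_⟩
  have s1 := split7 hD hS
  have s2 := split7 hD hS'
  rw [hK, s1, hQ, ← mul_assoc] at s2
  have hpos : 0 < 2 * (XX (L7 ℚ a β Pp Pp')).ncard := by
    have := two_le hD hS
    omega
  exact (Nat.eq_of_mul_eq_mul_left hpos s2).symm

end H88T7
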