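import Pool.Agent.H88.T7.Ma
import Pool.Agent.H88.T7.Mb
import Pool.Agent.H88.T7.Ai

/-!
ROW Mf (project MP_78d38b_T7, about 190 lines): step (b): a prime with three places is added to `Pp`.

PROOF. `H = XX(K)` and `HQ = XX(ℚ)` as subgroups (`sub7`), finite (`fin7`). As `|HQ| ≥ 4` there is `r ∈ HQ`, `r ≠ 0`, `r ≠ sc β`; as `|XW| ≥ 4`
there are `w₁, w₂ ∈ XW`, `w₁ ≠ 0`, `w₂ ≠ 0`, `w₁ ≠ w₂`. `Ψ` from `sepP` (`Ψ Dc = 0`, `Ψ β = 0`, `Ψ D = 1`, `Ψ r = 1`). Additive `Φ₁, Φ₂ : SC K →+ ZMod 2` with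
`Φ₁ w₁ = 1`, `Φ₁ w₂ = 0`, `Φ₂ w₁ = 0`, `Φ₂ w₂ = 1` (`w₁`, `w₂` are linearly independent over `ZMod 2`; compare `H38T1.exists_fun1`, `Mc_sep` in
`H38/T1/Mc.lean`: a functional with `f w₂ = 0`, `f w₁ = 1`). `hA.c1` with `Z = ` the finite set `XW` (`Set.Finite.toFinset`; `nm = 0`) and `R = ` the
finite set `XX(ℚ) ∪ {sc β, sc D}`, and `exists_new`, give a new `p` with places `v₁, v₂, v₃`. `st_insP`.
(1) For `c ∈ XX(K)`: `c = res r' + w`, `r' = nm c ∈ XX(ℚ)`, `w ∈ XW`, `λ(c) = (la v₁ c, la v₂ c, la v₃ c) = (Φ₁ w + Ψ r', Φ₂ w + Ψ r',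
Φ₁ w + Φ₂ w + Ψ r')` (`H38T1.la_add`, the places are odd). The map `λ : H → (ZMod 2)^3` is additive and onto: `λ(w₁) = (1, 0, 1)`,
`λ(w₂) = (0, 1, 1)`, `λ(res r) = (1, 1, 1)` span. Its kernel is the new `XX` (`XX_insP`, `ov K {p} = {v₁, v₂, v₃}`). So `|XX(K)| = 8 |XX(K) new|`
(`AddSubgroup.card_eq_card_quotient_mul..`, first isomorphism theorem, or `AddMonoidHom.card_fiber..`).
(2) Over `ℚ`: `ov ℚ {p} = {u}` (`ov_rat`), `la u r' = la v₁ (res r') = Ψ r'` for `r' ∈ XX(ℚ)` (`la_res`; `eo u r' = 0` as `u ∉ P'`): the new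
`XX(ℚ)` is the kernel of `Ψ` on `HQ`, which is not zero (`Ψ r = 1`): `|XX(ℚ)| = 2 |XX(ℚ) new|`.
(3) `split7` for both states: `|XW| = 4 |XW new|`.
(4) `gwK` for the new state (`NS_mono`, `P_ins`), `P.ncard` increases by three (`ncard_insP`, `Set.ncard` of three different elements),
`P'` unchanged: `|XX' new| 2^(r₂ + #P') = |XX new| 2^(#P + 3) = |XX| 2^#P = |XX'| 2^(r₂ + #P')`, so `|XX' new| = |XX'| = 2` (`card_XX'`), `eq_XX'`.
-/

set_option autoImplicit false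
set_option linter.unusedSectionVars false
open scoped Classical

open WithZero NumberField IsDedekindDomain H38RT
open H38T1 (SC sc rep eo la si Pri OddP LD XX XX' NS ov rp SqMod)

namespace H88T7

variable {K : Type} [Field K] [NumberField K] {B : Finset ℕ} {Dc : SC ℚ} {a β : ℤ}
  {Pp Pp' : Finset ℕ}

private theorem Mf_self {F : Type} [Field F] (x : SC F) : x + x = 0 := by
  rw [← two_nsmul]
  exact H38T1.SC.two_smul x

private theorem Mf_half {V : Type} [AddCommGroup V] (h2 : ∀ x : V, x + x = 0) {X : Set V}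
    (hX : X.Finite) (hadd : ∀ x ∈ X, ∀ y ∈ X, x + y ∈ X) (f : V → ZMod 2)
    (hf : ∀ x y, f (x + y) = f x + f y) {c : V} (hc : c ∈ X) (hc1 : f c = 1) :
    X.ncard = 2 * {x | x ∈ X ∧ f x = 0}.ncard := by
  have h11 : (1 : ZMod 2) + 1 = 0 := by decide
  have h10 : (1 : ZMod 2) ≠ 0 := by decide
  obtain ⟨Y, hY⟩ : ∃ Y : Set V, Y = {x | x ∈ X ∧ f x = 0} := ⟨_, rfl⟩
  rw [← hY]
  have hYX : Y ⊆ X := by
    rw [hY]
    exact fun x hx => hx.1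
  have hYf : Y.Finite := hX.subset hYX
  have hunion : X = Y ∪ (fun x => c + x) '' Y := by
    ext x
    constructor
    · intro hx
      rcases H38T1.zmod_two (f x) with h0 | h1
      · left
        rw [hY]
        exact ⟨hx, h0⟩
      · right
        refine ⟨c + x, ?_, ?_⟩
        · rw [hY]
          refine ⟨hadd c hc x hx, ?_⟩
          rw [hf, hc1, h1, h11]
        · show c + (c + x) = x
          rw [← add_assoc, h2, zero_add]
    · rintro (hx | ⟨y, hy, rfl⟩)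
      · exact hYX hx
      · exact hadd c hc y (hYX hy)
  have hdisj : Disjoint Y ((fun x => c + x) '' Y) := by
    rw [Set.disjoint_left]
    rintro x hx ⟨y, hy, rfl⟩
    rw [hY] at hx hy
    have h3 : f (c + y) = 0 := hx.2
    rw [hf, hc1, hy.2, add_zero] at h3
    exact h10 h3
  conv_lhs => rw [hunion]
  rw [Set.ncard_union_eq hdisj hYf (hYf.image _),
    Set.ncard_image_of_injective _ (add_right_injective c)]
  ring

private theorem Mf_sep {V : Type} [AddCommGroup V] [Module (ZMod 2) V] {b D : V} (hb : b ≠ 0)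
    (hbD : b ≠ D) : ∃ f : V →+ ZMod 2, f D = 0 ∧ f b = 1 := by
  have hz : ∀ x : ZMod 2, x ≠ 0 → x = 1 := by decide
  have h1 : b ∉ Submodule.span (ZMod 2) {D} := by
    intro h
    obtain ⟨a, ha⟩ := Submodule.mem_span_singleton.1 h
    by_cases h0 : a = 0
    · rw [h0, zero_smul] at ha
      exact hb ha.symm
    · rw [hz a h0, one_smul] at ha
      exact hbD ha.symm
  obtain ⟨f, hf, hle⟩ := Submodule.exists_le_ker_of_notMem h1
  refine ⟨f.toAddMonoidHom, ?_, hz _ hf⟩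
  have h2 : D ∈ LinearMap.ker f := hle (Submodule.mem_span_singleton_self D)
  exact LinearMap.mem_ker.1 h2

private theorem Mf_ex {V : Type} {X : Set V} (h : 4 ≤ X.ncard) (a b : V) :
    ∃ x ∈ X, x ≠ a ∧ x ≠ b := by
  by_contra hcon
  push Not at hcon
  have h1 : X ⊆ {a, b} := by
    intro x hx
    by_cases h0 : x = a
    · exact Or.inl h0
    · exact Or.inr (hcon x hx h0)
  have h2 := Set.ncard_le_ncard h1 (Set.toFinite _)
  have h3 := Set.ncard_insert_le a {b}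
  rw [Set.ncard_singleton] at h3
  omega

private theorem Mf_three {X : Set (SC K)} (hX : X.Finite)
    (hadd : ∀ x ∈ X, ∀ y ∈ X, x + y ∈ X) {v₁ v₂ v₃ : HeightOneSpectrum (𝓞 K)}
    (o₁ : OddP v₁) (o₂ : OddP v₂) (o₃ : OddP v₃) {w₁ w₂ s : SC K} (h1 : w₁ ∈ X) (h2 : w₂ ∈ X)
    (hs : s ∈ X) (a1 : la v₁ w₁ = 1) (a2 : la v₂ w₁ = 0) (a3 : la v₃ w₁ = 1)
    (b1 : la v₁ w₂ = 0) (b2 : la v₂ w₂ = 1) (b3 : la v₃ w₂ = 1)
    (c1 : la v₁ s = 1) (c2 : la v₂ s = 1) (c3 : la v₃ s = 1) :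
    X.ncard = 8 * {x | x ∈ X ∧ la v₁ x = 0 ∧ la v₂ x = 0 ∧ la v₃ x = 0}.ncard := by
  have h11 : (1 : ZMod 2) + 1 = 0 := by decide
  have e1 := Mf_half Mf_self hX hadd (la v₁) (H38T1.la_add o₁) h1 a1
  obtain ⟨Y, hY⟩ : ∃ Y : Set (SC K), Y = {x | x ∈ X ∧ la v₁ x = 0} := ⟨_, rfl⟩
  rw [← hY] at e1
  have hYX : Y ⊆ X := by
    rw [hY]
    exact fun x hx => hx.1
  have hYadd : ∀ x ∈ Y, ∀ y ∈ Y, x + y ∈ Y := by
    intro x hx y hy
    rw [hY] at hx hy ⊢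
    refine ⟨hadd x hx.1 y hy.1, ?_⟩
    rw [H38T1.la_add o₁, hx.2, hy.2, add_zero]
  have hw2 : w₂ ∈ Y := by
    rw [hY]
    exact ⟨h2, b1⟩
  have e2 := Mf_half Mf_self (hX.subset hYX) hYadd (la v₂) (H38T1.la_add o₂) hw2 b2
  obtain ⟨W, hW⟩ : ∃ W : Set (SC K), W = {x | x ∈ Y ∧ la v₂ x = 0} := ⟨_, rfl⟩
  rw [← hW] at e2
  have hWY : W ⊆ Y := by
    rw [hW]
    exact fun x hx => hx.1
  have hWadd : ∀ x ∈ W, ∀ y ∈ W, x + y ∈ W := by
    intro x hx y hy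
    rw [hW] at hx hy ⊢
    refine ⟨hYadd x hx.1 y hy.1, ?_⟩
    rw [H38T1.la_add o₂, hx.2, hy.2, add_zero]
  have hsum : w₁ + w₂ + s ∈ W := by
    rw [hW]
    refine ⟨?_, ?_⟩
    · rw [hY]
      refine ⟨hadd _ (hadd _ h1 _ h2) _ hs, ?_⟩
      rw [H38T1.la_add o₁, H38T1.la_add o₁, a1, b1, c1, add_zero, h11]
    · rw [H38T1.la_add o₂, H38T1.la_add o₂, a2, b2, c2, zero_add, h11]
  have hs3 : la v₃ (w₁ + w₂ + s) = 1 := by
    rw [H38T1.la_add o₃, H38T1.la_add o₃, a3, b3, c3, h11, zero_add]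
  have e3 := Mf_half Mf_self (hX.subset (hWY.trans hYX)) hWadd (la v₃) (H38T1.la_add o₃) hsum hs3
  have hset : {x | x ∈ W ∧ la v₃ x = 0} =
      {x | x ∈ X ∧ la v₁ x = 0 ∧ la v₂ x = 0 ∧ la v₃ x = 0} := by
    ext x
    rw [hW, hY]
    simp only [Set.mem_ofPred_eq]
    tauto
  rw [hset] at e3
  omega

theorem stepb (hD : Dat K B Dc a β) (hA : Adm7 K Dc) (hS : St K B a β Pp Pp')
    (hN : NS (PP K a β Pp Pp') ⊆ {(0 : SC K)})
    (h : XX' (L7 K a β Pp Pp') ⊆ {0, sc ((a ^ 2 - 64 * β : ℤ) : K)})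
    (hQ : 4 ≤ (XX (L7 ℚ a β Pp Pp')).ncard) (hW : 4 ≤ (XW K a β Pp Pp').ncard) :
    ∃ p : ℕ, St K B a β (insert p Pp) Pp' ∧ NS (PP K a β (insert p Pp) Pp') ⊆ {(0 : SC K)} ∧
      XX' (L7 K a β (insert p Pp) Pp') ⊆ {0, sc ((a ^ 2 - 64 * β : ℤ) : K)} ∧
      4 * (XW K a β (insert p Pp) Pp').ncard = (XW K a β Pp Pp').ncard := by
  have h11 : (1 : ZMod 2) + 1 = 0 := by decide
  obtain ⟨r, hr, hr0, hrb⟩ := Mf_ex hQ 0 (sc (β : ℚ))
  obtain ⟨w₁, hw₁, hw₁0, -⟩ := Mf_ex hW 0 0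
  obtain ⟨w₂, hw₂, hw₂0, hw₂₁⟩ := Mf_ex hW 0 w₁
  obtain ⟨Ψ, hΨ1, hΨ2, hΨ3, hΨ4⟩ := sepP hD hS hr hr0 hrb
  obtain ⟨Φ₁, hΦ₁2, hΦ₁1⟩ := Mf_sep (V := SC K) hw₁0 (Ne.symm hw₂₁)
  obtain ⟨Φ₂, hΦ₂1, hΦ₂2⟩ := Mf_sep (V := SC K) hw₂0 hw₂₁
  have hinf := hA.c1 {w₁, w₂} (by
      intro z hz
      rw [Finset.mem_insert, Finset.mem_singleton] at hz
      rcases hz with rfl | rfl
      · exact hw₁.2
      · exact hw₂.2) {sc (β : ℚ), sc ((a ^ 2 - 64 * β : ℤ) : ℚ), r} Φ₁ Φ₂ Ψ hΨ1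
  obtain ⟨p, ⟨hp1, v₁, v₂, v₃, h12, h13, h23, hv, hZ, hR⟩, hnew, -⟩ :=
    exists_new hS hD hinf (fun p hp => hp.1) 0
  have hmem : ∀ v, v ∈ ov K {p} → rp v = p := by
    intro v hvm
    have h1 : v ∈ ov K {p} ↔ rp v ∈ ({p} : Set ℕ) := H38T1.mem_ov (by
      rintro q rfl
      exact hp1.1)
    exact h1.1 hvm
  have hodd : ∀ v, v ∈ ov K {p} → OddP v := by
    intro v hvm
    rw [H38T1.oddP_iff, hmem v hvm]
    exact hp1.2.1
  have hm1 : v₁ ∈ ov K {p} := by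
    rw [hv]
    exact Or.inl rfl
  have hm2 : v₂ ∈ ov K {p} := by
    rw [hv]
    exact Or.inr (Or.inl rfl)
  have hm3 : v₃ ∈ ov K {p} := by
    rw [hv]
    exact Or.inr (Or.inr rfl)
  have hS' : St K B a β (insert p Pp) Pp' := by
    refine st_insP hD hS hnew (fun u hu => ?_) (fun u hu => ?_)
    · rw [hR _ (by simp) u hu, hΨ2]
    · rw [hR _ (by simp) u hu, hΨ3]
  have hRr : ∀ v, v ∈ ov K {p} → la v (res K r) = 1 := by
    intro v hvm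
    rw [hR _ (by simp) v hvm, hΨ4]
  obtain ⟨H, hH⟩ := sub7 hD hS
  obtain ⟨HQ, hHQ⟩ := sub7 (dat_rat hD) (st_rat hS)
  obtain ⟨z11, z12, z13⟩ := hZ w₁ (by simp)
  obtain ⟨z21, z22, z23⟩ := hZ w₂ (by simp)
  have hK8 := Mf_three (fin7 hD hS) (fun x hx y hy => by
      rw [← hH] at hx hy ⊢
      exact H.add_mem hx hy) (hodd _ hm1) (hodd _ hm2) (hodd _ hm3) hw₁.1 hw₂.1 (res_XX hD hS hr)
      (z11.trans hΦ₁1) (z12.trans hΦ₂1) (by rw [z13, hΦ₁1, hΦ₂1, add_zero])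
      (z21.trans hΦ₁2) (z22.trans hΦ₂2) (by rw [z23, hΦ₁2, hΦ₂2, zero_add])
      (hRr _ hm1) (hRr _ hm2) (hRr _ hm3)
  have hKset : {x | x ∈ XX (L7 K a β Pp Pp') ∧ la v₁ x = 0 ∧ la v₂ x = 0 ∧ la v₃ x = 0} =
      XX (L7 K a β (insert p Pp) Pp') := by
    rw [XX_insP, hv]
    ext x
    constructor
    · rintro ⟨g1, g2, g3, g4⟩
      refine ⟨g1, ?_⟩
      rintro u (rfl | rfl | rfl)
      · exact g2
      · exact g3
      · exact g4
    · rintro ⟨g1, g2⟩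
      exact ⟨g1, g2 _ (Or.inl rfl), g2 _ (Or.inr (Or.inl rfl)), g2 _ (Or.inr (Or.inr rfl))⟩
  rw [hKset] at hK8
  -- over the rationals
  obtain ⟨u, hup, huv⟩ := ov_rat hp1.1
  have hu2 : rp u ≠ 2 := by
    rw [hup]
    exact hp1.2.1
  have huodd : OddP u := H38T1.oddP_iff.2 hu2
  have hpP' : p ∉ pd β ∪ (Pp' : Set ℕ) := by
    rintro (h1 | h1)
    · exact hnew.nd (Dvd.dvd.mul_left (Dvd.dvd.mul_right h1.2 _) _)
    · exact hnew.new (Finset.mem_union_right _ h1)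
  have hprQ : ∀ q ∈ pd β ∪ (Pp' : Set ℕ), q.Prime := by
    rintro q (h1 | h1)
    · exact h1.1
    · exact (hS.nice q (Finset.mem_union_right _ h1)).1
  have hur : eo u r = 0 := by
    refine hr.1 u (Set.notMem_empty _) ?_
    intro hu
    have h1 : u ∈ ov ℚ (pd β ∪ (Pp' : Set ℕ)) := hu
    rw [H38T1.mem_ov hprQ, hup] at h1
    exact hpP' h1
  have hlau : la u r = 1 := by
    have h1 := la_res (K := K) (v := v₁) (hp1.2.2 v₁ (by
      rw [H38T1.mem_iff_eq hp1.1]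
      exact hmem _ hm1)).2 (by
        rw [hmem _ hm1]
        exact hp1.2.1) ((hmem _ hm1).trans hup.symm) hur
    rw [← h1]
    exact hRr _ hm1
  have hQ2 := Mf_half Mf_self (fin7 (dat_rat hD) (st_rat hS)) (fun x hx y hy => by
      rw [← hHQ] at hx hy ⊢
      exact HQ.add_mem hx hy) (la u) (H38T1.la_add huodd) hr hlau
  have hQset : {x | x ∈ XX (L7 ℚ a β Pp Pp') ∧ la u x = 0} =
      XX (L7 ℚ a β (insert p Pp) Pp') := by
    rw [XX_insP, huv]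
    ext x
    constructor
    · rintro ⟨g1, g2⟩
      refine ⟨g1, ?_⟩
      rintro u (rfl | rfl | rfl)
      exact g2
    · rintro ⟨g1, g2⟩
      exact ⟨g1, g2 _ rfl⟩
  rw [hQset] at hQ2
  -- comparison
  have hs1 := split7 hD hS
  have hs2 := split7 hD hS'
  have hpos := two_le hD hS'
  have hWW : 4 * (XW K a β (insert p Pp) Pp').ncard = (XW K a β Pp Pp').ncard := by
    rw [hK8, hs2, hQ2] at hs1
    have h1 : (XX (L7 ℚ a β (insert p Pp) Pp')).ncard *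
        (4 * (XW K a β (insert p Pp) Pp').ncard) =
        (XX (L7 ℚ a β (insert p Pp) Pp')).ncard * (XW K a β Pp Pp').ncard := by
      nlinarith [hs1]
    exact Nat.eq_of_mul_eq_mul_left (by omega) h1
  have hN' : NS (PP K a β (insert p Pp) Pp') ⊆ {(0 : SC K)} := by
    refine (NS_mono ?_).trans hN
    unfold PP
    rw [P_ins.1, P_ins.2]
    exact Set.union_subset_union_left _ Set.subset_union_left
  have hg1 := gwK hD hS hN
  have hg2 := gwK hD hS' hN'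
  have h3 : ({v₁, v₂, v₃} : Set (HeightOneSpectrum (𝓞 K))).ncard = 3 := by
    rw [Set.ncard_eq_three]
    exact ⟨v₁, v₂, v₃, h12, h13, h23, rfl⟩
  have hP : (L7 K a β (insert p Pp) Pp').P.ncard = (L7 K a β Pp Pp').P.ncard + 3 := by
    rw [ncard_insP hD hS hnew, hv, h3]
  rw [card_XX' hD hS h, hK8] at hg1
  have h8 : 2 ^ ((L7 K a β Pp Pp').P.ncard + 3) = 2 ^ (L7 K a β Pp Pp').P.ncard * 8 := by
    rw [pow_add]
    norm_num
  rw [P_ins.2, hP, h8] at hg2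
  have h2 : (XX' (L7 K a β (insert p Pp) Pp')).ncard = 2 := by
    have h3 : 0 < 2 ^ (InfinitePlace.nrComplexPlaces K + (L7 K a β Pp Pp').P'.ncard) := by
      positivity
    refine Nat.eq_of_mul_eq_mul_right h3 ?_
    rw [hg2, hg1]
    ring
  exact ⟨p, hS', hN', eq_XX' hD hS' h2, hWW⟩

end H88T7
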