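import Pool.Agent.H88.T7.Mb

/-!
ROW Mg (project MP_78d38b_T7, about 160 lines): the dimension of the norm-zero part is even.

PROOF. nice_odd: for a nice prime `p` (`∀ v` above `p`: `ramificationIdx = 1`, `inertiaDeg` odd) the number of places above `p` is odd:
`∑ e f = finrank ℚ K` (`Ideal.sum_ramification_inertia`; for its translation to `HeightOneSpectrum (𝓞 K)` and `ov K {p}` see
`Ed_odd`/`H38T1.ncard_ov` and `Pool/Agent/H93/T1`), a sum of `k` odd numbers is congruent to `k` modulo two, and the degree is odd (`hD.odd`).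
w_even: by `card_XX'` (for `K` and, with `rat_XX'`, `dat_rat`, `st_rat`, for `ℚ`) both second groups have two elements. Let `|XX(ℚ)| = 2^x`, `|XW| = 2^w`
(`pow7`), `|XX(K)| = 2^(x+w)` (`split7`). `gwK`: `2^(1 + r₂ + #P'_K) = 2^(x + w + #P_K)`, `gwQ`: `2^(1 + #P'_Q) = 2^(x + #P_Q)`. Exponents
(`Nat.pow_right_injective`): `1 + r₂ + #P'_K = x + w + #P_K`, `1 + #P'_Q = x + #P_Q`; so `w + #P_K + #P'_Q = r₂ + #P'_K + #P_Q`, hence
`w ≡ r₂ + #P_K + #P'_K + #P_Q + #P'_Q mod 2`. Now `P_K ∪ P'_K` is the disjoint union of `ov K (pd (β D))` and the `ov K {p}`, `p ∈ Pp ∪ Pp'`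
(`good7` for the disjointness; `pd (β D) = pd β ∪ pd D` as a prime divides a product; `H38T1.mem_ov`), so
`#P_K + #P'_K = |ov K (pd (β D))| + ∑_{p ∈ Pp ∪ Pp'} |ov K {p}|` (sum over the finset: induction, or `Set.ncard` of a disjoint union), where
each term is odd (nice_odd); the same for `ℚ`: `#P_Q + #P'_Q = |pd (β D)| + |Pp ∪ Pp'|` (`ov_rat`: one place above each prime:
`v ↦ rp v` is a bijection from `ov ℚ S` to `S` for a set `S` of primes: `rat_inj`). The sum of both is congruent to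
`|ov K (pd (β D))| + |pd (β D)|` modulo two. With `Par7`: `w` is even.
-/

set_option autoImplicit false
set_option linter.unusedSectionVars false
open scoped Classical

open WithZero NumberField IsDedekindDomain H38RT
open H38T1 (SC sc rep eo la si Pri OddP LD XX XX' NS ov rp SqMod)

namespace H88T7

variable {K : Type} [Field K] [NumberField K] {B : Finset ℕ} {Dc : SC ℚ} {a β : ℤ}
  {Pp Pp' : Finset ℕ}

theorem nice_odd (hodd : Odd (Module.finrank ℚ K)) {p : ℕ} (hp : Nice K p) :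
    Odd (ov K {p}).ncard := by
  obtain ⟨hpp, _, hn⟩ := hp
  have hq : Prime ((p : ℕ) : ℤ) := Nat.prime_iff_prime_int.1 hpp
  have hpi : (Ideal.span {((p : ℕ) : ℤ)}).IsPrime :=
    (Ideal.span_singleton_prime hq.ne_zero).2 hq
  have himg : HeightOneSpectrum.asIdeal '' (ov K {p}) =
      (Ideal.span {((p : ℕ) : ℤ)}).primesOver (𝓞 K) := by
    ext Q
    constructor
    · rintro ⟨v, hv, rfl⟩
      obtain ⟨q, hq1, hv⟩ := hv
      rw [Set.mem_singleton_iff] at hq1
      subst hq1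
      have h1 := (H38T1.mem_iff_eq hpp).1 hv
      have h2 := H38T1.Ed_lies v
      rw [h1] at h2
      exact ⟨v.isPrime, h2⟩
    · rintro ⟨h1, h2⟩
      have h3 : ((p : ℕ) : 𝓞 K) ∈ Q := by
        have h4 := h2.over
        have h5 : ((p : ℕ) : ℤ) ∈ Ideal.span {((p : ℕ) : ℤ)} := Ideal.mem_span_singleton_self _
        rw [h4, Ideal.under_def, Ideal.mem_comap] at h5
        simpa using h5
      have h4 : Q ≠ ⊥ := by
        intro h0
        rw [h0, Ideal.mem_bot] at h3
        exact hpp.ne_zero (by exact_mod_cast h3)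
      exact ⟨⟨Q, h1, h4⟩, ⟨p, rfl, h3⟩, rfl⟩
  have hinj : Function.Injective (HeightOneSpectrum.asIdeal : HeightOneSpectrum (𝓞 K) → Ideal (𝓞 K)) :=
    fun v w h => HeightOneSpectrum.ext h
  have hfin : (ov K {p}).Finite := H38T1.fin_ov (Set.finite_singleton p) (by
    intro q hq1
    rw [Set.mem_singleton_iff] at hq1
    rw [hq1]
    exact hpp)
  have hfin' : ((Ideal.span {((p : ℕ) : ℤ)}).primesOver (𝓞 K)).Finite := by
    rw [← himg]
    exact hfin.image _
  let := hfin'.fintype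
  have hsum := Ideal.sum_ramification_inertia_eq_finrank (Ideal.span {((p : ℕ) : ℤ)}) (𝓞 K)
  rw [RingOfIntegers.rank] at hsum
  rw [← hsum, Finset.odd_sum_iff_odd_card_odd] at hodd
  have hall : (Finset.univ : Finset ((Ideal.span {((p : ℕ) : ℤ)}).primesOver (𝓞 K))).filter
      (fun q => Odd (q.1.ramificationIdx ℤ * q.1.inertiaDeg ℤ)) = Finset.univ := by
    rw [Finset.filter_eq_self]
    rintro ⟨Q, hQ⟩ _
    rw [← himg] at hQ
    obtain ⟨v, hv, rfl⟩ := hQ
    obtain ⟨q, hq1, hv⟩ := hv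
    rw [Set.mem_singleton_iff] at hq1
    subst hq1
    obtain ⟨h1, h2⟩ := hn v hv
    dsimp only
    rw [h1, one_mul]
    exact h2
  rw [hall, Finset.card_univ, ← Nat.card_eq_fintype_card, Nat.card_coe_set_eq, ← himg,
    Set.ncard_image_of_injective _ hinj] at hodd
  exact hodd

private lemma Mg_union (F : Type) [Field F] [NumberField F] (S T : Set ℕ) :
    ov F (S ∪ T) = ov F S ∪ ov F T := by
  ext v
  constructor
  · rintro ⟨q, hq | hq, h⟩
    · exact Or.inl ⟨q, hq, h⟩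
    · exact Or.inr ⟨q, hq, h⟩
  · rintro (⟨q, hq, h⟩ | ⟨q, hq, h⟩)
    · exact ⟨q, Or.inl hq, h⟩
    · exact ⟨q, Or.inr hq, h⟩

private lemma Mg_disj (F : Type) [Field F] [NumberField F] {S T : Set ℕ} (hS : ∀ q ∈ S, q.Prime)
    (hT : ∀ q ∈ T, q.Prime) (h : Disjoint S T) : Disjoint (ov F S) (ov F T) := by
  rw [Set.disjoint_left]
  intro v hv hv'
  rw [H38T1.mem_ov hS] at hv
  rw [H38T1.mem_ov hT] at hv'
  exact (Set.disjoint_left.mp h) hv hv'

private lemma Mg_par {F : Type} [Field F] [NumberField F] (hodd : Odd (Module.finrank ℚ F))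
    (T : Finset ℕ) (hT : ∀ p ∈ T, Nice F p) : (ov F (T : Set ℕ)).ncard % 2 = T.card % 2 := by
  induction T using Finset.induction_on with
  | empty =>
    have h : ov F ((∅ : Finset ℕ) : Set ℕ) = ∅ := by
      ext v
      constructor
      · rintro ⟨q, hq, _⟩
        simp at hq
      · intro h
        exact absurd h (Set.notMem_empty _)
    rw [h, Set.ncard_empty, Finset.card_empty]
  | insert p T hpT ih =>
    have ih' := ih fun q hq => hT q (Finset.mem_insert_of_mem hq)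
    have hp := hT p (Finset.mem_insert_self _ _)
    have hprT : ∀ q ∈ (T : Set ℕ), q.Prime := fun q hq =>
      (hT q (Finset.mem_insert_of_mem hq)).1
    have hprp : ∀ q ∈ ({p} : Set ℕ), q.Prime := by
      intro q hq
      rw [Set.mem_singleton_iff] at hq
      rw [hq]
      exact hp.1
    have hd : Disjoint ({p} : Set ℕ) (T : Set ℕ) := by
      rw [Set.disjoint_singleton_left]
      exact fun h => hpT h
    rw [Finset.coe_insert, Set.insert_eq, Mg_union, Set.ncard_union_eq (Mg_disj F hprp hprT hd)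
      (H38T1.fin_ov (Set.finite_singleton p) hprp) (H38T1.fin_ov T.finite_toSet hprT),
      Finset.card_insert_of_notMem hpT]
    obtain ⟨k, hk⟩ := nice_odd hodd hp
    omega

private lemma Mg_total {F : Type} [Field F] [NumberField F] (hD : Dat F B Dc a β)
    (hS : St F B a β Pp Pp') : (L7 F a β Pp Pp').P.ncard + (L7 F a β Pp Pp').P'.ncard =
      (ov F (pd (β * (a ^ 2 - 64 * β)))).ncard + (ov F ((Pp ∪ Pp' : Finset ℕ) : Set ℕ)).ncard := by
  have hg := good7 hD hS
  have hpd : ∀ m : ℤ, ∀ q ∈ pd m, q.Prime := fun m q hq => hq.1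
  have hpT : ∀ q ∈ ((Pp ∪ Pp' : Finset ℕ) : Set ℕ), q.Prime := fun q hq => (hS.nice q hq).1
  have hset : (L7 F a β Pp Pp').P ∪ (L7 F a β Pp Pp').P' =
      ov F (pd (β * (a ^ 2 - 64 * β))) ∪ ov F ((Pp ∪ Pp' : Finset ℕ) : Set ℕ) := by
    change ov F (pd (a ^ 2 - 64 * β) ∪ (Pp : Set ℕ)) ∪ ov F (pd β ∪ (Pp' : Set ℕ)) = _
    rw [← Mg_union, ← Mg_union]
    congr 1
    ext q
    have hm : q ∈ pd (β * (a ^ 2 - 64 * β)) ↔ q ∈ pd β ∨ q ∈ pd (a ^ 2 - 64 * β) := by
      constructor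
      · rintro ⟨h1, h2⟩
        rcases (Nat.prime_iff_prime_int.mp h1).dvd_or_dvd h2 with h3 | h3
        · exact Or.inl ⟨h1, h3⟩
        · exact Or.inr ⟨h1, h3⟩
      · rintro (⟨h1, h2⟩ | ⟨h1, h2⟩)
        · exact ⟨h1, Dvd.dvd.mul_right h2 _⟩
        · exact ⟨h1, Dvd.dvd.mul_left h2 _⟩
    simp only [Set.mem_union, hm, Finset.coe_union]
    tauto
  have hd : Disjoint (pd (β * (a ^ 2 - 64 * β))) ((Pp ∪ Pp' : Finset ℕ) : Set ℕ) := by
    rw [Set.disjoint_left]
    rintro q ⟨_, h2⟩ hq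
    exact hS.ndvd q hq (Dvd.dvd.mul_left h2 _)
  have hfin : (ov F (pd (β * (a ^ 2 - 64 * β))) ∪ ov F ((Pp ∪ Pp' : Finset ℕ) : Set ℕ)).Finite := by
    rw [← hset]
    exact hg.finP.union hg.finP'
  rw [← Set.ncard_union_eq hg.d3 hg.finP hg.finP', hset,
    Set.ncard_union_eq (Mg_disj F (hpd _) hpT hd) (hfin.subset Set.subset_union_left)
      (hfin.subset Set.subset_union_right)]

private lemma Mg_rat (S : Set ℕ) (hS : ∀ q ∈ S, q.Prime) : (ov ℚ S).ncard = S.ncard := by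
  have himg : (fun v : HeightOneSpectrum (𝓞 ℚ) => rp v) '' (ov ℚ S) = S := by
    ext q
    constructor
    · rintro ⟨v, hv, rfl⟩
      rw [H38T1.mem_ov hS] at hv
      exact hv
    · intro hq
      obtain ⟨v, hv, _⟩ := ov_rat (hS q hq)
      refine ⟨v, ?_, hv⟩
      rw [H38T1.mem_ov hS, hv]
      exact hq
  have hinj : Function.Injective (fun v : HeightOneSpectrum (𝓞 ℚ) => rp v) := fun v w h => rat_inj h
  conv_rhs => rw [← himg]
  rw [Set.ncard_image_of_injective _ hinj]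

theorem w_even (hD : Dat K B Dc a β) (hP : Par7 K a β) (hS : St K B a β Pp Pp')
    (hN : NS (PP K a β Pp Pp') ⊆ {(0 : SC K)})
    (h : XX' (L7 K a β Pp Pp') ⊆ {0, sc ((a ^ 2 - 64 * β : ℤ) : K)}) :
    ∃ w : ℕ, (XW K a β Pp Pp').ncard = 2 ^ (2 * w) := by
  have hDQ := dat_rat hD
  have hSQ := st_rat hS
  have hoddQ : Odd (Module.finrank ℚ ℚ) := by
    rw [Module.finrank_self]
    exact odd_one
  have c1 := card_XX' hD hS h
  have c2 := card_XX' hDQ hSQ (rat_XX' hD hS h)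
  obtain ⟨⟨x, hx⟩, ⟨w, hw⟩⟩ := pow7 hD hS
  have hs := split7 hD hS
  have gK := gwK hD hS hN
  have gQ := gwQ hD hS
  rw [c1, hs, hx, hw] at gK
  rw [c2, hx] at gQ
  have eK : 1 + (InfinitePlace.nrComplexPlaces K + (L7 K a β Pp Pp').P'.ncard) =
      x + w + (L7 K a β Pp Pp').P.ncard := by
    apply Nat.pow_right_injective (le_refl 2)
    dsimp only
    rw [pow_add, pow_one, gK, pow_add, pow_add]
  have eQ : 1 + (L7 ℚ a β Pp Pp').P'.ncard = x + (L7 ℚ a β Pp Pp').P.ncard := by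
    apply Nat.pow_right_injective (le_refl 2)
    dsimp only
    rw [pow_add, pow_one, gQ, pow_add]
  have tK := Mg_total hD hS
  have tQ := Mg_total hDQ hSQ
  have pK := Mg_par hD.odd (Pp ∪ Pp') hS.nice
  have pQ := Mg_par hoddQ (Pp ∪ Pp') hSQ.nice
  have nQ := Mg_rat (pd (β * (a ^ 2 - 64 * β))) (fun q hq => hq.1)
  obtain ⟨k, hk⟩ := hP
  have hwe : w = 2 * (w / 2) := by omega
  exact ⟨w / 2, by rw [hw, ← hwe]⟩

end H88T7
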