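import Pool.Agent.H88.T7.Ma
import Pool.Agent.H88.T7.Mb
import Pool.Agent.H88.T7.Ai

/-!
ROW Mi (project MP_78d38b_T7, about 140 lines): phase 3 of the algorithm.

PROOF. Strong induction on the cardinality of `XX (L7 K a β Pp Pp')` (finite: `fin7`), for all `Pp`. If `XX(K) ⊆ {0, sc β}` we are done. Otherwise let
`c ∈ XX(K)`, `c ≠ 0, sc β`. `c - res (nm c) ∈ XW` (`sub7`, `nm_XX`, `res_XX`, `nm_res hD.odd`), so `c = res r`, `r = nm c ∈ XX(ℚ)`; `r ≠ 0`,
`r ≠ sc β` (`res_int`). `Ψ` from `sepP` (`Ψ Dc = 0`, `Ψ β = 0`, `Ψ D = 1`, `Ψ r = 1`), `hA.c2 {sc β, sc D, r} Ψ` and `exists_new`: a new `p` with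
`ov K {p} = {v}`, `la v (res β) = 0`, `la v (res D) = 1`, `la v c = 1`. `st_insP`. The new `XX` (`XX_insP`) is the kernel of `la v` on the subgroup
`XX(K)` (`H38T1.la_add`; `v` is odd), which is onto `ZMod 2` (`la v c = 1`): `|XX| = 2 |XX new|`. `gwK` for both states (`NS_mono`, `P_ins`),
`#P` increases by one (`ncard_insP`): `|XX' new| = |XX'| = 2` (`card_XX'`), so `eq_XX'`. The new `XW` is contained in the old one (`XX_insP`), so it is
`⊆ {0}`. Induction (`Pp ⊆ insert p Pp`).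
-/

set_option autoImplicit false
set_option linter.unusedSectionVars false
open scoped Classical

open WithZero NumberField IsDedekindDomain H38RT
open H38T1 (SC sc rep eo la si Pri OddP LD XX XX' NS ov rp SqMod)

namespace H88T7

variable {K : Type} [Field K] [NumberField K] {B : Finset ℕ} {Dc : SC ℚ} {a β : ℤ}
  {Pp Pp' : Finset ℕ}

private theorem Mi_self (x : SC K) : x + x = 0 := by
  rw [← two_nsmul]
  exact SC.two_smul x

private theorem Mi_card {v : HeightOneSpectrum (𝓞 K)} (hv : OddP v) {X Y : Set (SC K)}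
    {H : AddSubgroup (SC K)} (hH : (H : Set (SC K)) = X) (hX : X.Finite)
    (hY : Y = {c | c ∈ X ∧ la v c = 0}) {c : SC K} (hc : c ∈ X) (hc1 : la v c = 1) :
    X.ncard = 2 * Y.ncard := by
  have hadd : ∀ x ∈ X, ∀ y ∈ X, x + y ∈ X := by
    intro x hx y hy
    rw [← hH] at hx hy ⊢
    exact H.add_mem hx hy
  have hYX : Y ⊆ X := by
    rw [hY]
    exact fun x hx => hx.1
  have hYf : Y.Finite := hX.subset hYX
  have h11 : (1 : ZMod 2) + 1 = 0 := by decide
  have h10 : (1 : ZMod 2) ≠ 0 := by decide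
  have hunion : X = Y ∪ (fun x => c + x) '' Y := by
    ext x
    constructor
    · intro hx
      rcases H38T1.zmod_two (la v x) with h0 | h1
      · left
        rw [hY]
        exact ⟨hx, h0⟩
      · right
        refine ⟨c + x, ?_, ?_⟩
        · rw [hY]
          refine ⟨hadd c hc x hx, ?_⟩
          rw [H38T1.la_add hv, hc1, h1, h11]
        · show c + (c + x) = x
          rw [← add_assoc, Mi_self, zero_add]
    · rintro (hx | ⟨y, hy, rfl⟩)
      · exact hYX hx
      · exact hadd c hc y (hYX hy)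
  have hdisj : Disjoint Y ((fun x => c + x) '' Y) := by
    rw [Set.disjoint_left]
    rintro x hx ⟨y, hy, rfl⟩
    rw [hY] at hx hy
    have h1 := hx.2
    have h2 : la v (c + y) = 0 := h1
    rw [H38T1.la_add hv, hc1, hy.2, add_zero] at h2
    exact h10 h2
  conv_lhs => rw [hunion]
  rw [Set.ncard_union_eq hdisj hYf (hYf.image _),
    Set.ncard_image_of_injective _ (add_right_injective c)]
  ring

private theorem Mi_step {n : ℕ} (hD : Dat K B Dc a β) (hA : Adm7 K Dc) :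
    ∀ Pp : Finset ℕ, (XX (L7 K a β Pp Pp')).ncard = n → St K B a β Pp Pp' →
    NS (PP K a β Pp Pp') ⊆ {(0 : SC K)} →
    XX' (L7 K a β Pp Pp') ⊆ {0, sc ((a ^ 2 - 64 * β : ℤ) : K)} →
    XW K a β Pp Pp' ⊆ {0} → ∃ Qp : Finset ℕ, Pp ⊆ Qp ∧ St K B a β Qp Pp' ∧
      XX (L7 K a β Qp Pp') ⊆ {0, sc (β : K)} ∧
      XX' (L7 K a β Qp Pp') ⊆ {0, sc ((a ^ 2 - 64 * β : ℤ) : K)} := by
  induction n using Nat.strong_induction_on with
  | _ n ih =>
    intro Pp hn hS hN h hW
    by_cases hX : XX (L7 K a β Pp Pp') ⊆ {0, sc (β : K)}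
    · exact ⟨Pp, Finset.Subset.refl _, hS, hX, h⟩
    obtain ⟨c, hc, hc2⟩ := Set.not_subset.1 hX
    have hc0 : c ≠ 0 := fun h0 => hc2 (Or.inl h0)
    have hcb : c ≠ sc (β : K) := fun h0 => hc2 (Or.inr h0)
    have hβ : β ≠ 0 := left_ne_zero_of_mul hD.sqf.ne_zero
    have hDne : a ^ 2 - 64 * β ≠ 0 := right_ne_zero_of_mul hD.sqf.ne_zero
    obtain ⟨H, hH⟩ := sub7 hD hS
    have hr := nm_XX hD hS hc
    have hres : c = res K (nm K c) := by
      have h1 := res_XX hD hS hr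
      have h2 : c - res K (nm K c) ∈ XX (L7 K a β Pp Pp') := by
        rw [← hH] at hc h1 ⊢
        exact H.sub_mem hc h1
      have h3 : c - res K (nm K c) ∈ XW K a β Pp Pp' := by
        refine ⟨h2, ?_⟩
        rw [map_sub, nm_res hD.odd, sub_self]
      exact sub_eq_zero.1 (hW h3)
    obtain ⟨r, hrc⟩ : ∃ r, r = nm K c := ⟨_, rfl⟩
    rw [← hrc] at hr hres
    have hr0 : r ≠ 0 := by
      rintro rfl
      rw [map_zero] at hres
      exact hc0 hres
    have hrb : r ≠ sc (β : ℚ) := by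
      intro h1
      rw [h1, res_int hβ] at hres
      exact hcb hres
    obtain ⟨Ψ, hΨ1, hΨ2, hΨ3, hΨ4⟩ := sepP hD hS hr hr0 hrb
    have hinf := hA.c2 {sc (β : ℚ), sc ((a ^ 2 - 64 * β : ℤ) : ℚ), r} Ψ hΨ1
    obtain ⟨p, ⟨hp1, v, hv, hR⟩, hnew, -⟩ := exists_new hS hD hinf (fun p hp => hp.1) 0
    have hRb : la v (res K (sc (β : ℚ))) = 0 := by
      rw [hR _ (by simp), hΨ2]
    have hRd : la v (res K (sc ((a ^ 2 - 64 * β : ℤ) : ℚ))) = 1 := by
      rw [hR _ (by simp), hΨ3]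
    have hRr : la v (res K r) = 1 := by
      rw [hR _ (by simp), hΨ4]
    have hvp : ∀ u ∈ ov K {p}, u = v := by
      intro u hu
      rw [hv] at hu
      exact hu
    have hS' : St K B a β (insert p Pp) Pp' := by
      refine st_insP hD hS hnew (fun u hu => ?_) (fun u hu => ?_)
      · rw [hvp u hu]
        exact hRb
      · rw [hvp u hu]
        exact hRd
    have hvmem : v ∈ ov K {p} := by
      rw [hv]
      exact Set.mem_singleton _
    have hrp : rp v = p := by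
      have h1 : v ∈ ov K {p} ↔ rp v ∈ ({p} : Set ℕ) := H38T1.mem_ov (by
        rintro q rfl
        exact hp1.1)
      exact h1.1 hvmem
    have hvo : OddP v := by
      rw [H38T1.oddP_iff, hrp]
      exact hp1.2.1
    have hY : XX (L7 K a β (insert p Pp) Pp') =
        {c | c ∈ XX (L7 K a β Pp Pp') ∧ la v c = 0} := by
      rw [XX_insP, hv]
      ext x
      constructor
      · rintro ⟨h1, h2⟩
        exact ⟨h1, h2 v rfl⟩
      · rintro ⟨h1, h2⟩
        refine ⟨h1, ?_⟩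
        rintro u rfl
        exact h2
    have hc1 : la v c = 1 := by
      rw [hres]
      exact hRr
    have hcard := Mi_card hvo hH (fin7 hD hS) hY hc hc1
    have hN' : NS (PP K a β (insert p Pp) Pp') ⊆ {(0 : SC K)} := by
      refine (NS_mono ?_).trans hN
      unfold PP
      rw [P_ins.1, P_ins.2]
      exact Set.union_subset_union_left _ Set.subset_union_left
    have hg1 := gwK hD hS hN
    have hg2 := gwK hD hS' hN'
    have hP : (L7 K a β (insert p Pp) Pp').P.ncard = (L7 K a β Pp Pp').P.ncard + 1 := by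
      rw [ncard_insP hD hS hnew, hv, Set.ncard_singleton]
    rw [card_XX' hD hS h] at hg1
    rw [P_ins.2, hP, pow_succ] at hg2
    have h2 : (XX' (L7 K a β (insert p Pp) Pp')).ncard = 2 := by
      have h3 : 0 < 2 ^ (InfinitePlace.nrComplexPlaces K + (L7 K a β Pp Pp').P'.ncard) := by
        positivity
      refine Nat.eq_of_mul_eq_mul_right h3 ?_
      rw [hg1, hg2, hcard]
      ring
    have hXX' := eq_XX' hD hS' h2
    have hW' : XW K a β (insert p Pp) Pp' ⊆ {0} := by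
      rintro x ⟨hx1, hx2⟩
      refine hW ⟨?_, hx2⟩
      rw [hY] at hx1
      exact hx1.1
    have hpos : 0 < (XX (L7 K a β Pp Pp')).ncard :=
      (Set.ncard_pos (fin7 hD hS)).2 ⟨c, hc⟩
    obtain ⟨Qp, hQ1, hQ2, hQ3, hQ4⟩ := ih _ (by omega) (insert p Pp) rfl hS' hN' hXX' hW'
    exact ⟨Qp, (Finset.subset_insert p Pp).trans hQ1, hQ2, hQ3, hQ4⟩

theorem phase3 (hD : Dat K B Dc a β) (hA : Adm7 K Dc) (hS : St K B a β Pp Pp')
    (hN : NS (PP K a β Pp Pp') ⊆ {(0 : SC K)})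
    (h : XX' (L7 K a β Pp Pp') ⊆ {0, sc ((a ^ 2 - 64 * β : ℤ) : K)})
    (hW : XW K a β Pp Pp' ⊆ {0}) : ∃ Qp : Finset ℕ, Pp ⊆ Qp ∧ St K B a β Qp Pp' ∧
      XX (L7 K a β Qp Pp') ⊆ {0, sc (β : K)} ∧
      XX' (L7 K a β Qp Pp') ⊆ {0, sc ((a ^ 2 - 64 * β : ℤ) : K)} :=
  Mi_step hD hA Pp rfl hS hN h hW

end H88T7
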