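import Pool.Agent.H88.T7.Mc
import Pool.Agent.H88.T7.Md
import Pool.Agent.H88.T7.Me
import Pool.Agent.H88.T7.Mf
import Pool.Agent.H88.T7.Mg
import Pool.Agent.H88.T7.Mi

/-!
Phase 2 and the algorithm (project MP_78d38b_T7).
-/

set_option autoImplicit false
set_option linter.unusedSectionVars false
open scoped Classical

open WithZero NumberField IsDedekindDomain H38RT
open H38T1 (SC sc rep eo la si Pri OddP LD XX XX' NS ov rp SqMod)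

namespace H88T7

variable {K : Type} [Field K] [NumberField K] {B : Finset ℕ} {Dc : SC ℚ} {a β : ℤ}

theorem zero_XW (hD : Dat K B Dc a β) {Pp Pp' : Finset ℕ} (hS : St K B a β Pp Pp') :
    (0 : SC K) ∈ XW K a β Pp Pp' := by
  obtain ⟨H, hH⟩ := sub7 hD hS
  refine ⟨?_, map_zero _⟩
  rw [← hH]
  exact H.zero_mem

theorem fin_XW (hD : Dat K B Dc a β) {Pp Pp' : Finset ℕ} (hS : St K B a β Pp Pp') :
    (XW K a β Pp Pp').Finite := (fin7 hD hS).subset fun _ h => h.1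

theorem phase2_aux (hD : Dat K B Dc a β) (hA : Adm7 K Dc) (hP : Par7 K a β) (k : ℕ) :
    ∀ Pp Pp' : Finset ℕ, (XW K a β Pp Pp').ncard ≤ k → St K B a β Pp Pp' →
    NS (PP K a β Pp Pp') ⊆ {(0 : SC K)} →
    XX' (L7 K a β Pp Pp') ⊆ {0, sc ((a ^ 2 - 64 * β : ℤ) : K)} →
    ∃ Qp Qp' : Finset ℕ, Pp ⊆ Qp ∧ Pp' ⊆ Qp' ∧ St K B a β Qp Qp' ∧
      NS (PP K a β Qp Qp') ⊆ {(0 : SC K)} ∧
      XX' (L7 K a β Qp Qp') ⊆ {0, sc ((a ^ 2 - 64 * β : ℤ) : K)} ∧ XW K a β Qp Qp' ⊆ {0} := by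
  induction k using Nat.strong_induction_on with
  | _ k ih =>
    intro Pp Pp' hk hS hN h
    obtain ⟨w, hw⟩ := w_even hD hP hS hN h
    by_cases hw0 : w = 0
    · refine ⟨Pp, Pp', subset_rfl, subset_rfl, hS, hN, h, ?_⟩
      rw [hw0, mul_zero, pow_zero, Set.ncard_eq_one] at hw
      obtain ⟨x, hx⟩ := hw
      have h0 := zero_XW hD hS
      rw [hx] at h0 ⊢
      rw [Set.mem_singleton_iff] at h0
      rw [h0]
    · have h4 : 4 ≤ (XW K a β Pp Pp').ncard := by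
        rw [hw, show (4 : ℕ) = 2 ^ 2 by norm_num]
        exact Nat.pow_le_pow_right (by norm_num) (by omega)
      obtain ⟨p, hS1, hN1, h1, hQ, hW⟩ := stepa hD hA hS hN h
      have hQ2 := two_le hD hS
      obtain ⟨p', hS2, hN2, h2, hW2⟩ := stepb hD hA hS1 hN1 h1 (by omega) (by omega)
      obtain ⟨Qp, Qp', hq, hq', r⟩ := ih (XW K a β (insert p' Pp) (insert p Pp')).ncard (by omega)
        (insert p' Pp) (insert p Pp') le_rfl hS2 hN2 h2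
      exact ⟨Qp, Qp', (Finset.subset_insert _ _).trans hq, (Finset.subset_insert _ _).trans hq', r⟩

/-- The algorithm. -/
theorem algo (hD : Dat K B Dc a β) (hA : Adm7 K Dc) (hP : Par7 K a β) (N₀ : ℕ) :
    ∃ Pp Pp' : Finset ℕ, St K B a β Pp Pp' ∧ (∃ p ∈ Pp', N₀ < p) ∧
      XX (L7 K a β Pp Pp') ⊆ {0, sc (β : K)} ∧
      XX' (L7 K a β Pp Pp') ⊆ {0, sc ((a ^ 2 - 64 * β : ℤ) : K)} := by
  obtain ⟨P0, hS0, ⟨p, hp, hpN⟩, hN0⟩ := phase0 hD hA N₀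
  obtain ⟨P1, h01, hS1, hX1⟩ := phase1 hD hA hS0
  have hN1 : NS (PP K a β ∅ P1) ⊆ {(0 : SC K)} := by
    refine (NS_mono ?_).trans hN0
    rintro v ⟨q, hq, hv⟩
    exact Or.inr ⟨q, Or.inr (h01 hq), hv⟩
  obtain ⟨P2, P2', -, h12, hS2, hN2, hX2, hW2⟩ :=
    phase2_aux hD hA hP _ ∅ P1 le_rfl hS1 hN1 hX1
  obtain ⟨P3, -, hS3, hX3, hX3'⟩ := phase3 hD hA hS2 hN2 hX2 hW2
  exact ⟨P3, P2', hS3, ⟨p, h12 (h01 hp), hpN⟩, hX3, hX3'⟩

end H88T7
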