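import Pool.Agent.H88.T7.Fn
import Pool.Agent.H88.T7.Fb
import Pool.Agent.H88.T7.Fd
import Pool.Agent.H88.T7.Fe
import Pool.Agent.H88.T7.Ff
import Pool.Agent.H88.T7.Fi
import Pool.Agent.H88.T7.Go
import Pool.Agent.H88.T7.Gp
import Pool.Agent.H88.T7.Mh
import Pool.Agent.H88.T7.Cf

/-!
Assembly of the project MP_78d38b_T7 (helper88).
-/

set_option autoImplicit false
set_option linter.unusedSectionVars false
open scoped Classical

open WithZero NumberField IsDedekindDomain H38RT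
open H38T1 (SC sc rep eo la si Pri OddP LD XX XX' NS ov rp SqMod)

namespace H88T7

variable {K : Type} [Field K] [NumberField K] {B : Finset ℕ}

theorem adm7_of (hB : Bas K B (sc (NumberField.discr K : ℚ))) (hng : ¬ IsGalois ℚ K)
    (hA : AltGal K) : Adm7 K (sc (NumberField.discr K : ℚ)) :=
  ⟨fun Z hZ R Φ₁ Φ₂ Ψ hΨ => c1_of hB hng hA Z hZ R Φ₁ Φ₂ Ψ hΨ,
    fun R Ψ hΨ => c2_of hB hng hA R Ψ hΨ⟩

theorem co7 {a β : ℤ} (ha8 : a % 8 = 1) (hb8 : β % 8 = 1) (ha3 : a % 3 = 1) (hb3 : β % 3 = 2)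
    (ha : ∀ l ∈ B, l ≠ 2 → l ≠ 3 → (l : ℤ) ∣ a - 10) (hb : ∀ l ∈ B, l ≠ 2 → l ≠ 3 → (l : ℤ) ∣ β - 1)
    {q : ℕ} (hq : q.Prime) (hd : (q : ℤ) ∣ β * (a ^ 2 - 64 * β)) : q ∉ B := by
  intro hqB
  by_cases h2 : q = 2
  · have h8 := Fd_N8 ha8 hb8
    rw [h2] at hd
    omega
  by_cases h3 : q = 3
  · have h4 := Fd_N3 ha3 hb3
    rw [h3] at hd
    omega
  have h5 := Fd_Nl (ha q hqB h2 h3) (hb q hqB h2 h3)
  have h6 : (q : ℤ) ∣ 6 ^ 2 := (Int.modEq_zero_iff_dvd.1 (h5.symm.trans (Int.modEq_zero_iff_dvd.2 hd)))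
  have h7 : q ∣ 6 ^ 2 := by exact_mod_cast h6
  have h8 : q ∣ 2 * 3 := hq.dvd_of_dvd_pow h7
  rcases hq.dvd_mul.1 h8 with h | h
  · exact h2 ((Nat.prime_dvd_prime_iff_eq hq Nat.prime_two).1 h)
  · exact h3 ((Nat.prime_dvd_prime_iff_eq hq Nat.prime_three).1 h)

theorem main7 (hodd : Odd (Module.finrank ℚ K)) (hng : ¬ IsGalois ℚ K) (hA : AltGal K) :
    ∃ a : ℤ, a % 4 = 1 ∧ {β : ℤ | β % 2 = 1 ∧ a ^ 2 < 64 * β ∧ IsCoprime a β ∧
      Squarefree (β * (a ^ 2 - 64 * β)) ∧ ∃ (n : ℤ) (D : Set ℕ), GoodT K a (16 * β) n D}.Infinite := by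
  obtain ⟨B, hB, hF, hBp, hdB⟩ := exists_B K hodd {2, 3, 5} (by decide)
  obtain ⟨a, ha8, ha3, ha, hinf⟩ := exists_ab B hBp (hF (by decide)) (hF (by decide)) (hF (by decide))
  refine ⟨a, by omega, hinf.mono ?_⟩
  rintro β ⟨hb8, hb3, hpos, hcop, hne, hsq, hb⟩
  have hD : Dat K B (sc (NumberField.discr K : ℚ)) a β :=
    { toBas := hB
      toHyp7 := ⟨by omega, by omega, hpos, hcop, hsq, hne⟩
      co := fun q hq hd => co7 ha8 hb8 ha3 hb3 ha hb hq hd }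
  have hP : Par7 K a β := par_of hD hdB (jac_disc (NumberField.discr_ne_zero K) ha8 hb8 hpos ha3 hb3
    fun l hl hld h2 h3 => ⟨ha l (hdB l hl hld) h2 h3, hb l (hdB l hl hld) h2 h3⟩)
  have hAd := adm7_of hB hng hA
  obtain ⟨Pp, Pp', hS, -, hX, hX'⟩ := algo hD hAd hP 0
  obtain ⟨n, hn, h4⟩ := exists_n7 hS
  refine ⟨by omega, hpos, hcop, hsq, n, Ds K a β, ?_, ds_one, fun d hd => hd.1,
    fun d hd d' hd' => ds_mul hd hd', ds_inf hD hAd, fun d hd => both7 hD hS (tw7_mul hS hn h4 hd) hX hX'⟩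
  have := (tw7_mul hS hn h4 (ds_one (K := K) (a := a) (β := β))).sqf
  simpa using this

end H88T7
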