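import Pool.Agent.H88.T7.Df

/-!
Definitions for the density theorems (project MP_78d38b_T7); no row.
-/

set_option autoImplicit false
set_option linter.unusedSectionVars false
open scoped Classical

open WithZero NumberField IsDedekindDomain H38RT
open H38T1 (SC sc rep eo la si Pri OddP LD XX XX' NS ov rp SqMod)

namespace H88T7

section Act

variable (K L : Type) [Field K] [NumberField K] [Field L] [NumberField L]

/-- The action of the automorphisms on the embeddings. -/
noncomputable def actH : (L ≃ₐ[ℚ] L) →* Equiv.Perm (K →ₐ[ℚ] L) where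
  toFun g :=
    { toFun := fun σ => (g : L →ₐ[ℚ] L).comp σ
      invFun := fun σ => (g.symm : L →ₐ[ℚ] L).comp σ
      left_inv := fun σ => by
        ext x
        exact g.symm_apply_apply _
      right_inv := fun σ => by
        ext x
        exact g.apply_symm_apply _ }
  map_one' := by
    ext σ x
    rfl
  map_mul' g h := by
    ext σ x
    rfl

variable {K L}

lemma actH_apply (g : L ≃ₐ[ℚ] L) (σ : K →ₐ[ℚ] L) (x : K) : actH K L g σ x = g (σ x) := rfl

variable (K L)

/-- `L` is Galois over the rationals and contains all conjugates of `K`. -/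
structure BigL : Prop where
  gal : IsGalois ℚ L
  card : Fintype.card (K →ₐ[ℚ] L) = Module.finrank ℚ K

/-- Moreover the Galois group induces all even permutations of the embeddings, and the action is
doubly transitive. -/
structure GenL : Prop extends BigL K L where
  alt : ∀ τ ∈ alternatingGroup (K →ₐ[ℚ] L), ∃ g : L ≃ₐ[ℚ] L, actH K L g = τ
  two : ∀ σ₁ σ₂ τ₁ τ₂ : K →ₐ[ℚ] L, σ₁ ≠ σ₂ → τ₁ ≠ τ₂ →
    ∃ g : L ≃ₐ[ℚ] L, actH K L g σ₁ = τ₁ ∧ actH K L g σ₂ = τ₂

/-- `x` is a nonzero square of an element of the Galois closure of `K` in `L`. -/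
def SqT (x : L) : Prop := x ≠ 0 ∧ ∃ t : L, t ^ 2 = x ∧ ∀ γ : L ≃ₐ[ℚ] L, actH K L γ = 1 → γ t = t

/-- A square root of the discriminant `Δ`. -/
structure IsDel (Δ : ℤ) (δ : L) : Prop where
  int : IsIntegral ℤ δ
  sq : δ ^ 2 = (Δ : L)
  act : ∀ g : L ≃ₐ[ℚ] L, g δ = ((Equiv.Perm.sign (actH K L g) : ℤˣ) : ℤ) * δ

end Act

/-- The Galois group of `K` induces all even permutations of the embeddings of `K`. -/
def AltGal (K : Type) [Field K] [NumberField K] : Prop :=
  ∀ τ ∈ alternatingGroup (K →ₐ[ℚ] AlgebraicClosure ℚ),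
    ∃ g : AlgebraicClosure ℚ ≃ₐ[ℚ] AlgebraicClosure ℚ,
      ∀ σ : K →ₐ[ℚ] AlgebraicClosure ℚ,
        (g : AlgebraicClosure ℚ →ₐ[ℚ] AlgebraicClosure ℚ).comp σ = τ σ

section Places

variable {K L : Type} [Field K] [NumberField K] [Field L] [NumberField L]

/-- The homomorphism of the rings of integers. -/
noncomputable def oh (σ : K →ₐ[ℚ] L) : 𝓞 K →+* 𝓞 L :=
  RingOfIntegers.mapRingHom (σ : K →+* L)

lemma oh_coe (σ : K →ₐ[ℚ] L) (x : 𝓞 K) : ((oh σ x : 𝓞 L) : L) = σ (x : K) := rfl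

lemma oh_inj (σ : K →ₐ[ℚ] L) : Function.Injective (oh σ) := by
  intro x y h
  apply RingOfIntegers.ext
  have h1 := congrArg (fun z : 𝓞 L => (z : L)) h
  simp only [oh_coe] at h1
  exact σ.toRingHom.injective h1

/-- The place of `K` below the place `w` of `L` for the embedding `σ`. -/
noncomputable def pl (σ : K →ₐ[ℚ] L) (w : HeightOneSpectrum (𝓞 L)) :
    HeightOneSpectrum (𝓞 K) where
  asIdeal := w.asIdeal.comap (oh σ)
  isPrime := Ideal.comap_isPrime _ _
  ne_bot := by
    intro h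
    have hp := H38T1.rp_mem w
    have h1 : ((rp w : ℕ) : 𝓞 K) ∈ w.asIdeal.comap (oh σ) := by
      rw [Ideal.mem_comap, map_natCast]
      exact hp
    rw [h, Ideal.mem_bot] at h1
    exact (H38T1.rp_prime w).ne_zero (by exact_mod_cast h1)

lemma mem_pl {σ : K →ₐ[ℚ] L} {w : HeightOneSpectrum (𝓞 L)} {x : 𝓞 K} :
    x ∈ (pl σ w).asIdeal ↔ oh σ x ∈ w.asIdeal := Iff.rfl

/-- `φ` is a Frobenius element at `w`. -/
def IsFb (φ : L ≃ₐ[ℚ] L) (w : HeightOneSpectrum (𝓞 L)) : Prop :=
  ∀ x : 𝓞 L, φ • x - x ^ (rp w) ∈ w.asIdeal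

end Places

end H88T7
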