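import Pool.Agent.H88.T7.Gd

/-!
ROW Ge (project MP_78d38b_T7, about 190 lines): the quadratic classes which become squares in the Galois
closure.

PROOF. `H = K →ₐ[ℚ] L`, `sgn g = Equiv.Perm.sign (actH K L g)`, `δ ≠ 0`, `δ^2 = Δ`, `g δ = sgn g * δ`.
(A) rho_of. `t^2 = ρ`, `t` fixed by the kernel of `actH`. For all `g`: `(g t)^2 = t^2`, so `g t = t` or `g t = - t`. If `actH g` is a three-cycle
then `actH (g^3) = 1`, so `g^3 t = t`, and `g t = - t` would give `g^3 t = - t`; so `g t = t`. Let `S = {g | g t = t}`, a subgroup. Every `g` with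
`actH g` even is in `S`: the subgroup `actH(S)` contains all three-cycles (each is `actH` of some `g` by `hL.alt`; a three-cycle is even), so
it contains `alternatingGroup H` (`Equiv.Perm.closure_three_cycles_eq_alternating`); `actH g = actH s`, `s ∈ S`, and `g = s (s⁻¹ g)` with
`actH (s⁻¹ g) = 1`, so `g t = t`. If all `g ∈ S`: `t ∈ ℚ` (`IsGalois.mem_range_algebraMap_iff_fixed` for `ℚ`), so `ρ` is a square of a
rational number and `sc ρ = 0`. If some `g₁ ∉ S`: `actH g₁` is odd, `g₁ t = - t`; every `g` with odd `actH g` is `(g g₁⁻¹) g₁` with the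
first factor in `S`, so `g t = g (g₁⁻¹ (- t)).. = - t`; thus `g t = sgn g * t` for all `g`, and `t δ` is fixed by all `g`, `t δ = q ∈ ℚ`,
`ρ Δ = q^2`, so `sc ρ + sc Δ = 0`, `sc ρ = sc Δ` (`SC.two_smul`).
(B) u_of. The same with the group `G₁ = {g | actH g σ = σ}` instead of the whole group: `t^2 = σ u` is fixed by `G₁`. Three-cycles in `H`
fixing `σ`: the group of even permutations of `H` fixing `σ` is generated by the three-cycles fixing `σ`: for
`X = {τ // τ ≠ σ}`, a permutation `π` of `H` fixing `σ` restricts to `X` (`Equiv.Perm.subtypePerm`, `ofSubtype`), its sign is the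
same (`Equiv.Perm.sign_subtypePerm`, `sign_ofSubtype`), `closure_three_cycles_eq_alternating` for `X`, and `ofSubtype` is a
homomorphism which maps three-cycles to three-cycles (`cycleType_ofSubtype`). The fixed elements of `G₁` are `σ(K)`: with
`Algebra K L := σ.toAlgebra`, `L / K` is Galois (`IsGalois.tower_top_of_isGalois`) and `IsGalois.mem_range_algebraMap_iff_fixed`; an
`L ≃ₐ[K] L` is an element of `G₁` (`restrictScalars`). Results: `t = σ y`, so `u = y^2`, `sc u = 0`; or `t δ = σ y`, `u Δ = y^2`,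
`sc u = sc (Δ : K) = res K (sc Δ)` (`res_sc`).
-/

set_option autoImplicit false
set_option linter.unusedSectionVars false
open scoped Classical

open WithZero NumberField IsDedekindDomain H38RT
open H38T1 (SC sc rep eo la si Pri OddP LD XX XX' NS ov rp SqMod)

namespace H88T7

variable {K L : Type} [Field K] [NumberField K] [Field L] [NumberField L]

private theorem Ge_neg {t : L} (ht : t ≠ 0) : -t ≠ t := by
  intro h
  have h1 : (2 : L) * t = 0 := by linear_combination -h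
  rcases mul_eq_zero.1 h1 with h2 | h2
  · exact two_ne_zero h2
  · exact ht h2

/-- Automorphisms with even permutations fix `t`. -/
private theorem Ge_even {X : Type} [Fintype X] [DecidableEq X]
    (f : Equiv.Perm X →* Equiv.Perm (K →ₐ[ℚ] L)) {G₁ : Subgroup (L ≃ₐ[ℚ] L)}
    (hlift : ∀ c : Equiv.Perm X, c.IsThreeCycle → ∃ g ∈ G₁, actH K L g = f c)
    {t : L} (ht : t ≠ 0) (h1 : ∀ g ∈ G₁, g t = t ∨ g t = -t)
    (h2 : ∀ γ : L ≃ₐ[ℚ] L, actH K L γ = 1 → γ t = t) {π : Equiv.Perm X}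
    (hπ : π ∈ alternatingGroup X) {g : L ≃ₐ[ℚ] L} (hg : actH K L g = f π) : g t = t := by
  obtain ⟨S, hS⟩ : ∃ S : Subgroup (Equiv.Perm X), ∀ π, π ∈ S ↔
      ∃ s : L ≃ₐ[ℚ] L, actH K L s = f π ∧ s t = t :=
    ⟨{ carrier := {π | ∃ s : L ≃ₐ[ℚ] L, actH K L s = f π ∧ s t = t}
       mul_mem' := by
         rintro a b ⟨s, hs1, hs2⟩ ⟨s', hs1', hs2'⟩
         refine ⟨s * s', ?_, ?_⟩
         · rw [map_mul, map_mul, hs1, hs1']
         · show s (s' t) = t
           rw [hs2', hs2]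
       one_mem' := ⟨1, by rw [map_one, map_one], rfl⟩
       inv_mem' := by
         rintro a ⟨s, hs1, hs2⟩
         refine ⟨s⁻¹, ?_, ?_⟩
         · rw [map_inv, map_inv, hs1]
         · have h3 : s⁻¹ (s t) = t := s.symm_apply_apply t
           rw [hs2] at h3
           exact h3 }, fun π => Iff.rfl⟩
  have h3 : alternatingGroup X ≤ S := by
    rw [← Equiv.Perm.closure_three_cycles_eq_alternating, Subgroup.closure_le]
    intro c hc
    have hc3 : c.IsThreeCycle := hc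
    obtain ⟨s, hs, hs1⟩ := hlift c hc3
    refine (hS c).2 ⟨s, hs1, ?_⟩
    rcases h1 s hs with h4 | h4
    · exact h4
    · exfalso
      have h5 : c ^ 3 = 1 := by
        rw [← hc3.orderOf]
        exact pow_orderOf_eq_one c
      have h6 : actH K L (s ^ 3) = 1 := by
        rw [map_pow, hs1, ← map_pow, h5, map_one]
      have h7 := h2 _ h6
      have h8 : (s ^ 3) t = s (s (s t)) := by
        rw [pow_succ, pow_succ, pow_one]
        rfl
      rw [h8, h4, map_neg, h4, neg_neg, h4] at h7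
      exact Ge_neg ht h7
  obtain ⟨s, hs1, hs2⟩ := (hS π).1 (h3 hπ)
  have h4 : actH K L (s⁻¹ * g) = 1 := by
    rw [map_mul, map_inv, hs1, hg, inv_mul_cancel]
  have h5 := h2 _ h4
  have h6 : (s⁻¹ * g) t = s⁻¹ (g t) := rfl
  rw [h6] at h5
  have h7 : s (s⁻¹ (g t)) = g t := s.apply_symm_apply (g t)
  rw [h5, hs2] at h7
  exact h7.symm

/-- The alternative: `t` or `t δ` is fixed. -/
private theorem Ge_alt {Δ : ℤ} {δ : L} (hδ : IsDel K L Δ δ) {G₁ : Subgroup (L ≃ₐ[ℚ] L)} {t : L}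
    (h1 : ∀ g ∈ G₁, g t = t ∨ g t = -t)
    (h2 : ∀ g ∈ G₁, Equiv.Perm.sign (actH K L g) = 1 → g t = t) :
    (∀ g ∈ G₁, g t = t) ∨ ∀ g ∈ G₁, g (t * δ) = t * δ := by
  by_cases h : ∀ g ∈ G₁, g t = t
  · exact Or.inl h
  right
  push Not at h
  obtain ⟨g₁, hg₁, hg₁t⟩ := h
  have h3 : g₁ t = -t := (h1 g₁ hg₁).resolve_left hg₁t
  have h4 : Equiv.Perm.sign (actH K L g₁) = -1 :=
    (Int.units_eq_one_or _).resolve_left (fun h5 => hg₁t (h2 g₁ hg₁ h5))
  intro g hg
  rw [map_mul, hδ.act g]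
  rcases Int.units_eq_one_or (Equiv.Perm.sign (actH K L g)) with h5 | h5
  · rw [h5, h2 g hg h5]
    push_cast
    ring
  · have h6 : (g * g₁) t = t := by
      refine h2 _ (G₁.mul_mem hg hg₁) ?_
      rw [map_mul, map_mul, h4, h5]
      decide
    have h7 : (g * g₁) t = g (g₁ t) := rfl
    rw [h7, h3, map_neg] at h6
    rw [h5]
    push_cast
    linear_combination δ * h6

private theorem Ge_pm {t x : L} (h : t ^ 2 = x) {g : L ≃ₐ[ℚ] L} (hg : g x = x) :
    g t = t ∨ g t = -t := by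
  have h1 : (g t) ^ 2 = t ^ 2 := by
    rw [← map_pow, h, hg]
  exact sq_eq_sq_iff_eq_or_eq_neg.1 h1

private theorem Ge_two {F : Type} [Field F] {x y : SC F} (h : x + y = 0) : x = y := by
  have h1 : y + y = 0 := by
    rw [← two_nsmul]
    exact SC.two_smul y
  exact add_right_cancel (h.trans h1.symm)

theorem rho_of (hL : GenL K L) {Δ : ℤ} (hΔ : Δ ≠ 0) {δ : L} (hδ : IsDel K L Δ δ) {ρ : ℚ}
    (hρ : ρ ≠ 0) (h : SqT K L (algebraMap ℚ L ρ)) : sc ρ = 0 ∨ sc ρ = sc (Δ : ℚ) := by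
  obtain ⟨hx, t, ht2, htf⟩ := h
  have ht : t ≠ 0 := by
    rintro rfl
    rw [zero_pow two_ne_zero] at ht2
    exact hx ht2.symm
  have hgal := hL.gal
  have hpm : ∀ g ∈ (⊤ : Subgroup (L ≃ₐ[ℚ] L)), g t = t ∨ g t = -t := fun g _ =>
    Ge_pm ht2 (g.commutes ρ)
  have hev : ∀ g ∈ (⊤ : Subgroup (L ≃ₐ[ℚ] L)), Equiv.Perm.sign (actH K L g) = 1 → g t = t := by
    intro g _ hg
    refine Ge_even (MonoidHom.id _) (G₁ := ⊤) ?_ ht hpm htf (π := actH K L g)
      (Equiv.Perm.mem_alternatingGroup.2 hg) rfl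
    intro c hc
    obtain ⟨g', hg'⟩ := hL.alt c (Equiv.Perm.mem_alternatingGroup.2 hc.sign)
    exact ⟨g', Subgroup.mem_top _, hg'⟩
  rcases Ge_alt hδ hpm hev with h1 | h1
  · left
    obtain ⟨q, hq⟩ := (IsGalois.mem_range_algebraMap_iff_fixed (F := ℚ) t).2
      (fun g => h1 g (Subgroup.mem_top _))
    rw [H38T1.sc_eq_zero hρ]
    refine ⟨q, ?_⟩
    apply (algebraMap ℚ L).injective
    rw [map_mul, hq, ← ht2, sq]
  · right
    obtain ⟨q, hq⟩ := (IsGalois.mem_range_algebraMap_iff_fixed (F := ℚ) (t * δ)).2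
      (fun g => h1 g (Subgroup.mem_top _))
    have hΔQ : (Δ : ℚ) ≠ 0 := by exact_mod_cast hΔ
    apply Ge_two
    rw [← H38T1.sc_mul hρ hΔQ, H38T1.sc_eq_zero (mul_ne_zero hρ hΔQ)]
    refine ⟨q, ?_⟩
    apply (algebraMap ℚ L).injective
    rw [map_mul, map_mul, hq, ← ht2, map_intCast, ← hδ.sq]
    ring

private theorem Ge_fix (hL : BigL K L) {σ : K →ₐ[ℚ] L} {x : L}
    (h : ∀ g : L ≃ₐ[ℚ] L, actH K L g σ = σ → g x = x) : ∃ y : K, σ y = x := by
  have hgal := hL.gal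
  let _ : Algebra K L := σ.toRingHom.toAlgebra
  have htow : IsScalarTower ℚ K L := IsScalarTower.of_algebraMap_eq (fun q => by
    show algebraMap ℚ L q = σ (algebraMap ℚ K q)
    rw [AlgHom.commutes])
  have hg2 : IsGalois K L := IsGalois.tower_top_of_isGalois ℚ K L
  have hfd : FiniteDimensional K L := FiniteDimensional.right ℚ K L
  obtain ⟨y, hy⟩ := (IsGalois.mem_range_algebraMap_iff_fixed (F := K) x).2 (fun g => by
    refine h (g.restrictScalars ℚ) ?_
    ext y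
    rw [actH_apply]
    exact g.commutes y)
  exact ⟨y, hy⟩

theorem u_of (hL : GenL K L) {Δ : ℤ} (hΔ : Δ ≠ 0) {δ : L} (hδ : IsDel K L Δ δ) {u : K} (hu : u ≠ 0)
    {σ : K →ₐ[ℚ] L} (h : SqT K L (σ u)) : sc u = 0 ∨ sc u = res K (sc (Δ : ℚ)) := by
  obtain ⟨hx, t, ht2, htf⟩ := h
  have ht : t ≠ 0 := by
    rintro rfl
    rw [zero_pow two_ne_zero] at ht2
    exact hx ht2.symm
  obtain ⟨G₁, hG₁⟩ : ∃ G₁ : Subgroup (L ≃ₐ[ℚ] L), ∀ g, g ∈ G₁ ↔ actH K L g σ = σ :=
    ⟨(MulAction.stabilizer (Equiv.Perm (K →ₐ[ℚ] L)) σ).comap (actH K L), fun g => Iff.rfl⟩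
  have hpm : ∀ g ∈ G₁, g t = t ∨ g t = -t := by
    intro g hg
    refine Ge_pm ht2 ?_
    have h1 := (hG₁ g).1 hg
    have h2 := congrArg (fun τ : K →ₐ[ℚ] L => τ u) h1
    exact h2
  have hev : ∀ g ∈ G₁, Equiv.Perm.sign (actH K L g) = 1 → g t = t := by
    intro g hg hs
    have hgσ := (hG₁ g).1 hg
    have h1 : ∀ τ, actH K L g τ ≠ σ ↔ τ ≠ σ := by
      intro τ
      refine not_congr ⟨fun h2 => ?_, fun h2 => ?_⟩
      · exact (actH K L g).injective (h2.trans hgσ.symm)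
      · rw [h2]
        exact hgσ
    have h2 : ∀ τ, actH K L g τ ≠ τ → τ ≠ σ := by
      rintro τ hτ rfl
      exact hτ hgσ
    refine Ge_even (X := {τ : K →ₐ[ℚ] L // τ ≠ σ}) Equiv.Perm.ofSubtype (G₁ := G₁) ?_ ht hpm htf
      (π := (actH K L g).subtypePerm h1) ?_ ?_
    · intro c hc
      have h3 : Equiv.Perm.sign (Equiv.Perm.ofSubtype c) = 1 := by
        rw [Equiv.Perm.sign_ofSubtype]
        exact hc.sign
      obtain ⟨g', hg'⟩ := hL.alt _ (Equiv.Perm.mem_alternatingGroup.2 h3)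
      refine ⟨g', (hG₁ g').2 ?_, hg'⟩
      rw [hg']
      exact Equiv.Perm.ofSubtype_apply_of_not_mem c (fun h4 => h4 rfl)
    · rw [Equiv.Perm.mem_alternatingGroup, Equiv.Perm.sign_subtypePerm _ h1 h2]
      exact hs
    · exact (Equiv.Perm.ofSubtype_subtypePerm h1 h2).symm
  rcases Ge_alt hδ hpm hev with h1 | h1
  · left
    obtain ⟨y, hy⟩ := Ge_fix hL.toBigL (σ := σ) (x := t) (fun g hg => h1 g ((hG₁ g).2 hg))
    rw [H38T1.sc_eq_zero hu]
    refine ⟨y, ?_⟩
    apply σ.toRingHom.injective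
    show σ u = σ (y * y)
    rw [map_mul, hy, ← ht2, sq]
  · right
    obtain ⟨y, hy⟩ := Ge_fix hL.toBigL (σ := σ) (x := t * δ) (fun g hg => h1 g ((hG₁ g).2 hg))
    have hΔQ : (Δ : ℚ) ≠ 0 := by exact_mod_cast hΔ
    have hΔK : (Δ : K) ≠ 0 := by exact_mod_cast hΔ
    rw [res_sc hΔQ, map_intCast]
    apply Ge_two
    rw [← H38T1.sc_mul hu hΔK, H38T1.sc_eq_zero (mul_ne_zero hu hΔK)]
    refine ⟨y, ?_⟩
    apply σ.toRingHom.injective
    show σ (u * (Δ : K)) = σ (y * y)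
    rw [map_mul, map_mul, hy, ← ht2, map_intCast, ← hδ.sq]
    ring

end H88T7
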