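import Pool.Agent.H88.T7.Ge

/-!
ROW Gf (project MP_78d38b_T7, about 170 lines): the relation lemma.

PROOF. Write `~` for `SqT K L`.
(1) For all `σ ≠ σ'`: `~ (σ u * σ' u' * ρ)`: `hL.two` gives `g` with `g σ₁ = σ`, `g σ₂ = σ'`; `sqT_map g h` (`g` fixes the rational number `ρ`).
(2) `~ (σ' u' * σ'' u')` for all `σ', σ''`: if `σ' = σ''` this is a square of a fixed element (`sqT_sq`, `fix_emb`). Otherwise choose a third
embedding `σ` (the number of embeddings is `≥ 3`): by (1) and `sqT_div`: `~ (σ' u' / σ'' u')`, times `(σ'' u')^2`.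
(3) Fix `σ''`. The product over all `σ'` of (2) is `~` : `∏ σ' u' * (σ'' u')^N`, and `∏ σ' u' = N(u')` (`norm_prod`) `= q^2` (`nm_sq`), a square of a fixed
element. So `~ ((σ'' u')^N)`, `N` odd, and `sqT_pow` gives `~ (σ'' u')`. (Products over `Finset.univ`: induction with `sqT_mul`.)
(4) `u_of`: `sc u' = 0` or `sc u' = res (sc Δ)`; in the second case `0 = nm (sc u') = nm (res (sc Δ)) = sc Δ` (`nm_res hodd`), so
`sc u' = res 0 = 0`. The same for `u` (by (1), symmetric in the two factors).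
(5) `~ ρ`: divide `h` by `~ (σ₁ u)`, `~ (σ₂ u')`; `rho_of`.
-/

set_option autoImplicit false
set_option linter.unusedSectionVars false
open scoped Classical

open WithZero NumberField IsDedekindDomain H38RT
open H38T1 (SC sc rep eo la si Pri OddP LD XX XX' NS ov rp SqMod)

namespace H88T7

variable {K L : Type} [Field K] [NumberField K] [Field L] [NumberField L]

/-- (2) -/
theorem Gf_pair (h3 : 3 ≤ Fintype.card (K →ₐ[ℚ] L)) {u u' : K} (hu : u ≠ 0) (hu' : u' ≠ 0)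
    {r : L} (hr : r ≠ 0)
    (h : ∀ σ σ' : K →ₐ[ℚ] L, σ ≠ σ' → SqT K L (σ u * σ' u' * r)) (τ τ' : K →ₐ[ℚ] L) :
    SqT K L (τ u' * τ' u') := by
  have hsq : SqT K L ((τ' u') ^ 2) :=
    sqT_sq ((map_ne_zero _).2 hu') (fun γ hγ => fix_emb hγ τ' u')
  by_cases hτ : τ = τ'
  · rw [hτ, ← pow_two]
    exact hsq
  · obtain ⟨σ, -, hσ⟩ := Finset.exists_mem_notMem_of_card_lt_card
      (s := ({τ, τ'} : Finset (K →ₐ[ℚ] L))) (t := Finset.univ) (by
        rw [Finset.card_univ]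
        exact lt_of_le_of_lt Finset.card_le_two h3)
    rw [Finset.mem_insert, Finset.mem_singleton, not_or] at hσ
    have h1 := sqT_mul (sqT_div (h σ τ hσ.1) (h σ τ' hσ.2)) hsq
    have hσu : σ u ≠ 0 := (map_ne_zero _).2 hu
    have hτu : τ' u' ≠ 0 := (map_ne_zero _).2 hu'
    have e : σ u * τ u' * r / (σ u * τ' u' * r) * (τ' u') ^ 2 = τ u' * τ' u' := by
      field_simp
    rwa [e] at h1

theorem Gf_rat {q : ℚ} (hq : q ≠ 0) : SqT K L (algebraMap ℚ L q ^ 2) :=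
  sqT_sq ((map_ne_zero _).2 hq) (fun γ _ => γ.commutes q)

theorem Gf_prod {ι : Type*} (s : Finset ι) {f : ι → L} (h : ∀ i ∈ s, SqT K L (f i)) :
    SqT K L (∏ i ∈ s, f i) := by
  induction s using Finset.induction_on with
  | empty =>
    rw [Finset.prod_empty]
    have h1 := Gf_rat (K := K) (L := L) (one_ne_zero (α := ℚ))
    rwa [map_one, one_pow] at h1
  | insert i s hi ih =>
    rw [Finset.prod_insert hi]
    exact sqT_mul (h i (Finset.mem_insert_self i s))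
      (ih fun j hj => h j (Finset.mem_insert_of_mem hj))

/-- (3) -/
theorem Gf_one (hodd : Odd (Module.finrank ℚ K)) (hL : BigL K L) {v : K} (hv : v ≠ 0)
    (hn : nm K (sc v) = 0) (h : ∀ τ τ' : K →ₐ[ℚ] L, SqT K L (τ v * τ' v)) (σ : K →ₐ[ℚ] L) :
    SqT K L (σ v) := by
  obtain ⟨m, hm⟩ := hodd
  obtain ⟨q, hq, hN⟩ := nm_sq hv hn
  have h1 := Gf_prod (K := K) (L := L) (Finset.univ : Finset (K →ₐ[ℚ] L))
    (f := fun τ => τ v * σ v) (fun τ _ => h τ σ)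
  rw [Finset.prod_mul_distrib, norm_prod hL, Finset.prod_const, Finset.card_univ, hL.card, hm, hN,
    map_pow] at h1
  have h2 := sqT_div h1 (Gf_rat (K := K) (L := L) hq)
  rw [mul_comm, mul_div_assoc, div_self (pow_ne_zero 2 ((map_ne_zero _).2 hq)), mul_one] at h2
  exact sqT_pow ((map_ne_zero _).2 hv) (fun γ hγ => fix_emb hγ σ v) h2

/-- (4) -/
theorem Gf_zero (hodd : Odd (Module.finrank ℚ K)) (hL : GenL K L) {Δ : ℤ} (hΔ : Δ ≠ 0) {δ : L}
    (hδ : IsDel K L Δ δ) {v : K} (hv : v ≠ 0) (hn : nm K (sc v) = 0) {σ : K →ₐ[ℚ] L}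
    (h : SqT K L (σ v)) : sc v = 0 := by
  rcases u_of hL hΔ hδ hv h with h1 | h1
  · exact h1
  · rw [h1, nm_res hodd] at hn
    rw [h1, hn, map_zero]

theorem rel3 (hodd : Odd (Module.finrank ℚ K)) (h3 : 3 ≤ Module.finrank ℚ K) (hL : GenL K L) {Δ : ℤ}
    (hΔ : Δ ≠ 0) {δ : L} (hδ : IsDel K L Δ δ) {u u' : K} (hu : u ≠ 0) (hu' : u' ≠ 0) {ρ : ℚ}
    (hρ : ρ ≠ 0) {σ₁ σ₂ : K →ₐ[ℚ] L} (hne : σ₁ ≠ σ₂) (hn : nm K (sc u) = 0)
    (hn' : nm K (sc u') = 0) (h : SqT K L (σ₁ u * σ₂ u' * algebraMap ℚ L ρ)) :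
    sc u = 0 ∧ sc u' = 0 ∧ (sc ρ = 0 ∨ sc ρ = sc (Δ : ℚ)) := by
  have hr : algebraMap ℚ L ρ ≠ 0 := (map_ne_zero _).2 hρ
  have hc : 3 ≤ Fintype.card (K →ₐ[ℚ] L) := by rw [hL.card]; exact h3
  have h1 : ∀ σ σ' : K →ₐ[ℚ] L, σ ≠ σ' → SqT K L (σ u * σ' u' * algebraMap ℚ L ρ) := by
    intro σ σ' hσ
    obtain ⟨g, hg1, hg2⟩ := hL.two σ₁ σ₂ σ σ' hne hσ
    have h2 := sqT_map (K := K) g h
    rw [map_mul, map_mul, ← actH_apply (K := K) g σ₁ u, ← actH_apply (K := K) g σ₂ u', hg1, hg2,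
      g.commutes] at h2
    exact h2
  have h1' : ∀ σ σ' : K →ₐ[ℚ] L, σ ≠ σ' → SqT K L (σ u' * σ' u * algebraMap ℚ L ρ) := by
    intro σ σ' hσ
    rw [mul_comm (σ u')]
    exact h1 σ' σ hσ.symm
  have hs : SqT K L (σ₁ u) := Gf_one hodd hL.toBigL hu hn (Gf_pair hc hu' hu hr h1') σ₁
  have hs' : SqT K L (σ₂ u') := Gf_one hodd hL.toBigL hu' hn' (Gf_pair hc hu hu' hr h1) σ₂
  refine ⟨Gf_zero hodd hL hΔ hδ hu hn hs, Gf_zero hodd hL hΔ hδ hu' hn' hs', ?_⟩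
  refine rho_of hL hΔ hδ hρ ?_
  have h2 := sqT_div h (sqT_mul hs hs')
  rw [mul_comm, mul_div_assoc, div_self (mul_ne_zero ((map_ne_zero _).2 hu)
    ((map_ne_zero _).2 hu')), mul_one] at h2
  exact h2

end H88T7
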