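import Pool.Agent.H88.T7.Ga
import Pool.Agent.H38.T1.Md

/-!
ROW Gj (project MP_78d38b_T7, about 180 lines): the places of `K` below a place of `L`.

PROOF. rp_pl: `(p : 𝓞 K) ∈ (pl σ w).asIdeal ↔ (p : 𝓞 L) ∈ w.asIdeal` (`mem_pl`, `map_natCast`) and `H38T1.mem_iff_eq`.
pl_surj: let `σ₀ : K →ₐ[ℚ] L` be any embedding (`hL.card` and `finrank > 0`). There is a place `w'` of `L` with `pl σ₀ w' = v`: `oh σ₀` makes
`𝓞 L` an integral extension of `𝓞 K` (`IsIntegral` over `ℤ`), so there is a prime of `𝓞 L` over `v.asIdeal`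
(`Ideal.exists_ideal_comap_eq_of..`/`Ideal.exists_ideal_over_prime_of_isIntegral` / `Ideal.nonempty_primesOver` with the algebra
given by `σ₀.toAlgebra`), not zero. `rp w' = rp w` (rp_pl), so by `H38T1.trans_above` (`H38/T1/Md.lean`, `L` is Galois: `hL.gal`) there is
`γ : L ≃ₐ[ℚ] L` with `γ • w' = w`, `x ∈ (γ • w').asIdeal ↔ γ⁻¹ x ∈ w'.asIdeal` (`H38T1.smul_def`, `mem_mv`). `σ = γ ∘ σ₀ = actH K L γ σ₀`:
`x ∈ pl σ w ↔ γ (σ₀ x) ∈ w ↔ σ₀ x ∈ w' ↔ x ∈ v`.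
fb_mem: `φ • x - x^p ∈ w`: if `x ∈ w` then `φ • x ∈ w`; conversely `x^p ∈ w` implies `x ∈ w` (prime).
pl_act: `x ∈ pl (φ σ) w ↔ φ (σ x) ∈ w ↔ σ x ∈ w`. fb_pow: induction: `φ^(m+1) • x = φ • (φ^m • x)`, `φ^m • x - x^(p^m) ∈ w`; apply `φ`
(`fb_mem`) : `φ • (φ^m • x) - φ • (x^(p^m)) ∈ w`, and `φ • y - y^p ∈ w` for `y = x^(p^m)`.
card_res: `Ideal.absNorm_eq_pow_inertiaDeg`-like statement (see `la_int` in `H38/T1/Ed.lean` where `Fintype.card F = q ^ f` is used; or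
`Pool/Agent/H93/T1/Cs.lean`).
inert_le: the residue field `F = 𝓞 K / v`, `v = pl σ w`, has `p^f` elements (card_res). For `x ∈ 𝓞 K`: `φ^m (σ x) = σ x` by `h`, so
`σ x - (σ x)^(p^m) ∈ w`, i.e. `x - x^(p^m) ∈ v`: every element of `F` is a root of `X^(p^m) - X`, so `p^f ≤ p^m`
(`Cs_card_le` in `H93/T1/Cs.lean` is this statement), `f ≤ m`.
-/

set_option autoImplicit false
set_option linter.unusedSectionVars false
open scoped Classical

open WithZero NumberField IsDedekindDomain H38RT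
open H38T1 (SC sc rep eo la si Pri OddP LD XX XX' NS ov rp SqMod)

namespace H88T7

variable {K L : Type} [Field K] [NumberField K] [Field L] [NumberField L]

theorem rp_pl (σ : K →ₐ[ℚ] L) (w : HeightOneSpectrum (𝓞 L)) : rp (pl σ w) = rp w := by
  refine (H38T1.mem_iff_eq (H38T1.rp_prime w)).1 ?_
  rw [mem_pl, map_natCast]
  exact H38T1.rp_mem w

theorem pl_surj (hL : BigL K L) (w : HeightOneSpectrum (𝓞 L)) {v : HeightOneSpectrum (𝓞 K)}
    (hv : rp v = rp w) : ∃ σ : K →ₐ[ℚ] L, v = pl σ w := by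
  have hpos : 0 < Fintype.card (K →ₐ[ℚ] L) := by
    rw [hL.card]
    exact Module.finrank_pos
  obtain ⟨σ₀⟩ := Fintype.card_pos_iff.1 hpos
  have hgal := hL.gal
  let _ : Algebra (𝓞 K) (𝓞 L) := (oh σ₀).toAlgebra
  have halg : algebraMap (𝓞 K) (𝓞 L) = oh σ₀ := rfl
  have hint : Algebra.IsIntegral (𝓞 K) (𝓞 L) := by
    constructor
    intro x
    have h1 : IsIntegral ℤ x := Algebra.IsIntegral.isIntegral x
    exact h1.tower_top
  have hvp := v.isPrime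
  obtain ⟨Q, -, hQ, hQv⟩ := Ideal.exists_ideal_over_prime_of_isIntegral (R := 𝓞 K) (S := 𝓞 L)
    v.asIdeal ⊥ (by
      intro x hx
      rw [Ideal.mem_comap, Ideal.mem_bot, halg] at hx
      have h2 : x = 0 := oh_inj σ₀ (by rw [hx, map_zero])
      rw [h2]
      exact v.asIdeal.zero_mem)
  have hQb : Q ≠ ⊥ := by
    intro h
    apply v.ne_bot
    rw [← hQv, h, eq_bot_iff]
    intro x hx
    rw [Ideal.mem_comap, Ideal.mem_bot, halg] at hx
    rw [Ideal.mem_bot]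
    exact oh_inj σ₀ (by rw [hx, map_zero])
  obtain ⟨w', hw'⟩ : ∃ w' : HeightOneSpectrum (𝓞 L), w'.asIdeal = Q := ⟨⟨Q, hQ, hQb⟩, rfl⟩
  have hvw : v = pl σ₀ w' := by
    apply HeightOneSpectrum.ext
    change v.asIdeal = w'.asIdeal.comap (oh σ₀)
    rw [hw', ← hQv, halg]
  have hrp : rp w' = rp w := by
    rw [← rp_pl σ₀ w', ← hvw, hv]
  obtain ⟨γ, hγ⟩ := H38T1.trans_above (H38T1.rp_prime w)
    ((H38T1.mem_iff_eq (H38T1.rp_prime w)).2 hrp) (H38T1.rp_mem w)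
  refine ⟨actH K L γ σ₀, ?_⟩
  apply HeightOneSpectrum.ext
  ext x
  rw [hvw, mem_pl, mem_pl, ← hγ, H38T1.smul_def, H38T1.mem_mv]
  have h3 : H38T1.gO γ⁻¹ (oh (actH K L γ σ₀) x) = oh σ₀ x := by
    apply RingOfIntegers.ext
    rw [H38T1.gO_coe, oh_coe, oh_coe, actH_apply]
    exact γ.symm_apply_apply _
  rw [h3]

theorem fb_mem {φ : L ≃ₐ[ℚ] L} {w : HeightOneSpectrum (𝓞 L)} (hφ : IsFb φ w) {x : 𝓞 L} :
    φ • x ∈ w.asIdeal ↔ x ∈ w.asIdeal := by
  have hw := w.isPrime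
  have h1 := hφ x
  constructor
  · intro h
    have h2 := w.asIdeal.sub_mem h h1
    rw [sub_sub_cancel] at h2
    exact hw.mem_of_pow_mem _ h2
  · intro h
    have h2 := Ideal.pow_mem_of_mem _ h (rp w) (H38T1.rp_prime w).pos
    have h3 := w.asIdeal.add_mem h1 h2
    rwa [sub_add_cancel] at h3

theorem pl_act {φ : L ≃ₐ[ℚ] L} {w : HeightOneSpectrum (𝓞 L)} (hφ : IsFb φ w) (σ : K →ₐ[ℚ] L) :
    pl (actH K L φ σ) w = pl σ w := by
  apply HeightOneSpectrum.ext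
  ext x
  rw [mem_pl, mem_pl]
  have h1 : oh (actH K L φ σ) x = φ • (oh σ x) := by
    apply RingOfIntegers.ext
    rfl
  rw [h1]
  exact fb_mem hφ

theorem fb_pow {φ : L ≃ₐ[ℚ] L} {w : HeightOneSpectrum (𝓞 L)} (hφ : IsFb φ w) (m : ℕ) (x : 𝓞 L) :
    (φ ^ m) • x - x ^ (rp w ^ m) ∈ w.asIdeal := by
  induction m with
  | zero =>
    rw [pow_zero, pow_zero, one_smul, pow_one, sub_self]
    exact w.asIdeal.zero_mem
  | succ m ih =>
    have h1 : (φ ^ (m + 1)) • x = φ • ((φ ^ m) • x) := by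
      rw [pow_succ', mul_smul]
    have h2 : x ^ (rp w ^ (m + 1)) = (x ^ (rp w ^ m)) ^ rp w := by
      rw [pow_succ, pow_mul]
    rw [h1, h2]
    have h3 : φ • ((φ ^ m) • x - x ^ (rp w ^ m)) ∈ w.asIdeal := (fb_mem hφ).2 ih
    rw [smul_sub] at h3
    have h4 := hφ (x ^ (rp w ^ m))
    have h5 := w.asIdeal.add_mem h3 h4
    rwa [sub_add_sub_cancel] at h5

theorem card_res (v : HeightOneSpectrum (𝓞 K)) :
    Ideal.absNorm v.asIdeal = rp v ^ (v.asIdeal.inertiaDeg ℤ) := by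
  have hl := H38T1.Ed_lies v
  have hh := Ideal.absNorm_pow_inertiaDeg (Ideal.span {((rp v : ℕ) : ℤ)}) v.asIdeal
  rw [← hh]
  simp

private theorem Gj_card_le {F : Type} [Field F] [Finite F] {p : ℕ} (hp : 1 < p)
    (h : ∀ y : F, y ^ p - y = 0) : Nat.card F ≤ p := by
  have := Fintype.ofFinite F
  rw [Nat.card_eq_fintype_card]
  obtain ⟨q, hq⟩ : ∃ q : Polynomial F, q = Polynomial.X ^ p - Polynomial.X := ⟨_, rfl⟩
  have hd : q.natDegree = p := by
    rw [hq]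
    exact FiniteField.X_pow_card_sub_X_natDegree_eq F hp
  have hq0 : q ≠ 0 := by
    intro h0
    rw [h0, Polynomial.natDegree_zero] at hd
    omega
  calc Fintype.card F = (Finset.univ : Finset F).card := rfl
    _ ≤ q.roots.toFinset.card := Finset.card_le_card fun y _ => by
        rw [Multiset.mem_toFinset, Polynomial.mem_roots hq0, Polynomial.IsRoot.def, hq,
          Polynomial.eval_sub, Polynomial.eval_pow, Polynomial.eval_X]
        exact h y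
    _ ≤ q.roots.card := Multiset.toFinset_card_le _
    _ ≤ q.natDegree := Polynomial.card_roots' q
    _ = p := hd

theorem inert_le {φ : L ≃ₐ[ℚ] L} {w : HeightOneSpectrum (𝓞 L)} (hφ : IsFb φ w) {σ : K →ₐ[ℚ] L}
    {m : ℕ} (hm : 0 < m) (h : ((actH K L φ) ^ m) σ = σ) : (pl σ w).asIdeal.inertiaDeg ℤ ≤ m := by
  obtain ⟨v, hv⟩ : ∃ v, v = pl σ w := ⟨_, rfl⟩
  rw [← hv]
  have hrp : rp v = rp w := by
    rw [hv]
    exact rp_pl σ w
  have hmax : v.asIdeal.IsMaximal := v.isMaximal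
  have hfin : Finite (𝓞 K ⧸ v.asIdeal) := Ideal.finiteQuotientOfFreeOfNeBot _ v.ne_bot
  let _ : Field (𝓞 K ⧸ v.asIdeal) := Ideal.Quotient.field _
  have hp1 : 1 < rp w := (H38T1.rp_prime w).one_lt
  have h1 : Nat.card (𝓞 K ⧸ v.asIdeal) ≤ rp w ^ m := by
    apply Gj_card_le (Nat.one_lt_pow hm.ne' hp1)
    intro y
    obtain ⟨x, rfl⟩ := Ideal.Quotient.mk_surjective y
    rw [← map_pow, ← map_sub, Ideal.Quotient.eq_zero_iff_mem, hv, mem_pl, map_sub, map_pow]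
    have h2 := fb_pow hφ m (oh σ x)
    have h3 : (φ ^ m) • (oh σ x) = oh σ x := by
      apply RingOfIntegers.ext
      rw [← map_pow] at h
      have h4 := congrArg (fun τ : K →ₐ[ℚ] L => τ (x : K)) h
      exact h4
    rw [h3] at h2
    have h5 := w.asIdeal.neg_mem h2
    rwa [neg_sub] at h5
  rw [← Submodule.cardQuot_apply, ← Ideal.absNorm_apply, card_res, hrp] at h1
  exact (Nat.pow_le_pow_iff_right hp1).1 h1

end H88T7
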