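import Pool.Agent.H88.T7.Ma
import Pool.Agent.H88.T7.Ai

/-!
ROW Mc (project MP_78d38b_T7, about 110 lines): phase 0 of the algorithm.

PROOF. First choose with `hA.c2` (`R = {sc β, sc D}` over `ℚ`, `Ψ` from `sepP'0`: `Ψ Dc = 0`, `Ψ β = 1`, `Ψ D = 0`) a new prime `p₀ > N₀`
(`exists_new` for the empty state; `St K B a β ∅ ∅` is trivial) and `Pp' = {p₀}` (`st_insP'`).
Then show by strong induction on the cardinality of the finite set `NS (ov K Pp')` (`H38T1.fin_ov`; finiteness of `NS S`: it is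
contained in the set of classes of even order everywhere: `H24TD.fin_US` with `S = ∅`, or in `XX` of `Ah.lean`: `NS S ⊆ XX (L7 K a β ∅ ∅)`
need not hold, use `fin_US`) that for every state `(∅, Pp')` there is a state `(∅, Qp')` with `Pp' ⊆ Qp'` and
`NS (ov K Qp') ⊆ {0}`. If `NS (ov K Pp')` contains `c ≠ 0`: `nm K c = 0` (`nm_NS`). Choose an additive `Φ₁ : SC K →+ ZMod 2` with `Φ₁ c = 1`
(`SC K` is a vector space over `ZMod 2`: `exists_dual_ne_zero`/`Submodule.exists_le_ker_of_notMem`), `Φ₂ = 0`, and `Ψ` as above.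
`hA.c1 {c} .. {sc β, sc D} Φ₁ 0 Ψ` and `exists_new` give a new prime `p` with `la v₁ c = 1`, `v₁ ∈ ov K {p}`, `la v (res β) = 1`,
`la v (res D) = 0` for `v ∈ ov K {p}`. Add `p` to `Pp'` (`st_insP'`): `NS (ov K (insert p Pp'))` is contained in `NS (ov K Pp')` (`NS_mono`) and does
not contain `c`: smaller cardinality (`Set.ncard_lt_ncard`).
-/

set_option autoImplicit false
set_option linter.unusedSectionVars false
open scoped Classical

open WithZero NumberField IsDedekindDomain H38RT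
open H38T1 (SC sc rep eo la si Pri OddP LD XX XX' NS ov rp SqMod)

namespace H88T7

variable {K : Type} [Field K] [NumberField K] {B : Finset ℕ} {Dc : SC ℚ} {a β : ℤ}

theorem Mc_fin (S : Set (HeightOneSpectrum (𝓞 K))) : (NS S : Set (SC K)).Finite := by
  refine (H24TD.fin_US (K := K) (S := ∅) Set.finite_empty).subset ?_
  intro c hc v _
  exact hc.1 v

theorem Mc_step (hD : Dat K B Dc a β) (hA : Adm7 K Dc) {Pp' : Finset ℕ}
    (hS : St K B a β ∅ Pp') {c : SC K} (hc : c ∈ NS (ov K (Pp' : Set ℕ))) (hc0 : c ≠ 0) :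
    ∃ p : ℕ, St K B a β ∅ (insert p Pp') ∧
      NS (ov K ((insert p Pp' : Finset ℕ) : Set ℕ)) ⊂ (NS (ov K (Pp' : Set ℕ)) : Set (SC K)) := by
  obtain ⟨Ψ, hΨ1, hΨ2, hΨ3⟩ := sepP'0 hD
  obtain ⟨Φ₁, hΦ⟩ : ∃ Φ₁ : SC K →+ ZMod 2, Φ₁ c = 1 := by
    have h1 : ¬ ∀ φ : Module.Dual (ZMod 2) (SC K), φ c = 0 := by
      rw [Module.forall_dual_apply_eq_zero_iff]
      exact hc0
    push Not at h1
    obtain ⟨φ, hφ⟩ := h1
    refine ⟨φ.toAddMonoidHom, ?_⟩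
    change φ c = 1
    have h2 : ∀ x : ZMod 2, x ≠ 0 → x = 1 := by decide
    exact h2 _ hφ
  have hinf := hA.c1 {c} (by
    intro z hz
    rw [Finset.mem_singleton] at hz
    rw [hz]
    exact nm_NS hc) {sc (β : ℚ), sc ((a ^ 2 - 64 * β : ℤ) : ℚ)} Φ₁ 0 Ψ hΨ1
  obtain ⟨p, ⟨_, v₁, v₂, v₃, _, _, _, hov, hz, hr⟩, hnew, _⟩ :=
    exists_new hS hD hinf (fun p hp => hp.1) 0
  have hv₁ : v₁ ∈ ov K {p} := by
    rw [hov]
    exact Set.mem_insert _ _
  refine ⟨p, st_insP' hD hS hnew ?_ ?_, ?_⟩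
  · intro v hv
    rw [hr _ (Finset.mem_insert_self _ _) v hv, hΨ2]
  · intro v hv
    rw [hr _ (Finset.mem_insert_of_mem (Finset.mem_singleton_self _)) v hv, hΨ3]
  · refine (Set.ssubset_iff_of_subset (NS_mono ?_)).2 ⟨c, hc, ?_⟩
    · rintro v ⟨q, hq, hqv⟩
      exact ⟨q, Finset.mem_coe.2 (Finset.mem_insert_of_mem (Finset.mem_coe.1 hq)), hqv⟩
    · intro hcon
      have h3 : v₁ ∈ ov K ((insert p Pp' : Finset ℕ) : Set ℕ) := by
        obtain ⟨q, hq, hqv⟩ := hv₁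
        rw [Set.mem_singleton_iff] at hq
        rw [hq] at hqv
        exact ⟨p, Finset.mem_coe.2 (Finset.mem_insert_self _ _), hqv⟩
      have h4 := hcon.2.1 v₁ h3
      have h5 := (hz c (Finset.mem_singleton_self _)).1
      rw [h4, hΦ] at h5
      exact absurd h5 (by decide)

theorem Mc_ind (hD : Dat K B Dc a β) (hA : Adm7 K Dc) (n : ℕ) : ∀ Pp' : Finset ℕ,
    St K B a β ∅ Pp' → (NS (ov K (Pp' : Set ℕ)) : Set (SC K)).ncard ≤ n →
    ∃ Qp' : Finset ℕ, Pp' ⊆ Qp' ∧ St K B a β ∅ Qp' ∧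
      NS (ov K (Qp' : Set ℕ)) ⊆ {(0 : SC K)} := by
  induction n with
  | zero =>
    intro Pp' hS hn
    refine ⟨Pp', Finset.Subset.refl _, hS, ?_⟩
    have h1 := (Set.ncard_eq_zero (Mc_fin _)).1 (Nat.le_zero.1 hn)
    rw [h1]
    exact Set.empty_subset _
  | succ n ih =>
    intro Pp' hS hn
    by_cases h : NS (ov K (Pp' : Set ℕ)) ⊆ {(0 : SC K)}
    · exact ⟨Pp', Finset.Subset.refl _, hS, h⟩
    rw [Set.not_subset] at h
    obtain ⟨c, hc, hc0⟩ := h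
    obtain ⟨p, hp1, hp2⟩ := Mc_step hD hA hS hc (fun h => hc0 (Set.mem_singleton_iff.2 h))
    obtain ⟨Qp', hQ1, hQ2, hQ3⟩ := ih (insert p Pp') hp1 (by
      have := Set.ncard_lt_ncard hp2 (Mc_fin _)
      omega)
    exact ⟨Qp', (Finset.subset_insert _ _).trans hQ1, hQ2, hQ3⟩

theorem phase0 (hD : Dat K B Dc a β) (hA : Adm7 K Dc) (N₀ : ℕ) : ∃ Pp' : Finset ℕ,
    St K B a β ∅ Pp' ∧ (∃ p ∈ Pp', N₀ < p) ∧ NS (ov K (Pp' : Set ℕ)) ⊆ {(0 : SC K)} := by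
  obtain ⟨Ψ, hΨ1, hΨ2, hΨ3⟩ := sepP'0 hD
  have h0 : St K B a β ∅ ∅ := by
    constructor <;> simp
  obtain ⟨p, ⟨_, v, hov, hr⟩, hnew, hpN⟩ := exists_new h0 hD
    (hA.c2 {sc (β : ℚ), sc ((a ^ 2 - 64 * β : ℤ) : ℚ)} Ψ hΨ1) (fun p hp => hp.1) N₀
  have h1 : St K B a β ∅ (insert p ∅) := by
    refine st_insP' hD h0 hnew ?_ ?_
    · intro v' hv'
      rw [hov, Set.mem_singleton_iff] at hv'
      rw [hv', hr _ (Finset.mem_insert_self _ _), hΨ2]
    · intro v' hv'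
      rw [hov, Set.mem_singleton_iff] at hv'
      rw [hv', hr _ (Finset.mem_insert_of_mem (Finset.mem_singleton_self _)), hΨ3]
  obtain ⟨Qp', hQ1, hQ2, hQ3⟩ := Mc_ind hD hA _ (insert p ∅) h1 le_rfl
  exact ⟨Qp', hQ2, ⟨p, hQ1 (Finset.mem_insert_self _ _), hpN⟩, hQ3⟩

end H88T7
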